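import Pool.Agent.Lib.MP_767f1c_pr.Prob
import Pool.Agent.Lib.MP_767f1c_pr.U.Defs

section

/-!
# MP_767f1c_pr: the label space on the circle, and factors of iid
-/

set_option autoImplicit false

namespace Pool.Agent.FIIDBO

open Set MeasureTheory

section circle

/-- representative in `[0,1)` -/
noncomputable def rep (s : UnitAddCircle) : ℝ := (AddCircle.equivIco 1 0 s : ℝ)

theorem rep_coe (x : ℝ) : rep ((x : ℝ) : UnitAddCircle) = Int.fract x := by
  unfold rep
  rw [AddCircle.coe_equivIco_mk_apply]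
  simp

theorem rep_meas : Measurable rep :=
  measurable_subtype_coe.comp (AddCircle.measurableEquivIco 1 0).measurable

theorem fract_step {M : ℕ} (hM : 0 < M) (x : ℝ) :
    (M : ℝ) * Int.fract (x + 1 / M) = M * Int.fract x + 1 ∧ (M : ℝ) * Int.fract x + 1 < M ∨
    (M : ℝ) * Int.fract (x + 1 / M) = M * Int.fract x + 1 - M ∧
      (M : ℝ) ≤ M * Int.fract x + 1 := by
  have hM' : (0 : ℝ) < M := by exact_mod_cast hM
  have h0 := Int.fract_nonneg x
  have h1 := Int.fract_lt_one x
  have hinv : (M : ℝ) * (1 / M) = 1 := by field_simp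
  rcases lt_or_ge (Int.fract x + 1 / M) 1 with h | h
  · left
    have e : Int.fract (x + 1 / M) = Int.fract x + 1 / M := by
      rw [Int.fract_eq_iff]
      refine ⟨by positivity, h, ⌊x⌋, ?_⟩
      have := Int.self_sub_floor x
      linarith
    rw [e, mul_add, hinv]
    refine ⟨rfl, ?_⟩
    have := mul_lt_mul_of_pos_left h hM'
    rw [mul_add, hinv, mul_one] at this
    exact this
  · right
    have hle : (1 : ℝ) / M ≤ 1 := by
      rw [div_le_one hM']
      exact_mod_cast hM
    have e : Int.fract (x + 1 / M) = Int.fract x + 1 / M - 1 := by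
      rw [Int.fract_eq_iff]
      refine ⟨by linarith, by linarith, ⌊x⌋ + 1, ?_⟩
      have := Int.self_sub_floor x
      push_cast
      linarith
    rw [e, mul_sub, mul_add, hinv, mul_one]
    refine ⟨rfl, ?_⟩
    have := mul_le_mul_of_nonneg_left h hM'.le
    rw [mul_add, hinv, mul_one] at this
    exact this

/-- the label space -/
noncomputable def cLbl (M : ℕ) (hM : 0 < M) : Lbl M UnitAddCircle where
  ν := volume
  prob := ⟨by rw [AddCircle.measure_univ]; simp⟩
  T := fun s => s + ((1 / (M : ℝ) : ℝ) : UnitAddCircle)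
  z0 := fun s => Int.fract (M * rep s)
  t0 := fun s => (⌊(M : ℝ) * rep s⌋).toNat
  T_mp := measurePreserving_add_right _ _
  z0_meas := measurable_fract.comp (measurable_const.mul rep_meas)
  t0_meas := (measurable_of_countable Int.toNat).comp
    (Int.measurable_floor.comp (measurable_const.mul rep_meas))
  t0_lt := by
    intro s
    induction s using QuotientAddGroup.induction_on with
    | H x =>
      have hM' : (0 : ℝ) < M := by exact_mod_cast hM
      have h : ⌊(M : ℝ) * rep ((x : ℝ) : UnitAddCircle)⌋ < M := by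
        rw [rep_coe, Int.floor_lt]
        have := mul_lt_mul_of_pos_left (Int.fract_lt_one x) hM'
        rw [mul_one] at this
        exact_mod_cast this
      exact (Int.toNat_lt' hM).mpr h
  z0_T := by
    intro s
    induction s using QuotientAddGroup.induction_on with
    | H x =>
      show Int.fract ((M : ℝ) * rep (((x + 1 / M : ℝ) : ℝ) : UnitAddCircle)) =
        Int.fract ((M : ℝ) * rep ((x : ℝ) : UnitAddCircle))
      rw [rep_coe, rep_coe]
      rcases fract_step hM x with ⟨h, -⟩ | ⟨h, -⟩
      · rw [h, Int.fract_add_one]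
      · rw [h]
        have : (M : ℝ) * Int.fract x + 1 - M = M * Int.fract x + ((1 - M : ℤ) : ℝ) := by
          push_cast
          ring
        rw [this, Int.fract_add_intCast]
  t0_T := by
    intro s
    induction s using QuotientAddGroup.induction_on with
    | H x =>
      show (⌊(M : ℝ) * rep (((x + 1 / M : ℝ) : ℝ) : UnitAddCircle)⌋).toNat =
        ((⌊(M : ℝ) * rep ((x : ℝ) : UnitAddCircle)⌋).toNat + 1) % M
      rw [rep_coe, rep_coe]
      have hM' : (0 : ℝ) < M := by exact_mod_cast hM
      have h0 : (0 : ℝ) ≤ M * Int.fract x := mul_nonneg hM'.le (Int.fract_nonneg x)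
      have hf : (0 : ℤ) ≤ ⌊(M : ℝ) * Int.fract x⌋ := Int.floor_nonneg.mpr h0
      have hlt : (M : ℝ) * Int.fract x < M := by
        have := mul_lt_mul_of_pos_left (Int.fract_lt_one x) hM'
        rwa [mul_one] at this
      have hflt : ⌊(M : ℝ) * Int.fract x⌋ < M := by
        rw [Int.floor_lt]
        exact_mod_cast hlt
      rcases fract_step hM x with ⟨h, h2⟩ | ⟨h, h2⟩
      · rw [h, Int.floor_add_one]
        have h3 : ⌊(M : ℝ) * Int.fract x⌋ + 1 < M := by
          rw [← Int.floor_add_one, Int.floor_lt]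
          exact_mod_cast h2
        rw [Nat.mod_eq_of_lt (by omega)]
        omega
      · rw [h]
        have h4 : (M : ℝ) * Int.fract x + 1 - M = M * Int.fract x + ((1 - M : ℤ) : ℝ) := by
          push_cast
          ring
        rw [h4, Int.floor_add_intCast]
        have h3 : (M : ℤ) - 1 ≤ ⌊(M : ℝ) * Int.fract x⌋ := by
          rw [Int.le_floor]
          push_cast
          linarith
        have h5 : ⌊(M : ℝ) * Int.fract x⌋ = M - 1 := by omega
        rw [h5]
        have h6 : ((M : ℤ) - 1).toNat + 1 = M := by omega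
        rw [h6, Nat.mod_self]
        simp
  atom := by
    intro c
    have hB : MeasurableSet {s : UnitAddCircle | Int.fract (M * rep s) = c} :=
      (measurable_fract.comp (measurable_const.mul rep_meas)) (measurableSet_singleton c)
    rw [← (AddCircle.measurePreserving_mk (1 : ℝ) 0).measure_preimage hB.nullMeasurableSet]
    apply le_antisymm _ bot_le
    refine (Measure.restrict_apply_le _ _).trans ?_
    have hM' : (0 : ℝ) < M := by exact_mod_cast hM
    have hsub : (QuotientAddGroup.mk ⁻¹' {s : UnitAddCircle | Int.fract (M * rep s) = c} : Set ℝ) ⊆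
        Set.range (fun p : ℤ × ℤ => ((p.1 : ℝ) + c) / M + p.2) := by
      intro x hx
      have hx' : Int.fract ((M : ℝ) * rep ((x : ℝ) : UnitAddCircle)) = c := hx
      rw [rep_coe] at hx'
      refine ⟨(⌊(M : ℝ) * Int.fract x⌋, ⌊x⌋), ?_⟩
      simp only
      have h1 := Int.self_sub_floor ((M : ℝ) * Int.fract x)
      have h2 := Int.self_sub_floor x
      have h3 : (⌊(M : ℝ) * Int.fract x⌋ : ℝ) + c = M * Int.fract x := by
        rw [← hx']; linarith
      rw [h3, mul_div_cancel_left₀ _ hM'.ne']
      linarith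
    exact (((Set.countable_range _).mono hsub).measure_zero volume).le

/-- the map from the unit interval to the circle -/
noncomputable def toC (x : unitInterval) : UnitAddCircle := ((x : ℝ) : UnitAddCircle)

theorem toC_mp : MeasurePreserving toC volume volume := by
  have h1 := unitInterval.measurePreserving_coe
  have h2 := AddCircle.measurePreserving_mk (1 : ℝ) 0
  rw [zero_add, restrict_Ioc_eq_restrict_Icc] at h2
  exact h2.comp h1

end circle

end Pool.Agent.FIIDBO
end

section

/-!
# MP_767f1c_pr: labels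
-/

set_option autoImplicit false

namespace Pool.Agent.FIIDU

open MeasureTheory Set Filter
open scoped ENNReal


variable {V : Type}

theorem act_mp {G : SimpleGraph V} (φ : G ≃g G) :
    MeasurePreserving (act φ) (PP V) (PP V) := by
  have hmeas : Measurable (act φ : Om V → Om V) :=
    measurable_pi_lambda _ fun p => measurable_pi_apply (φ p.1, p.2)
  refine ⟨hmeas, ?_⟩
  set e : V × ℕ ≃ V × ℕ := Equiv.prodCongr φ.toEquiv (Equiv.refl ℕ) with he
  have h1 := Measure.infinitePi_map_piCongrLeft (X := fun _ : V × ℕ => Bool)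
    (fun _ : V × ℕ => coin) e.symm
  have h2 : (MeasurableEquiv.piCongrLeft (fun _ : V × ℕ => Bool) e.symm : Om V → Om V)
      = act φ := by
    funext ω p
    obtain ⟨q, rfl⟩ := e.symm.surjective p
    rw [MeasurableEquiv.coe_piCongrLeft, Equiv.piCongrLeft_apply_apply]
    unfold act
    congr 1
    obtain ⟨r, rfl⟩ := e.surjective q
    rw [Equiv.symm_apply_apply]
    rfl
  rw [h2] at h1
  exact h1

private theorem coin_singleton (b : Bool) : coin {b} = 2⁻¹ := by
  unfold coin
  rw [Measure.smul_apply, Measure.add_apply, Measure.dirac_apply' _ (measurableSet_singleton b),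
    Measure.dirac_apply' _ (measurableSet_singleton b)]
  cases b <;> simp

private theorem agree_le [Countable V] (v w : V) (hvw : v ≠ w) (n : ℕ) :
    PP V {ω | ∀ i, ω (v, i) = ω (w, i)} ≤ (2⁻¹ : ℝ≥0∞) ^ n := by
  classical
  set s : Finset (V × ℕ) := ({v, w} : Finset V) ×ˢ Finset.range n with hs
  have hcard : s.card = 2 * n := by
    rw [hs, Finset.card_product, Finset.card_pair hvw, Finset.card_range]
  have hsub : {ω : Om V | ∀ i, ω (v, i) = ω (w, i)} ⊆
      ⋃ b ∈ (Finset.univ : Finset (Fin n → Bool)),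
        Set.pi (s : Set (V × ℕ)) (fun p => {if h : p.2 < n then b ⟨p.2, h⟩ else true}) := by
    intro ω hω
    rw [mem_iUnion₂]
    refine ⟨fun i => ω (v, i), Finset.mem_univ _, ?_⟩
    intro p hp
    rw [hs, Finset.mem_coe, Finset.mem_product, Finset.mem_range, Finset.mem_insert,
      Finset.mem_singleton] at hp
    simp only [hp.2, dif_pos, mem_singleton_iff]
    obtain ⟨p1, p2⟩ := p
    rcases hp.1 with h | h
    · simp only at h
      rw [h]
    · simp only at h
      rw [h]
      exact (hω p2).symm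
  have hpi : ∀ b : Fin n → Bool, PP V (Set.pi (s : Set (V × ℕ))
      (fun p => {if h : p.2 < n then b ⟨p.2, h⟩ else true})) = (2⁻¹ : ℝ≥0∞) ^ (2 * n) := by
    intro b
    unfold PP
    rw [Measure.infinitePi_pi _ (fun p _ => measurableSet_singleton _)]
    rw [Finset.prod_congr rfl fun p _ => coin_singleton _, Finset.prod_const, hcard]
  calc PP V {ω | ∀ i, ω (v, i) = ω (w, i)}
      ≤ PP V (⋃ b ∈ (Finset.univ : Finset (Fin n → Bool)),
        Set.pi (s : Set (V × ℕ)) (fun p => {if h : p.2 < n then b ⟨p.2, h⟩ else true})) :=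
        measure_mono hsub
    _ ≤ ∑ b : Fin n → Bool, PP V (Set.pi (s : Set (V × ℕ))
        (fun p => {if h : p.2 < n then b ⟨p.2, h⟩ else true})) :=
        measure_biUnion_finset_le _ _
    _ = 2 ^ n * (2⁻¹ : ℝ≥0∞) ^ (2 * n) := by
        rw [Finset.sum_congr rfl fun b _ => hpi b, Finset.sum_const, Finset.card_univ,
          Fintype.card_fun, Fintype.card_bool, Fintype.card_fin, nsmul_eq_mul]
        push_cast
        rfl
    _ = (2⁻¹ : ℝ≥0∞) ^ n := by
        rw [two_mul, pow_add, ← mul_assoc, ← mul_pow,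
          ENNReal.mul_inv_cancel two_ne_zero (by norm_num), one_pow, one_mul]

theorem ae_good [Countable V] : ∀ᵐ ω ∂PP V, Good ω := by
  have h1 : ∀ v w : V, v ≠ w → PP V {ω | ∀ i, ω (v, i) = ω (w, i)} = 0 := by
    intro v w hvw
    refine le_antisymm ?_ zero_le
    have h2 : Tendsto (fun n : ℕ => (2⁻¹ : ℝ≥0∞) ^ n) atTop (nhds 0) :=
      ENNReal.tendsto_pow_atTop_nhds_zero_of_lt_one (by
        rw [ENNReal.inv_lt_one]
        exact ENNReal.one_lt_two)
    exact ge_of_tendsto' h2 fun n => agree_le v w hvw n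
  have h3 : ∀ᵐ ω ∂PP V, ∀ v w : V, v ≠ w → ¬ ∀ i, ω (v, i) = ω (w, i) := by
    rw [ae_all_iff]
    intro v
    rw [ae_all_iff]
    intro w
    by_cases hvw : v = w
    · exact Filter.Eventually.of_forall fun ω h => (h hvw).elim
    · have h4 : ∀ᵐ ω ∂PP V, ¬ ∀ i, ω (v, i) = ω (w, i) := by
        rw [ae_iff]
        simp only [not_not]
        exact h1 v w hvw
      exact h4.mono fun ω h _ => h
  refine h3.mono fun ω h => ?_
  intro v w hvw
  by_contra hne
  exact h v w hne fun i => congrFun hvw i

/-- the probability that a vertex is in a factor does not depend on the vertex -/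
theorem Fac1.prob_eq {G : SimpleGraph V} {d : ℕ} (h : Std G d) {P : Om V → V → Prop}
    (hP : Fac1 G P) (x y : V) : PP V {ω | P ω x} = PP V {ω | P ω y} := by
  obtain ⟨φ, hφ⟩ := h.trans x y
  have h1 : {ω : Om V | P ω y} = act φ ⁻¹' {ω | P ω x} := by
    ext ω
    rw [mem_preimage, mem_ofPred_eq, mem_ofPred_eq, hP.equi, hφ]
  rw [h1]
  exact ((act_mp φ).measure_preimage
    (measurableSet_setOfPred.2 (hP.meas x)).nullMeasurableSet).symm

end Pool.Agent.FIIDU
end

section

/-!
# MP_767f1c_pr: closure properties of factors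
-/

set_option autoImplicit false

namespace Pool.Agent.FIIDU

open MeasureTheory Set Filter
open scoped ENNReal


variable {V : Type}

/-- reachability in `n` steps -/
def BasicB_reach (R : V → V → Prop) : ℕ → V → V → Prop
  | 0, x, y => x = y
  | n + 1, x, y => ∃ z, BasicB_reach R n x z ∧ R z y

theorem BasicB_reach_iff (R : V → V → Prop) (x y : V) :
    Relation.ReflTransGen R x y ↔ ∃ n, BasicB_reach R n x y := by
  constructor
  · intro h
    induction h with
    | refl => exact ⟨0, rfl⟩
    | tail _ h2 ih =>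
      obtain ⟨n, hn⟩ := ih
      exact ⟨n + 1, _, hn, h2⟩
  · rintro ⟨n, hn⟩
    induction n generalizing y with
    | zero =>
      have : x = y := hn
      rw [this]
    | succ n ih =>
      obtain ⟨z, hz, hzy⟩ := hn
      exact (ih z hz).tail hzy

theorem Fac2.meas_reach [Countable V] {G : SimpleGraph V} {R : Om V → V → V → Prop}
    (hR : Fac2 G R) : Fac2 G (fun ω x y => Relation.ReflTransGen (R ω) x y) := by
  constructor
  · intro x y
    simp only [BasicB_reach_iff]
    refine Measurable.exists fun n => ?_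
    induction n generalizing y with
    | zero => exact measurable_const
    | succ n ih =>
      exact Measurable.exists fun z => (ih z).and (hR.meas z y)
  · intro φ ω x y
    constructor
    · intro h
      induction h with
      | refl => exact Relation.ReflTransGen.refl
      | tail _ h2 ih => exact ih.tail ((hR.equi φ ω _ _).1 h2)
    · intro h
      have key : ∀ a b : V, Relation.ReflTransGen (R ω) a b →
          Relation.ReflTransGen (R (act φ ω)) (φ.symm a) (φ.symm b) := by
        intro a b hab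
        induction hab with
        | refl => exact Relation.ReflTransGen.refl
        | tail _ h2 ih =>
          refine ih.tail ?_
          rw [hR.equi φ ω, RelIso.apply_symm_apply, RelIso.apply_symm_apply]
          exact h2
      have h1 := key _ _ h
      rwa [RelIso.symm_apply_apply, RelIso.symm_apply_apply] at h1

theorem BasicB_dg_succ (R : V → V → Prop) (x : V) (k : ℕ) :
    dg R x = k + 1 ↔ ∃ F : Finset V, F.card = k + 1 ∧ ∀ y, R x y ↔ y ∈ F := by
  constructor
  · intro h
    have hfin : {y | R x y}.Finite := by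
      by_contra hinf
      have h0 : dg R x = 0 := Set.Infinite.ncard hinf
      omega
    refine ⟨hfin.toFinset, ?_, fun y => ?_⟩
    · rw [← h]
      exact (Set.ncard_eq_toFinset_card _ hfin).symm
    · rw [Set.Finite.mem_toFinset]
      rfl
  · rintro ⟨F, hF, h⟩
    have e : {y | R x y} = (F : Set V) := by
      ext y
      exact h y
    show {y | R x y}.ncard = k + 1
    rw [e, Set.ncard_coe_finset, hF]

theorem BasicB_dg_zero (R : V → V → Prop) (x : V) :
    dg R x = 0 ↔ ∀ k : ℕ, ¬ dg R x = k + 1 := by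
  constructor
  · intro h k hk
    omega
  · intro h
    by_contra h0
    obtain ⟨k, hk⟩ := Nat.exists_eq_succ_of_ne_zero h0
    exact h k hk

theorem BasicB_dg_equi {G : SimpleGraph V} {R : Om V → V → V → Prop} (hR : Fac2 G R)
    (φ : G ≃g G) (ω : Om V) (x : V) : dg (R (act φ ω)) x = dg (R ω) (φ x) := by
  have e : {y | R ω (φ x) y} = φ '' {y | R (act φ ω) x y} := by
    ext y
    constructor
    · intro hy
      refine ⟨φ.symm y, ?_, RelIso.apply_symm_apply φ y⟩
      show R (act φ ω) x (φ.symm y)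
      rw [hR.equi φ ω, RelIso.apply_symm_apply]
      exact hy
    · rintro ⟨z, hz, rfl⟩
      exact (hR.equi φ ω x z).1 hz
  show {y | R (act φ ω) x y}.ncard = {y | R ω (φ x) y}.ncard
  rw [e, Set.ncard_image_of_injective _ φ.injective]

/-- the set of out-neighbours is finite with a prescribed number of elements: this is a factor -/
theorem Fac2.dg_eq [Countable V] {G : SimpleGraph V} {R : Om V → V → V → Prop}
    (hR : Fac2 G R) (k : ℕ) : Fac1 G (fun ω x => dg (R ω) x = k) := by
  have hsucc : ∀ (k : ℕ) (x : V), Measurable (fun ω => dg (R ω) x = k + 1) := by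
    intro k x
    simp only [BasicB_dg_succ]
    refine Measurable.exists fun F => Measurable.and measurable_const ?_
    refine Measurable.forall fun y => ?_
    exact (hR.meas x y).iff measurable_const
  constructor
  · intro x
    cases k with
    | zero =>
      simp only [BasicB_dg_zero]
      exact Measurable.forall fun k => (hsucc k x).not
    | succ k => exact hsucc k x
  · intro φ ω x
    rw [BasicB_dg_equi hR]

theorem Fac2.dgi_eq [Countable V] {G : SimpleGraph V} {R : Om V → V → V → Prop}
    (hR : Fac2 G R) (k : ℕ) : Fac1 G (fun ω x => dgi (R ω) x = k) := by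
  have h : Fac2 G (fun ω x y => R ω y x) :=
    ⟨fun x y => hR.meas y x, fun φ ω x y => hR.equi φ ω y x⟩
  exact h.dg_eq k

end Pool.Agent.FIIDU
end

section

end

section

/-!
# MP_767f1c_pr: limits of factor orientations
-/

set_option autoImplicit false

namespace Pool.Agent.FIIDU

open MeasureTheory Set Filter
open scoped ENNReal

variable {V : Type}

/-- the relations `O` and `O'` differ at `x` -/
def Chg (O O' : V → V → Prop) (x : V) : Prop := ∃ y, ¬ (O x y ↔ O' x y) ∨ ¬ (O y x ↔ O' y x)

section closure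

variable {G : SimpleGraph V}

private theorem fac_adj : Fac2 G (fun _ => G.Adj) :=
  ⟨fun _ _ => measurable_const, fun φ _ _ _ => (φ.map_adj_iff).symm⟩

private theorem fac_swap {P : Om V → V → V → Prop} (hP : Fac2 G P) :
    Fac2 G (fun ω x y => P ω y x) :=
  ⟨fun x y => hP.meas y x, fun φ ω x y => hP.equi φ ω y x⟩

private theorem fac_imp {P Q : Om V → V → V → Prop} (hP : Fac2 G P) (hQ : Fac2 G Q) :
    Fac2 G (fun ω x y => P ω x y → Q ω x y) :=
  ⟨fun x y => (hP.meas x y).imp (hQ.meas x y),
    fun φ ω x y => imp_congr (hP.equi φ ω x y) (hQ.equi φ ω x y)⟩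

private theorem fac_not {P : Om V → V → V → Prop} (hP : Fac2 G P) :
    Fac2 G (fun ω x y => ¬ P ω x y) :=
  ⟨fun x y => (hP.meas x y).not, fun φ ω x y => not_congr (hP.equi φ ω x y)⟩

private theorem fac_and {P Q : Om V → V → V → Prop} (hP : Fac2 G P) (hQ : Fac2 G Q) :
    Fac2 G (fun ω x y => P ω x y ∧ Q ω x y) :=
  ⟨fun x y => (hP.meas x y).and (hQ.meas x y),
    fun φ ω x y => and_congr (hP.equi φ ω x y) (hQ.equi φ ω x y)⟩

private theorem fac_or {P Q : Om V → V → V → Prop} (hP : Fac2 G P) (hQ : Fac2 G Q) :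
    Fac2 G (fun ω x y => P ω x y ∨ Q ω x y) :=
  ⟨fun x y => (hP.meas x y).or (hQ.meas x y),
    fun φ ω x y => or_congr (hP.equi φ ω x y) (hQ.equi φ ω x y)⟩

private theorem fac_iff {P Q : Om V → V → V → Prop} (hP : Fac2 G P) (hQ : Fac2 G Q) :
    Fac2 G (fun ω x y => P ω x y ↔ Q ω x y) := by
  have h := fac_and (fac_imp hP hQ) (fac_imp hQ hP)
  have e : (fun ω x y => P ω x y ↔ Q ω x y) =
      fun ω x y => (P ω x y → Q ω x y) ∧ (Q ω x y → P ω x y) := by
    funext ω x y
    exact propext iff_iff_implies_and_implies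
  rw [e]
  exact h

private theorem fac_all [Countable V] {P : Om V → V → V → Prop} (hP : Fac2 G P) :
    Fac1 G (fun ω x => ∀ y, P ω x y) :=
  ⟨fun x => Measurable.forall fun y => hP.meas x y,
    fun φ ω x => φ.toEquiv.forall_congr fun y => hP.equi φ ω x y⟩

private theorem fac_ex [Countable V] {P : Om V → V → V → Prop} (hP : Fac2 G P) :
    Fac1 G (fun ω x => ∃ y, P ω x y) :=
  ⟨fun x => Measurable.exists fun y => hP.meas x y,
    fun φ ω x => φ.toEquiv.exists_congr fun y => hP.equi φ ω x y⟩

private theorem fac1_and {P Q : Om V → V → Prop} (hP : Fac1 G P) (hQ : Fac1 G Q) :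
    Fac1 G (fun ω x => P ω x ∧ Q ω x) :=
  ⟨fun x => (hP.meas x).and (hQ.meas x),
    fun φ ω x => and_congr (hP.equi φ ω x) (hQ.equi φ ω x)⟩

private theorem fac1_not {P : Om V → V → Prop} (hP : Fac1 G P) :
    Fac1 G (fun ω x => ¬ P ω x) :=
  ⟨fun x => (hP.meas x).not, fun φ ω x => not_congr (hP.equi φ ω x)⟩

private theorem fac_bal [Countable V] {O : Om V → V → V → Prop} (hO : Fac2 G O) :
    Fac1 G (fun ω x => BalAt G.Adj (O ω) x) := by
  have h1 : Fac1 G (fun ω x => ∃ k, dg (O ω) x = k ∧ dgi (O ω) x = k) :=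
    ⟨fun x => Measurable.exists fun k => ((hO.dg_eq k).meas x).and ((hO.dgi_eq k).meas x),
      fun φ ω x => exists_congr fun k =>
        and_congr ((hO.dg_eq k).equi φ ω x) ((hO.dgi_eq k).equi φ ω x)⟩
  have h2 := fac1_and (fac_all (fac_imp hO fac_adj))
    (fac1_and (fac_all (fac_imp (fac_swap hO) (fac_swap fac_adj)))
      (fac1_and (fac_all (fac_imp fac_adj (fac_iff hO (fac_not (fac_swap hO))))) h1))
  have e : (fun ω x => BalAt G.Adj (O ω) x) = fun ω x => (∀ y, O ω x y → G.Adj x y) ∧
      (∀ y, O ω y x → G.Adj y x) ∧ (∀ y, G.Adj x y → (O ω x y ↔ ¬ O ω y x)) ∧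
      ∃ k, dg (O ω) x = k ∧ dgi (O ω) x = k := by
    funext ω x
    apply propext
    constructor
    · rintro ⟨a, b, c, e⟩
      exact ⟨a, b, c, _, rfl, e.symm⟩
    · rintro ⟨a, b, c, k, e1, e2⟩
      exact ⟨a, b, c, e1.trans e2.symm⟩
  rw [e]
  exact h2

end closure

private theorem bal_congr {R O O' : V → V → Prop} {x : V} (h1 : ∀ y, O x y ↔ O' x y)
    (h2 : ∀ y, O y x ↔ O' y x) (h : BalAt R O x) : BalAt R O' x := by
  refine ⟨fun y hy => h.out y ((h1 y).2 hy), fun y hy => h.inn y ((h2 y).2 hy),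
    fun y hy => ?_, ?_⟩
  · rw [← h1, ← h2]
    exact h.one y hy
  · have e1 : dg O' x = dg O x := by
      unfold dg
      congr 1
      ext y
      exact (h1 y).symm
    have e2 : dgi O' x = dgi O x := by
      unfold dgi
      congr 1
      ext y
      exact (h2 y).symm
    rw [e1, e2]
    exact h.bal

/-- A sequence of factors which changes at a vertex with summable probabilities and which is
balanced at a vertex with probability close to `1` gives a balanced orientation. -/
theorem limit_bal [Countable V] {G : SimpleGraph V} {d : ℕ} (h : Std G d)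
    (O : ℕ → Om V → V → V → Prop) (hO : ∀ n, Fac2 G (O n)) (o : V)
    (hsum : ∑' n, PP V {ω | Chg (O n ω) (O (n + 1) ω) o} ≠ ∞)
    (hlim : ∀ ε : ℝ≥0∞, 0 < ε → ∃ᶠ n in atTop, PP V {ω | ¬ BalAt G.Adj (O n ω) o} ≤ ε) :
    HasBO G := by
  let O' : Om V → V → V → Prop := fun ω x y => ∃ N : ℕ, ∀ n, N ≤ n → O n ω x y
  have hO' : Fac2 G O' := by
    refine ⟨fun x y => ?_, fun φ ω x y => ?_⟩
    · exact Measurable.exists fun N => Measurable.forall fun n =>
        measurable_const.imp ((hO n).meas x y)
    · exact exists_congr fun N => forall_congr' fun n => imp_congr_right fun _ =>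
        (hO n).equi φ ω x y
  refine ⟨O', hO', ?_⟩
  -- eventually constant
  have hconst : ∀ (ω : Om V) (x : V) (n : ℕ),
      (∀ m, n ≤ m → ¬ Chg (O m ω) (O (m + 1) ω) x) →
      (∀ y, O n ω x y ↔ O' ω x y) ∧ (∀ y, O n ω y x ↔ O' ω y x) := by
    intro ω x n hn
    have hstep : ∀ m, n ≤ m → ∀ y, (O m ω x y ↔ O n ω x y) ∧ (O m ω y x ↔ O n ω y x) := by
      intro m hm
      induction m, hm using Nat.le_induction with
      | base => exact fun y => ⟨Iff.rfl, Iff.rfl⟩
      | succ m hm ih =>
        intro y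
        have h1 := hn m hm
        have h2 : (O m ω x y ↔ O (m + 1) ω x y) ∧ (O m ω y x ↔ O (m + 1) ω y x) := by
          by_contra hcon
          refine h1 ⟨y, ?_⟩
          tauto
        exact ⟨h2.1.symm.trans (ih y).1, h2.2.symm.trans (ih y).2⟩
    constructor
    · intro y
      constructor
      · intro hy
        exact ⟨n, fun m hm => ((hstep m hm y).1).2 hy⟩
      · rintro ⟨N, hN⟩
        exact ((hstep (max n N) (le_max_left _ _) y).1).1 (hN _ (le_max_right _ _))
    · intro y
      constructor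
      · intro hy
        exact ⟨n, fun m hm => ((hstep m hm y).2).2 hy⟩
      · rintro ⟨N, hN⟩
        exact ((hstep (max n N) (le_max_left _ _) y).2).1 (hN _ (le_max_right _ _))
  have hzero : PP V {ω | ¬ BalAt G.Adj (O' ω) o} = 0 := by
    refine le_antisymm (ENNReal.le_of_forall_pos_le_add fun ε hε _ => ?_) bot_le
    rw [zero_add]
    have hε2 : (0 : ℝ≥0∞) < (ε : ℝ≥0∞) / 2 :=
      ENNReal.half_pos (by exact_mod_cast hε.ne')
    have htail := ENNReal.tendsto_sum_nat_add
      (fun n => PP V {ω | Chg (O n ω) (O (n + 1) ω) o}) hsum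
    obtain ⟨n, hn1, hn2⟩ := ((hlim _ hε2).and_eventually
      (htail.eventually (ge_mem_nhds hε2))).exists
    have hsub : {ω | ¬ BalAt G.Adj (O' ω) o} ⊆ {ω | ¬ BalAt G.Adj (O n ω) o} ∪
        ⋃ k : ℕ, {ω | Chg (O (k + n) ω) (O (k + n + 1) ω) o} := by
      intro ω hω
      by_contra hcon
      simp only [mem_union, mem_iUnion, mem_ofPred_eq, not_or, not_not, not_exists] at hcon
      obtain ⟨h1, h2⟩ := hcon
      have h3 := hconst ω o n (fun m hm => by
        have := h2 (m - n)
        rwa [Nat.sub_add_cancel hm] at this)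
      exact hω (bal_congr h3.1 h3.2 h1)
    calc PP V {ω | ¬ BalAt G.Adj (O' ω) o}
        ≤ PP V ({ω | ¬ BalAt G.Adj (O n ω) o} ∪
          ⋃ k : ℕ, {ω | Chg (O (k + n) ω) (O (k + n + 1) ω) o}) := measure_mono hsub
      _ ≤ PP V {ω | ¬ BalAt G.Adj (O n ω) o} +
          PP V (⋃ k : ℕ, {ω | Chg (O (k + n) ω) (O (k + n + 1) ω) o}) := measure_union_le _ _
      _ ≤ (ε : ℝ≥0∞) / 2 + (ε : ℝ≥0∞) / 2 := by
          refine add_le_add hn1 ((measure_iUnion_le _).trans ?_)
          exact hn2
      _ = ε := ENNReal.add_halves _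
  have hall : ∀ x, PP V {ω | ¬ BalAt G.Adj (O' ω) x} = 0 := by
    intro x
    rw [Fac1.prob_eq h (fac1_not (fac_bal hO')) x o]
    exact hzero
  rw [ae_all_iff]
  intro x
  exact hall x

end Pool.Agent.FIIDU
end

section

/-!
# MP_767f1c_pr: the mass transport principle, deterministic version
-/

set_option autoImplicit false

namespace Pool.Agent.FIIDU

open MeasureTheory Set Filter
open scoped ENNReal


variable {V : Type}

theorem orb_finite {G : SimpleGraph V} {d : ℕ} (h : Std G d) (x y : V) :
    (FIIDBO.orb G x y).Finite := by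
  obtain ⟨w⟩ := h.conn.preconnected y x
  induction w with
  | @nil u =>
    refine (Set.finite_singleton u).subset ?_
    rintro z ⟨φ, h1, h2⟩
    rw [← h2, h1]
    exact Set.mem_singleton _
  | @cons u v w hadj p ih =>
    refine (ih.biUnion (t := fun z => {z' | G.Adj z z'}) fun z _ => h.fin z).subset ?_
    rintro z ⟨φ, h1, rfl⟩
    refine Set.mem_biUnion (x := φ v) ⟨φ, h1, rfl⟩ ?_
    exact φ.map_adj_iff.2 hadj.symm

/-- **Mass transport principle**, deterministic version. -/
theorem mtp {G : SimpleGraph V} {d : ℕ} (h : Std G d) (f : V → V → ℝ≥0∞)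
    (hf : ∀ (φ : G ≃g G) (x y : V), f (φ x) (φ y) = f x y) (o : V) :
    ∑' y, f o y = ∑' y, f y o := by
  classical
  let c : V → Set (V × V) := fun y => FIIDBO.cls G (o, y)
  let c' : V → Set (V × V) := fun w => FIIDBO.cls G (w, o)
  have hsymm : ∀ p q : V × V, FIIDBO.cls G q = FIIDBO.cls G p ↔ q ∈ FIIDBO.cls G p :=
    fun p q => ⟨fun h1 => h1 ▸ FIIDBO.mem_cls_self q, FIIDBO.cls_eq⟩
  have hc : ∀ y, {z | c z = c y} = FIIDBO.orb G o y := by
    intro y
    rw [← FIIDBO.sec_cls]
    ext z
    exact hsymm _ _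
  have hc' : ∀ y, {w | c' w = c y} = {w | (w, o) ∈ FIIDBO.cls G (o, y)} := by
    intro y
    ext w
    exact hsymm _ _
  have hcard : ∀ y, {w | c' w = c y}.ncard = {z | c z = c y}.ncard := by
    intro y
    rw [hc, hc', FIIDBO.sec_cls' h.trans, h.uni]
  have hfin : ∀ y, {z | c z = c y}.Finite := by
    intro y
    rw [hc]
    exact orb_finite h o y
  have hfin' : ∀ y, {w | c' w = c y}.Finite := by
    intro y
    refine Set.finite_of_ncard_ne_zero ?_
    rw [hcard]
    exact ((Set.ncard_pos (hfin y)).2 ⟨y, rfl⟩).ne'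
  have he : ∀ κ : Set (V × V), Nonempty ({z // c z = κ} ≃ {w // c' w = κ}) := by
    intro κ
    by_cases hκ : ∃ y, c y = κ
    · obtain ⟨y, rfl⟩ := hκ
      have i1 : Finite {z // c z = c y} := hfin y
      have i2 : Finite {w // c' w = c y} := hfin' y
      exact (Finite.card_eq (α := {z // c z = c y}) (β := {w // c' w = c y})).1 (hcard y).symm
    · have h1 : IsEmpty {z // c z = κ} := ⟨fun z => hκ ⟨z.1, z.2⟩⟩
      have h2 : IsEmpty {w // c' w = κ} := by
        refine ⟨fun w => hκ ?_⟩
        obtain ⟨w, hw⟩ := w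
        obtain ⟨φ, hφ⟩ := h.trans w o
        refine ⟨φ o, ?_⟩
        rw [← hw]
        exact (hsymm _ _).2 ⟨φ, hφ, rfl⟩
      exact ⟨Equiv.equivOfIsEmpty _ _⟩
  let e : ∀ κ : Set (V × V), {z // c z = κ} ≃ {w // c' w = κ} := fun κ => Classical.choice (he κ)
  let E : V ≃ V := (Equiv.sigmaFiberEquiv c).symm.trans
    ((Equiv.sigmaCongrRight e).trans (Equiv.sigmaFiberEquiv c'))
  have hE : ∀ y, c' (E y) = c y := fun y => (e (c y) ⟨y, rfl⟩).2
  rw [← Equiv.tsum_eq E (fun y => f y o)]
  refine tsum_congr fun y => ?_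
  obtain ⟨φ, h1, h2⟩ := (hsymm _ _).1 (hE y)
  change φ o = E y at h1
  change φ y = o at h2
  calc f o y = f (φ o) (φ y) := (hf φ o y).symm
    _ = f (E y) o := by rw [h1, h2]

end Pool.Agent.FIIDU
end

section

/-!
# MP_767f1c_pr: the mass transport principle
-/

set_option autoImplicit false

namespace Pool.Agent.FIIDU

open MeasureTheory Set Filter
open scoped ENNReal


variable {V : Type}

/-- **Mass transport principle**, for factors. -/
theorem mtpP [Countable V] {G : SimpleGraph V} {d : ℕ} (h : Std G d) (F : Om V → V → V → ℝ≥0∞)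
    (hm : ∀ x y, Measurable (fun ω => F ω x y))
    (he : ∀ (φ : G ≃g G) (ω : Om V) (x y : V), F (act φ ω) x y = F ω (φ x) (φ y)) (o : V) :
    ∫⁻ ω, ∑' y, F ω o y ∂PP V = ∫⁻ ω, ∑' y, F ω y o ∂PP V := by
  rw [lintegral_tsum (fun y => (hm o y).aemeasurable),
    lintegral_tsum (fun y => (hm y o).aemeasurable)]
  refine mtp h (fun x y => ∫⁻ ω, F ω x y ∂PP V) (fun φ x y => ?_) o
  rw [← (act_mp φ).lintegral_comp (hm x y)]
  exact lintegral_congr fun ω => (he φ ω x y).symm

private theorem Mtp_encard (S : Set V) : (S.encard : ℝ≥0∞) = ∑' y, S.indicator (fun _ => 1) y := by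
  rw [← ENNReal.tsum_set_one, tsum_subtype S (fun _ => (1 : ℝ≥0∞))]

private theorem Mtp_ind_meas {G : SimpleGraph V} {R : Om V → V → V → Prop} (hR : Fac2 G R)
    (x y : V) : Measurable (fun ω => {y | R ω x y}.indicator (fun _ => (1 : ℝ≥0∞)) y) := by
  classical
  have h1 : (fun ω => {y | R ω x y}.indicator (fun _ => (1 : ℝ≥0∞)) y) =
      {ω | R ω x y}.indicator (fun _ => (1 : ℝ≥0∞)) := by
    funext ω
    by_cases hc : R ω x y
    · rw [Set.indicator_of_mem (show y ∈ {y | R ω x y} from hc),
        Set.indicator_of_mem (show ω ∈ {ω | R ω x y} from hc)]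
    · rw [Set.indicator_of_notMem (show y ∉ {y | R ω x y} from hc),
        Set.indicator_of_notMem (show ω ∉ {ω | R ω x y} from hc)]
  rw [h1]
  exact measurable_const.indicator (hR.meas x y).setOf

/-- Mass transport for counting: the expected out-degree of a factor relation is the expected
in-degree. -/
theorem mtp_count [Countable V] {G : SimpleGraph V} {d : ℕ} (h : Std G d)
    {R : Om V → V → V → Prop} (hR : Fac2 G R) (o : V) :
    ∫⁻ ω, ({y | R ω o y}.encard : ℝ≥0∞) ∂PP V = ∫⁻ ω, ({y | R ω y o}.encard : ℝ≥0∞) ∂PP V := by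
  have key := mtpP h (fun ω x y => {y | R ω x y}.indicator (fun _ => (1 : ℝ≥0∞)) y)
    (fun x y => Mtp_ind_meas hR x y) (fun φ ω x y => ?_) o
  · have h1 : ∀ ω, ({y | R ω o y}.encard : ℝ≥0∞) =
        ∑' y, {y | R ω o y}.indicator (fun _ => (1 : ℝ≥0∞)) y := fun ω => Mtp_encard _
    have h2 : ∀ ω, ({y | R ω y o}.encard : ℝ≥0∞) =
        ∑' y, {z | R ω y z}.indicator (fun _ => (1 : ℝ≥0∞)) o := fun ω => by
      rw [Mtp_encard]
      refine tsum_congr fun y => ?_
      by_cases hc : R ω y o
      · rw [Set.indicator_of_mem (show y ∈ {y | R ω y o} from hc),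
          Set.indicator_of_mem (show o ∈ {z | R ω y z} from hc)]
      · rw [Set.indicator_of_notMem (show y ∉ {y | R ω y o} from hc),
          Set.indicator_of_notMem (show o ∉ {z | R ω y z} from hc)]
    rw [lintegral_congr h1, lintegral_congr h2]
    exact key
  · by_cases hc : R ω (φ x) (φ y)
    · change {y | R (act φ ω) x y}.indicator (fun _ => (1 : ℝ≥0∞)) y =
        {y | R ω (φ x) y}.indicator (fun _ => (1 : ℝ≥0∞)) (φ y)
      rw [Set.indicator_of_mem (show y ∈ {y | R (act φ ω) x y} from (hR.equi φ ω x y).2 hc),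
        Set.indicator_of_mem (show φ y ∈ {y | R ω (φ x) y} from hc)]
    · change {y | R (act φ ω) x y}.indicator (fun _ => (1 : ℝ≥0∞)) y =
        {y | R ω (φ x) y}.indicator (fun _ => (1 : ℝ≥0∞)) (φ y)
      rw [Set.indicator_of_notMem
          (show y ∉ {y | R (act φ ω) x y} from fun h' => hc ((hR.equi φ ω x y).1 h')),
        Set.indicator_of_notMem (show φ y ∉ {y | R ω (φ x) y} from hc)]

/-- The probability that some vertex is related to `o` is at most the expected number of
vertices to which `o` is related. -/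
theorem mtp_prob [Countable V] {G : SimpleGraph V} {d : ℕ} (h : Std G d)
    {R : Om V → V → V → Prop} (hR : Fac2 G R) (o : V) :
    PP V {ω | ∃ y, R ω y o} ≤ ∫⁻ ω, ({y | R ω o y}.encard : ℝ≥0∞) ∂PP V := by
  rw [mtp_count h hR o]
  have hms : MeasurableSet {ω | ∃ y, R ω y o} := by
    have : {ω | ∃ y, R ω y o} = ⋃ y, {ω | R ω y o} := by
      ext ω
      simp
    rw [this]
    exact MeasurableSet.iUnion fun y => (hR.meas y o).setOf
  rw [← lintegral_indicator_one hms]
  refine lintegral_mono fun ω => ?_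
  by_cases hc : ∃ y, R ω y o
  · rw [Set.indicator_of_mem (show ω ∈ {ω | ∃ y, R ω y o} from hc)]
    obtain ⟨y, hy⟩ := hc
    have h1 : (1 : ℕ∞) ≤ {y | R ω y o}.encard :=
      Set.one_le_encard_iff_nonempty.2 ⟨y, hy⟩
    calc (1 : Om V → ℝ≥0∞) ω = ((1 : ℕ∞) : ℝ≥0∞) := by simp
      _ ≤ ({y | R ω y o}.encard : ℝ≥0∞) := ENat.toENNReal_le.2 h1
  · rw [Set.indicator_of_notMem (show ω ∉ {ω | ∃ y, R ω y o} from hc)]
    exact zero_le

/-- expectations of factor functions do not depend on the vertex -/
theorem lint_eq [Countable V] {G : SimpleGraph V} {d : ℕ} (h : Std G d) (f : Om V → V → ℝ≥0∞)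
    (hm : ∀ x, Measurable (fun ω => f ω x))
    (he : ∀ (φ : G ≃g G) (ω : Om V) (x : V), f (act φ ω) x = f ω (φ x)) (x y : V) :
    ∫⁻ ω, f ω x ∂PP V = ∫⁻ ω, f ω y ∂PP V := by
  obtain ⟨φ, hφ⟩ := h.trans x y
  rw [← hφ, ← (act_mp φ).lintegral_comp (hm x)]
  exact lintegral_congr fun ω => he φ ω x

end Pool.Agent.FIIDU
end

section

/-!
# MP_767f1c_pr: names of finite objects, and the random linear order on finite objects
-/

set_option autoImplicit false

namespace Pool.Agent.FIIDU

open MeasureTheory Set Filter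
open scoped ENNReal


variable {V : Type}

/-- the first `n` bits of the label of a vertex -/
def pre (ω : Om V) (n : ℕ) (v : V) : List Bool := (List.range n).map (fun i => ω (v, i))

/-- the `n`-th approximation of the name of an object -/
def rho (ω : Om V) (l : Obj V) (n : ℕ) : ℕ :=
  Encodable.encode (l.map (fun p => (pre ω n p.1, pre ω n p.2)))

theorem rho_act {G : SimpleGraph V} (φ : G ≃g G) (ω : Om V) (l : Obj V) (n : ℕ) :
    rho (act φ ω) l n = rho ω (mapO φ l) n := by
  unfold rho mapO
  rw [List.map_map]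
  rfl

private theorem rhoA_dep {α : Type} [MeasurableSpace α] (f : Om V → α) (S : Set (V × ℕ))
    (hS : S.Finite) (h : ∀ ω ω' : Om V, (∀ p ∈ S, ω p = ω' p) → f ω = f ω') :
    Measurable f := by
  classical
  have : f = (fun w : S → Bool => f (fun p => if h : p ∈ S then w ⟨p, h⟩ else false)) ∘
      (fun (ω : Om V) (p : S) => ω p) := by
    funext ω
    apply h
    intro p hp
    simp [hp]
  rw [this]
  have : Finite S := hS
  apply Measurable.comp
  · exact measurable_of_finite _
  · exact measurable_pi_lambda _ (fun p => measurable_pi_apply _)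

private theorem rhoA_take (ω : Om V) {m n : ℕ} (hmn : m ≤ n) (v : V) :
    (pre ω n v).take m = pre ω m v := by
  unfold pre
  rw [← List.map_take, List.take_range, min_eq_left hmn]

private theorem rhoA_pre (ω ω' : Om V) (n : ℕ) (v : V) (h : ∀ i < n, ω (v, i) = ω' (v, i)) :
    pre ω n v = pre ω' n v := by
  unfold pre
  apply List.map_congr_left
  intro i hi
  exact h i (List.mem_range.1 hi)

theorem rho_meas [Countable V] (l : Obj V) (n : ℕ) :
    Measurable (fun ω : Om V => rho ω l n) := by
  classical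
  apply rhoA_dep (fun ω : Om V => rho ω l n)
    (((l.map Prod.fst ++ l.map Prod.snd).toFinset ×ˢ Finset.range n : Finset (V × ℕ)) :
      Set (V × ℕ)) (Finset.finite_toSet _)
  intro ω ω' h
  unfold rho
  congr 1
  apply List.map_congr_left
  intro p hp
  rw [rhoA_pre ω ω' n p.1, rhoA_pre ω ω' n p.2]
  · intro i hi
    apply h
    simp only [Finset.coe_product, Set.mem_prod, Finset.mem_coe, List.mem_toFinset,
      List.mem_append, List.mem_map, Finset.mem_range]
    exact ⟨Or.inr ⟨p, hp, rfl⟩, hi⟩
  · intro i hi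
    apply h
    simp only [Finset.coe_product, Set.mem_prod, Finset.mem_coe, List.mem_toFinset,
      List.mem_append, List.mem_map, Finset.mem_range]
    exact ⟨Or.inl ⟨p, hp, rfl⟩, hi⟩

/-- different approximations stay different -/
theorem rho_mono {ω : Om V} {l l' : Obj V} {m n : ℕ} (hmn : m ≤ n)
    (h : rho ω l m ≠ rho ω l' m) : rho ω l n ≠ rho ω l' n := by
  intro h1
  apply h
  unfold rho at h1 ⊢
  have h2 := Encodable.encode_injective h1
  congr 1
  have h3 := congrArg (List.map (Prod.map (List.take m) (List.take m))) h2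
  rw [List.map_map, List.map_map] at h3
  have e : (Prod.map (List.take m) (List.take m)) ∘
      (fun p : V × V => (pre ω n p.1, pre ω n p.2)) = fun p => (pre ω m p.1, pre ω m p.2) := by
    funext p
    simp only [Function.comp, Prod.map, rhoA_take ω hmn]
  rw [e] at h3
  exact h3

theorem rho_inj {ω : Om V} (hω : Good ω) {l l' : Obj V} (h : l ≠ l') :
    ∃ n, rho ω l n ≠ rho ω l' n := by
  by_contra hcon
  push Not at hcon
  apply h
  clear h
  have key : ∀ v w : V, (∀ n, pre ω n v = pre ω n w) → v = w := by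
    intro v w hvw
    apply hω
    funext i
    have h1 := hvw (i + 1)
    unfold pre at h1
    have h2 := List.map_inj_left.1 h1 i (List.mem_range.2 (Nat.lt_succ_self i))
    exact h2
  have h0 : ∀ n, l.map (fun p => (pre ω n p.1, pre ω n p.2)) =
      l'.map (fun p => (pre ω n p.1, pre ω n p.2)) := by
    intro n
    exact Encodable.encode_injective (hcon n)
  clear hcon
  induction l generalizing l' with
  | nil =>
    cases l' with
    | nil => rfl
    | cons q t =>
      have := h0 0
      simp at this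
  | cons p s ih =>
    cases l' with
    | nil =>
      have := h0 0
      simp at this
    | cons q t =>
      have h1 : ∀ n, (pre ω n p.1, pre ω n p.2) = (pre ω n q.1, pre ω n q.2) ∧
          s.map (fun p => (pre ω n p.1, pre ω n p.2)) =
            t.map (fun p => (pre ω n p.1, pre ω n p.2)) := by
        intro n
        have := h0 n
        rw [List.map_cons, List.map_cons, List.cons.injEq] at this
        exact this
      have h2 : p = q := by
        apply Prod.ext
        · exact key _ _ (fun n => congrArg Prod.fst (h1 n).1)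
        · exact key _ _ (fun n => congrArg Prod.snd (h1 n).1)
      rw [h2, ih (fun n => (h1 n).2)]

/-- the random order on objects -/
def ltr (ω : Om V) (l l' : Obj V) : Prop :=
  ∃ n, (∀ m < n, rho ω l m = rho ω l' m) ∧ rho ω l n < rho ω l' n

theorem ltr_irrefl (ω : Om V) (l : Obj V) : ¬ ltr ω l l := by
  rintro ⟨n, _, h⟩
  exact lt_irrefl _ h

theorem ltr_trans {ω : Om V} {l₁ l₂ l₃ : Obj V} (h1 : ltr ω l₁ l₂) (h2 : ltr ω l₂ l₃) :
    ltr ω l₁ l₃ := by
  obtain ⟨a, ha, ha'⟩ := h1
  obtain ⟨b, hb, hb'⟩ := h2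
  rcases lt_trichotomy a b with hab | hab | hab
  · refine ⟨a, fun m hm => (ha m hm).trans (hb m (hm.trans hab)), ?_⟩
    rw [← hb a hab]
    exact ha'
  · subst hab
    exact ⟨a, fun m hm => (ha m hm).trans (hb m hm), ha'.trans hb'⟩
  · refine ⟨b, fun m hm => (ha m (hm.trans hab)).trans (hb m hm), ?_⟩
    rw [ha b hab]
    exact hb'

theorem ltr_total {ω : Om V} (hω : Good ω) {l l' : Obj V} (h : l ≠ l') :
    ltr ω l l' ∨ ltr ω l' l := by
  classical
  have hex := rho_inj hω h
  have h1 := Nat.find_spec hex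
  have h2 : ∀ m < Nat.find hex, rho ω l m = rho ω l' m := by
    intro m hm
    exact not_not.1 (Nat.find_min hex hm)
  rcases lt_or_gt_of_ne h1 with h3 | h3
  · exact Or.inl ⟨Nat.find hex, h2, h3⟩
  · exact Or.inr ⟨Nat.find hex, fun m hm => (h2 m hm).symm, h3⟩

theorem ltr_act {G : SimpleGraph V} (φ : G ≃g G) (ω : Om V) (l l' : Obj V) :
    ltr (act φ ω) l l' ↔ ltr ω (mapO φ l) (mapO φ l') := by
  unfold ltr
  simp only [rho_act]

theorem ltr_meas [Countable V] (l l' : Obj V) : Measurable (fun ω : Om V => ltr ω l l') := by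
  unfold ltr
  apply Measurable.exists
  intro n
  apply Measurable.and
  · apply Measurable.forall
    intro m
    apply Measurable.imp
    · exact measurable_const
    · exact measurableSet_setOf.1 (measurableSet_eq_fun (rho_meas l m) (rho_meas l' m))
  · exact measurableSet_setOf.1 (measurableSet_lt (rho_meas l n) (rho_meas l' n))

end Pool.Agent.FIIDU
end

section

/-!
# MP_767f1c_pr: balls and bounded moves
-/

set_option autoImplicit false

namespace Pool.Agent.FIIDU

open MeasureTheory Set Filter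
open scoped ENNReal


variable {V : Type}

/-- bounded objects -/
def Mv (G : SimpleGraph V) (m R : ℕ) : Set (Obj V) :=
  {l | l.length ≤ m ∧ ∀ x ∈ vs l, ∀ y ∈ vs l, G.dist x y ≤ R}

/-- the objects are at distance at most one -/
def Near (G : SimpleGraph V) (l l' : Obj V) : Prop := ∃ x ∈ vs l, ∃ y ∈ vs l', G.dist x y ≤ 1

theorem ball_finite {G : SimpleGraph V} {d : ℕ} (h : Std G d) (x : V) (r : ℕ) :
    (ball G x r).Finite := by
  induction r with
  | zero =>
    refine (Set.finite_singleton x).subset ?_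
    intro y hy
    have h1 : G.dist x y = 0 := Nat.le_zero.1 hy
    rw [Set.mem_singleton_iff]
    exact ((h.conn.dist_eq_zero_iff).1 h1).symm
  | succ r ih =>
    have h1 : (ball G x r ∪ ⋃ z ∈ ball G x r, {y | G.Adj z y}).Finite :=
      ih.union (ih.biUnion fun z _ => h.fin z)
    refine h1.subset ?_
    intro y hy
    have hy' : G.dist x y ≤ r + 1 := hy
    rcases Nat.lt_or_ge (G.dist x y) (r + 1) with h2 | h2
    · exact Or.inl (Nat.lt_succ_iff.1 h2)
    · right
      have h3 : G.dist x y = r + 1 := le_antisymm hy' h2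
      obtain ⟨p, hp⟩ := h.conn.exists_walk_length_eq_dist y x
      have hp' : p.length = r + 1 := by rw [hp, G.dist_comm, h3]
      cases p with
      | nil =>
        rw [SimpleGraph.Walk.length_nil] at hp'
        omega
      | @cons _ z _ hyz q =>
        rw [SimpleGraph.Walk.length_cons] at hp'
        refine Set.mem_iUnion₂.2 ⟨z, ?_, hyz.symm⟩
        have h4 : G.dist z x ≤ q.length := SimpleGraph.dist_le q
        change G.dist x z ≤ r
        rw [G.dist_comm]
        omega

theorem BallF_aux1 {G : SimpleGraph V} (φ : G ≃g G) (x y : V) (h : G.Reachable x y) :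
    G.dist (φ x) (φ y) ≤ G.dist x y := by
  obtain ⟨p, hp⟩ := h.exists_walk_length_eq_dist
  rw [← hp, ← SimpleGraph.Walk.length_map φ.toHom p]
  exact SimpleGraph.dist_le (p.map φ.toHom)

theorem BallF_aux2 {G : SimpleGraph V} (φ : G ≃g G) (x y : V) :
    G.dist (φ x) (φ y) = G.dist x y := by
  by_cases h : G.Reachable x y
  · refine le_antisymm (BallF_aux1 φ x y h) ?_
    have h1 := BallF_aux1 φ.symm (φ x) (φ y) (SimpleGraph.Iso.reachable_iff.2 h)
    simpa using h1
  · have h1 : ¬ G.Reachable (φ x) (φ y) := fun h2 => h (SimpleGraph.Iso.reachable_iff.1 h2)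
    rw [SimpleGraph.dist_eq_zero_of_not_reachable h, SimpleGraph.dist_eq_zero_of_not_reachable h1]

theorem ball_card {G : SimpleGraph V} {d : ℕ} (h : Std G d) (x y : V) (r : ℕ) :
    (ball G x r).ncard = (ball G y r).ncard := by
  obtain ⟨φ, rfl⟩ := h.trans x y
  have h1 : ball G (φ x) r = φ '' ball G x r := by
    ext z
    constructor
    · intro hz
      refine ⟨φ.symm z, ?_, φ.apply_symm_apply z⟩
      have hz' : G.dist (φ x) z ≤ r := hz
      change G.dist x (φ.symm z) ≤ r
      rw [← BallF_aux2 φ, φ.apply_symm_apply]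
      exact hz'
    · rintro ⟨w, hw, rfl⟩
      change G.dist (φ x) (φ w) ≤ r
      rw [BallF_aux2]
      exact hw
  rw [h1, Set.ncard_image_of_injective _ φ.injective]

theorem dist_map {G : SimpleGraph V} (φ : G ≃g G) (x y : V) : G.dist (φ x) (φ y) = G.dist x y :=
  BallF_aux2 φ x y

theorem BallF_aux3 (l : Obj V) : (vs l).Finite := by
  have h1 : ((fun p : V × V => p.1) '' {p | p ∈ l} ∪ (fun p : V × V => p.2) '' {p | p ∈ l}).Finite :=
    ((List.finite_toSet l).image _).union ((List.finite_toSet l).image _)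
  refine h1.subset ?_
  rintro x ⟨p, hp, rfl | rfl⟩
  · exact Or.inl ⟨p, hp, rfl⟩
  · exact Or.inr ⟨p, hp, rfl⟩

theorem near_finite {G : SimpleGraph V} {d : ℕ} (h : Std G d) (m R : ℕ) (l : Obj V) :
    {l' | l' ∈ Mv G m R ∧ Near G l l'}.Finite := by
  set F : Set V := ⋃ x ∈ vs l, ball G x (R + 1) with hF
  have hFf : F.Finite := (BallF_aux3 l).biUnion fun x _ => ball_finite h x (R + 1)
  have hFF : (F ×ˢ F).Finite := hFf.prod hFf
  have : Finite (F ×ˢ F : Set (V × V)) := hFF.to_subtype
  have h1 : ((List.map ((↑) : (F ×ˢ F : Set (V × V)) → V × V)) ''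
      {l : List (F ×ˢ F : Set (V × V)) | l.length ≤ m}).Finite :=
    (List.finite_length_le _ m).image _
  refine h1.subset ?_
  rintro l' ⟨⟨hl1, hl2⟩, x, hx, y, hy, hxy⟩
  have h2 : ∀ z ∈ vs l', z ∈ F := by
    intro z hz
    refine Set.mem_iUnion₂.2 ⟨x, hx, ?_⟩
    have h3 : G.dist x z ≤ G.dist x y + G.dist y z := h.conn.dist_triangle
    have h4 := hl2 y hy z hz
    change G.dist x z ≤ R + 1
    omega
  have h3 : l' ∈ {l : Obj V | ∀ p ∈ l, p ∈ (F ×ˢ F : Set (V × V))} := by
    intro p hp
    exact ⟨h2 _ ⟨p, hp, Or.inl rfl⟩, h2 _ ⟨p, hp, Or.inr rfl⟩⟩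
  rw [← Set.range_list_map_coe] at h3
  obtain ⟨l'', rfl⟩ := h3
  refine ⟨l'', ?_, rfl⟩
  simpa using hl1

end Pool.Agent.FIIDU
end

section

/-!
# MP_767f1c_pr: factor colouring of bounded moves
-/

set_option autoImplicit false

namespace Pool.Agent.FIIDU

open MeasureTheory Set Filter
open scoped ENNReal


variable {V : Type}

/-- the number of approximation steps needed to separate `l` from all near moves -/
noncomputable def sepN (G : SimpleGraph V) (m R : ℕ) (ω : Om V) (l : Obj V) : ℕ :=
  sInf {n | ∀ l' ∈ Mv G m R, l' ≠ l → Near G l l' → rho ω l n ≠ rho ω l' n}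

/-- the colour of a move -/
noncomputable def col (G : SimpleGraph V) (m R : ℕ) (ω : Om V) (l : Obj V) : ℕ :=
  Nat.pair (sepN G m R ω l) (rho ω l (sepN G m R ω l))

theorem Color_symm_map {G : SimpleGraph V} (φ : G ≃g G) (l : Obj V) :
    mapO φ (mapO φ.symm l) = l := by
  unfold mapO
  rw [List.map_map]
  conv_rhs => rw [← List.map_id l]
  congr 1
  funext p
  exact Prod.ext (RelIso.apply_symm_apply φ p.1) (RelIso.apply_symm_apply φ p.2)

theorem Color_map_inj {G : SimpleGraph V} (φ : G ≃g G) {l l' : Obj V}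
    (h : mapO φ l = mapO φ l') : l = l' := by
  have h1 : mapO φ.symm (mapO φ l) = l := Color_symm_map φ.symm l
  have h2 : mapO φ.symm (mapO φ l') = l' := Color_symm_map φ.symm l'
  rw [← h1, ← h2, h]

theorem Color_vs {G : SimpleGraph V} (φ : G ≃g G) (l : Obj V) : vs (mapO φ l) = φ '' vs l := by
  ext x
  constructor
  · rintro ⟨p, hp, hx⟩
    obtain ⟨q, hq, rfl⟩ := List.mem_map.1 hp
    rcases hx with hx | hx
    · exact ⟨q.1, ⟨q, hq, Or.inl rfl⟩, hx.symm⟩
    · exact ⟨q.2, ⟨q, hq, Or.inr rfl⟩, hx.symm⟩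
  · rintro ⟨y, ⟨q, hq, hy⟩, rfl⟩
    refine ⟨Prod.map φ φ q, List.mem_map.2 ⟨q, hq, rfl⟩, ?_⟩
    rcases hy with hy | hy
    · exact Or.inl (congrArg φ hy)
    · exact Or.inr (congrArg φ hy)

theorem Color_Mv {G : SimpleGraph V} (φ : G ≃g G) (m R : ℕ) (l : Obj V) :
    mapO φ l ∈ Mv G m R ↔ l ∈ Mv G m R := by
  show ((mapO φ l).length ≤ m ∧ ∀ x ∈ vs (mapO φ l), ∀ y ∈ vs (mapO φ l), G.dist x y ≤ R) ↔
    (l.length ≤ m ∧ ∀ x ∈ vs l, ∀ y ∈ vs l, G.dist x y ≤ R)
  rw [Color_vs]
  have hlen : (mapO φ l).length = l.length := List.length_map _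
  rw [hlen]
  refine and_congr_right fun _ => ?_
  constructor
  · intro h x hx y hy
    have := h _ ⟨x, hx, rfl⟩ _ ⟨y, hy, rfl⟩
    rwa [dist_map] at this
  · rintro h _ ⟨x, hx, rfl⟩ _ ⟨y, hy, rfl⟩
    rw [dist_map]
    exact h x hx y hy

theorem Color_near {G : SimpleGraph V} (φ : G ≃g G) (l l' : Obj V) :
    Near G (mapO φ l) (mapO φ l') ↔ Near G l l' := by
  unfold Near
  rw [Color_vs, Color_vs]
  constructor
  · rintro ⟨_, ⟨x, hx, rfl⟩, _, ⟨y, hy, rfl⟩, h⟩
    rw [dist_map] at h
    exact ⟨x, hx, y, hy, h⟩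
  · rintro ⟨x, hx, y, hy, h⟩
    exact ⟨_, ⟨x, hx, rfl⟩, _, ⟨y, hy, rfl⟩, by rw [dist_map]; exact h⟩

theorem Color_sepN_act {G : SimpleGraph V} (m R : ℕ) (φ : G ≃g G) (ω : Om V) (l : Obj V) :
    sepN G m R (act φ ω) l = sepN G m R ω (mapO φ l) := by
  unfold sepN
  congr 1
  ext n
  constructor
  · intro h l' hl' hne hnear
    have h1 : l' = mapO φ (mapO φ.symm l') := (Color_symm_map φ l').symm
    rw [h1] at hl' hne hnear ⊢
    have h2 := h (mapO φ.symm l') ((Color_Mv φ m R _).1 hl') (fun e => hne (by rw [e]))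
      ((Color_near φ _ _).1 hnear)
    rwa [rho_act, rho_act] at h2
  · intro h l' hl' hne hnear
    have h2 := h (mapO φ l') ((Color_Mv φ m R _).2 hl') (fun e => hne (Color_map_inj φ e))
      ((Color_near φ _ _).2 hnear)
    rw [rho_act, rho_act]
    exact h2

theorem col_act {G : SimpleGraph V} (m R : ℕ) (φ : G ≃g G) (ω : Om V) (l : Obj V) :
    col G m R (act φ ω) l = col G m R ω (mapO φ l) := by
  unfold col
  rw [Color_sepN_act, rho_act]

theorem Color_sInf (S : Set ℕ) (n : ℕ) :
    sInf S = n ↔ (n ∈ S ∧ ∀ k < n, k ∉ S) ∨ (n = 0 ∧ ∀ k, k ∉ S) := by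
  constructor
  · rintro rfl
    rcases S.eq_empty_or_nonempty with h | h
    · right
      rw [h]
      exact ⟨Nat.sInf_empty, fun k hk => hk⟩
    · left
      exact ⟨Nat.sInf_mem h, fun k hk => Nat.notMem_of_lt_sInf hk⟩
  · rintro (⟨h1, h2⟩ | ⟨h1, h2⟩)
    · apply le_antisymm
      · exact Nat.sInf_le h1
      · by_contra hlt
        exact h2 _ (not_le.1 hlt) (Nat.sInf_mem ⟨n, h1⟩)
    · have : S = ∅ := Set.eq_empty_of_forall_notMem h2
      rw [this, Nat.sInf_empty, h1]

theorem Color_sepN_meas [Countable V] (G : SimpleGraph V) (m R : ℕ) (l : Obj V) (n : ℕ) :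
    Measurable (fun ω => sepN G m R ω l = n) := by
  have hP : ∀ k : ℕ, Measurable (fun ω : Om V => ∀ l' ∈ Mv G m R, l' ≠ l → Near G l l' →
      rho ω l k ≠ rho ω l' k) := by
    intro k
    refine Measurable.forall fun l' => ?_
    refine Measurable.imp measurable_const (Measurable.imp measurable_const
      (Measurable.imp measurable_const ?_))
    have h1 : MeasurableSet {ω : Om V | rho ω l k = rho ω l' k} :=
      measurableSet_eq_fun (rho_meas l k) (rho_meas l' k)
    exact (measurableSet_setOfPred.1 h1).not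
  have e : (fun ω => sepN G m R ω l = n) = fun ω =>
      ((∀ l' ∈ Mv G m R, l' ≠ l → Near G l l' → rho ω l n ≠ rho ω l' n) ∧
        ∀ k < n, ¬ (∀ l' ∈ Mv G m R, l' ≠ l → Near G l l' → rho ω l k ≠ rho ω l' k)) ∨
      (n = 0 ∧ ∀ k, ¬ (∀ l' ∈ Mv G m R, l' ≠ l → Near G l l' → rho ω l k ≠ rho ω l' k)) := by
    funext ω
    exact propext (Color_sInf _ _)
  rw [e]
  refine Measurable.or (Measurable.and (hP n) (Measurable.forall fun k =>
    Measurable.imp measurable_const (hP k).not)) (Measurable.and measurable_const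
      (Measurable.forall fun k => (hP k).not))

theorem col_meas [Countable V] (G : SimpleGraph V) (m R : ℕ) (l : Obj V) :
    Measurable (fun ω => col G m R ω l) := by
  refine measurable_to_countable' fun c => ?_
  have e : (fun ω => col G m R ω l) ⁻¹' {c} = {ω | ∃ k, sepN G m R ω l = k ∧
      Nat.pair k (rho ω l k) = c} := by
    ext ω
    constructor
    · intro h
      exact ⟨_, rfl, h⟩
    · rintro ⟨k, hk, h⟩
      show Nat.pair (sepN G m R ω l) (rho ω l (sepN G m R ω l)) = c
      rw [hk]
      exact h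
  rw [e]
  refine measurableSet_setOfPred.2 (Measurable.exists fun k => (Color_sepN_meas G m R l k).and ?_)
  have h1 : Measurable (fun ω : Om V => Nat.pair k (rho ω l k)) :=
    (measurable_from_top (f := fun j : ℕ => Nat.pair k j)).comp (rho_meas l k)
  exact measurableSet_setOfPred.1 (measurableSet_eq_fun h1 measurable_const)

/-- a colouring is proper if different near moves have different colours -/
def Proper (G : SimpleGraph V) (m R : ℕ) (c : Obj V → ℕ) : Prop :=
  ∀ l ∈ Mv G m R, ∀ l' ∈ Mv G m R, l ≠ l' → Near G l l' → c l ≠ c l'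

theorem col_proper {G : SimpleGraph V} {d : ℕ} (h : Std G d) (m R : ℕ) {ω : Om V}
    (hω : Good ω) : Proper G m R (col G m R ω) := by
  classical
  intro l hl l' hl' hne hnear heq
  have h1 := Nat.pair_eq_pair.1 heq
  have hfin := near_finite h m R l
  have hsep : ∀ l'' : Obj V, ∃ n, l'' ≠ l → rho ω l n ≠ rho ω l'' n := by
    intro l''
    by_cases he : l'' = l
    · exact ⟨0, fun h' => absurd he h'⟩
    · obtain ⟨n, hn⟩ := rho_inj hω (Ne.symm he)
      exact ⟨n, fun _ => hn⟩
  choose N hN using hsep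
  have hne' : {n | ∀ l' ∈ Mv G m R, l' ≠ l → Near G l l' → rho ω l n ≠ rho ω l' n}.Nonempty := by
    refine ⟨hfin.toFinset.sup N, ?_⟩
    intro l'' hl'' hne'' hnear''
    have hmem : l'' ∈ hfin.toFinset := hfin.mem_toFinset.2 ⟨hl'', hnear''⟩
    exact rho_mono (Finset.le_sup (f := N) hmem) (hN l'' hne'')
  have h2 := Nat.sInf_mem hne'
  have h3 := h2 l' hl' (Ne.symm hne) hnear
  apply h3
  have h4 : rho ω l (sepN G m R ω l) = rho ω l' (sepN G m R ω l') := h1.2
  rw [← h1.1] at h4
  exact h4

end Pool.Agent.FIIDU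
end

section

/-!
# MP_767f1c_pr: directed paths
-/

set_option autoImplicit false

namespace Pool.Agent.FIIDU

open Set Filter


variable {V : Type}

/-- `O` is an orientation of the edges of `G` -/
def Ori (G : SimpleGraph V) (O : V → V → Prop) : Prop :=
  ∀ x y, (O x y → G.Adj x y) ∧ (G.Adj x y → (O x y ↔ ¬ O y x))

/-- positive part of out-degree minus in-degree -/
noncomputable def exP (O : V → V → Prop) (x : V) : ℕ := dg O x - dgi O x

/-- positive part of in-degree minus out-degree -/
noncomputable def exN (O : V → V → Prop) (x : V) : ℕ := dgi O x - dg O x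

/-- directed paths as lists of arcs -/
inductive DPath (O : V → V → Prop) : V → V → Obj V → Prop
  | nil (a : V) : DPath O a a []
  | cons {a b c : V} {l : Obj V} (h : O a c) (hac : a ≠ c) (ha : a ∉ vs l)
      (hl : DPath O c b l) : DPath O a b ((a, c) :: l)

/-- arcs of a directed path -/
theorem DPath.arcs {O : V → V → Prop} {a b : V} {l : Obj V} (h : DPath O a b l) :
    (∀ p ∈ l, O p.1 p.2) ∧ l.Nodup ∧ (∀ p ∈ l, p.swap ∉ l) := by
  induction h with
  | nil a => simp
  | @cons a b c l h hac ha hl ih =>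
    obtain ⟨h1, h2, h3⟩ := ih
    have e1 : ∀ y, (a, y) ∉ l := fun y hy => ha ⟨_, hy, Or.inl rfl⟩
    have e2 : ∀ y, (y, a) ∉ l := fun y hy => ha ⟨_, hy, Or.inr rfl⟩
    refine ⟨?_, ?_, ?_⟩
    · intro p hp
      rcases List.mem_cons.1 hp with rfl | hp
      · exact h
      · exact h1 p hp
    · exact List.nodup_cons.2 ⟨e1 c, h2⟩
    · intro p hp hq
      rcases List.mem_cons.1 hp with rfl | hp
      · rcases List.mem_cons.1 hq with hq | hq
        · exact hac (Prod.ext_iff.1 hq).2
        · exact e2 c hq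
      · rcases List.mem_cons.1 hq with hq | hq
        · have : p = (c, a) := by
            rw [← Prod.swap_swap p, hq]
            rfl
          exact e2 c (this ▸ hp)
        · exact h3 p hp hq

theorem FlipA_fin1 (l : Obj V) (x : V) : {y | (x, y) ∈ l}.Finite := by
  classical
  refine (l.toFinset.image Prod.snd).finite_toSet.subset ?_
  intro y hy
  have hy' : (x, y) ∈ l := hy
  simp only [Finset.coe_image, Set.mem_image, Finset.mem_coe, List.mem_toFinset]
  exact ⟨_, hy', rfl⟩

theorem FlipA_fin2 (l : Obj V) (x : V) : {y | (y, x) ∈ l}.Finite := by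
  classical
  refine (l.toFinset.image Prod.fst).finite_toSet.subset ?_
  intro y hy
  have hy' : (y, x) ∈ l := hy
  simp only [Finset.coe_image, Set.mem_image, Finset.mem_coe, List.mem_toFinset]
  exact ⟨_, hy', rfl⟩

open Classical in
theorem FlipA_degs {O : V → V → Prop} {a b : V} {l : Obj V} (h : DPath O a b l) (x : V) :
    {y | (x, y) ∈ l}.ncard + (if x = b then 1 else 0) =
      {y | (y, x) ∈ l}.ncard + (if x = a then 1 else 0) := by
  induction h with
  | nil a => simp
  | @cons a b c l h hac ha hl ih =>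
    have e1 : ∀ y, (a, y) ∉ l := fun y hy => ha ⟨_, hy, Or.inl rfl⟩
    have e2 : ∀ y, (y, a) ∉ l := fun y hy => ha ⟨_, hy, Or.inr rfl⟩
    have k1 : {y | (x, y) ∈ (a, c) :: l}.ncard = {y | (x, y) ∈ l}.ncard + (if x = a then 1 else 0) := by
      by_cases hx : x = a
      · subst hx
        have : {y | (x, y) ∈ (x, c) :: l} = {c} := by
          ext y
          simp [e1 y]
        have h0 : {y | (x, y) ∈ l} = ∅ := by
          ext y
          simp [e1 y]
        rw [this, h0]
        simp
      · have : {y | (x, y) ∈ (a, c) :: l} = {y | (x, y) ∈ l} := by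
          ext y
          simp [hx]
        rw [this]
        simp [hx]
    have k2 : {y | (y, x) ∈ (a, c) :: l}.ncard = {y | (y, x) ∈ l}.ncard + (if x = c then 1 else 0) := by
      by_cases hx : x = c
      · subst hx
        have : {y | (y, x) ∈ (a, x) :: l} = insert a {y | (y, x) ∈ l} := by
          ext y
          simp
        have hna : a ∉ {y | (y, x) ∈ l} := e1 x
        rw [this, Set.ncard_insert_of_notMem hna (FlipA_fin2 l x)]
        simp
      · have : {y | (y, x) ∈ (a, c) :: l} = {y | (y, x) ∈ l} := by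
          ext y
          simp [hx]
        rw [this]
        simp [hx]
    rw [k1, k2]
    omega

open Classical in
/-- out- and in-degrees of a directed path, as a set of arcs -/
theorem DPath.degs {O : V → V → Prop} {a b : V} {l : Obj V} (h : DPath O a b l) (hab : a ≠ b)
    (x : V) :
    {y | (x, y) ∈ l}.ncard + (if x = b then 1 else 0) =
      {y | (y, x) ∈ l}.ncard + (if x = a then 1 else 0) :=
  FlipA_degs h x

theorem FlipA_walk {O : V → V → Prop} (n : ℕ) : ∀ (a b : V) (w : ℕ → V) (_ : w 0 = a)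
    (_ : w n = b) (_ : ∀ i < n, O (w i) (w (i + 1))),
    ∃ l, DPath O a b l ∧ l.length ≤ n ∧ ∀ x ∈ vs l, ∃ i ≤ n, x = w i := by
  induction n using Nat.strong_induction_on with
  | _ n ih =>
  intro a b w h0 hn hw
  classical
  have hex : ∃ j, w (n - j) = a ∧ j ≤ n := ⟨n, by simpa using h0, le_rfl⟩
  obtain ⟨hj1, hj2⟩ := Nat.find_spec hex
  have hmin := fun m => @Nat.find_min _ _ hex m
  set j := Nat.find hex with hj
  rcases Nat.eq_zero_or_pos j with hz | hz
  · rw [hz, Nat.sub_zero, hn] at hj1
    subst hj1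
    refine ⟨[], DPath.nil _, by simp, ?_⟩
    rintro x ⟨p, hp, -⟩
    simp at hp
  · -- the last visit of `a` is at time `n - j`
    have hlast : ∀ i, n - j < i → i ≤ n → w i ≠ a := by
      intro i h1 h2 h3
      refine hmin (n - i) (by omega) ⟨?_, by omega⟩
      have : n - (n - i) = i := by omega
      rw [this]
      exact h3
    obtain ⟨l, hl1, hl2, hl3⟩ := ih (j - 1) (by omega) (w (n - j + 1)) b
      (fun i => w (n - j + 1 + i)) (by simp)
      (by
        have : n - j + 1 + (j - 1) = n := by omega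
        simp only [this]
        exact hn)
      (fun i hi => by
        have := hw (n - j + 1 + i) (by omega)
        simpa [add_assoc] using this)
    refine ⟨(a, w (n - j + 1)) :: l, DPath.cons ?_ ?_ ?_ hl1, ?_, ?_⟩
    · have := hw (n - j) (by omega)
      rwa [hj1] at this
    · exact (hlast _ (by omega) (by omega)).symm
    · intro ha
      obtain ⟨i, hi1, hi2⟩ := hl3 a ha
      exact hlast (n - j + 1 + i) (by omega) (by omega) hi2.symm
    · simp only [List.length_cons]
      omega
    · rintro x ⟨p, hp, hx⟩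
      rcases List.mem_cons.1 hp with rfl | hp
      · rcases hx with rfl | rfl
        · exact ⟨0, by omega, h0.symm⟩
        · exact ⟨n - j + 1, by omega, rfl⟩
      · obtain ⟨i, hi1, hi2⟩ := hl3 x ⟨p, hp, hx⟩
        exact ⟨n - j + 1 + i, by omega, hi2⟩

/-- shortening walks: if `b` can be reached from `a` in at most `n` steps, there is a directed
path -/
theorem exists_dpath {O : V → V → Prop} {a b : V} (w : ℕ → V) (n : ℕ) (h0 : w 0 = a)
    (hn : w n = b) (hw : ∀ i < n, O (w i) (w (i + 1))) :
    ∃ l, DPath O a b l ∧ l.length ≤ n := by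
  obtain ⟨l, h1, h2, -⟩ := FlipA_walk n a b w h0 hn hw
  exact ⟨l, h1, h2⟩

theorem FlipA_dist {G : SimpleGraph V} (hG : G.Connected) {O : V → V → Prop} (hO : Ori G O)
    {a b : V} {l : Obj V} (h : DPath O a b l) :
    (∀ x, x = a ∨ x ∈ vs l → G.dist a x ≤ l.length) ∧
      ∀ x y, (x = a ∨ x ∈ vs l) → (y = a ∨ y ∈ vs l) → G.dist x y ≤ l.length := by
  induction h with
  | nil a =>
    have : ∀ x, ¬ x ∈ vs ([] : Obj V) := by
      rintro x ⟨p, hp, -⟩
      simp at hp
    refine ⟨?_, ?_⟩
    · rintro x (rfl | hx)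
      · simp
      · exact absurd hx (this x)
    · rintro x y (rfl | hx) (rfl | hy)
      · simp
      · exact absurd hy (this y)
      · exact absurd hx (this x)
      · exact absurd hx (this x)
  | @cons a b c l h hac ha hl ih =>
    obtain ⟨i1, i2⟩ := ih
    have hadj : G.Adj a c := (hO a c).1 h
    have hd : G.dist a c = 1 := SimpleGraph.dist_eq_one_iff_adj.2 hadj
    have hcase : ∀ x, (x = a ∨ x ∈ vs ((a, c) :: l)) → x = a ∨ (x = c ∨ x ∈ vs l) := by
      rintro x (rfl | ⟨p, hp, hx⟩)
      · exact Or.inl rfl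
      · rcases List.mem_cons.1 hp with rfl | hp
        · rcases hx with rfl | rfl
          · exact Or.inl rfl
          · exact Or.inr (Or.inl rfl)
        · exact Or.inr (Or.inr ⟨p, hp, hx⟩)
    have k1 : ∀ x, (x = a ∨ x ∈ vs ((a, c) :: l)) → G.dist a x ≤ l.length + 1 := by
      intro x hx
      rcases hcase x hx with rfl | hx
      · simp
      · have := hG.dist_triangle (u := a) (v := c) (w := x)
        have := i1 x hx
        omega
    refine ⟨fun x hx => by simpa using k1 x hx, fun x y hx hy => ?_⟩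
    simp only [List.length_cons]
    rcases hcase x hx with rfl | hx'
    · exact k1 y hy
    · rcases hcase y hy with rfl | hy'
      · rw [SimpleGraph.dist_comm]
        exact k1 x hx
      · exact (i2 x y hx' hy').trans (Nat.le_succ _)

/-- a path in an orientation of `G` is a bounded move -/
theorem DPath.mv {G : SimpleGraph V} (hG : G.Connected) {O : V → V → Prop} (hO : Ori G O)
    {a b : V} {l : Obj V} (h : DPath O a b l) {n : ℕ} (hn : l.length ≤ n) : l ∈ Mv G n n :=
  ⟨hn, fun x hx y hy => ((FlipA_dist hG hO h).2 x y (Or.inr hx) (Or.inr hy)).trans hn⟩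

/-- degrees after reversing the arcs of `L` -/
theorem FlipA_flip {O L : V → V → Prop} (hL : ∀ x y, L x y → O x y)
    (ha : ∀ x y, O x y → ¬ O y x) {x : V} (h1 : {y | O x y}.Finite) (h2 : {y | O y x}.Finite) :
    dg (fun x y => (O x y ∧ ¬ L x y) ∨ L y x) x + dg L x = dg O x + dgi L x ∧
      dgi (fun x y => (O x y ∧ ¬ L x y) ∨ L y x) x + dgi L x = dgi O x + dg L x := by
  have hL1 : {y | L x y} ⊆ {y | O x y} := fun y hy => hL x y hy
  have hL2 : {y | L y x} ⊆ {y | O y x} := fun y hy => hL y x hy
  constructor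
  · have e : {y | (O x y ∧ ¬ L x y) ∨ L y x} = ({y | O x y} \ {y | L x y}) ∪ {y | L y x} := by
      ext y
      rfl
    have hd : Disjoint ({y | O x y} \ {y | L x y}) {y | L y x} := by
      rw [Set.disjoint_left]
      intro y hy hy'
      exact ha x y hy.1 (hL y x hy')
    unfold dg dgi
    rw [e, Set.ncard_union_eq hd h1.sdiff (h2.subset hL2)]
    have := Set.ncard_sdiff_add_ncard_of_subset hL1 h1
    omega
  · have e : {y | (O y x ∧ ¬ L y x) ∨ L x y} = ({y | O y x} \ {y | L y x}) ∪ {y | L x y} := by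
      ext y
      rfl
    have hd : Disjoint ({y | O y x} \ {y | L y x}) {y | L x y} := by
      rw [Set.disjoint_left]
      intro y hy hy'
      exact ha y x hy.1 (hL x y hy')
    unfold dg dgi
    rw [e, Set.ncard_union_eq hd h2.sdiff (h1.subset hL1)]
    have := Set.ncard_sdiff_add_ncard_of_subset hL2 h2
    omega

end Pool.Agent.FIIDU
end

section

/-!
# MP_767f1c_pr: balanced orientations of finite even graphs
-/

set_option autoImplicit false

namespace Pool.Agent.FIIDU

open MeasureTheory Set Filter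
open scoped ENNReal


variable {V : Type}

/-- the list `l` is the list of the arcs of a balanced orientation of the component of `x` in
`R` -/
structure EulC (R : V → V → Prop) (x : V) (l : Obj V) : Prop where
  nodup : l.Nodup
  sub : ∀ p ∈ l, R p.1 p.2 ∧ p.1 ∈ comp R x
  one : ∀ y z, y ∈ comp R x → R y z → ((y, z) ∈ l ↔ (z, y) ∉ l)
  bal : ∀ y, {z | (y, z) ∈ l}.ncard = {z | (z, y) ∈ l}.ncard

/-- orientations of the component of `x` -/
structure EulA_Ori (R : V → V → Prop) (x : V) (O : V → V → Prop) : Prop where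
  sub : ∀ y z, O y z → R y z ∧ y ∈ comp R x
  one : ∀ y z, y ∈ comp R x → R y z → (O y z ↔ ¬ O z y)

theorem EulA_comp {R : V → V → Prop} {x y z : V} (hy : y ∈ comp R x) (h : R y z) :
    z ∈ comp R x := Relation.ReflTransGen.tail hy h

theorem EulA_exists {R : V → V → Prop} (hsym : ∀ x y, R x y → R y x) (hirr : ∀ x, ¬ R x x)
    (x : V) : ∃ O, EulA_Ori R x O := by
  refine ⟨fun y z => (R y z ∧ y ∈ comp R x) ∧ WellOrderingRel y z, ⟨fun y z h => h.1, ?_⟩⟩
  intro y z hy h
  have hz := EulA_comp hy h
  have hne : y ≠ z := by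
    rintro rfl
    exact hirr y h
  constructor
  · intro h1 h2
    exact (asymm_of WellOrderingRel h1.2) h2.2
  · intro h1
    refine ⟨⟨h, hy⟩, ?_⟩
    rcases trichotomous_of WellOrderingRel y z with h2 | h2 | h2
    · exact h2
    · exact absurd h2 hne
    · exact absurd ⟨⟨hsym y z h, hz⟩, h2⟩ h1

theorem EulA_fin {R : V → V → Prop} {x : V} (hfin : (comp R x).Finite) {O : V → V → Prop}
    (hO : EulA_Ori R x O) : {p : V × V | O p.1 p.2}.Finite := by
  refine (hfin.prod hfin).subset ?_
  rintro ⟨y, z⟩ h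
  have h' := hO.sub y z h
  exact ⟨h'.2, EulA_comp h'.2 h'.1⟩

theorem EulA_fin1 {R : V → V → Prop} {x : V} (hfin : (comp R x).Finite) {O : V → V → Prop}
    (hO : EulA_Ori R x O) (y : V) : {z | O y z}.Finite := by
  refine hfin.subset ?_
  intro z h
  have h' := hO.sub y z h
  exact EulA_comp h'.2 h'.1

theorem EulA_fin2 {R : V → V → Prop} {x : V} (hfin : (comp R x).Finite) {O : V → V → Prop}
    (hO : EulA_Ori R x O) (y : V) : {z | O z y}.Finite := by
  refine hfin.subset ?_
  intro z h
  exact (hO.sub z y h).2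

/-- sums of out-degrees over a finite set -/
theorem EulA_sum1 {O : V → V → Prop} (hf : {p : V × V | O p.1 p.2}.Finite) (A : Finset V) :
    ∑ y ∈ A, dg O y = {p : V × V | O p.1 p.2 ∧ p.1 ∈ A}.ncard := by
  classical
  have h1 : {p : V × V | O p.1 p.2 ∧ p.1 ∈ A}.Finite := hf.subset fun p hp => hp.1
  rw [Set.ncard_eq_toFinset_card _ h1,
    Finset.card_eq_sum_card_fiberwise (f := Prod.fst) (t := A)]
  · refine Finset.sum_congr rfl fun y hy => ?_
    have : dg O y = (((fun z : V => (y, z)) '' {z | O y z})).ncard :=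
      (Set.ncard_image_of_injective _ (fun a b h => (Prod.ext_iff.1 h).2)).symm
    rw [this, ← Set.ncard_coe_finset]
    congr 1
    ext ⟨u, v⟩
    simp only [Set.mem_image, Finset.coe_filter, Set.Finite.mem_toFinset]
    constructor
    · rintro ⟨z, hz, h⟩
      obtain ⟨rfl, rfl⟩ := Prod.mk.inj h
      exact ⟨⟨hz, hy⟩, rfl⟩
    · rintro ⟨⟨h1, -⟩, rfl⟩
      exact ⟨v, h1, rfl⟩
  · intro p hp
    simp only [Set.Finite.coe_toFinset] at hp
    exact hp.2

theorem EulA_sum2 {O : V → V → Prop} (hf : {p : V × V | O p.1 p.2}.Finite) (A : Finset V) :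
    ∑ y ∈ A, dgi O y = {p : V × V | O p.1 p.2 ∧ p.2 ∈ A}.ncard := by
  classical
  have h1 : {p : V × V | O p.1 p.2 ∧ p.2 ∈ A}.Finite := hf.subset fun p hp => hp.1
  rw [Set.ncard_eq_toFinset_card _ h1,
    Finset.card_eq_sum_card_fiberwise (f := Prod.snd) (t := A)]
  · refine Finset.sum_congr rfl fun y hy => ?_
    have : dgi O y = (((fun z : V => (z, y)) '' {z | O z y})).ncard :=
      (Set.ncard_image_of_injective _ (fun a b h => (Prod.ext_iff.1 h).1)).symm
    rw [this, ← Set.ncard_coe_finset]
    congr 1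
    ext ⟨u, v⟩
    simp only [Set.mem_image, Finset.coe_filter, Set.Finite.mem_toFinset]
    constructor
    · rintro ⟨z, hz, h⟩
      obtain ⟨rfl, rfl⟩ := Prod.mk.inj h
      exact ⟨⟨hz, hy⟩, rfl⟩
    · rintro ⟨⟨h1, -⟩, rfl⟩
      exact ⟨u, h1, rfl⟩
  · intro p hp
    simp only [Set.Finite.coe_toFinset] at hp
    exact hp.2

theorem EulA_parity {R : V → V → Prop} (hsym : ∀ x y, R x y → R y x)
    (heven : ∀ x, Even (dg R x)) {x : V} (hfin : (comp R x).Finite) {O : V → V → Prop}
    (hO : EulA_Ori R x O) {y : V} (hy : y ∈ comp R x) : Even (dg O y + dgi O y) := by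
  have e : {z | R y z} = {z | O y z} ∪ {z | O z y} := by
    ext z
    constructor
    · intro h
      by_cases h1 : O y z
      · exact Or.inl h1
      · right
        have := hO.one z y (EulA_comp hy h) (hsym y z h)
        exact this.2 h1
    · rintro (h | h)
      · exact (hO.sub y z h).1
      · exact hsym z y (hO.sub z y h).1
  have hd : Disjoint {z | O y z} {z | O z y} := by
    rw [Set.disjoint_left]
    intro z h1 h2
    exact (hO.one y z hy (hO.sub y z h1).1).1 h1 h2
  have := heven y
  unfold dg at this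
  rw [e, Set.ncard_union_eq hd (EulA_fin1 hfin hO y) (EulA_fin2 hfin hO y)] at this
  exact this

/-- if there is a vertex with positive excess then the excess can be decreased -/
theorem EulA_step {R : V → V → Prop} (hsym : ∀ x y, R x y → R y x)
    (heven : ∀ x, Even (dg R x)) {x : V} (hfin : (comp R x).Finite) {O : V → V → Prop}
    (hO : EulA_Ori R x O) {a : V} (ha : a ∈ comp R x) (hea : 0 < exP O a) :
    ∃ O', EulA_Ori R x O' ∧ ∑ y ∈ hfin.toFinset, exP O' y < ∑ y ∈ hfin.toFinset, exP O y := by
  classical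
  -- a vertex with negative excess can be reached
  obtain ⟨b, hab, hb⟩ : ∃ b, Relation.ReflTransGen O a b ∧ dg O b < dgi O b := by
    by_contra hcon
    push Not at hcon
    have hA : {y | Relation.ReflTransGen O a y}.Finite := by
      refine hfin.subset ?_
      intro y hy
      induction hy with
      | refl => exact ha
      | tail _ h ih => exact EulA_comp ih (hO.sub _ _ h).1
    have hf := EulA_fin hfin hO
    have h1 := EulA_sum1 hf hA.toFinset
    have h2 := EulA_sum2 hf hA.toFinset
    have h3 : {p : V × V | O p.1 p.2 ∧ p.1 ∈ hA.toFinset} ⊆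
        {p : V × V | O p.1 p.2 ∧ p.2 ∈ hA.toFinset} := by
      rintro ⟨u, v⟩ ⟨h, h'⟩
      refine ⟨h, ?_⟩
      rw [Set.Finite.mem_toFinset] at h' ⊢
      exact Relation.ReflTransGen.tail h' h
    have h4 := Set.ncard_le_ncard h3 (hf.subset fun p hp => hp.1)
    have h5 : ∑ y ∈ hA.toFinset, dgi O y < ∑ y ∈ hA.toFinset, dg O y := by
      refine Finset.sum_lt_sum (fun y hy => hcon y ?_) ⟨a, ?_, ?_⟩
      · rwa [Set.Finite.mem_toFinset] at hy
      · rw [Set.Finite.mem_toFinset]
        exact Relation.ReflTransGen.refl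
      · unfold exP at hea
        omega
    omega
  have hbc : b ∈ comp R x := by
    clear hb
    induction hab with
    | refl => exact ha
    | tail _ h ih => exact EulA_comp ih (hO.sub _ _ h).1
  -- a walk from `a` to `b`
  obtain ⟨n, w, hw0, hwn, hw⟩ : ∃ (n : ℕ) (w : ℕ → V), w 0 = a ∧ w n = b ∧
      ∀ i < n, O (w i) (w (i + 1)) := by
    clear hb hbc
    induction hab with
    | refl => exact ⟨0, fun _ => a, rfl, rfl, fun i hi => absurd hi (Nat.not_lt_zero _)⟩
    | @tail b c _ h ih =>
      obtain ⟨n, w, h0, hn, hw⟩ := ih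
      refine ⟨n + 1, fun i => if i ≤ n then w i else c, by simpa using h0, by simp, ?_⟩
      intro i hi
      rcases Nat.lt_succ_iff_lt_or_eq.1 hi with hi | rfl
      · have h1 : i ≤ n := hi.le
        have h2 : i + 1 ≤ n := hi
        simp only [h1, h2, if_true]
        exact hw i hi
      · simp only [le_refl, if_true]
        have h2 : ¬ i + 1 ≤ i := by omega
        simp only [h2, if_false, hn]
        exact h
  obtain ⟨l, hl, -⟩ := exists_dpath w n hw0 hwn hw
  obtain ⟨hl1, -, -⟩ := hl.arcs
  have hne : a ≠ b := by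
    rintro rfl
    unfold exP at hea
    omega
  have hanti : ∀ y z, O y z → ¬ O z y := by
    intro y z h
    have h' := hO.sub y z h
    exact (hO.one y z h'.2 h'.1).1 h
  set L : V → V → Prop := fun y z => (y, z) ∈ l with hL
  have hLO : ∀ y z, L y z → O y z := fun y z h => hl1 _ h
  have hflip := fun y => FlipA_flip hLO hanti (x := y) (EulA_fin1 hfin hO y) (EulA_fin2 hfin hO y)
  have hdeg : ∀ y, dg L y + (if y = b then 1 else 0) = dgi L y + (if y = a then 1 else 0) :=
    fun y => hl.degs hne y
  set O' : V → V → Prop := fun y z => (O y z ∧ ¬ L y z) ∨ L z y with hO'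
  have hO'ori : EulA_Ori R x O' := by
    constructor
    · rintro y z (h | h)
      · exact hO.sub y z h.1
      · have h' := hO.sub z y (hLO z y h)
        exact ⟨hsym _ _ h'.1, EulA_comp h'.2 h'.1⟩
    · intro y z hy hR
      have h1 := hO.one y z hy hR
      have h2 := hLO y z
      have h3 := hLO z y
      simp only [hO']
      tauto
  refine ⟨O', hO'ori, ?_⟩
  refine Finset.sum_lt_sum (fun y hy => ?_) ⟨a, ?_, ?_⟩
  · rw [Set.Finite.mem_toFinset] at hy
    have h1 := (hflip y).1
    have h2 := (hflip y).2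
    have h3 := hdeg y
    have h4 := EulA_parity hsym heven hfin hO hy
    unfold exP at hea ⊢
    by_cases hya : y = a
    · subst hya
      rw [if_neg hne, if_pos rfl] at h3
      rw [Nat.even_iff] at h4
      omega
    · by_cases hyb : y = b
      · subst hyb
        rw [if_pos rfl, if_neg hya] at h3
        rw [Nat.even_iff] at h4
        omega
      · rw [if_neg hya, if_neg hyb] at h3
        omega
  · rw [Set.Finite.mem_toFinset]
    exact ha
  · have h1 := (hflip a).1
    have h2 := (hflip a).2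
    have h3 := hdeg a
    have h4 := EulA_parity hsym heven hfin hO ha
    rw [if_neg hne, if_pos rfl] at h3
    rw [Nat.even_iff] at h4
    unfold exP at hea ⊢
    omega

/-- a finite component with even degrees has a balanced orientation -/
theorem exists_eulC {R : V → V → Prop} (hsym : ∀ x y, R x y → R y x) (hirr : ∀ x, ¬ R x x)
    (heven : ∀ x, Even (dg R x)) {x : V} (hfin : (comp R x).Finite) : ∃ l, EulC R x l := by
  classical
  have hex : ∃ n, ∃ O, EulA_Ori R x O ∧ ∑ y ∈ hfin.toFinset, exP O y = n := by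
    obtain ⟨O, hO⟩ := EulA_exists hsym hirr x
    exact ⟨_, O, hO, rfl⟩
  obtain ⟨O, hO, hsum⟩ := Nat.find_spec hex
  have hmin := fun m => @Nat.find_min _ _ hex m
  have hex0 : ∀ y ∈ comp R x, exP O y = 0 := by
    intro y hy
    by_contra h
    obtain ⟨O', hO', hlt⟩ := EulA_step hsym heven hfin hO hy (Nat.pos_of_ne_zero h)
    exact hmin _ (hsum ▸ hlt) ⟨O', hO', rfl⟩
  have hf := EulA_fin hfin hO
  have hbal : ∀ y ∈ comp R x, dg O y = dgi O y := by
    have h1 := EulA_sum1 hf hfin.toFinset
    have h2 := EulA_sum2 hf hfin.toFinset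
    have h3 : {p : V × V | O p.1 p.2 ∧ p.1 ∈ hfin.toFinset} =
        {p : V × V | O p.1 p.2 ∧ p.2 ∈ hfin.toFinset} := by
      ext ⟨u, v⟩
      simp only [Set.Finite.mem_toFinset]
      constructor
      · rintro ⟨h, h'⟩
        exact ⟨h, EulA_comp h' (hO.sub _ _ h).1⟩
      · rintro ⟨h, -⟩
        exact ⟨h, (hO.sub _ _ h).2⟩
    rw [h3, ← h2] at h1
    have h4 : ∀ y ∈ hfin.toFinset, dg O y ≤ dgi O y := by
      intro y hy
      rw [Set.Finite.mem_toFinset] at hy
      have := hex0 y hy
      unfold exP at this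
      omega
    have h5 := (Finset.sum_eq_sum_iff_of_le h4).1 h1
    intro y hy
    exact h5 y (by rwa [Set.Finite.mem_toFinset])
  have hmem : ∀ y z, (y, z) ∈ hf.toFinset.toList ↔ O y z := by
    intro y z
    rw [Finset.mem_toList, Set.Finite.mem_toFinset]
    rfl
  refine ⟨hf.toFinset.toList, ⟨Finset.nodup_toList _, ?_, ?_, ?_⟩⟩
  · rintro ⟨y, z⟩ hp
    exact hO.sub y z ((hmem y z).1 hp)
  · intro y z hy hR
    rw [hmem, hmem]
    exact hO.one y z hy hR
  · intro y
    have e1 : {z | (y, z) ∈ hf.toFinset.toList} = {z | O y z} := by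
      ext z
      exact hmem y z
    have e2 : {z | (z, y) ∈ hf.toFinset.toList} = {z | O z y} := by
      ext z
      exact hmem z y
    rw [e1, e2]
    by_cases hy : y ∈ comp R x
    · exact hbal y hy
    · have e3 : {z | O y z} = ∅ := by
        rw [Set.eq_empty_iff_forall_notMem]
        intro z hz
        exact hy (hO.sub y z hz).2
      have e4 : {z | O z y} = ∅ := by
        rw [Set.eq_empty_iff_forall_notMem]
        intro z hz
        have h' := hO.sub z y hz
        exact hy (EulA_comp h'.2 h'.1)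
      rw [e3, e4]

end Pool.Agent.FIIDU
end

section

/-!
# MP_767f1c_pr: selection of finite objects
-/

set_option autoImplicit false

namespace Pool.Agent.FIIDU

open MeasureTheory Set Filter
open scoped ENNReal


variable {V : Type}

private theorem rho_mapO_symm {G : SimpleGraph V} (φ : G ≃g G) (l : Obj V) :
    mapO φ (mapO φ.symm l) = l := by
  unfold mapO
  rw [List.map_map]
  conv_rhs => rw [← List.map_id l]
  apply List.map_congr_left
  intro p _
  simp only [Function.comp, Prod.map, id]
  apply Prod.ext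
  · exact φ.apply_symm_apply p.1
  · exact φ.apply_symm_apply p.2

/-- a finite nonempty set of objects has a least element -/
private theorem rho_least {ω : Om V} (hω : Good ω) (s : Set (Obj V)) (hs : s.Finite)
    (hne : s.Nonempty) : ∃ l ∈ s, ∀ l' ∈ s, l' ≠ l → ltr ω l l' := by
  induction s, hs using Set.Finite.induction_on with
  | empty => exact absurd hne Set.not_nonempty_empty
  | @insert a t _ _ ih =>
    rcases t.eq_empty_or_nonempty with ht | ht
    · subst ht
      refine ⟨a, by simp, ?_⟩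
      intro l' hl' hne'
      simp at hl'
      exact absurd hl' hne'
    · obtain ⟨l, hl, hl2⟩ := ih ht
      by_cases hal : a = l
      · refine ⟨l, Set.mem_insert_of_mem _ hl, ?_⟩
        intro l' hl' hne'
        rcases Set.mem_insert_iff.1 hl' with h | h
        · exact absurd (h.trans hal) hne'
        · exact hl2 l' h hne'
      · rcases ltr_total hω hal with h | h
        · refine ⟨a, Set.mem_insert _ _, ?_⟩
          intro l' hl' hne'
          rcases Set.mem_insert_iff.1 hl' with h' | h'
          · exact absurd h' hne'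
          · by_cases hll : l' = l
            · rw [hll]; exact h
            · exact ltr_trans h (hl2 l' h' hll)
        · refine ⟨l, Set.mem_insert_of_mem _ hl, ?_⟩
          intro l' hl' hne'
          rcases Set.mem_insert_iff.1 hl' with h' | h'
          · rw [h']; exact h
          · exact hl2 l' h' hne'

/-- **Selection.** From nonempty finite sets of candidates one can be selected by a factor, in
such a way that vertices with the same candidates select the same one. -/
theorem select [Countable V] {G : SimpleGraph V} {Cand : Om V → V → Obj V → Prop}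
    (hC : Fac1O G Cand)
    (hfin : ∀ᵐ ω ∂PP V, ∀ x, {l | Cand ω x l}.Finite ∧ {l | Cand ω x l}.Nonempty) :
    ∃ S : Om V → V → Obj V → Prop, Fac1O G S ∧
      ∀ᵐ ω ∂PP V, (∀ x, ∃ l, Cand ω x l ∧ ∀ l', S ω x l' ↔ l' = l) ∧
        ∀ x y, (∀ l, Cand ω x l ↔ Cand ω y l) → ∀ l, S ω x l ↔ S ω y l := by
  refine ⟨fun ω x l => Cand ω x l ∧ ∀ l', Cand ω x l' → ¬ ltr ω l' l, ⟨?_, ?_⟩, ?_⟩
  · intro x l
    apply (hC.meas x l).and
    apply Measurable.forall
    intro l'
    exact (hC.meas x l').imp (ltr_meas l' l).not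
  · intro φ ω x l
    constructor
    · rintro ⟨h1, h2⟩
      refine ⟨(hC.equi φ ω x l).1 h1, ?_⟩
      intro l' hl'
      have h3 := h2 (mapO φ.symm l') ((hC.equi φ ω x _).2 (by rw [rho_mapO_symm]; exact hl'))
      intro h4
      apply h3
      rw [ltr_act, rho_mapO_symm]
      exact h4
    · rintro ⟨h1, h2⟩
      refine ⟨(hC.equi φ ω x l).2 h1, ?_⟩
      intro l' hl' h4
      rw [ltr_act] at h4
      exact h2 _ ((hC.equi φ ω x l').1 hl') h4
  · filter_upwards [hfin, ae_good] with ω h1 h2
    constructor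
    · intro x
      obtain ⟨l, hl, hl2⟩ := rho_least h2 _ (h1 x).1 (h1 x).2
      refine ⟨l, hl, ?_⟩
      intro l'
      constructor
      · rintro ⟨h3, h4⟩
        by_contra h5
        exact h4 l hl (hl2 l' h3 h5)
      · intro h3
        subst h3
        refine ⟨hl, ?_⟩
        intro l'' h3 h4
        by_cases h5 : l'' = l'
        · rw [h5] at h4
          exact ltr_irrefl ω l' h4
        · exact ltr_irrefl ω l' (ltr_trans (hl2 l'' h3 h5) h4)
    · intro x y hxy l
      constructor
      · rintro ⟨h3, h4⟩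
        exact ⟨(hxy l).1 h3, fun l' hl' => h4 l' ((hxy l').2 hl')⟩
      · rintro ⟨h3, h4⟩
        exact ⟨(hxy l).2 h3, fun l' hl' => h4 l' ((hxy l').1 hl')⟩

end Pool.Agent.FIIDU
end

section

/-!
# MP_767f1c_pr: a random orientation
-/

set_option autoImplicit false

namespace Pool.Agent.FIIDU

open MeasureTheory Set Filter
open scoped ENNReal


variable {V : Type}

/-- a random orientation -/
theorem exists_ori [Countable V] {G : SimpleGraph V} :
    ∃ O : Om V → V → V → Prop, Fac2 G O ∧ ∀ᵐ ω ∂PP V, Ori G (O ω) := by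
  refine ⟨fun ω x y => G.Adj x y ∧ ltr ω [(x, x)] [(y, y)], ⟨fun x y => ?_, fun φ ω x y => ?_⟩, ?_⟩
  · exact measurable_const.and (ltr_meas _ _)
  · have h1 : ltr (act φ ω) [(x, x)] [(y, y)] ↔ ltr ω [(φ x, φ x)] [(φ y, φ y)] := by
      rw [ltr_act]
      rfl
    rw [h1, SimpleGraph.Iso.map_adj_iff]
  · filter_upwards [ae_good (V := V)] with ω hω
    intro x y
    refine ⟨fun h => h.1, fun hxy => ⟨fun h h' => ?_, fun h => ⟨hxy, ?_⟩⟩⟩
    · exact ltr_irrefl ω _ (ltr_trans h.2 h'.2)
    · have hne : ([(x, x)] : Obj V) ≠ [(y, y)] := by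
        intro he
        have : x = y := by simpa using he
        exact hxy.ne this
      rcases ltr_total hω hne with h1 | h1
      · exact h1
      · exact absurd ⟨hxy.symm, h1⟩ h

end Pool.Agent.FIIDU
end

section

/-!
# MP_767f1c_pr: one step of flipping augmenting paths
-/

set_option autoImplicit false

namespace Pool.Agent.FIIDU

open Set Filter


variable {V : Type}

/-- augmenting paths from a vertex with positive excess to a vertex with negative excess -/
def AppF (G : SimpleGraph V) (n : ℕ) (O : V → V → Prop) (l : Obj V) : Prop :=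
  l ∈ Mv G n n ∧ ∃ a b, DPath O a b l ∧ 0 < exP O a ∧ 0 < exN O b

/-- flip all the augmenting paths of colour `k` -/
def flipS (G : SimpleGraph V) (n : ℕ) (c : Obj V → ℕ) (k : ℕ) (O : V → V → Prop) (x y : V) :
    Prop :=
  (O x y ∧ ¬ ∃ l, c l = k ∧ AppF G n O l ∧ (x, y) ∈ l) ∨ ∃ l, c l = k ∧ AppF G n O l ∧ (y, x) ∈ l

/-- the state after `t` steps -/
def stO (G : SimpleGraph V) (n : ℕ) (c : Obj V → ℕ) (O : V → V → Prop) : ℕ → V → V → Prop
  | 0 => O
  | t + 1 => flipS G n c (Nat.unpair t).1 (stO G n c O t)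

/-- the path `l` is flipped in step `t` -/
def TakeF (G : SimpleGraph V) (n : ℕ) (c : Obj V → ℕ) (O : V → V → Prop) (t : ℕ) (l : Obj V) :
    Prop := c l = (Nat.unpair t).1 ∧ AppF G n (stO G n c O t) l

theorem FlipB_vs {O : V → V → Prop} {a b : V} {l : Obj V} (h : DPath O a b l) (hne : a ≠ b) :
    a ∈ vs l ∧ b ∈ vs l := by
  induction h with
  | nil a => exact absurd rfl hne
  | @cons a b c l h hac ha hl ih =>
    refine ⟨⟨(a, c), by simp, Or.inl rfl⟩, ?_⟩
    by_cases hcb : c = b
    · subst hcb
      exact ⟨(a, c), by simp, Or.inr rfl⟩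
    · obtain ⟨p, hp, hx⟩ := (ih hcb).2
      exact ⟨p, List.mem_cons_of_mem _ hp, hx⟩

/-- one step: the result is an orientation, and the excess changes only at the ends of the
flipped paths -/
theorem flip_step {G : SimpleGraph V} {d : ℕ} (h : Std G d) {n : ℕ} {c : Obj V → ℕ}
    (hc : Proper G n n c) (k : ℕ) {O : V → V → Prop} (hO : Ori G O) :
    Ori G (flipS G n c k O) ∧
    (∀ x, exP (flipS G n c k O) x ≤ exP O x ∧ exN (flipS G n c k O) x ≤ exN O x) ∧
    ∀ l a b, c l = k → AppF G n O l → DPath O a b l → 0 < exP O a → 0 < exN O b →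
      exP (flipS G n c k O) a + 2 ≤ exP O a := by
  classical
  set L : V → V → Prop := fun x y => ∃ l, c l = k ∧ AppF G n O l ∧ (x, y) ∈ l with hL
  have hLO : ∀ x y, L x y → O x y := by
    rintro x y ⟨l, -, ⟨-, a, b, hl, -⟩, hxy⟩
    exact hl.arcs.1 _ hxy
  have hanti : ∀ x y, O x y → ¬ O y x := fun x y hxy => ((hO x y).2 ((hO x y).1 hxy)).1 hxy
  have hf1 : ∀ x, {y | O x y}.Finite := fun x => (h.fin x).subset fun y hy => (hO x y).1 hy
  have hf2 : ∀ x, {y | O y x}.Finite := fun x =>
    (h.fin x).subset fun y hy => ((hO y x).1 hy).symm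
  have hflip := fun x => FlipA_flip hLO hanti (hf1 x) (hf2 x)
  have hfl : flipS G n c k O = fun x y => (O x y ∧ ¬ L x y) ∨ L y x := rfl
  rw [← hfl] at hflip
  -- parity
  have hpar : ∀ x, Even (dg O x + dgi O x) := by
    intro x
    have e : {y | G.Adj x y} = {y | O x y} ∪ {y | O y x} := by
      ext y
      constructor
      · intro hxy
        by_cases h1 : O x y
        · exact Or.inl h1
        · exact Or.inr (((hO y x).2 hxy.symm).2 h1)
      · rintro (hxy | hxy)
        · exact (hO x y).1 hxy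
        · exact ((hO y x).1 hxy).symm
    have hd : Disjoint {y | O x y} {y | O y x} := by
      rw [Set.disjoint_left]
      exact fun y h1 h2 => hanti x y h1 h2
    have := h.deg x
    rw [e, Set.ncard_union_eq hd (hf1 x) (hf2 x)] at this
    exact ⟨d, by unfold dg dgi; omega⟩
  -- paths of the colour are disjoint
  have huniq : ∀ l l' : Obj V, c l = k → AppF G n O l → c l' = k → AppF G n O l' →
      ∀ x, x ∈ vs l → x ∈ vs l' → l = l' := by
    intro l l' h1 h2 h3 h4 x hx hx'
    by_contra hne
    exact hc l h2.1 l' h4.1 hne ⟨x, hx, x, hx', by simp⟩ (h1.trans h3.symm)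
  -- degrees of `L`
  have hdegL : ∀ l a b, c l = k → AppF G n O l → DPath O a b l → 0 < exP O a → 0 < exN O b →
      ∀ x ∈ vs l, dg L x + (if x = b then 1 else 0) = dgi L x + (if x = a then 1 else 0) := by
    intro l a b h1 h2 h3 h4 h5 x hx
    have hne : a ≠ b := by
      rintro rfl
      unfold exP at h4
      unfold exN at h5
      omega
    have e1 : {y | L x y} = {y | (x, y) ∈ l} := by
      ext y
      constructor
      · rintro ⟨l', g1, g2, g3⟩
        have := huniq l l' h1 h2 g1 g2 x hx ⟨_, g3, Or.inl rfl⟩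
        exact this ▸ g3
      · intro g
        exact ⟨l, h1, h2, g⟩
    have e2 : {y | L y x} = {y | (y, x) ∈ l} := by
      ext y
      constructor
      · rintro ⟨l', g1, g2, g3⟩
        have := huniq l l' h1 h2 g1 g2 x hx ⟨_, g3, Or.inr rfl⟩
        exact this ▸ g3
      · intro g
        exact ⟨l, h1, h2, g⟩
    have := h3.degs hne x
    unfold dg dgi
    rw [e1, e2]
    exact this
  refine ⟨?_, ?_, ?_⟩
  · intro x y
    rw [hfl]
    constructor
    · rintro (⟨g, -⟩ | g)
      · exact (hO x y).1 g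
      · exact ((hO y x).1 (hLO y x g)).symm
    · intro g
      have g1 := (hO x y).2 g
      by_cases hxy : O x y
      · have h1 : ¬ O y x := g1.1 hxy
        have h2 : ¬ L y x := fun h => h1 (hLO y x h)
        constructor
        · rintro (h | h)
          · rintro (h' | h')
            · exact h1 h'.1
            · exact h.2 h'
          · exact absurd h h2
        · intro h
          exact Or.inl ⟨hxy, fun h' => h (Or.inr h')⟩
      · have h1 : O y x := by
          by_contra h'
          exact hxy (g1.2 h')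
        have h2 : ¬ L x y := fun h => hxy (hLO x y h)
        constructor
        · rintro (h | h)
          · exact absurd h.1 hxy
          · rintro (h' | h')
            · exact h'.2 h
            · exact h2 h'
        · intro h
          right
          by_contra h'
          exact h (Or.inl ⟨h1, h'⟩)
  · intro x
    by_cases hx : ∃ l, c l = k ∧ AppF G n O l ∧ x ∈ vs l
    · obtain ⟨l, h1, h2, h3⟩ := hx
      obtain ⟨-, a, b, g1, g2, g3⟩ := id h2
      have g4 := hdegL l a b h1 h2 g1 g2 g3 x h3
      have k1 := (hflip x).1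
      have k2 := (hflip x).2
      have k3 := hpar x
      rw [Nat.even_iff] at k3
      have hne : a ≠ b := by
        rintro rfl
        unfold exP at g2
        unfold exN at g3
        omega
      unfold exP at g2 ⊢
      unfold exN at g3 ⊢
      by_cases hxa : x = a
      · subst hxa
        rw [if_neg hne, if_pos rfl] at g4
        omega
      · by_cases hxb : x = b
        · subst hxb
          rw [if_pos rfl, if_neg hxa] at g4
          omega
        · rw [if_neg hxa, if_neg hxb] at g4
          omega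
    · have e1 : {y | L x y} = ∅ := by
        rw [Set.eq_empty_iff_forall_notMem]
        rintro y ⟨l, g1, g2, g3⟩
        exact hx ⟨l, g1, g2, _, g3, Or.inl rfl⟩
      have e2 : {y | L y x} = ∅ := by
        rw [Set.eq_empty_iff_forall_notMem]
        rintro y ⟨l, g1, g2, g3⟩
        exact hx ⟨l, g1, g2, _, g3, Or.inr rfl⟩
      have k1 := (hflip x).1
      have k2 := (hflip x).2
      have k3 : dg L x = 0 := by
        unfold dg
        rw [e1, Set.ncard_empty]
      have k4 : dgi L x = 0 := by
        unfold dgi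
        rw [e2, Set.ncard_empty]
      unfold exP exN
      omega
  · intro l a b h1 h2 g1 g2 g3
    have hne : a ≠ b := by
      rintro rfl
      unfold exP at g2
      unfold exN at g3
      omega
    have g4 := hdegL l a b h1 h2 g1 g2 g3 a (FlipB_vs g1 hne).1
    have k1 := (hflip a).1
    have k2 := (hflip a).2
    have k3 := hpar a
    rw [Nat.even_iff] at k3
    rw [if_neg hne, if_pos rfl] at g4
    unfold exP at g2 ⊢
    omega

/-- only flipped paths change the orientation -/
theorem flip_chg {G : SimpleGraph V} {n : ℕ} {c : Obj V → ℕ} {k : ℕ} {O : V → V → Prop}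
    {x y : V} (hne : ¬ (flipS G n c k O x y ↔ O x y)) :
    ∃ l, c l = k ∧ AppF G n O l ∧ x ∈ vs l ∧ y ∈ vs l := by
  by_cases h1 : ∃ l, c l = k ∧ AppF G n O l ∧ (x, y) ∈ l
  · obtain ⟨l, g1, g2, g3⟩ := h1
    exact ⟨l, g1, g2, ⟨_, g3, Or.inl rfl⟩, ⟨_, g3, Or.inr rfl⟩⟩
  · by_cases h2 : ∃ l, c l = k ∧ AppF G n O l ∧ (y, x) ∈ l
    · obtain ⟨l, g1, g2, g3⟩ := h2
      exact ⟨l, g1, g2, ⟨_, g3, Or.inr rfl⟩, ⟨_, g3, Or.inl rfl⟩⟩
    · exfalso
      apply hne
      unfold flipS
      constructor
      · rintro (h | h)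
        · exact h.1
        · exact absurd h h2
      · intro h
        exact Or.inl ⟨h, h1⟩

end Pool.Agent.FIIDU
end

section

/-!
# MP_767f1c_pr: the number of flipped paths
-/

set_option autoImplicit false

namespace Pool.Agent.FIIDU

open Set Filter


variable {V : Type}

theorem FlipC_ori {G : SimpleGraph V} {d : ℕ} (h : Std G d) {n : ℕ} {c : Obj V → ℕ}
    (hc : Proper G n n c) {O : V → V → Prop} (hO : Ori G O) : ∀ t, Ori G (stO G n c O t)
  | 0 => hO
  | t + 1 => (flip_step h hc _ (FlipC_ori h hc hO t)).1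

theorem FlipC_mem_vs {O : V → V → Prop} {a b : V} {l : Obj V} (h : DPath O a b l) (hab : a ≠ b) :
    a ∈ vs l := by
  cases h with
  | nil a => exact absurd rfl hab
  | cons h hac ha hl => exact ⟨_, List.mem_cons_self, Or.inl rfl⟩

/-- the number of flipped paths which start at `a` is at most `exP O a` -/
theorem starts_le {G : SimpleGraph V} {d : ℕ} (h : Std G d) {n : ℕ} {c : Obj V → ℕ}
    (hc : Proper G n n c) {O : V → V → Prop} (hO : Ori G O) (a : V) :
    {q : ℕ × Obj V | TakeF G n c O q.1 q.2 ∧ ∃ b, DPath (stO G n c O q.1) a b q.2 ∧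
      0 < exP (stO G n c O q.1) a ∧ 0 < exN (stO G n c O q.1) b}.encard ≤ exP O a := by
  classical
  set S : Set (ℕ × Obj V) := {q : ℕ × Obj V | TakeF G n c O q.1 q.2 ∧
    ∃ b, DPath (stO G n c O q.1) a b q.2 ∧
      0 < exP (stO G n c O q.1) a ∧ 0 < exN (stO G n c O q.1) b} with hS
  let f : ℕ → ℕ := fun t => exP (stO G n c O t) a
  have hf : Antitone f := antitone_nat_of_succ_le fun t =>
    ((flip_step h hc (Nat.unpair t).1 (FlipC_ori h hc hO t)).2.1 a).1
  have hdec : ∀ q ∈ S, f (q.1 + 1) < f q.1 := by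
    rintro ⟨t, l⟩ ⟨⟨h1, h2⟩, b, h3, h4, h5⟩
    have := (flip_step h hc (Nat.unpair t).1 (FlipC_ori h hc hO t)).2.2 l a b h1 h2 h3 h4 h5
    show exP (stO G n c O (t + 1)) a < exP (stO G n c O t) a
    have h6 : exP (stO G n c O (t + 1)) a + 2 ≤ exP (stO G n c O t) a := this
    omega
  have hva : ∀ q ∈ S, a ∈ vs q.2 := by
    rintro ⟨t, l⟩ ⟨_, b, h3, h4, h5⟩
    refine FlipC_mem_vs h3 ?_
    rintro rfl
    unfold exP at h4
    unfold exN at h5
    omega
  have hinj : Set.InjOn (fun q : ℕ × Obj V => f (q.1 + 1)) S := by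
    have key : ∀ q ∈ S, ∀ q' ∈ S, q.1 < q'.1 → f (q'.1 + 1) < f (q.1 + 1) := by
      intro q hq q' hq' hlt
      exact lt_of_lt_of_le (hdec q' hq') (hf hlt)
    intro q hq q' hq' heq
    have h1 : q.1 = q'.1 := by
      rcases lt_trichotomy q.1 q'.1 with hlt | he | hlt
      · have := key q hq q' hq' hlt
        simp only at heq
        omega
      · exact he
      · have := key q' hq' q hq hlt
        simp only at heq
        omega
    have h2 : q.2 = q'.2 := by
      by_contra hne
      have hc1 : c q.2 = (Nat.unpair q.1).1 := hq.1.1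
      have hc2 : c q'.2 = (Nat.unpair q'.1).1 := hq'.1.1
      refine hc q.2 hq.1.2.1 q'.2 hq'.1.2.1 hne ⟨a, hva q hq, a, hva q' hq', ?_⟩ ?_
      · rw [SimpleGraph.dist_self]
        exact Nat.zero_le _
      · rw [hc1, hc2, h1]
    exact Prod.ext h1 h2
  rw [← hinj.encard_image]
  have hsub : (fun q : ℕ × Obj V => f (q.1 + 1)) '' S ⊆ (Finset.range (f 0) : Set ℕ) := by
    rintro _ ⟨q, hq, rfl⟩
    rw [Finset.mem_coe, Finset.mem_range]
    exact lt_of_lt_of_le (hdec q hq) (hf (Nat.zero_le _))
  refine (Set.encard_le_encard hsub).trans ?_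
  rw [Set.encard_coe_eq_coe_finsetCard, Finset.card_range]
  exact le_refl _

end Pool.Agent.FIIDU
end

section

/-!
# MP_767f1c_pr: the limit orientation
-/

set_option autoImplicit false

namespace Pool.Agent.FIIDU

open Set Filter


variable {V : Type}

/-- the limit orientation -/
def limO (G : SimpleGraph V) (n : ℕ) (c : Obj V → ℕ) (O : V → V → Prop) (x y : V) : Prop :=
  ∃ T, ∀ t, T ≤ t → stO G n c O t x y

theorem Flip_ori {G : SimpleGraph V} {d : ℕ} (h : Std G d) {n : ℕ} {c : Obj V → ℕ}
    (hc : Proper G n n c) {O : V → V → Prop} (hO : Ori G O) : ∀ t, Ori G (stO G n c O t)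
  | 0 => hO
  | t + 1 => (flip_step h hc _ (Flip_ori h hc hO t)).1

/-- a change at `x` in step `t` -/
theorem Flip_chg {G : SimpleGraph V} {n : ℕ} {c : Obj V → ℕ} {O : V → V → Prop} {t : ℕ} {x : V}
    (hx : ∀ l, TakeF G n c O t l → x ∉ vs l) (y : V) :
    (stO G n c O (t + 1) x y ↔ stO G n c O t x y) ∧
      (stO G n c O (t + 1) y x ↔ stO G n c O t y x) := by
  constructor
  · by_contra hne
    obtain ⟨l, h1, h2, h3, _⟩ := flip_chg hne
    exact hx l ⟨h1, h2⟩ h3
  · by_contra hne
    obtain ⟨l, h1, h2, _, h3⟩ := flip_chg hne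
    exact hx l ⟨h1, h2⟩ h3

/-- from some time on nothing changes at `x` -/
theorem Flip_stab {G : SimpleGraph V} {n : ℕ} {c : Obj V → ℕ} {O : V → V → Prop} {x : V} {T : ℕ}
    (hx : ∀ t, T ≤ t → ∀ l, TakeF G n c O t l → x ∉ vs l) (t : ℕ) (ht : T ≤ t) (y : V) :
    (stO G n c O t x y ↔ stO G n c O T x y) ∧ (stO G n c O t y x ↔ stO G n c O T y x) := by
  induction t, ht using Nat.le_induction with
  | base => exact ⟨Iff.rfl, Iff.rfl⟩
  | succ t ht ih =>
    have h1 := Flip_chg (hx t ht) y
    exact ⟨h1.1.trans ih.1, h1.2.trans ih.2⟩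

theorem Flip_lim {G : SimpleGraph V} {n : ℕ} {c : Obj V → ℕ} {O : V → V → Prop} {x : V} {T : ℕ}
    (hx : ∀ t, T ≤ t → ∀ l, TakeF G n c O t l → x ∉ vs l) (t : ℕ) (ht : T ≤ t) (y : V) :
    (stO G n c O t x y ↔ limO G n c O x y) ∧ (stO G n c O t y x ↔ limO G n c O y x) := by
  have key := Flip_stab hx
  constructor
  · constructor
    · intro h
      refine ⟨T, fun t' ht' => ?_⟩
      exact (key t' ht' y).1.2 ((key t ht y).1.1 h)
    · rintro ⟨T', hT'⟩
      have h1 := hT' (max T T') (le_max_right _ _)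
      exact (key t ht y).1.2 ((key _ (le_max_left _ _) y).1.1 h1)
  · constructor
    · intro h
      refine ⟨T, fun t' ht' => ?_⟩
      exact (key t' ht' y).2.2 ((key t ht y).2.1 h)
    · rintro ⟨T', hT'⟩
      have h1 := hT' (max T T') (le_max_right _ _)
      exact (key t ht y).2.2 ((key _ (le_max_left _ _) y).2.1 h1)

theorem Flip_dpath {O O' : V → V → Prop} {a b : V} {l : Obj V} (h : DPath O a b l)
    (hOO : ∀ p ∈ l, O p.1 p.2 → O' p.1 p.2) : DPath O' a b l := by
  induction h with
  | nil a => exact DPath.nil a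
  | cons h hac ha hl ih =>
    exact DPath.cons (hOO _ List.mem_cons_self h) hac ha
      (ih fun p hp => hOO p (List.mem_cons_of_mem _ hp))

theorem Flip_mem_vs {O : V → V → Prop} {a b : V} {l : Obj V} (h : DPath O a b l) (hab : a ≠ b) :
    a ∈ vs l := by
  cases h with
  | nil a => exact absurd rfl hab
  | cons h hac ha hl => exact ⟨_, List.mem_cons_self, Or.inl rfl⟩

theorem Flip_bound (P : ℕ → V × V → Prop) (hP : ∀ p, ∃ T, ∀ t, T ≤ t → P t p) (l : Obj V) :
    ∃ T, ∀ t, T ≤ t → ∀ p ∈ l, P t p := by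
  induction l with
  | nil => exact ⟨0, fun _ _ p hp => absurd hp List.not_mem_nil⟩
  | cons q l ih =>
    obtain ⟨T1, h1⟩ := ih
    obtain ⟨T2, h2⟩ := hP q
    refine ⟨max T1 T2, fun t ht p hp => ?_⟩
    rcases List.mem_cons.1 hp with rfl | hp
    · exact h2 t ((le_max_right _ _).trans ht)
    · exact h1 t ((le_max_left _ _).trans ht) p hp

/-- if every vertex is in finitely many flipped paths, then the limit is an orientation without
augmenting paths -/
theorem limO_spec {G : SimpleGraph V} {d : ℕ} (h : Std G d) {n : ℕ} {c : Obj V → ℕ}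
    (hc : Proper G n n c) {O : V → V → Prop} (hO : Ori G O)
    (hfin : ∀ x, {q : ℕ × Obj V | TakeF G n c O q.1 q.2 ∧ x ∈ vs q.2}.Finite) :
    Ori G (limO G n c O) ∧ (∀ l, ¬ AppF G n (limO G n c O) l) ∧
      ∀ x, ({q : ℕ × Obj V | TakeF G n c O q.1 q.2 ∧ x ∈ vs q.2} = ∅ →
        ∀ y, (limO G n c O x y ↔ O x y) ∧ (limO G n c O y x ↔ O y x)) := by
  classical
  have hT : ∀ x, ∃ T, ∀ t, T ≤ t → ∀ l, TakeF G n c O t l → x ∉ vs l := by
    intro x
    refine ⟨(hfin x).toFinset.sup (fun q => q.1) + 1, fun t ht l hl hx => ?_⟩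
    have hmem : ((t, l) : ℕ × Obj V) ∈ (hfin x).toFinset := (hfin x).mem_toFinset.2 ⟨hl, hx⟩
    have := Finset.le_sup (f := fun q : ℕ × Obj V => q.1) hmem
    simp only at this
    omega
  refine ⟨?_, ?_, ?_⟩
  · intro x y
    obtain ⟨T, hT⟩ := hT x
    have h1 := Flip_lim hT T le_rfl y
    have h2 := Flip_ori h hc hO T x y
    rw [h1.1, h1.2] at h2
    exact h2
  · rintro l ⟨hl, a, b, hp, ha, hb⟩
    have hab : a ≠ b := by
      rintro rfl
      unfold exP at ha
      unfold exN at hb
      omega
    obtain ⟨Ta, hTa⟩ := hT a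
    obtain ⟨Tb, hTb⟩ := hT b
    obtain ⟨Tl, hTl⟩ := Flip_bound (fun t p => stO G n c O t p.1 p.2 ↔ limO G n c O p.1 p.2)
      (fun p => by
        obtain ⟨T, hT⟩ := hT p.1
        exact ⟨T, fun t ht => (Flip_lim hT t ht p.2).1⟩) l
    have hdeg : ∀ (x : V) (T : ℕ), (∀ t, T ≤ t → ∀ l, TakeF G n c O t l → x ∉ vs l) →
        ∀ t, T ≤ t → dg (stO G n c O t) x = dg (limO G n c O) x ∧
          dgi (stO G n c O t) x = dgi (limO G n c O) x := by
      intro x T hT t ht
      have h1 := Flip_lim hT t ht
      constructor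
      · unfold dg
        congr 1
        ext y
        exact (h1 y).1
      · unfold dgi
        congr 1
        ext y
        exact (h1 y).2
    have happ : ∀ t, max (max Ta Tb) Tl ≤ t → AppF G n (stO G n c O t) l := by
      intro t ht
      refine ⟨hl, a, b, Flip_dpath hp fun p hp' h' => (hTl t ((le_max_right _ _).trans ht) p hp').2 h',
        ?_, ?_⟩
      · have h1 := hdeg a Ta hTa t (((le_max_left _ _).trans (le_max_left _ _)).trans ht)
        unfold exP at ha ⊢
        rw [h1.1, h1.2]
        exact ha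
      · have h1 := hdeg b Tb hTb t (((le_max_right _ _).trans (le_max_left _ _)).trans ht)
        unfold exN at hb ⊢
        rw [h1.1, h1.2]
        exact hb
    have ht : Ta ≤ Nat.pair (c l) (max (max Ta Tb) Tl) :=
      ((le_max_left _ _).trans (le_max_left _ _)).trans (Nat.right_le_pair _ _)
    refine hTa _ ht l ⟨?_, happ _ (Nat.right_le_pair _ _)⟩ (Flip_mem_vs hp hab)
    rw [Nat.unpair_pair]
  · intro x hx y
    have h0 : ∀ t, 0 ≤ t → ∀ l, TakeF G n c O t l → x ∉ vs l := by
      intro t _ l hl hxl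
      have : ((t, l) : ℕ × Obj V) ∈ {q : ℕ × Obj V | TakeF G n c O q.1 q.2 ∧ x ∈ vs q.2} :=
        ⟨hl, hxl⟩
      rw [hx] at this
      exact this
    have h1 := Flip_lim h0 0 le_rfl y
    exact ⟨h1.1.symm, h1.2.symm⟩

end Pool.Agent.FIIDU
end

section

/-!
# MP_767f1c_pr: the Walsh functions
-/

set_option autoImplicit false

namespace Pool.Agent.FIIDU

open MeasureTheory Set Filter
open scoped ENNReal


variable {V : Type}

/-- the Walsh functions -/
noncomputable def wal (S : Finset (V × ℕ)) (ω : Om V) : ℝ :=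
  ∏ p ∈ S, (if ω p then (1 : ℝ) else -1)

theorem wal_abs (S : Finset (V × ℕ)) (ω : Om V) : |wal S ω| = 1 := by
  unfold wal
  rw [Finset.abs_prod]
  apply Finset.prod_eq_one
  intro p _
  split_ifs <;> simp

theorem wal_meas (S : Finset (V × ℕ)) : Measurable (wal S) := by
  unfold wal
  apply Finset.measurable_fun_prod
  intro p _
  exact (measurable_of_countable (fun b : Bool => if b then (1 : ℝ) else -1)).comp (measurable_pi_apply p)

private theorem WaA_prod_int (s : Finset (V × ℕ)) (g : V × ℕ → Bool → ℝ) :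
    ∫ ω, ∏ p ∈ s, g p (ω p) ∂PP V = ∏ p ∈ s, ∫ b, g p b ∂coin := by
  have h1 : ∀ ω : Om V, ∏ p ∈ s, g p (ω p) =
      (fun y : (i : s) → Bool => ∏ p : s, g p (y p)) (s.restrict ω) := by
    intro ω
    simp only [Finset.restrict]
    exact (Finset.prod_coe_sort s (fun p => g p (ω p))).symm
  simp only [h1]
  unfold PP
  rw [integral_restrict_infinitePi (μ := fun _ : V × ℕ => coin)
    (f := fun y : (i : s) → Bool => ∏ p : s, g p (y p))]
  · rw [integral_fintype_prod_eq_prod (fun (p : s) b => g p b)]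
    exact Finset.prod_coe_sort s (fun p => ∫ b, g p b ∂coin)
  · apply Measurable.aestronglyMeasurable
    apply Finset.measurable_fun_prod
    intro p _
    exact (measurable_of_countable (g p)).comp (measurable_pi_apply p)

private theorem WaA_coin (g : Bool → ℝ) : ∫ b, g b ∂coin = (g true + g false) / 2 := by
  unfold coin
  rw [integral_smul_measure, integral_add_measure, integral_dirac, integral_dirac]
  · simp
    ring
  · exact integrable_dirac (by finiteness)
  · exact integrable_dirac (by finiteness)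

open Classical in
/-- the Walsh functions are orthonormal -/
theorem wal_ortho (S T : Finset (V × ℕ)) :
    ∫ ω, wal S ω * wal T ω ∂PP V = if S = T then 1 else 0 := by
  obtain ⟨g, hg⟩ : ∃ g : V × ℕ → Bool → ℝ, ∀ p b, g p b =
      (if p ∈ S then (if b then (1 : ℝ) else -1) else 1) *
        (if p ∈ T then (if b then (1 : ℝ) else -1) else 1) := ⟨_, fun _ _ => rfl⟩
  have h1 : (fun ω : Om V => wal S ω * wal T ω) = fun ω => ∏ p ∈ S ∪ T, g p (ω p) := by
    funext ω
    rw [Finset.prod_congr rfl (fun p _ => hg p (ω p)), Finset.prod_mul_distrib, Finset.prod_ite_mem,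
      Finset.prod_ite_mem, Finset.union_inter_cancel_left, Finset.union_inter_cancel_right]
    rfl
  rw [h1, WaA_prod_int]
  by_cases hST : S = T
  · rw [if_pos hST]
    apply Finset.prod_eq_one
    intro p hp
    rw [WaA_coin, hg, hg]
    subst hST
    rw [Finset.union_self] at hp
    simp [hp]
  · rw [if_neg hST]
    obtain ⟨p, hp⟩ : ∃ p, ¬ (p ∈ S ↔ p ∈ T) := by
      by_contra hcon
      push Not at hcon
      exact hST (Finset.ext (fun p => by have := hcon p; tauto))
    have hpU : p ∈ S ∪ T := by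
      rw [Finset.mem_union]; tauto
    apply Finset.prod_eq_zero hpU
    rw [WaA_coin, hg, hg]
    by_cases hS : p ∈ S
    · have hT : p ∉ T := by tauto
      simp [hS, hT]
    · have hT : p ∈ T := by tauto
      simp [hS, hT]

end Pool.Agent.FIIDU
end
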