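import Pool.Agent.Lib.MP_767f1c_pr.U.Defs
import Pool.Agent.Lib.MP_767f1c_pr.Mg.G001

section

/-!
# MP_767f1c_pr: infinite components
-/

set_option autoImplicit false

namespace Pool.Agent.FIIDU

open Set Filter


variable {V : Type}

/-- infinite, connected, transitive, locally finite -/
structure TG (G : SimpleGraph V) : Prop where
  conn : G.Connected
  trans : ∀ x y : V, ∃ φ : G ≃g G, φ x = y
  fin : ∀ x, {y | G.Adj x y}.Finite
  inf : Infinite V

/-- connected outside of `K` -/
def RA (G : SimpleGraph V) (K : Set V) : V → V → Prop :=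
  Relation.ReflTransGen (fun x y => G.Adj x y ∧ x ∉ K ∧ y ∉ K)

theorem TG.ball_fin {G : SimpleGraph V} (h : TG G) (x : V) (r : ℕ) : (ball G x r).Finite := by
  induction r with
  | zero =>
    refine (Set.finite_singleton x).subset ?_
    intro y hy
    have hy' : G.dist x y ≤ 0 := hy
    have h0 : G.dist x y = 0 := Nat.le_zero.mp hy'
    rw [h.conn.dist_eq_zero_iff] at h0
    exact h0.symm
  | succ r ih =>
    have hU : (⋃ y ∈ ball G x r, {z | G.Adj y z}).Finite :=
      ih.biUnion (fun y _ => h.fin y)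
    refine ((ih.union hU)).subset ?_
    intro z hz
    have hz' : G.dist x z ≤ r + 1 := hz
    by_cases hr : G.dist x z ≤ r
    · exact Or.inl hr
    · right
      have hd : G.dist x z = r + 1 := by omega
      obtain ⟨p, hp⟩ := h.conn.exists_walk_length_eq_dist z x
      rw [SimpleGraph.dist_comm, hd] at hp
      cases p with
      | nil => simp at hp
      | @cons _ y _ hadj q =>
        have hq : q.length = r := by
          rw [SimpleGraph.Walk.length_cons] at hp
          omega
        have hxy : G.dist x y ≤ r := by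
          rw [SimpleGraph.dist_comm, ← hq]
          exact SimpleGraph.dist_le q
        simp only [Set.mem_iUnion]
        exact ⟨y, hxy, hadj.symm⟩

/-- there are `m` different infinite components outside of the ball of radius `R` -/
def EndsGe (G : SimpleGraph V) (o : V) (R m : ℕ) : Prop :=
  ∃ x : Fin m → V, (∀ i, x i ∉ ball G o R ∧ {y | RA G (ball G o R) (x i) y}.Infinite) ∧
    ∀ i j, i ≠ j → ¬ RA G (ball G o R) (x i) (x j)

/-- an infinite component outside of a finite set contains an infinite component outside of a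
larger finite set -/
theorem exists_inf_comp {G : SimpleGraph V} (h : TG G) {K K' : Set V} (hK' : K'.Finite)
    (hsub : K ⊆ K') {x : V} (hx : x ∉ K) (hinf : {y | RA G K x y}.Infinite) :
    ∃ x', x' ∉ K' ∧ RA G K x x' ∧ {y | RA G K' x' y}.Infinite := by
  by_contra hcon
  push Not at hcon
  set B : Set V := {b | b ∉ K' ∧ RA G K x b ∧ ∃ k ∈ K', G.Adj k b} with hB
  have hBfin : B.Finite := by
    refine (hK'.biUnion (fun k _ => h.fin k)).subset ?_
    rintro b ⟨-, -, k, hk, hkb⟩
    simp only [Set.mem_iUnion]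
    exact ⟨k, hk, hkb⟩
  have hcov : ∀ z, RA G K x z →
      z ∈ K' ∨ (z ∉ K' ∧ ((x ∉ K' ∧ RA G K' x z) ∨ ∃ b ∈ B, RA G K' b z)) := by
    intro z hz
    induction hz with
    | refl =>
      by_cases hxK : x ∈ K'
      · exact Or.inl hxK
      · exact Or.inr ⟨hxK, Or.inl ⟨hxK, Relation.ReflTransGen.refl⟩⟩
    | @tail y z hxy hyz ih =>
      by_cases hzK : z ∈ K'
      · exact Or.inl hzK
      · right
        refine ⟨hzK, ?_⟩
        rcases ih with hyK | ⟨hyK, ⟨hxK, hr⟩ | ⟨b, hb, hr⟩⟩
        · exact Or.inr ⟨z, ⟨hzK, hxy.tail hyz, y, hyK, hyz.1⟩, Relation.ReflTransGen.refl⟩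
        · exact Or.inl ⟨hxK, hr.tail ⟨hyz.1, hyK, hzK⟩⟩
        · exact Or.inr ⟨b, hb, hr.tail ⟨hyz.1, hyK, hzK⟩⟩
  have hfin2 : (⋃ b ∈ B, {z | RA G K' b z}).Finite := by
    refine hBfin.biUnion (fun b hb => ?_)
    exact hcon b hb.1 hb.2.1
  have hfin1 : {z | x ∉ K' ∧ RA G K' x z}.Finite := by
    by_cases hxK : x ∈ K'
    · refine Set.Finite.subset Set.finite_empty ?_
      rintro z ⟨h1, -⟩
      exact (h1 hxK).elim
    · refine (hcon x hxK Relation.ReflTransGen.refl).subset ?_
      rintro z ⟨-, h1⟩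
      exact h1
  refine hinf ((hK'.union (hfin1.union hfin2)).subset ?_)
  intro z hz
  rcases hcov z hz with h1 | ⟨-, h1 | ⟨b, hb, h1⟩⟩
  · exact Or.inl h1
  · exact Or.inr (Or.inl h1)
  · refine Or.inr (Or.inr ?_)
    simp only [Set.mem_iUnion]
    exact ⟨b, hb, h1⟩

end Pool.Agent.FIIDU
end

section

/-!
# MP_767f1c_pr: three ends give many ends
-/

set_option autoImplicit false

namespace Pool.Agent.FIIDU

open Set Filter


variable {V : Type}

theorem GrB_symm {G : SimpleGraph V} {K : Set V} {x y : V} (h : RA G K x y) : RA G K y x := by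
  induction h with
  | refl => exact Relation.ReflTransGen.refl
  | tail _ hbc ih => exact Relation.ReflTransGen.head ⟨hbc.1.symm, hbc.2.2, hbc.2.1⟩ ih

theorem GrB_trans {G : SimpleGraph V} {K : Set V} {x y z : V} (h : RA G K x y)
    (h' : RA G K y z) : RA G K x z := Relation.ReflTransGen.trans h h'

theorem GrB_mono {G : SimpleGraph V} {K K' : Set V} (hK : K ⊆ K') {x y : V}
    (h : RA G K' x y) : RA G K x y := by
  induction h with
  | refl => exact Relation.ReflTransGen.refl
  | tail _ hbc ih =>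
    exact Relation.ReflTransGen.tail ih ⟨hbc.1, fun h => hbc.2.1 (hK h), fun h => hbc.2.2 (hK h)⟩

theorem GrB_prev {G : SimpleGraph V} (hc : G.Connected) {o y : V} {n : ℕ}
    (h : G.dist o y = n + 1) : ∃ y', G.Adj y y' ∧ G.dist o y' = n := by
  have h' : G.dist y o = n + 1 := by rw [SimpleGraph.dist_comm]; exact h
  obtain ⟨p, hp⟩ := hc.exists_walk_length_eq_dist y o
  cases p with
  | nil => simp at h'
  | @cons _ y' _ ha q =>
    refine ⟨y', ha, ?_⟩
    have h1 : G.dist y' o ≤ q.length := SimpleGraph.dist_le q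
    have h2 : G.dist y o ≤ G.dist y y' + G.dist y' o := hc.dist_triangle
    have h3 : G.dist y y' ≤ 1 := by
      have := SimpleGraph.dist_le (SimpleGraph.Walk.cons ha SimpleGraph.Walk.nil)
      simpa using this
    have h4 : q.length + 1 = G.dist y o := by simpa using hp
    rw [SimpleGraph.dist_comm]
    omega

/-- a ball whose points are outside of `K` is connected outside of `K` -/
theorem GrB_ball {G : SimpleGraph V} (hc : G.Connected) {K : Set V} {v : V} {R : ℕ}
    (hK : ∀ y ∈ ball G v R, y ∉ K) : ∀ n : ℕ, ∀ y : V, G.dist v y = n → n ≤ R →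
    RA G K v y := by
  intro n
  induction n with
  | zero =>
    intro y hy _
    have : v = y := by
      have := (hc.dist_eq_zero_iff (u := v) (v := y)).1 hy
      exact this
    rw [this]; exact Relation.ReflTransGen.refl
  | succ n ih =>
    intro y hy hn
    obtain ⟨y', ha, hy'⟩ := GrB_prev hc hy
    have hy2 : y' ∈ ball G v R := by
      simp only [ball, Set.mem_ofPred_eq]; omega
    have hy3 : y ∈ ball G v R := by
      simp only [ball, Set.mem_ofPred_eq]; omega
    exact Relation.ReflTransGen.tail (ih y' hy' (by omega)) ⟨ha.symm, hK y' hy2, hK y hy3⟩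

/-- every vertex outside of `K` is connected to a neighbour of `K` outside of `K` -/
theorem GrB_attach {G : SimpleGraph V} (hc : G.Connected) {K : Set V} {o : V} (ho : o ∈ K) :
    ∀ n : ℕ, ∀ x : V, G.dist o x = n → x ∉ K → ∃ z w, RA G K x z ∧ G.Adj z w ∧ w ∈ K ∧ z ∉ K := by
  intro n
  induction n with
  | zero =>
    intro x hx hxK
    have := (hc.dist_eq_zero_iff (u := o) (v := x)).1 hx
    exact absurd (this ▸ ho) hxK
  | succ n ih =>
    intro x hx hxK
    obtain ⟨x', ha, hx'⟩ := GrB_prev hc hx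
    by_cases hxK' : x' ∈ K
    · exact ⟨x, x', Relation.ReflTransGen.refl, ha, hxK', hxK⟩
    · obtain ⟨z, w, h1, h2, h3, h4⟩ := ih x' hx' hxK'
      exact ⟨z, w, Relation.ReflTransGen.head ⟨ha, hxK, hxK'⟩ h1, h2, h3, h4⟩

/-- vertices connected outside of `K` are outside of `K` -/
theorem GrB_out {G : SimpleGraph V} {K : Set V} {x y : V} (h : RA G K x y) (hx : x ∉ K) :
    y ∉ K := by
  induction h with
  | refl => exact hx
  | tail _ hbc _ => exact hbc.2.2

/-- change of the forbidden set -/
theorem GrB_change {G : SimpleGraph V} {K K' : Set V} {x y : V} (h : RA G K x y)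
    (hC : ∀ z, RA G K x z → z ∉ K') : RA G K' x y := by
  induction h with
  | refl => exact Relation.ReflTransGen.refl
  | @tail b c hab hbc ih =>
    exact Relation.ReflTransGen.tail ih ⟨hbc.1, hC b hab, hC c (hab.tail hbc)⟩

theorem GrB_map {G : SimpleGraph V} (φ : G ≃g G) {K K' : Set V}
    (hK : ∀ x, φ x ∈ K' ↔ x ∈ K) {x y : V} (h : RA G K x y) : RA G K' (φ x) (φ y) := by
  induction h with
  | refl => exact Relation.ReflTransGen.refl
  | @tail b c hab hbc ih =>
    exact Relation.ReflTransGen.tail ih ⟨φ.map_adj_iff.2 hbc.1, fun h => hbc.2.1 ((hK b).1 h),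
      fun h => hbc.2.2 ((hK c).1 h)⟩

theorem GrB_map' {G : SimpleGraph V} (φ : G ≃g G) {K K' : Set V}
    (hK : ∀ x, φ x ∈ K' ↔ x ∈ K) {x y : V} (h : RA G K' (φ x) (φ y)) : RA G K x y := by
  have h1 := GrB_map (K := K') (K' := K) φ.symm (fun z => by
    have := hK (φ.symm z)
    rw [RelIso.apply_symm_apply] at this
    exact this.symm) h
  simpa using h1

theorem GrB_dist {G : SimpleGraph V} (φ : G ≃g G) (x y : V) :
    G.dist (φ x) (φ y) = G.dist x y := by
  apply le_antisymm
  · by_cases hr : G.Reachable x y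
    · obtain ⟨p, hp⟩ := hr.exists_walk_length_eq_dist
      have := SimpleGraph.dist_le (p.map φ.toHom)
      rw [SimpleGraph.Walk.length_map, hp] at this
      exact this
    · have : ¬ G.Reachable (φ x) (φ y) := by
        intro hr'
        apply hr
        have := hr'.map φ.symm.toHom
        simpa using this
      rw [SimpleGraph.dist_eq_zero_of_not_reachable this]
      exact Nat.zero_le _
  · by_cases hr : G.Reachable (φ x) (φ y)
    · obtain ⟨p, hp⟩ := hr.exists_walk_length_eq_dist
      have := SimpleGraph.dist_le (p.map φ.symm.toHom)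
      rw [SimpleGraph.Walk.length_map, hp] at this
      simpa using this
    · have : ¬ G.Reachable x y := by
        intro hr'
        apply hr
        exact hr'.map φ.toHom
      rw [SimpleGraph.dist_eq_zero_of_not_reachable this]
      exact Nat.zero_le _

theorem GrB_endsGe {G : SimpleGraph V} {o : V} {R m : ℕ} {ι : Type} [Fintype ι]
    (hι : Fintype.card ι = m) (x : ι → V)
    (hx : ∀ i, x i ∉ ball G o R ∧ {y | RA G (ball G o R) (x i) y}.Infinite)
    (hne : ∀ i j, i ≠ j → ¬ RA G (ball G o R) (x i) (x j)) : EndsGe G o R m := by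
  have e : Fin m ≃ ι := (Fintype.equivFinOfCardEq hι).symm
  exact ⟨fun i => x (e i), fun i => hx (e i), fun i j hij => hne _ _ (fun h => hij (e.injective h))⟩

/-- if there are at least three ends, then there are many -/
theorem endsGe_succ {G : SimpleGraph V} (h : TG G) {o : V} {R m : ℕ} (hm : 3 ≤ m)
    (he : EndsGe G o R m) : ∃ R', EndsGe G o R' (m + 1) := by
  classical
  obtain ⟨x, hx, hne⟩ := he
  set i0 : Fin m := ⟨0, by omega⟩ with hi0
  -- the vertex `v`
  have hv : ∃ v, RA G (ball G o R) (x i0) v ∧ v ∉ ball G o (2 * R + 1) := by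
    by_contra hcon
    push Not at hcon
    exact (hx i0).2 ((h.ball_fin o (2 * R + 1)).subset (fun y hy => hcon y hy))
  obtain ⟨v, hv, hvR⟩ := hv
  simp only [ball, Set.mem_ofPred_eq, not_le] at hvR
  obtain ⟨φ, hφ⟩ := h.trans o v
  have hc := h.conn
  -- the two balls are disjoint
  have hdisj : ∀ y ∈ ball G v R, y ∉ ball G o R := by
    intro y hy hy'
    simp only [ball, Set.mem_ofPred_eq] at hy hy'
    have h2 : G.dist o v ≤ G.dist o y + G.dist y v := hc.dist_triangle
    rw [SimpleGraph.dist_comm (u := y)] at h2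
    omega
  have hballC : ∀ y ∈ ball G v R, RA G (ball G o R) (x i0) y := by
    intro y hy
    exact GrB_trans hv (GrB_ball hc hdisj _ y rfl hy)
  have hφball : ∀ y, φ y ∈ ball G v R ↔ y ∈ ball G o R := by
    intro y
    simp only [ball, Set.mem_ofPred_eq]
    rw [← hφ, GrB_dist]
  have ho : o ∈ ball G o R := by simp [ball]
  -- the components of the `x i` together with `ball o R` are connected outside of `ball v R`
  have hS : ∀ i, i ≠ i0 → ∀ y, RA G (ball G o R) (x i) y → RA G (ball G v R) o y := by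
    intro i hi
    have hC : ∀ z, RA G (ball G o R) (x i) z → z ∉ ball G v R := by
      intro z hz hzv
      exact hne i i0 hi (GrB_trans hz (GrB_symm (hballC z hzv)))
    obtain ⟨z, w, h1, h2, h3, h4⟩ := GrB_attach hc ho _ (x i) rfl (hx i).1
    have h5 : RA G (ball G v R) o w :=
      GrB_ball hc (fun y hy hy' => hdisj y hy' hy) _ w rfl h3
    have h6 : RA G (ball G v R) o z :=
      Relation.ReflTransGen.tail h5 ⟨h2.symm, fun hw => hdisj w hw h3, hC z h1⟩
    have h7 : RA G (ball G v R) (x i) z := GrB_change h1 hC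
    intro y hy
    exact GrB_trans h6 (GrB_trans (GrB_symm h7) (GrB_change hy hC))
  -- two indices whose translated components do not meet `o`
  have htwo : ∃ j1 j2 : Fin m, j1 ≠ j2 ∧ ¬ RA G (ball G v R) (φ (x j1)) o ∧
      ¬ RA G (ball G v R) (φ (x j2)) o := by
    have huniq : ∀ a b : Fin m, a ≠ b → ¬ (RA G (ball G v R) (φ (x a)) o ∧
        RA G (ball G v R) (φ (x b)) o) := by
      rintro a b hab ⟨h1, h2⟩
      exact hne a b hab (GrB_map' φ hφball (GrB_trans h1 (GrB_symm h2)))
    by_cases h0 : RA G (ball G v R) (φ (x ⟨0, by omega⟩)) o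
    · refine ⟨⟨1, by omega⟩, ⟨2, by omega⟩, by simp, fun h1 => ?_, fun h1 => ?_⟩
      · exact huniq _ _ (by simp) ⟨h0, h1⟩
      · exact huniq _ _ (by simp) ⟨h0, h1⟩
    · by_cases h1 : RA G (ball G v R) (φ (x ⟨1, by omega⟩)) o
      · exact ⟨⟨0, by omega⟩, ⟨2, by omega⟩, by simp, h0,
          fun h2 => huniq _ _ (by simp) ⟨h1, h2⟩⟩
      · exact ⟨⟨0, by omega⟩, ⟨1, by omega⟩, by simp, h0, h1⟩
  obtain ⟨j1, j2, hj12, hj1, hj2⟩ := htwo
  set R' := G.dist o v + R with hR'
  have hsub1 : ball G o R ⊆ ball G o R' := by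
    intro y hy
    simp only [ball, Set.mem_ofPred_eq] at hy ⊢
    omega
  have hsub2 : ball G v R ⊆ ball G o R' := by
    intro y hy
    simp only [ball, Set.mem_ofPred_eq] at hy ⊢
    have h2 : G.dist o y ≤ G.dist o v + G.dist v y := hc.dist_triangle
    omega
  have hex1 : ∀ i : Fin m, ∃ x', x' ∉ ball G o R' ∧ RA G (ball G o R) (x i) x' ∧
      {y | RA G (ball G o R') x' y}.Infinite := fun i =>
    exists_inf_comp h (h.ball_fin o R') hsub1 (hx i).1 (hx i).2
  have hex2 : ∀ i : Fin m, ∃ x', x' ∉ ball G o R' ∧ RA G (ball G v R) (φ (x i)) x' ∧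
      {y | RA G (ball G o R') x' y}.Infinite := by
    intro i
    refine exists_inf_comp h (h.ball_fin o R') hsub2
      (fun hh => (hx i).1 ((hφball (x i)).1 hh)) ?_
    have hsub : φ '' {y | RA G (ball G o R) (x i) y} ⊆ {y | RA G (ball G v R) (φ (x i)) y} := by
      rintro _ ⟨y, hy, rfl⟩
      exact GrB_map φ hφball hy
    exact ((hx i).2.image (φ.injective.injOn)).mono hsub
  choose a ha using hex1
  choose b hb using hex2
  refine ⟨R', GrB_endsGe (ι := {i : Fin m // i ≠ i0} ⊕ Bool) ?_
    (Sum.elim (fun i => a i.1) (fun t => if t then b j1 else b j2)) ?_ ?_⟩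
  · rw [Fintype.card_sum, Fintype.card_bool]
    have : Fintype.card {i : Fin m // i ≠ i0} = m - 1 := by
      rw [Fintype.card_subtype_compl]
      simp
    rw [this]; omega
  · rintro (i | t)
    · exact ⟨(ha i.1).1, (ha i.1).2.2⟩
    · cases t
      · exact ⟨(hb j2).1, (hb j2).2.2⟩
      · exact ⟨(hb j1).1, (hb j1).2.2⟩
  · -- the cross case
    have hcross : ∀ i, i ≠ i0 → ∀ j, ¬ RA G (ball G v R) (φ (x j)) o →
        ¬ RA G (ball G o R') (a i) (b j) := by
      intro i hi j hj hab
      have h1 : RA G (ball G v R) (a i) (b j) := GrB_mono hsub2 hab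
      have h2 : RA G (ball G v R) o (a i) := hS i hi _ (ha i).2.1
      exact hj (GrB_symm (GrB_trans (GrB_trans h2 h1) (GrB_symm (hb j).2.1)))
    have hbb : ∀ i j, i ≠ j → ¬ RA G (ball G o R') (b i) (b j) := by
      intro i j hij hab
      have h1 : RA G (ball G v R) (b i) (b j) := GrB_mono hsub2 hab
      exact hne i j hij (GrB_map' φ hφball
        (GrB_trans (GrB_trans (hb i).2.1 h1) (GrB_symm (hb j).2.1)))
    rintro (i | t) (j | s) hij hr
    · have hij' : i.1 ≠ j.1 := fun hh => hij (by rw [Subtype.ext hh])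
      exact hne i.1 j.1 hij' (GrB_trans (GrB_trans (ha i.1).2.1 (GrB_mono hsub1 hr))
        (GrB_symm (ha j.1).2.1))
    · cases s
      · exact hcross i.1 i.2 j2 hj2 hr
      · exact hcross i.1 i.2 j1 hj1 hr
    · cases t
      · exact hcross j.1 j.2 j2 hj2 (GrB_symm hr)
      · exact hcross j.1 j.2 j1 hj1 (GrB_symm hr)
    · cases t <;> cases s
      · exact hij rfl
      · exact hbb j2 j1 (Ne.symm hj12) hr
      · exact hbb j1 j2 hj12 hr
      · exact hij rfl

end Pool.Agent.FIIDU
end

section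

/-!
# MP_767f1c_pr: many ends give many vertices in spheres
-/

set_option autoImplicit false

namespace Pool.Agent.FIIDU

open Set Filter


variable {V : Type}

theorem GrC_prev {G : SimpleGraph V} (hc : G.Connected) {o y : V} {n : ℕ}
    (h : G.dist o y = n + 1) : ∃ y', G.Adj y y' ∧ G.dist o y' = n := by
  have h' : G.dist y o = n + 1 := by rw [SimpleGraph.dist_comm]; exact h
  obtain ⟨p, hp⟩ := hc.exists_walk_length_eq_dist y o
  cases p with
  | nil => simp at h'
  | @cons _ y' _ ha q =>
    refine ⟨y', ha, ?_⟩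
    have h1 : G.dist y' o ≤ q.length := SimpleGraph.dist_le q
    have h2 : G.dist y o ≤ G.dist y y' + G.dist y' o := hc.dist_triangle
    have h3 : G.dist y y' ≤ 1 := by
      have := SimpleGraph.dist_le (SimpleGraph.Walk.cons ha SimpleGraph.Walk.nil)
      simpa using this
    have h4 : q.length + 1 = G.dist y o := by simpa using hp
    rw [SimpleGraph.dist_comm]
    omega

theorem GrC_level {G : SimpleGraph V} (hc : G.Connected) {o : V} {R k : ℕ} (hk : R < k) :
    ∀ n : ℕ, ∀ y : V, G.dist o y = k + n → ∃ z, G.dist o z = k ∧ RA G (ball G o R) z y := by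
  intro n
  induction n with
  | zero => intro y hy; exact ⟨y, by simpa using hy, Relation.ReflTransGen.refl⟩
  | succ n ih =>
    intro y hy
    obtain ⟨y', ha, hy'⟩ := GrC_prev hc (show G.dist o y = (k + n) + 1 by omega)
    obtain ⟨z, hz, hr⟩ := ih y' hy'
    refine ⟨z, hz, Relation.ReflTransGen.tail hr ⟨ha.symm, ?_, ?_⟩⟩
    · simp only [ball, Set.mem_ofPred_eq, not_le]; omega
    · simp only [ball, Set.mem_ofPred_eq, not_le]; omega

theorem GrC_symm {G : SimpleGraph V} {K : Set V} {x y : V} (h : RA G K x y) : RA G K y x := by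
  induction h with
  | refl => exact Relation.ReflTransGen.refl
  | tail _ hbc ih => exact Relation.ReflTransGen.head ⟨hbc.1.symm, hbc.2.2, hbc.2.1⟩ ih

theorem GrC_trans {G : SimpleGraph V} {K : Set V} {x y z : V} (h : RA G K x y)
    (h' : RA G K y z) : RA G K x z := Relation.ReflTransGen.trans h h'

theorem GrC_mono {G : SimpleGraph V} {K K' : Set V} (hK : K ⊆ K') {x y : V}
    (h : RA G K' x y) : RA G K x y := by
  induction h with
  | refl => exact Relation.ReflTransGen.refl
  | tail _ hbc ih =>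
    exact Relation.ReflTransGen.tail ih ⟨hbc.1, fun h => hbc.2.1 (hK h), fun h => hbc.2.2 (hK h)⟩

/-- `m` ends give `m` vertices in every large sphere -/
theorem endsGe_growth {G : SimpleGraph V} (h : TG G) {o : V} {R m : ℕ}
    (he : EndsGe G o R m) (r : ℕ) : m * r ≤ (ball G o r).ncard + m * R := by
  classical
  obtain ⟨x, hx, hne⟩ := he
  rcases le_or_gt r R with hr | hr
  · exact (Nat.mul_le_mul_left m hr).trans (Nat.le_add_left _ _)
  have key : ∀ (i : Fin m) (k : ℕ), R < k → ∃ z, G.dist o z = k ∧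
      RA G (ball G o R) (x i) z := by
    intro i k hk
    have hinf := (hx i).2
    have : ∃ y, RA G (ball G o R) (x i) y ∧ y ∉ ball G o k := by
      by_contra hcon
      push Not at hcon
      exact hinf ((h.ball_fin o k).subset (fun y hy => hcon y hy))
    obtain ⟨y, hy, hyk⟩ := this
    simp only [ball, Set.mem_ofPred_eq, not_le] at hyk
    obtain ⟨z, hz, hr⟩ := GrC_level (G := G) (o := o) h.conn hk (G.dist o y - k) y
      (by omega)
    exact ⟨z, hz, GrC_trans hy (GrC_symm hr)⟩
  choose f hf using key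
  have hinj : Set.InjOn (fun p : Fin m × ℕ => if hp : R < p.2 then f p.1 p.2 hp else o)
      (↑((Finset.univ : Finset (Fin m)) ×ˢ (Finset.Ioc R r)) : Set (Fin m × ℕ)) := by
    rintro ⟨i, k⟩ hk ⟨j, l⟩ hl hkl
    simp only [Finset.coe_product, Finset.coe_univ, Finset.coe_Ioc, Set.mem_prod, Set.mem_univ,
      Set.mem_Ioc, true_and] at hk hl
    simp only [hk.1, hl.1, dif_pos] at hkl
    have h1 := hf i k hk.1
    have h2 := hf j l hl.1
    rw [hkl] at h1
    have hkl' : k = l := h1.1.symm.trans h2.1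
    have hij : i = j := by
      by_contra hij
      exact hne i j hij (GrC_trans h1.2 (GrC_symm h2.2))
    rw [hkl', hij]
  have hsub : ((fun p : Fin m × ℕ => if hp : R < p.2 then f p.1 p.2 hp else o) ''
      (↑((Finset.univ : Finset (Fin m)) ×ˢ (Finset.Ioc R r)) : Set (Fin m × ℕ))) ⊆
      ball G o r := by
    rintro _ ⟨⟨i, k⟩, hk, rfl⟩
    simp only [Finset.coe_product, Finset.coe_univ, Finset.coe_Ioc, Set.mem_prod, Set.mem_univ,
      Set.mem_Ioc, true_and] at hk
    simp only [hk.1, dif_pos, ball, Set.mem_ofPred_eq]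
    rw [(hf i k hk.1).1]
    exact hk.2
  have h3 := Set.ncard_le_ncard hsub (h.ball_fin o r)
  rw [hinj.ncard_image, Set.ncard_coe_finset, Finset.card_product,
    Finset.card_univ, Fintype.card_fin, Nat.card_Ioc] at h3
  have h4 : m * r = m * (r - R) + m * R := by
    rw [← Nat.mul_add]; congr 1; omega
  omega

end Pool.Agent.FIIDU
end

section

/-!
# MP_767f1c_pr: linear growth excludes three ends
-/

set_option autoImplicit false

namespace Pool.Agent.FIIDU

open Set Filter


variable {V : Type}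

/-- linear growth excludes three ends -/
theorem not_endsGe_three {G : SimpleGraph V} (h : TG G) {o : V} {c : ℕ}
    (hlin : ∀ r, 1 ≤ r → (ball G o r).ncard < c * r) (R : ℕ) : ¬ EndsGe G o R 3 := by
  intro he
  have hall : ∀ n : ℕ, ∃ R', EndsGe G o R' (n + 3) := by
    intro n
    induction n with
    | zero => exact ⟨R, he⟩
    | succ n ih =>
      obtain ⟨R', hR'⟩ := ih
      obtain ⟨R'', hR''⟩ := endsGe_succ h (by omega) hR'
      exact ⟨R'', by rw [show n + 1 + 3 = n + 3 + 1 by omega]; exact hR''⟩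
  obtain ⟨R', hR'⟩ := hall c
  have h1 := endsGe_growth h hR' ((c + 3) * R' + 1)
  have h2 := hlin ((c + 3) * R' + 1) (by omega)
  have h3 : (c + 3) * ((c + 3) * R' + 1) =
    c * ((c + 3) * R' + 1) + 3 * ((c + 3) * R' + 1) := by ring
  omega

end Pool.Agent.FIIDU
end

section

/-!
# MP_767f1c_pr: linear growth gives a finite level set
-/

set_option autoImplicit false

namespace Pool.Agent.FIIDU

open Set Filter


variable {V : Type}

private theorem gdist_map {G : SimpleGraph V} (hc : G.Connected) (φ : G ≃g G) (x y : V) :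
    G.dist (φ x) (φ y) = G.dist x y := by
  have key : ∀ (ψ : G ≃g G) (a b : V), G.dist (ψ a) (ψ b) ≤ G.dist a b := by
    intro ψ a b
    obtain ⟨p, hp⟩ := hc.exists_walk_length_eq_dist a b
    rw [← hp]
    have := SimpleGraph.dist_le (p.map ψ.toHom)
    rwa [SimpleGraph.Walk.length_map] at this
  refine le_antisymm (key φ x y) ?_
  have := key φ.symm (φ x) (φ y)
  simpa using this

private theorem exists_geo {G : SimpleGraph V} (h : TG G) (o : V) (n : ℕ) :
    ∃ g : ℕ → V, g 0 = o ∧ ∀ i j, i ≤ j → j ≤ n → G.dist (g i) (g j) = j - i := by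
  have hinf := h.inf
  obtain ⟨u, hu⟩ : ∃ u, u ∉ ball G o n := by
    by_contra hcon
    push Not at hcon
    have : (univ : Set V).Finite := (h.ball_fin o n).subset fun x _ => hcon x
    exact Set.infinite_univ this
  have hun : n < G.dist o u := by
    have : ¬ G.dist o u ≤ n := hu
    omega
  obtain ⟨p, hp⟩ := h.conn.exists_walk_length_eq_dist o u
  have hstep : ∀ i k, G.dist (p.getVert i) (p.getVert (i + k)) ≤ k := by
    intro i k
    induction k with
    | zero => simp
    | succ k ih =>
      rw [← Nat.add_assoc]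
      by_cases hik : i + k < p.length
      · have h1 := p.adj_getVert_succ hik
        have h2 : G.dist (p.getVert (i + k)) (p.getVert (i + k + 1)) = 1 :=
          SimpleGraph.dist_eq_one_iff_adj.2 h1
        have h3 := h.conn.dist_triangle (u := p.getVert i) (v := p.getVert (i + k))
          (w := p.getVert (i + k + 1))
        omega
      · rw [p.getVert_of_length_le (show p.length ≤ i + k + 1 by omega)]
        rw [p.getVert_of_length_le (show p.length ≤ i + k by omega)] at ih
        omega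
  refine ⟨p.getVert, p.getVert_zero, fun i j hij hjn => ?_⟩
  have h1 := hstep i (j - i)
  rw [Nat.add_sub_cancel' hij] at h1
  have h2 := hstep 0 i
  rw [Nat.zero_add, p.getVert_zero] at h2
  have h3 := hstep j (p.length - j)
  rw [Nat.add_sub_cancel' (by omega), p.getVert_length] at h3
  have h4 := h.conn.dist_triangle (u := o) (v := p.getVert i) (w := u)
  have h5 := h.conn.dist_triangle (u := p.getVert i) (v := p.getVert j) (w := u)
  omega

private theorem freq_sphere {G : SimpleGraph V} (h : TG G) {o : V} {c : ℕ}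
    (hlin : ∀ r, 1 ≤ r → (ball G o r).ncard < c * r) (K : ℕ) :
    ∃ k, K ≤ k ∧ {x | G.dist o x = k}.ncard ≤ c := by
  by_contra hcon
  push Not at hcon
  have hind : ∀ n, (c + 1) * (n + 1) ≤ (ball G o (K + n)).ncard := by
    intro n
    induction n with
    | zero =>
      have h1 := hcon K le_rfl
      have h2 : {x | G.dist o x = K} ⊆ ball G o (K + 0) := fun x hx => le_of_eq hx
      have h3 := Set.ncard_le_ncard h2 (h.ball_fin o (K + 0))
      omega
    | succ n ih =>
      have h1 : ball G o (K + n) ∪ {x | G.dist o x = K + n + 1} ⊆ ball G o (K + (n + 1)) := by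
        rintro x (hx | hx)
        · have : G.dist o x ≤ K + n := hx
          change G.dist o x ≤ K + (n + 1)
          omega
        · have : G.dist o x = K + n + 1 := hx
          change G.dist o x ≤ K + (n + 1)
          omega
      have h2 : Disjoint (ball G o (K + n)) {x | G.dist o x = K + n + 1} := by
        rw [Set.disjoint_left]
        intro x hx hx'
        have e1 : G.dist o x ≤ K + n := hx
        have e2 : G.dist o x = K + n + 1 := hx'
        omega
      have h3 := Set.ncard_le_ncard h1 (h.ball_fin o (K + (n + 1)))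
      rw [Set.ncard_union_eq h2 (h.ball_fin o _)
        ((h.ball_fin o (K + (n + 1))).subset (Set.subset_union_right.trans h1))] at h3
      have h4 := hcon (K + n + 1) (by omega)
      nlinarith
  have h1 := hind (c * K + 1)
  have h2 := hlin (K + (c * K + 1)) (by omega)
  nlinarith

/-- linear growth: a bi-infinite geodesic and a Lipschitz function which increases along it and
has a finite level set -/
theorem exists_level {G : SimpleGraph V} (h : TG G) {o : V} {c : ℕ}
    (hlin : ∀ r, 1 ≤ r → (ball G o r).ncard < c * r) :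
    ∃ (f : V → ℤ) (γ : ℤ → V), γ 0 = o ∧ (∀ x y, G.Adj x y → |f x - f y| ≤ 1) ∧
      (∀ s t, (G.dist (γ s) (γ t) : ℤ) = |s - t|) ∧ (∀ t, f (γ t) = t) ∧ {x | f x = 0}.Finite := by
  classical
  choose g hg0 hg using fun k => exists_geo h o (2 * k)
  choose φ hφ using fun k => h.trans (g k k) o
  let F : ℕ → V → ℤ := fun k v => (G.dist (φ k (g k 0)) v : ℤ) - k
  let Γ : ℕ → ℤ → V := fun k t => φ k (g k ((k : ℤ) + t).toNat)
  have P0 : ∀ k, Γ k 0 = o := by
    intro k
    simp only [Γ, add_zero, Int.toNat_natCast]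
    exact hφ k
  have P1' : ∀ (k : ℕ) (s t : ℤ), |s| ≤ (k : ℤ) → |t| ≤ (k : ℤ) → s ≤ t →
      (G.dist (Γ k s) (Γ k t) : ℤ) = t - s := by
    intro k s t hs ht hst
    rw [abs_le] at hs ht
    simp only [Γ]
    rw [gdist_map h.conn, hg k _ _ (by omega) (by omega)]
    omega
  have P1 : ∀ (k : ℕ) (s t : ℤ), |s| ≤ (k : ℤ) → |t| ≤ (k : ℤ) →
      (G.dist (Γ k s) (Γ k t) : ℤ) = |s - t| := by
    intro k s t hs ht
    rcases le_total s t with hst | hst
    · rw [P1' k s t hs ht hst, abs_sub_comm, abs_of_nonneg (by omega)]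
    · rw [SimpleGraph.dist_comm, P1' k t s ht hs hst, abs_of_nonneg (by omega)]
  have P2 : ∀ (k : ℕ) (t : ℤ), |t| ≤ (k : ℤ) → F k (Γ k t) = t := by
    intro k t ht
    rw [abs_le] at ht
    simp only [F, Γ]
    rw [gdist_map h.conn, hg k _ _ (Nat.zero_le _) (by omega)]
    omega
  have PL : ∀ (k : ℕ) (x y : V), |F k x - F k y| ≤ G.dist x y := by
    intro k x y
    have h1 := h.conn.dist_triangle (u := φ k (g k 0)) (v := x) (w := y)
    have h2 := h.conn.dist_triangle (u := φ k (g k 0)) (v := y) (w := x)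
    rw [SimpleGraph.dist_comm (u := y) (v := x)] at h2
    simp only [F]
    rw [abs_le]
    constructor <;> omega
  have P3 : ∀ (k : ℕ) (x y : V), G.Adj x y → |F k x - F k y| ≤ 1 := by
    intro k x y hxy
    have := PL k x y
    rw [SimpleGraph.dist_eq_one_iff_adj.2 hxy] at this
    exact_mod_cast this
  have P4 : ∀ k : ℕ, {x | G.dist o x = k}.ncard ≤ c → ∀ A : Finset V, (∀ a ∈ A, F k a = 0) →
      A.card ≤ c := by
    intro k hk A hA
    have e : {x | F k x = 0} = φ k '' {x | G.dist o x = k} := by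
      ext x
      simp only [F, mem_ofPred_eq, mem_image]
      constructor
      · intro hx
        refine ⟨(φ k).symm x, ?_, by simp⟩
        rw [← gdist_map h.conn (φ k)]
        simp only [(φ k).apply_symm_apply]
        rw [hg0] at hx
        omega
      · rintro ⟨y, hy, rfl⟩
        rw [hg0, gdist_map h.conn, hy]
        omega
    have h1 : (A : Set V) ⊆ {x | F k x = 0} := fun a ha => hA a ha
    have hfin : {x | F k x = 0}.Finite := by
      rw [e]
      exact ((h.ball_fin o k).subset fun x hx => le_of_eq hx).image _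
    have h2 := Set.ncard_le_ncard h1 hfin
    rw [Set.ncard_coe_finset, e, Set.ncard_image_of_injective _ (φ k).injective] at h2
    exact h2.trans hk
  -- the ultrafilter
  let I : Set ℕ := {k | {x | G.dist o x = k}.ncard ≤ c}
  have hfreq : ∃ᶠ k in atTop, k ∈ I := by
    rw [Filter.frequently_atTop]
    intro K
    obtain ⟨k, hk1, hk2⟩ := freq_sphere h hlin K
    exact ⟨k, hk1, hk2⟩
  have hne : NeBot (atTop ⊓ 𝓟 I) := Filter.frequently_mem_iff_neBot.1 hfreq
  let U : Ultrafilter ℕ := Ultrafilter.of (atTop ⊓ 𝓟 I)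
  have hU : (U : Filter ℕ) ≤ atTop ⊓ 𝓟 I := Ultrafilter.of_le _
  have hU1 : ∀ K : ℕ, ∀ᶠ k in (U : Filter ℕ), K ≤ k := fun K =>
    (hU.trans inf_le_left) (Filter.eventually_ge_atTop K)
  have hU2 : ∀ᶠ k in (U : Filter ℕ), k ∈ I :=
    (hU.trans inf_le_right) (Filter.mem_principal_self I)
  have hUz : ∀ t : ℤ, ∀ᶠ k : ℕ in (U : Filter ℕ), |t| ≤ (k : ℤ) := by
    intro t
    filter_upwards [hU1 t.natAbs] with k hk
    rw [abs_le]
    omega
  have hF : ∀ v, ∃ m : ℤ, ∀ᶠ k in (U : Filter ℕ), F k v = m := by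
    intro v
    have h1 : ∀ᶠ k in (U : Filter ℕ), ∃ m ∈ Set.Icc (-(G.dist o v : ℤ)) (G.dist o v),
        F k v = m := by
      refine Filter.Eventually.of_forall fun k => ⟨F k v, ?_, rfl⟩
      have h2 := P2 k 0 (by simp)
      rw [P0] at h2
      have h3 := PL k v o
      rw [h2, sub_zero, abs_le, SimpleGraph.dist_comm] at h3
      exact h3
    obtain ⟨m, _, hm⟩ := (Ultrafilter.eventually_exists_mem_iff (Set.finite_Icc _ _)).1 h1
    exact ⟨m, hm⟩
  have hΓ : ∀ t, ∃ v, ∀ᶠ k in (U : Filter ℕ), Γ k t = v := by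
    intro t
    have h1 : ∀ᶠ k in (U : Filter ℕ), ∃ v ∈ ball G o t.natAbs, Γ k t = v := by
      filter_upwards [hUz t] with k hk
      refine ⟨Γ k t, ?_, rfl⟩
      have h2 := P1 k 0 t (by simp) hk
      rw [P0, zero_sub, abs_neg] at h2
      change G.dist o (Γ k t) ≤ t.natAbs
      have h3 : |t| = (t.natAbs : ℤ) := Int.abs_eq_natAbs t
      omega
    obtain ⟨v, _, hv⟩ := (Ultrafilter.eventually_exists_mem_iff (h.ball_fin o _)).1 h1
    exact ⟨v, hv⟩
  choose f hf using hF
  choose γ hγ using hΓ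
  refine ⟨f, γ, ?_, ?_, ?_, ?_, ?_⟩
  · obtain ⟨k, hk⟩ := (hγ 0).exists
    rw [← hk, P0]
  · intro x y hxy
    obtain ⟨k, h1, h2⟩ := ((hf x).and (hf y)).exists
    rw [← h1, ← h2]
    exact P3 k x y hxy
  · intro s t
    obtain ⟨k, ⟨h1, h2⟩, h3, h4⟩ := (((hγ s).and (hγ t)).and ((hUz s).and (hUz t))).exists
    rw [← h1, ← h2]
    exact P1 k s t h3 h4
  · intro t
    obtain ⟨k, ⟨h1, h2⟩, h3⟩ := (((hγ t).and (hf (γ t))).and (hUz t)).exists
    rw [← h2, ← h1]
    exact P2 k t h3
  · by_contra hinf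
    obtain ⟨A, hA1, hA2⟩ := Set.Infinite.exists_subset_card_eq hinf (c + 1)
    have h1 : ∀ᶠ k in (U : Filter ℕ), ∀ a ∈ A, F k a = 0 := by
      rw [Filter.eventually_all_finset]
      intro a ha
      have h2 : f a = 0 := hA1 ha
      filter_upwards [hf a] with k hk
      rw [hk, h2]
    obtain ⟨k, h2, h3⟩ := (h1.and hU2).exists
    have := P4 k h3 A h2
    omega

end Pool.Agent.FIIDU
end

section

/-!
# MP_767f1c_pr: linear growth: every vertex is close to a geodesic
-/

set_option autoImplicit false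

namespace Pool.Agent.FIIDU

open Set Filter


variable {V : Type}

private theorem GrF_ray {G : SimpleGraph V} {K : Set V} (ρ : ℕ → V)
    (hadj : ∀ n, G.Adj (ρ n) (ρ (n + 1))) (hout : ∀ n, ρ n ∉ K)
    (hinj : Function.Injective ρ) : {y | RA G K (ρ 0) y}.Infinite := by
  refine Set.infinite_of_injective_forall_mem hinj fun n => ?_
  induction n with
  | zero => exact Relation.ReflTransGen.refl
  | succ n ih => exact Relation.ReflTransGen.tail ih ⟨hadj n, hout n, hout (n + 1)⟩

private theorem GrF_pos {G : SimpleGraph V} {K : Set V} {f : V → ℤ}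
    (hf : ∀ x y, G.Adj x y → |f x - f y| ≤ 1) (hK : ∀ x, f x = 0 → x ∈ K) {x y : V}
    (h : RA G K x y) (hx : 0 < f x) : 0 < f y := by
  induction h with
  | refl => exact hx
  | @tail b c _ hbc ih =>
    have h1 := abs_le.mp (hf b c hbc.1)
    have h2 : f c ≠ 0 := fun h' => hbc.2.2 (hK c h')
    rcases lt_trichotomy (f c) 0 with h3 | h3 | h3
    · omega
    · exact absurd h3 h2
    · exact h3

private theorem GrF_neg {G : SimpleGraph V} {K : Set V} {f : V → ℤ}
    (hf : ∀ x y, G.Adj x y → |f x - f y| ≤ 1) (hK : ∀ x, f x = 0 → x ∈ K) {x y : V}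
    (h : RA G K x y) (hx : f x < 0) : f y < 0 := by
  have h1 : 0 < (fun z => - f z) y := by
    refine GrF_pos (f := fun z => - f z) (G := G) (K := K) ?_ ?_ h ?_
    · intro x y hxy
      have h2 : -f x - -f y = -(f x - f y) := by ring
      rw [h2, abs_neg]
      exact hf x y hxy
    · intro z hz
      exact hK z (neg_eq_zero.mp hz)
    · simpa using hx
  simpa using h1

private theorem GrF_three {G : SimpleGraph V} {o : V} {R : ℕ} {f g : V → ℤ}
    (hf : ∀ x y, G.Adj x y → |f x - f y| ≤ 1) (hfK : ∀ x, f x = 0 → x ∈ ball G o R)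
    (hg : ∀ x y, G.Adj x y → |g x - g y| ≤ 1) (hgK : ∀ x, g x = 0 → x ∈ ball G o R)
    (ρ : Fin 3 → ℕ → V) (hadj : ∀ i n, G.Adj (ρ i n) (ρ i (n + 1)))
    (hout : ∀ i n, ρ i n ∉ ball G o R) (hinj : ∀ i, Function.Injective (ρ i))
    (h01 : 0 < f (ρ 0 0)) (h11 : f (ρ 1 0) < 0)
    (hs : (0 < g (ρ 0 0) ∧ 0 < g (ρ 1 0) ∧ g (ρ 2 0) < 0) ∨
      (g (ρ 0 0) < 0 ∧ g (ρ 1 0) < 0 ∧ 0 < g (ρ 2 0))) : EndsGe G o R 3 := by
  refine ⟨fun i => ρ i 0, fun i => ⟨hout i 0, GrF_ray (ρ i) (hadj i) (hout i) (hinj i)⟩, ?_⟩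
  have hfp := fun {x y : V} => GrF_pos (x := x) (y := y) hf hfK
  have hfn := fun {x y : V} => GrF_neg (x := x) (y := y) hf hfK
  have hgp := fun {x y : V} => GrF_pos (x := x) (y := y) hg hgK
  have hgn := fun {x y : V} => GrF_neg (x := x) (y := y) hg hgK
  intro i j hij hR
  simp only at hR
  fin_cases i <;> fin_cases j
  · exact hij rfl
  · have := hfp hR h01
    simp only [Fin.mk_one] at this
    omega
  · rcases hs with ⟨h1, h2, h3⟩ | ⟨h1, h2, h3⟩
    · have := hgp hR h1
      simp only [Fin.reduceFinMk] at this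
      omega
    · have := hgn hR h1
      simp only [Fin.reduceFinMk] at this
      omega
  · have := hfn hR h11
    simp only [Fin.zero_eta] at this
    omega
  · exact hij rfl
  · rcases hs with ⟨h1, h2, h3⟩ | ⟨h1, h2, h3⟩
    · have := hgp hR h2
      simp only [Fin.reduceFinMk] at this
      omega
    · have := hgn hR h2
      simp only [Fin.reduceFinMk] at this
      omega
  · rcases hs with ⟨h1, h2, h3⟩ | ⟨h1, h2, h3⟩
    · have := hgn hR h3
      simp only [Fin.zero_eta] at this
      omega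
    · have := hgp hR h3
      simp only [Fin.zero_eta] at this
      omega
  · rcases hs with ⟨h1, h2, h3⟩ | ⟨h1, h2, h3⟩
    · have := hgn hR h3
      simp only [Fin.mk_one] at this
      omega
    · have := hgp hR h3
      simp only [Fin.mk_one] at this
      omega
  · exact hij rfl

private theorem GrF_ivt {u : ℤ → ℤ} (hu : ∀ t, |u t - u (t + 1)| ≤ 1) (hne : ∀ t, u t ≠ 0) :
    (∀ t, 0 < u t) ∨ ∀ t, u t < 0 := by
  have hstep : ∀ t, (0 < u t ↔ 0 < u (t + 1)) := by
    intro t
    have h1 := abs_le.mp (hu t)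
    have h2 := hne t
    have h3 := hne (t + 1)
    constructor <;> intro <;> omega
  have hall : ∀ t, (0 < u t ↔ 0 < u 0) := by
    intro t
    induction t using Int.induction_on with
    | zero => exact Iff.rfl
    | succ n ih => rw [← hstep n]; exact ih
    | pred n ih =>
      rw [hstep (-(n : ℤ) - 1)]
      have : -(n : ℤ) - 1 + 1 = -(n : ℤ) := by ring
      rw [this]
      exact ih
  by_cases h0 : 0 < u 0
  · exact Or.inl fun t => (hall t).mpr h0
  · refine Or.inr fun t => ?_
    have h1 := hne t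
    have h2 : ¬ 0 < u t := fun h' => h0 ((hall t).mp h')
    omega

private theorem GrF_dist_le {G : SimpleGraph V} (hG : G.Connected) (φ : G ≃g G) (x y : V) :
    G.dist (φ x) (φ y) ≤ G.dist x y := by
  obtain ⟨p, hp⟩ := hG.exists_walk_length_eq_dist x y
  have h1 := SimpleGraph.dist_le (p.map φ.toHom)
  rw [SimpleGraph.Walk.length_map, hp] at h1
  exact h1

/-- linear growth: every vertex is close to the geodesic -/
theorem exists_dense_geodesic {G : SimpleGraph V} (h : TG G) {o : V} {c : ℕ}
    (hlin : ∀ r, 1 ≤ r → (ball G o r).ncard < c * r) :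
    ∃ (γ : ℤ → V) (D : ℕ), (∀ s t, (G.dist (γ s) (γ t) : ℤ) = |s - t|) ∧
      ∀ v, ∃ t, G.dist v (γ t) ≤ D := by
  classical
  obtain ⟨f, γ, hγ0, hf, hγ, hfγ, hfin⟩ := exists_level h hlin
  have hbound : ∀ S : Set V, S.Finite → ∃ D : ℕ, ∀ x ∈ S, G.dist o x ≤ D := by
    intro S hS
    obtain ⟨D, hD⟩ := (hS.image (fun x => G.dist o x)).bddAbove
    exact ⟨D, fun x hx => hD (Set.mem_image_of_mem _ hx)⟩
  obtain ⟨D, hD⟩ := hbound _ hfin
  have hadj : ∀ t, G.Adj (γ t) (γ (t + 1)) := by
    intro t
    rw [← SimpleGraph.dist_eq_one_iff_adj]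
    have h1 := hγ t (t + 1)
    have h2 : t - (t + 1) = -1 := by ring
    rw [h2, abs_neg, abs_one] at h1
    exact_mod_cast h1
  have hinj : Function.Injective γ := by
    intro s t hst
    have h1 := hγ s t
    rw [hst, SimpleGraph.dist_self, Nat.cast_zero] at h1
    have h2 := abs_eq_zero.mp h1.symm
    omega
  have hdist : ∀ (φ : G ≃g G) (x y : V), G.dist (φ x) (φ y) = G.dist x y := by
    intro φ x y
    refine le_antisymm (GrF_dist_le h.conn φ x y) ?_
    have h1 := GrF_dist_le h.conn φ.symm (φ x) (φ y)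
    have h2 : ∀ z, φ.symm (φ z) = z := fun z => φ.symm_apply_apply z
    rwa [h2, h2] at h1
  refine ⟨γ, D, hγ, fun v => ?_⟩
  obtain ⟨ψ, hψ⟩ := h.trans o v
  by_contra hcon
  push Not at hcon
  set g : V → ℤ := fun x => f (ψ.symm x) with hgdef
  have hg : ∀ x y, G.Adj x y → |g x - g y| ≤ 1 := fun x y hxy =>
    hf _ _ (ψ.symm.map_adj_iff.mpr hxy)
  have hgγ : ∀ t, g (γ t) ≠ 0 := by
    intro t h0
    have h1 := hD (ψ.symm (γ t)) h0
    have h2 := hdist ψ o (ψ.symm (γ t))
    rw [hψ] at h2
    have h3 : ψ (ψ.symm (γ t)) = γ t := ψ.apply_symm_apply _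
    rw [h3] at h2
    have h4 := hcon t
    omega
  have hsign := GrF_ivt (u := fun t => g (γ t)) (fun t => hg _ _ (hadj t)) hgγ
  -- the big ball
  obtain ⟨R1, hR1⟩ := hbound {x | g x = 0} (by
    have : {x | g x = 0} = ψ '' {x | f x = 0} := by
      ext x
      simp only [Set.mem_ofPred_eq, Set.mem_image, hgdef]
      constructor
      · intro hx
        exact ⟨ψ.symm x, hx, ψ.apply_symm_apply x⟩
      · rintro ⟨y, hy, rfl⟩
        rw [ψ.symm_apply_apply]
        exact hy
    rw [this]
    exact hfin.image _)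
  set R : ℕ := max D R1 with hR
  have hfK : ∀ x, f x = 0 → x ∈ ball G o R := fun x hx => (hD x hx).trans (le_max_left _ _)
  have hgK : ∀ x, g x = 0 → x ∈ ball G o R := fun x hx => (hR1 x hx).trans (le_max_right _ _)
  set T : ℕ := R + 1 + G.dist o v with hT
  have hd0 : ∀ t : ℤ, (G.dist o (γ t) : ℤ) = |t| := by
    intro t
    rw [← hγ0, hγ, zero_sub, abs_neg]
  have hd1 : ∀ t : ℤ, |t| ≤ G.dist o (ψ (γ t)) + G.dist o v := by
    intro t
    have h1 : (G.dist v (ψ (γ t)) : ℤ) = |t| := by
      rw [← hψ, hdist, hd0]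
    have h2 := h.conn.dist_triangle (u := v) (v := o) (w := ψ (γ t))
    rw [SimpleGraph.dist_comm (u := v) (v := o)] at h2
    have h3 : (G.dist v (ψ (γ t)) : ℤ) ≤ G.dist o v + G.dist o (ψ (γ t)) := by exact_mod_cast h2
    rw [h1] at h3
    linarith
  have hout0 : ∀ t : ℤ, (T : ℤ) ≤ |t| → γ t ∉ ball G o R := by
    intro t ht hmem
    have h1 := hd0 t
    have h2 : (G.dist o (γ t) : ℤ) ≤ R := by exact_mod_cast hmem
    have h3 : (T : ℤ) = R + 1 + G.dist o v := by rw [hT]; push_cast; ring
    have h4 : (0 : ℤ) ≤ G.dist o v := Int.natCast_nonneg _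
    omega
  have hout1 : ∀ t : ℤ, (T : ℤ) ≤ |t| → ψ (γ t) ∉ ball G o R := by
    intro t ht hmem
    have h1 := hd1 t
    have h2 : (G.dist o (ψ (γ t)) : ℤ) ≤ R := by exact_mod_cast hmem
    have h3 : (T : ℤ) = R + 1 + G.dist o v := by rw [hT]; push_cast; ring
    omega
  have habs1 : ∀ n : ℕ, (T : ℤ) ≤ |(T : ℤ) + n| := fun n => by
    rw [abs_of_nonneg (by positivity)]
    omega
  have habs2 : ∀ n : ℕ, (T : ℤ) ≤ |-(T : ℤ) - n| := fun n => by
    have : -(T : ℤ) - n = -((T : ℤ) + n) := by ring
    rw [this, abs_neg]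
    exact habs1 n
  have hTpos : 0 < (T : ℤ) := by
    rw [hT]
    push_cast
    positivity
  have hplus : ∀ n : ℕ, G.Adj (γ ((T : ℤ) + n)) (γ ((T : ℤ) + (n + 1 : ℕ))) := fun n => by
    have := hadj ((T : ℤ) + n)
    push_cast
    rw [← add_assoc]
    exact this
  have hminus : ∀ n : ℕ, G.Adj (γ (-(T : ℤ) - n)) (γ (-(T : ℤ) - (n + 1 : ℕ))) := fun n => by
    have := (hadj (-(T : ℤ) - (n + 1 : ℕ))).symm
    have h2 : -(T : ℤ) - (n + 1 : ℕ) + 1 = -(T : ℤ) - n := by push_cast; ring
    rwa [h2] at this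
  have hinj1 : Function.Injective (fun n : ℕ => γ ((T : ℤ) + n)) := fun a b hab => by
    have := hinj hab
    omega
  have hinj2 : Function.Injective (fun n : ℕ => γ (-(T : ℤ) - n)) := fun a b hab => by
    have := hinj hab
    omega
  have hgψ : ∀ t, g (ψ (γ t)) = t := by
    intro t
    simp only [hgdef]
    rw [ψ.symm_apply_apply, hfγ]
  rcases hsign with hs | hs
  · refine not_endsGe_three h hlin R (GrF_three hf hfK hg hgK
      ![fun n : ℕ => γ ((T : ℤ) + n), fun n : ℕ => γ (-(T : ℤ) - n),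
        fun n : ℕ => ψ (γ (-(T : ℤ) - n))] ?_ ?_ ?_ ?_ ?_ (Or.inl ⟨?_, ?_, ?_⟩))
    · intro i n
      fin_cases i
      · exact hplus n
      · exact hminus n
      · exact ψ.map_adj_iff.mpr (hminus n)
    · intro i n
      fin_cases i
      · exact hout0 _ (habs1 n)
      · exact hout0 _ (habs2 n)
      · exact hout1 _ (habs2 n)
    · intro i
      fin_cases i
      · exact hinj1
      · exact hinj2
      · exact fun a b hab => hinj2 (ψ.injective hab)
    · change 0 < f (γ ((T : ℤ) + (0 : ℕ)))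
      rw [hfγ]
      simpa using hTpos
    · change f (γ (-(T : ℤ) - (0 : ℕ))) < 0
      rw [hfγ]
      simpa using hTpos
    · exact hs _
    · exact hs _
    · change g (ψ (γ (-(T : ℤ) - (0 : ℕ)))) < 0
      rw [hgψ]
      simpa using hTpos
  · refine not_endsGe_three h hlin R (GrF_three hf hfK hg hgK
      ![fun n : ℕ => γ ((T : ℤ) + n), fun n : ℕ => γ (-(T : ℤ) - n),
        fun n : ℕ => ψ (γ ((T : ℤ) + n))] ?_ ?_ ?_ ?_ ?_ (Or.inr ⟨?_, ?_, ?_⟩))
    · intro i n
      fin_cases i
      · exact hplus n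
      · exact hminus n
      · exact ψ.map_adj_iff.mpr (hplus n)
    · intro i n
      fin_cases i
      · exact hout0 _ (habs1 n)
      · exact hout0 _ (habs2 n)
      · exact hout1 _ (habs1 n)
    · intro i
      fin_cases i
      · exact hinj1
      · exact hinj2
      · exact fun a b hab => hinj1 (ψ.injective hab)
    · change 0 < f (γ ((T : ℤ) + (0 : ℕ)))
      rw [hfγ]
      simpa using hTpos
    · change f (γ (-(T : ℤ) - (0 : ℕ))) < 0
      rw [hfγ]
      simpa using hTpos
    · exact hs _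
    · exact hs _
    · change 0 < g (ψ (γ ((T : ℤ) + (0 : ℕ))))
      rw [hgψ]
      simpa using hTpos

end Pool.Agent.FIIDU
end

section

/-!
# MP_767f1c_pr: an infinite transitive graph of linear growth is quasi-isometric to the integers
-/

set_option autoImplicit false

namespace Pool.Agent.FIIDU

open Set Filter


variable {V : Type}

theorem qi_of_geodesic {G : SimpleGraph V} (hG : G.Connected) {γ : ℤ → V} {D : ℕ}
    (hγ : ∀ s t, (G.dist (γ s) (γ t) : ℤ) = |s - t|) (hD : ∀ v, ∃ t, G.dist v (γ t) ≤ D) :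
    QI G := by
  choose f hf using hD
  refine ⟨f, 2 * D + 1, fun x y => ⟨?_, ?_⟩, fun n => ⟨γ n, ?_⟩⟩
  · rw [← hγ (f x) (f y)]
    have h1 : G.dist (γ (f x)) (γ (f y)) ≤ G.dist x y + 2 * D := by
      have h2 : G.dist (γ (f x)) (γ (f y)) ≤ G.dist (γ (f x)) x + G.dist x (γ (f y)) :=
        hG.dist_triangle
      have h3 : G.dist x (γ (f y)) ≤ G.dist x y + G.dist y (γ (f y)) := hG.dist_triangle
      have h4 := hf x
      have h5 := hf y
      rw [SimpleGraph.dist_comm] at h4
      omega
    have h6 : G.dist x y ≤ (2 * D + 1) * G.dist x y := Nat.le_mul_of_pos_left _ (by omega)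
    have h7 : G.dist (γ (f x)) (γ (f y)) ≤ (2 * D + 1) * G.dist x y + (2 * D + 1) := by omega
    exact_mod_cast h7
  · rw [← hγ (f x) (f y)]
    have h1 : G.dist x y ≤ G.dist (γ (f x)) (γ (f y)) + 2 * D := by
      have h2 : G.dist x y ≤ G.dist x (γ (f x)) + G.dist (γ (f x)) y := hG.dist_triangle
      have h3 : G.dist (γ (f x)) y ≤ G.dist (γ (f x)) (γ (f y)) + G.dist (γ (f y)) y :=
        hG.dist_triangle
      have h4 := hf x
      have h5 := hf y
      rw [SimpleGraph.dist_comm] at h5
      omega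
    have h6 : G.dist (γ (f x)) (γ (f y)) ≤ (2 * D + 1) * G.dist (γ (f x)) (γ (f y)) :=
      Nat.le_mul_of_pos_left _ (by omega)
    have h7 : G.dist x y ≤ (2 * D + 1) * G.dist (γ (f x)) (γ (f y)) + (2 * D + 1) := by omega
    exact_mod_cast h7
  · have h1 := hf (γ n)
    have h2 := hγ (f (γ n)) n
    rw [SimpleGraph.dist_comm] at h1
    have h3 : (G.dist (γ (f (γ n))) (γ n) : ℤ) ≤ D := by exact_mod_cast h1
    rw [← h2]
    push_cast
    have h8 : (0 : ℤ) ≤ D := Int.natCast_nonneg D
    linarith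

/-- **Linear growth implies quasi-isometric to `ℤ`.** -/
theorem qi_of_not_supLin {G : SimpleGraph V} (h : TG G) (hs : ¬ SupLin G) : QI G := by
  unfold SupLin at hs
  push Not at hs
  obtain ⟨o, c, hlin⟩ := hs
  obtain ⟨γ, D, h1, h2⟩ := exists_dense_geodesic h hlin
  exact qi_of_geodesic h.conn h1 h2

end Pool.Agent.FIIDU
end

section

/-!
# MP_767f1c_pr: completeness of the Walsh functions
-/

set_option autoImplicit false

namespace Pool.Agent.FIIDU

open MeasureTheory Set Filter
open scoped ENNReal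


variable {V : Type}

open Classical in
/-- the indicator of a square cylinder is a combination of Walsh functions -/
private theorem WaB_cyl (s : Finset (V × ℕ)) (t : V × ℕ → Set Bool) :
    ∃ c : Finset (V × ℕ) → ℝ, ∀ ω : Om V,
      ((s : Set (V × ℕ)).pi t).indicator (fun _ => (1 : ℝ)) ω = ∑ T ∈ s.powerset, c T * wal T ω := by
  set α : V × ℕ → ℝ := fun p => ((if true ∈ t p then 1 else 0) + (if false ∈ t p then 1 else 0)) / 2 with hα
  set β : V × ℕ → ℝ := fun p => ((if true ∈ t p then 1 else 0) - (if false ∈ t p then 1 else 0)) / 2 with hβ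
  refine ⟨fun T => (∏ p ∈ T, β p) * ∏ p ∈ s \ T, α p, fun ω => ?_⟩
  have h1 : ((s : Set (V × ℕ)).pi t).indicator (fun _ => (1 : ℝ)) ω =
      ∏ p ∈ s, (β p * (if ω p then (1 : ℝ) else -1) + α p) := by
    have h2 : ∀ p, (β p * (if ω p then (1 : ℝ) else -1) + α p) = if ω p ∈ t p then 1 else 0 := by
      intro p
      rw [hα, hβ]
      cases hb : ω p
      · simp only [Bool.false_eq_true, if_false]
        ring
      · simp only [if_true]
        ring
    rw [Finset.prod_congr rfl (fun p _ => h2 p)]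
    by_cases h : ∀ p ∈ s, ω p ∈ t p
    · rw [Set.indicator_of_mem (by exact fun p hp => h p hp)]
      symm
      exact Finset.prod_eq_one (fun p hp => if_pos (h p hp))
    · rw [Set.indicator_of_notMem (by exact fun h' => h (fun p hp => h' p hp))]
      push Not at h
      obtain ⟨p, hp, hpt⟩ := h
      symm
      exact Finset.prod_eq_zero hp (if_neg hpt)
  rw [h1, Finset.prod_add]
  apply Finset.sum_congr rfl
  intro T _
  rw [Finset.prod_mul_distrib]
  unfold wal
  ring

/-- the linear combinations of Walsh functions are dense -/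
theorem wal_dense [Countable V] {f : Om V → ℝ} (hf : MemLp f 2 (PP V))
    (h0 : ∀ S : Finset (V × ℕ), ∫ ω, f ω * wal S ω ∂PP V = 0) : f =ᵐ[PP V] 0 := by
  have hint : Integrable f (PP V) := hf.integrable one_le_two
  have hintw : ∀ S : Finset (V × ℕ), Integrable (fun ω => f ω * wal S ω) (PP V) := by
    intro S
    apply hint.mul_bdd (c := 1) (wal_meas S).aestronglyMeasurable
    filter_upwards with ω
    rw [Real.norm_eq_abs, wal_abs]
  have hf0 : ∫ ω, f ω ∂PP V = 0 := by
    have := h0 ∅
    simpa [wal] using this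
  have hmeas : ∀ A : Set (Om V), MeasurableSet A → ∫ ω in A, f ω ∂PP V = 0 := by
    intro A hA
    induction A, hA using MeasurableSpace.induction_on_inter
      (generateFrom_squareCylinders (α := fun _ : V × ℕ => Bool)).symm
      (isPiSystem_squareCylinders (fun _ => MeasurableSpace.isPiSystem_measurableSet) (fun _ => by simp)) with
    | empty => simp
    | basic A hA =>
      obtain ⟨s, t, ht, rfl⟩ := hA
      have hms : MeasurableSet ((s : Set (V × ℕ)).pi t) :=
        MeasurableSet.pi s.countable_toSet (fun i _ => ht i (Set.mem_univ i))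
      obtain ⟨c, hc⟩ := WaB_cyl s t
      rw [← integral_indicator hms]
      have e : ∀ ω, ((s : Set (V × ℕ)).pi t).indicator f ω = ∑ T ∈ s.powerset, c T * (f ω * wal T ω) := by
        intro ω
        have e1 : ((s : Set (V × ℕ)).pi t).indicator f ω =
            f ω * ((s : Set (V × ℕ)).pi t).indicator (fun _ => (1 : ℝ)) ω := by
          by_cases h : ω ∈ (s : Set (V × ℕ)).pi t
          · rw [Set.indicator_of_mem h, Set.indicator_of_mem h, mul_one]
          · rw [Set.indicator_of_notMem h, Set.indicator_of_notMem h, mul_zero]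
        rw [e1, hc ω, Finset.mul_sum]
        apply Finset.sum_congr rfl
        intro T _
        ring
      simp only [e]
      rw [integral_finsetSum]
      · apply Finset.sum_eq_zero
        intro T _
        rw [integral_const_mul, h0 T, mul_zero]
      · intro T _
        exact (hintw T).const_mul _
    | compl A hA ih =>
      have := integral_add_compl hA hint
      rw [ih, hf0, zero_add] at this
      exact this
    | iUnion A hd hA ih =>
      have := hasSum_integral_iUnion hA hd hint.integrableOn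
      simp only [ih] at this
      exact this.unique hasSum_zero
  exact hint.ae_eq_zero_of_forall_setIntegral_eq_zero (fun s hs _ => hmeas s hs)

end Pool.Agent.FIIDU
end

section

/-!
# MP_767f1c_pr: the Parseval identity
-/

set_option autoImplicit false

namespace Pool.Agent.FIIDU

open MeasureTheory Set Filter
open scoped ENNReal


variable {V : Type}

private theorem Walsh_memLp (S : Finset (V × ℕ)) : MemLp (wal S) 2 (PP V) := by
  apply MemLp.of_bound (wal_meas S).aestronglyMeasurable 1
  filter_upwards with ω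
  rw [Real.norm_eq_abs, wal_abs]

/-- **Parseval's identity.** -/
theorem parseval [Countable V] {f : Om V → ℝ} (hf : MemLp f 2 (PP V)) :
    ∑' S : Finset (V × ℕ), ENNReal.ofReal ((∫ ω, f ω * wal S ω ∂PP V) ^ 2) =
      ∫⁻ ω, ENNReal.ofReal (f ω ^ 2) ∂PP V := by
  classical
  set F : Lp ℝ 2 (PP V) := hf.toLp f with hF
  set W : Finset (V × ℕ) → Lp ℝ 2 (PP V) := fun S => (Walsh_memLp S).toLp (wal S) with hW
  -- inner products
  have hin : ∀ (G : Lp ℝ 2 (PP V)) (S : Finset (V × ℕ)), inner ℝ G (W S) = ∫ ω, G ω * wal S ω ∂PP V := by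
    intro G S
    rw [L2.inner_def]
    apply integral_congr_ae
    filter_upwards [(Walsh_memLp S).coeFn_toLp] with ω hω
    rw [hW]
    simp only
    rw [hω]
    simp [mul_comm]
  have hFin : ∀ S, inner ℝ F (W S) = ∫ ω, f ω * wal S ω ∂PP V := by
    intro S
    rw [hin]
    apply integral_congr_ae
    filter_upwards [hf.coeFn_toLp] with ω hω
    rw [hω]
  have hortho : Orthonormal ℝ W := by
    rw [orthonormal_iff_ite]
    intro S T
    rw [hin]
    have : ∫ ω, (W S) ω * wal T ω ∂PP V = ∫ ω, wal S ω * wal T ω ∂PP V := by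
      apply integral_congr_ae
      filter_upwards [(Walsh_memLp S).coeFn_toLp] with ω hω
      rw [hW]
      simp only
      rw [hω]
    rw [this, wal_ortho]
  have hbot : (Submodule.span ℝ (Set.range W))ᗮ = ⊥ := by
    rw [Submodule.eq_bot_iff]
    intro G hG
    have h1 : ∀ S, ∫ ω, G ω * wal S ω ∂PP V = 0 := by
      intro S
      rw [← hin]
      rw [real_inner_comm]
      exact (Submodule.mem_orthogonal _ G).mp hG (W S) (Submodule.subset_span ⟨S, rfl⟩)
    have h2 := wal_dense (Lp.memLp G) h1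
    exact (Lp.eq_zero_iff_ae_eq_zero).mpr h2
  set b := HilbertBasis.mkOfOrthogonalEqBot hortho hbot with hb
  have hbW : ∀ S, b S = W S := by
    intro S
    rw [hb, HilbertBasis.coe_mkOfOrthogonalEqBot]
  have hsum := b.hasSum_inner_mul_inner F F
  have hterm : ∀ S, inner ℝ F (b S) * inner ℝ (b S) F = (∫ ω, f ω * wal S ω ∂PP V) ^ 2 := by
    intro S
    rw [hbW, real_inner_comm F (W S), hFin, sq]
  simp only [hterm] at hsum
  have hnorm : inner ℝ F F = ∫ ω, f ω ^ 2 ∂PP V := by
    rw [L2.inner_def]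
    apply integral_congr_ae
    filter_upwards [hf.coeFn_toLp] with ω hω
    rw [hω]
    simp [sq]
  rw [hnorm] at hsum
  rw [← ENNReal.ofReal_tsum_of_nonneg (fun S => sq_nonneg _) hsum.summable, hsum.tsum_eq]
  exact ofReal_integral_eq_lintegral_ofReal hf.integrable_sq (ae_of_all _ (fun ω => sq_nonneg _))

end Pool.Agent.FIIDU
end

section

/-!
# MP_767f1c_pr: Walsh coefficients of factors
-/

set_option autoImplicit false

namespace Pool.Agent.FIIDU

open MeasureTheory Set Filter
open scoped ENNReal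


variable {V : Type}

open Classical in
/-- the Walsh coefficients of the indicator of a random set of vertices -/
noncomputable def cf (A : Om V → V → Prop) (x : V) (S : Finset (V × ℕ)) : ℝ :=
  ∫ ω, (if A ω x then 1 else 0) * wal S ω ∂PP V

/-- the action of an automorphism on the index set -/
def mapS {G : SimpleGraph V} (φ : G ≃g G) (S : Finset (V × ℕ)) : Finset (V × ℕ) :=
  S.map ⟨fun p => (φ p.1, p.2), fun p q h => by
    rcases p with ⟨p1, p2⟩
    rcases q with ⟨q1, q2⟩
    simp only [Prod.mk.injEq] at h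
    rw [φ.injective h.1, h.2]⟩

private theorem ExA_wal {G : SimpleGraph V} (φ : G ≃g G) (S : Finset (V × ℕ)) (ω : Om V) :
    wal (mapS φ S) ω = wal S (act φ ω) := by
  unfold wal mapS act
  rw [Finset.prod_map]
  rfl

theorem cf_act {G : SimpleGraph V} {A : Om V → V → Prop} (hA : Fac1 G A) (φ : G ≃g G) (x : V)
    (S : Finset (V × ℕ)) : cf A (φ x) (mapS φ S) = cf A x S := by
  classical
  unfold cf
  have h1 : ∀ ω, (if A ω (φ x) then (1 : ℝ) else 0) * wal (mapS φ S) ω =
      (fun ω => (if A ω x then (1 : ℝ) else 0) * wal S ω) (act φ ω) := by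
    intro ω
    simp only
    rw [ExA_wal]
    congr 1
    exact if_congr (hA.equi φ ω x).symm rfl rfl
  have hm : Measurable (fun ω => (if A ω x then (1 : ℝ) else 0) * wal S ω) :=
    (Measurable.ite (measurableSet_setOfPred.mpr (hA.meas x)) measurable_const measurable_const).mul (wal_meas S)
  rw [integral_congr_ae (ae_of_all _ h1)]
  have h2 := integral_map (μ := PP V) (φ := act φ) (act_mp φ).measurable.aemeasurable
    (f := fun ω => (if A ω x then (1 : ℝ) else 0) * wal S ω) hm.aestronglyMeasurable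
  rw [← h2, (act_mp φ).map_eq]

end Pool.Agent.FIIDU
end

section

/-!
# MP_767f1c_pr: sums of Walsh coefficients
-/

set_option autoImplicit false

namespace Pool.Agent.FIIDU

open MeasureTheory Set Filter
open scoped ENNReal


variable {V : Type}

open Classical in
private theorem ExB_meas {G : SimpleGraph V} {A : Om V → V → Prop} (hA : Fac1 G A) (x : V) :
    Measurable (fun ω => if A ω x then (1 : ℝ) else 0) :=
  Measurable.ite (measurableSet_setOfPred.mpr (hA.meas x)) measurable_const measurable_const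

open Classical in
private theorem ExB_memLp {G : SimpleGraph V} {A : Om V → V → Prop} (hA : Fac1 G A) (x : V) :
    MemLp (fun ω => if A ω x then (1 : ℝ) else 0) 2 (PP V) := by
  apply MemLp.of_bound (ExB_meas hA x).aestronglyMeasurable 1
  filter_upwards with ω
  split_ifs <;> simp

/-- the empty coefficient is the probability, the others give the variance -/
theorem cf_sum [Countable V] {G : SimpleGraph V} {A : Om V → V → Prop} (hA : Fac1 G A) (x : V) :
    ∑' S : {S : Finset (V × ℕ) // S.Nonempty}, ENNReal.ofReal (cf A x S ^ 2) =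
      PP V {ω | A ω x} * PP V {ω | ¬ A ω x} := by
  classical
  have hms : MeasurableSet {ω | A ω x} := measurableSet_setOfPred.mpr (hA.meas x)
  have hpar := parseval (ExB_memLp hA x)
  have hcf : ∀ S, ∫ ω, (if A ω x then (1 : ℝ) else 0) * wal S ω ∂PP V = cf A x S := by
    intro S; unfold cf; congr
  simp only [hcf] at hpar
  -- the right side
  have hr : ∫⁻ ω, ENNReal.ofReal ((if A ω x then (1 : ℝ) else 0) ^ 2) ∂PP V = PP V {ω | A ω x} := by
    rw [← lintegral_indicator_one hms]
    apply lintegral_congr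
    intro ω
    by_cases h : A ω x
    · rw [if_pos h, Set.indicator_of_mem (by exact h)]; simp
    · rw [if_neg h, Set.indicator_of_notMem (by exact h)]; simp
  rw [hr] at hpar
  -- the empty coefficient
  have h0 : cf A x ∅ = (PP V {ω | A ω x}).toReal := by
    rw [← hcf]
    have : ∀ ω, (if A ω x then (1 : ℝ) else 0) * wal ∅ ω = ({ω | A ω x}).indicator (fun _ => (1 : ℝ)) ω := by
      intro ω
      by_cases h : A ω x
      · rw [if_pos h, Set.indicator_of_mem (by exact h)]; simp [wal]
      · rw [if_neg h, Set.indicator_of_notMem (by exact h)]; simp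
    rw [integral_congr_ae (ae_of_all _ this), integral_indicator hms]
    simp [Measure.real]
  have hsplit : ∑' S : Finset (V × ℕ), ENNReal.ofReal (cf A x S ^ 2) =
      ENNReal.ofReal (cf A x ∅ ^ 2) +
        ∑' S : {S : Finset (V × ℕ) // S.Nonempty}, ENNReal.ofReal (cf A x S ^ 2) := by
    rw [← Summable.tsum_add_tsum_compl (s := {S : Finset (V × ℕ) | S.Nonempty})
      (f := fun S => ENNReal.ofReal (cf A x S ^ 2)) ENNReal.summable ENNReal.summable, add_comm]
    congr 1
    have hs : ({S : Finset (V × ℕ) | S.Nonempty})ᶜ = {∅} := by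
      ext S
      simp [Finset.not_nonempty_iff_eq_empty]
    rw [hs, tsum_singleton (f := fun S => ENNReal.ofReal (cf A x S ^ 2))]
  have hpp : PP V {ω | A ω x} + PP V {ω | ¬ A ω x} = 1 := by
    have := measure_add_measure_compl (μ := PP V) hms
    rw [measure_univ] at this
    exact this
  have hfin : PP V {ω | A ω x} ≠ ∞ := measure_ne_top _ _
  have hsq : ENNReal.ofReal (cf A x ∅ ^ 2) = PP V {ω | A ω x} * PP V {ω | A ω x} := by
    rw [h0, sq, ENNReal.ofReal_mul ENNReal.toReal_nonneg, ENNReal.ofReal_toReal hfin]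
  rw [hsplit, hsq] at hpar
  have hfin2 : PP V {ω | A ω x} * PP V {ω | A ω x} ≠ ∞ := ENNReal.mul_ne_top hfin hfin
  have hfinal : PP V {ω | A ω x} * PP V {ω | A ω x} +
      ∑' S : {S : Finset (V × ℕ) // S.Nonempty}, ENNReal.ofReal (cf A x S ^ 2) =
      PP V {ω | A ω x} * PP V {ω | A ω x} + PP V {ω | A ω x} * PP V {ω | ¬ A ω x} := by
    rw [hpar, ← mul_add, hpp, mul_one]
  exact (ENNReal.add_right_inj hfin2).mp hfinal

/-- the differences of coefficients -/
theorem cf_diff [Countable V] {G : SimpleGraph V} {A : Om V → V → Prop} (hA : Fac1 G A)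
    (x y : V) :
    ∑' S : Finset (V × ℕ), ENNReal.ofReal ((cf A x S - cf A y S) ^ 2) =
      PP V {ω | ¬ (A ω x ↔ A ω y)} := by
  classical
  have hms : MeasurableSet {ω | ¬ (A ω x ↔ A ω y)} :=
    measurableSet_setOfPred.mpr (((hA.meas x).iff (hA.meas y)).not)
  have hpar := parseval ((ExB_memLp hA x).sub (ExB_memLp hA y))
  have hcf : ∀ S, ∫ ω, ((fun ω => if A ω x then (1 : ℝ) else 0) - fun ω => if A ω y then (1 : ℝ) else 0) ω *
      wal S ω ∂PP V = cf A x S - cf A y S := by
    intro S
    have e : ∀ z, cf A z S = ∫ ω, (if A ω z then (1 : ℝ) else 0) * wal S ω ∂PP V := by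
      intro z; unfold cf; congr
    have hint : ∀ z, Integrable (fun ω => (if A ω z then (1 : ℝ) else 0) * wal S ω) (PP V) := by
      intro z
      apply ((ExB_memLp hA z).integrable one_le_two).mul_bdd (c := 1) (wal_meas S).aestronglyMeasurable
      filter_upwards with ω
      rw [Real.norm_eq_abs, wal_abs]
    rw [e x, e y, ← integral_sub (hint x) (hint y)]
    apply integral_congr_ae
    filter_upwards with ω
    simp only [Pi.sub_apply]
    ring
  simp only [hcf] at hpar
  rw [hpar, ← lintegral_indicator_one hms]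
  apply lintegral_congr
  intro ω
  simp only [Pi.sub_apply]
  by_cases h : A ω x <;> by_cases h' : A ω y
  · rw [if_pos h, if_pos h', Set.indicator_of_notMem (by simp [h, h'])]; simp
  · rw [if_pos h, if_neg h', Set.indicator_of_mem (by simp [h, h'])]; simp
  · rw [if_neg h, if_pos h', Set.indicator_of_mem (by simp [h, h'])]; simp
  · rw [if_neg h, if_neg h', Set.indicator_of_notMem (by simp [h, h'])]; simp

end Pool.Agent.FIIDU
end

section

/-!
# MP_767f1c_pr: mass transport for functions indexed by finite sets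
-/

set_option autoImplicit false

namespace Pool.Agent.FIIDU

open MeasureTheory Set Filter
open scoped ENNReal


variable {V : Type}

private theorem ExC_mapS_symm {G : SimpleGraph V} (φ : G ≃g G) (S : Finset (V × ℕ)) :
    mapS φ.symm (mapS φ S) = S := by
  unfold mapS
  rw [Finset.map_map]
  ext p
  simp only [Finset.mem_map, Function.Embedding.trans_apply]
  constructor
  · rintro ⟨q, hq, rfl⟩
    change (φ.symm (φ q.1), q.2) ∈ S
    rw [show φ.symm (φ q.1) = q.1 from φ.symm_apply_apply q.1]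
    exact hq
  · intro hp
    exact ⟨p, hp, Prod.ext (φ.symm_apply_apply p.1) rfl⟩

private theorem ExC_mapS_ne {G : SimpleGraph V} (φ : G ≃g G) (S : Finset (V × ℕ)) :
    (mapS φ S).Nonempty ↔ S.Nonempty := by
  unfold mapS
  exact Finset.map_nonempty

/-- the bijection of the nonempty index sets -/
private def ExC_equiv {G : SimpleGraph V} (φ : G ≃g G) :
    {S : Finset (V × ℕ) // S.Nonempty} ≃ {S : Finset (V × ℕ) // S.Nonempty} where
  toFun S := ⟨mapS φ S, (ExC_mapS_ne φ S).mpr S.2⟩
  invFun S := ⟨mapS φ.symm S, (ExC_mapS_ne φ.symm S).mpr S.2⟩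
  left_inv S := Subtype.ext (ExC_mapS_symm φ S)
  right_inv S := Subtype.ext (by
    have := ExC_mapS_symm φ.symm (S : Finset (V × ℕ))
    simpa using this)

/-- the number of elements over a vertex -/
private theorem ExC_ncard {G : SimpleGraph V} (φ : G ≃g G) (S : Finset (V × ℕ)) (y : V) :
    ({p ∈ (mapS φ S : Finset (V × ℕ)) | p.1 = φ y} : Set (V × ℕ)).ncard =
      ({p ∈ (S : Finset (V × ℕ)) | p.1 = y} : Set (V × ℕ)).ncard := by
  have h : ({p ∈ (mapS φ S : Finset (V × ℕ)) | p.1 = φ y} : Set (V × ℕ)) =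
      (fun p : V × ℕ => (φ p.1, p.2)) '' ({p ∈ (S : Finset (V × ℕ)) | p.1 = y} : Set (V × ℕ)) := by
    ext p
    unfold mapS
    simp only [Finset.mem_map, Set.mem_image]
    constructor
    · rintro ⟨⟨q, hq, rfl⟩, h2⟩
      exact ⟨q, ⟨hq, φ.injective h2⟩, rfl⟩
    · rintro ⟨q, ⟨hq, h2⟩, rfl⟩
      exact ⟨⟨q, hq, rfl⟩, by rw [h2]⟩
  rw [h, Set.ncard_image_of_injective]
  rintro ⟨p1, p2⟩ ⟨q1, q2⟩ h
  simp only [Prod.mk.injEq] at h
  rw [φ.injective h.1, h.2]

private theorem ExC_card {G : SimpleGraph V} (φ : G ≃g G) (S : Finset (V × ℕ)) :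
    (mapS φ S).card = S.card := by
  unfold mapS
  exact Finset.card_map _

/-- the sum of the weights is one -/
private theorem ExC_sum (S : Finset (V × ℕ)) (hS : S.Nonempty) :
    ∑' y : V, (({p ∈ (S : Finset (V × ℕ)) | p.1 = y} : Set (V × ℕ)).ncard : ℝ≥0∞) / (S.card : ℝ≥0∞) = 1 := by
  classical
  have h1 : ∀ y : V, ({p ∈ (S : Finset (V × ℕ)) | p.1 = y} : Set (V × ℕ)).ncard =
      (S.filter (fun p => p.1 = y)).card := by
    intro y
    rw [← Set.ncard_coe_finset]
    congr 1
    ext p
    simp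
  have h2 : ∀ y : V, y ∉ S.image Prod.fst → ((S.filter (fun p => p.1 = y)).card : ℝ≥0∞) / (S.card : ℝ≥0∞) = 0 := by
    intro y hy
    have : S.filter (fun p => p.1 = y) = ∅ := by
      rw [Finset.filter_eq_empty_iff]
      intro p hp he
      exact hy (Finset.mem_image.mpr ⟨p, hp, he⟩)
    rw [this]; simp
  simp only [h1]
  rw [tsum_eq_sum h2]
  simp only [div_eq_mul_inv]
  rw [← Finset.sum_mul, ← Nat.cast_sum]
  have h3 : ∑ y ∈ S.image Prod.fst, (S.filter (fun p => p.1 = y)).card = S.card :=
    (Finset.card_eq_sum_card_image Prod.fst S).symm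
  rw [h3]
  apply ENNReal.mul_inv_cancel
  · simpa using hS.ne_empty
  · exact ENNReal.natCast_ne_top _

/-- mass transport for families of functions indexed by finite sets: the sum over all nonempty
`S` at `o` equals the sum over the sets `S` containing `o` with weights -/
theorem mtp_index [Countable V] {G : SimpleGraph V} {d : ℕ} (h : Std G d)
    (F : V → Finset (V × ℕ) → ℝ≥0∞)
    (hF : ∀ (φ : G ≃g G) x S, F (φ x) (mapS φ S) = F x S) (o : V) :
    ∑' S : {S : Finset (V × ℕ) // S.Nonempty}, F o S =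
      ∑' S : {S : Finset (V × ℕ) // S.Nonempty},
        (({p ∈ (S : Finset (V × ℕ)) | p.1 = o} : Set (V × ℕ)).ncard : ℝ≥0∞) /
          ((S : Finset (V × ℕ)).card : ℝ≥0∞) * ∑' x, F x S := by
  set f : V → V → ℝ≥0∞ := fun x y => ∑' S : {S : Finset (V × ℕ) // S.Nonempty},
    (({p ∈ (S : Finset (V × ℕ)) | p.1 = y} : Set (V × ℕ)).ncard : ℝ≥0∞) /
          ((S : Finset (V × ℕ)).card : ℝ≥0∞) * F x S with hf
  have hinv : ∀ (φ : G ≃g G) (x y : V), f (φ x) (φ y) = f x y := by
    intro φ x y
    rw [hf]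
    simp only
    rw [← (ExC_equiv φ).tsum_eq]
    apply tsum_congr
    intro S
    have e : (((ExC_equiv φ) S : {S : Finset (V × ℕ) // S.Nonempty}) : Finset (V × ℕ)) = mapS φ S := rfl
    rw [e, ExC_ncard, ExC_card, hF]
  have hm := mtp h f hinv o
  have hl : ∑' y, f o y = ∑' S : {S : Finset (V × ℕ) // S.Nonempty}, F o S := by
    rw [hf]
    simp only
    rw [ENNReal.tsum_comm]
    apply tsum_congr
    intro S
    have h1 := ExC_sum (S : Finset (V × ℕ)) S.2
    rw [ENNReal.tsum_mul_right]
    erw [h1]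
    rw [one_mul]
  have hr : ∑' y, f y o = ∑' S : {S : Finset (V × ℕ) // S.Nonempty},
        (({p ∈ (S : Finset (V × ℕ)) | p.1 = o} : Set (V × ℕ)).ncard : ℝ≥0∞) /
          ((S : Finset (V × ℕ)).card : ℝ≥0∞) * ∑' x, F x S := by
    rw [hf]
    simp only
    rw [ENNReal.tsum_comm]
    apply tsum_congr
    intro S
    rw [ENNReal.tsum_mul_left]
  rw [← hl, hm, hr]

end Pool.Agent.FIIDU
end

section

/-!
# MP_767f1c_pr: isoperimetry and coarea inequality
-/

set_option autoImplicit false

namespace Pool.Agent.FIIDU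

open Set Filter
open scoped ENNReal


variable {V : Type}

open Classical in
/-- the energy of a function -/
noncomputable def energy (G : SimpleGraph V) (f : V → ℝ) : ℝ≥0∞ :=
  ∑' x, ∑' y, if G.Adj x y then ENNReal.ofReal ((f x - f y) ^ 2) else 0

/-- the square of the norm of a function -/
noncomputable def nrm (f : V → ℝ) : ℝ≥0∞ := ∑' x, ENNReal.ofReal (f x ^ 2)

/-- spectral gap -/
def Gap (G : SimpleGraph V) (κ : ℝ) : Prop :=
  0 < κ ∧ ∀ f : V → ℝ, nrm f ≠ ∞ → ENNReal.ofReal κ * nrm f ≤ energy G f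

/-- nonamenable graphs: the boundary of a finite set is large -/
theorem exists_iso {G : SimpleGraph V} (h : ¬ Amen G) :
    ∃ δ : ℝ, 0 < δ ∧ ∀ F : Set V, F.Finite → δ * F.ncard ≤ (eb G F).ncard := by
  unfold Amen at h
  push Not at h
  obtain ⟨ε, hε, h⟩ := h
  refine ⟨ε, hε, fun F hF => ?_⟩
  rcases F.eq_empty_or_nonempty with rfl | hne
  · simp
  · exact (h F hF hne).le

theorem GapA_int (a b : ℝ) (ha : 0 ≤ a) :
    ∫⁻ t in Ici (0 : ℝ), (Ico a b).indicator (1 : ℝ → ℝ≥0∞) t = ENNReal.ofReal (b - a) := by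
  rw [MeasureTheory.lintegral_indicator_one measurableSet_Ico,
    MeasureTheory.Measure.restrict_apply measurableSet_Ico]
  have : Ico a b ∩ Ici 0 = Ico a b := by
    rw [Set.inter_eq_left]
    intro x hx
    exact ha.trans hx.1
  rw [this, Real.volume_Ico]

/-- coarea inequality for nonnegative functions with finite support -/
theorem coarea {G : SimpleGraph V} {d : ℕ} (h : Std G d) {δ : ℝ} (hδ : 0 < δ)
    (hiso : ∀ F : Set V, F.Finite → δ * F.ncard ≤ (eb G F).ncard) (g : V → ℝ)
    (hg : ∀ x, 0 ≤ g x) (hfin : (Function.support g).Finite) :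
    ENNReal.ofReal (2 * δ) * ∑' x, ENNReal.ofReal (g x) ≤
      ∑' x, ∑' y, Set.indicator {y | G.Adj x y} (fun y => ENNReal.ofReal |g x - g y|) y := by
  classical
  set F := hfin.toFinset with hF
  set N := F ∪ F.biUnion (fun x => (h.fin x).toFinset) with hN
  have hFN : ∀ x, x ∈ F → x ∈ N := fun x hx => Finset.mem_union_left _ hx
  have hnb : ∀ x y, x ∈ F → G.Adj x y → y ∈ N := by
    intro x y hx hxy
    refine Finset.mem_union_right _ (Finset.mem_biUnion.2 ⟨x, hx, ?_⟩)
    rw [Set.Finite.mem_toFinset]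
    exact hxy
  have hsupp : ∀ x, x ∉ F → g x = 0 := by
    intro x hx
    by_contra h'
    exact hx (by rw [hF, Set.Finite.mem_toFinset]; exact h')
  -- the left side
  have hL : ∑' x, ENNReal.ofReal (g x) = ∑ x ∈ F, ENNReal.ofReal (g x) :=
    tsum_eq_sum fun x hx => by rw [hsupp x hx, ENNReal.ofReal_zero]
  -- the right side
  have hR : ∑ x ∈ N, ∑ y ∈ N, Set.indicator {y | G.Adj x y}
      (fun y => ENNReal.ofReal |g x - g y|) y ≤
      ∑' x, ∑' y, Set.indicator {y | G.Adj x y} (fun y => ENNReal.ofReal |g x - g y|) y :=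
    (Finset.sum_le_sum fun x _ => ENNReal.sum_le_tsum N).trans (ENNReal.sum_le_tsum N)
  refine le_trans ?_ hR
  rw [hL]
  -- integral formulas
  have hI1 : ∀ x, ENNReal.ofReal (g x) =
      ∫⁻ t in Ici (0 : ℝ), (Ico 0 (g x)).indicator (1 : ℝ → ℝ≥0∞) t := by
    intro x
    rw [GapA_int 0 (g x) le_rfl, sub_zero]
  have hI2 : ∀ x y, Set.indicator {y | G.Adj x y} (fun y => ENNReal.ofReal |g x - g y|) y =
      ∫⁻ t in Ici (0 : ℝ), (if G.Adj x y then (Ico (g y) (g x)).indicator (1 : ℝ → ℝ≥0∞) t +
        (Ico (g x) (g y)).indicator (1 : ℝ → ℝ≥0∞) t else 0) := by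
    intro x y
    by_cases hxy : G.Adj x y
    · have hm : y ∈ {y | G.Adj x y} := hxy
      rw [Set.indicator_of_mem hm]
      simp only [hxy, if_true]
      rw [MeasureTheory.lintegral_add_left
        (measurable_one.indicator measurableSet_Ico), GapA_int _ _ (hg y), GapA_int _ _ (hg x)]
      rcases le_total (g x) (g y) with h1 | h1
      · rw [abs_of_nonpos (by linarith), ENNReal.ofReal_of_nonpos (by linarith : g x - g y ≤ 0),
          zero_add, neg_sub]
      · rw [abs_of_nonneg (by linarith), ENNReal.ofReal_of_nonpos (by linarith : g y - g x ≤ 0),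
          add_zero]
    · have hm : y ∉ {y | G.Adj x y} := hxy
      rw [Set.indicator_of_notMem hm]
      simp [hxy]
  have hmeas : ∀ x y, Measurable (fun t : ℝ => (if G.Adj x y then
      (Ico (g y) (g x)).indicator (1 : ℝ → ℝ≥0∞) t +
        (Ico (g x) (g y)).indicator (1 : ℝ → ℝ≥0∞) t else 0)) := by
    intro x y
    by_cases hxy : G.Adj x y
    · simp only [hxy, if_true]
      exact (measurable_one.indicator measurableSet_Ico).add
        (measurable_one.indicator measurableSet_Ico)
    · simp only [hxy, if_false]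
      exact measurable_const
  have hlhs : ENNReal.ofReal (2 * δ) * ∑ x ∈ F, ENNReal.ofReal (g x) =
      ∫⁻ t in Ici (0 : ℝ), ENNReal.ofReal (2 * δ) *
        ∑ x ∈ F, (Ico 0 (g x)).indicator (1 : ℝ → ℝ≥0∞) t := by
    rw [MeasureTheory.lintegral_const_mul _ (Finset.measurable_sum F fun x _ =>
      measurable_one.indicator measurableSet_Ico),
      MeasureTheory.lintegral_finsetSum F fun x _ =>
      measurable_one.indicator measurableSet_Ico]
    simp only [hI1]
  have hrhs : ∑ x ∈ N, ∑ y ∈ N, Set.indicator {y | G.Adj x y}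
      (fun y => ENNReal.ofReal |g x - g y|) y =
      ∫⁻ t in Ici (0 : ℝ), ∑ x ∈ N, ∑ y ∈ N, (if G.Adj x y then
        (Ico (g y) (g x)).indicator (1 : ℝ → ℝ≥0∞) t +
        (Ico (g x) (g y)).indicator (1 : ℝ → ℝ≥0∞) t else 0) := by
    rw [MeasureTheory.lintegral_finsetSum N fun x _ => Finset.measurable_sum N fun y _ => hmeas x y]
    refine Finset.sum_congr rfl fun x _ => ?_
    rw [MeasureTheory.lintegral_finsetSum N fun y _ => hmeas x y]
    exact Finset.sum_congr rfl fun y _ => hI2 x y
  rw [hlhs, hrhs]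
  refine MeasureTheory.setLIntegral_mono' measurableSet_Ici fun t ht => ?_
  -- pointwise inequality
  have ht0 : (0 : ℝ) ≤ t := ht
  set S : Set V := {x | t < g x} with hS
  have hSF : ∀ x, x ∈ S → x ∈ F := by
    intro x hx
    by_contra h'
    have : t < g x := hx
    rw [hsupp x h'] at this
    linarith
  have hSfin : S.Finite := F.finite_toSet.subset fun x hx => hSF x hx
  have h1 : ∑ x ∈ F, (Ico 0 (g x)).indicator (1 : ℝ → ℝ≥0∞) t = (S.ncard : ℝ≥0∞) := by
    have : ∀ x ∈ F, (Ico 0 (g x)).indicator (1 : ℝ → ℝ≥0∞) t = if x ∈ S then 1 else 0 := by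
      intro x _
      by_cases hx : x ∈ S
      · have hm : t ∈ Ico 0 (g x) := ⟨ht0, hx⟩
        rw [if_pos hx, Set.indicator_of_mem hm]
        rfl
      · rw [if_neg hx, Set.indicator_of_notMem]
        exact fun h' => hx h'.2
    rw [Finset.sum_congr rfl this, Finset.sum_boole]
    congr 1
    rw [← Set.ncard_coe_finset]
    congr 1
    ext x
    simp only [Finset.coe_filter, Set.mem_ofPred_eq]
    exact ⟨fun h' => h'.2, fun h' => ⟨hSF x h', h'⟩⟩
  have hE : (eb G S).Finite := by
    refine (N ×ˢ N).finite_toSet.subset ?_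
    rintro ⟨x, y⟩ ⟨h1, h2, h3⟩
    simp only [Finset.coe_product, Set.mem_prod, Finset.mem_coe]
    exact ⟨hFN x (hSF x h1), hnb x y (hSF x h1) h3⟩
  have h2 : ∑ x ∈ N, ∑ y ∈ N, (if G.Adj x y then
      (Ico (g y) (g x)).indicator (1 : ℝ → ℝ≥0∞) t +
        (Ico (g x) (g y)).indicator (1 : ℝ → ℝ≥0∞) t else 0) =
      ((eb G S).ncard : ℝ≥0∞) + ((eb G S).ncard : ℝ≥0∞) := by
    have e : ∀ x y, (if G.Adj x y then
      (Ico (g y) (g x)).indicator (1 : ℝ → ℝ≥0∞) t +
        (Ico (g x) (g y)).indicator (1 : ℝ → ℝ≥0∞) t else 0) =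
        (if (x, y) ∈ eb G S then 1 else 0) + (if (y, x) ∈ eb G S then (1 : ℝ≥0∞) else 0) := by
      intro x y
      by_cases hxy : G.Adj x y
      · rw [if_pos hxy]
        congr 1
        · by_cases hh : (x, y) ∈ eb G S
          · have hm : t ∈ Ico (g y) (g x) := ⟨not_lt.1 hh.2.1, hh.1⟩
            rw [if_pos hh, Set.indicator_of_mem hm]
            rfl
          · rw [if_neg hh, Set.indicator_of_notMem]
            exact fun h' => hh ⟨h'.2, not_lt.2 h'.1, hxy⟩
        · by_cases hh : (y, x) ∈ eb G S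
          · have hm : t ∈ Ico (g x) (g y) := ⟨not_lt.1 hh.2.1, hh.1⟩
            rw [if_pos hh, Set.indicator_of_mem hm]
            rfl
          · rw [if_neg hh, Set.indicator_of_notMem]
            exact fun h' => hh ⟨h'.2, not_lt.2 h'.1, hxy.symm⟩
      · rw [if_neg hxy, if_neg fun h' => hxy h'.2.2, if_neg fun h' => hxy h'.2.2.symm, add_zero]
    simp only [e, Finset.sum_add_distrib]
    have key : ∑ x ∈ N, ∑ y ∈ N, (if (x, y) ∈ eb G S then (1 : ℝ≥0∞) else 0) =
        ((eb G S).ncard : ℝ≥0∞) := by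
      rw [← Finset.sum_product', Finset.sum_boole]
      congr 1
      rw [← Set.ncard_coe_finset]
      congr 1
      ext ⟨x, y⟩
      simp only [Finset.coe_filter, Finset.mem_product, Set.mem_ofPred_eq]
      constructor
      · exact fun h' => h'.2
      · intro h'
        exact ⟨⟨hFN x (hSF x h'.1), hnb x y (hSF x h'.1) h'.2.2⟩, h'⟩
    rw [key]
    congr 1
    rw [Finset.sum_comm]
    exact key
  rw [h1, h2]
  have h3 := hiso S hSfin
  have h4 : ENNReal.ofReal (2 * δ * S.ncard) ≤ ENNReal.ofReal (2 * (eb G S).ncard) :=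
    ENNReal.ofReal_le_ofReal (by nlinarith)
  have e1 : ENNReal.ofReal (2 * δ * S.ncard) = ENNReal.ofReal (2 * δ) * S.ncard := by
    rw [ENNReal.ofReal_mul (p := 2 * δ) (by positivity), ENNReal.ofReal_natCast]
  have e2 : ENNReal.ofReal (2 * (eb G S).ncard) = (eb G S).ncard + (eb G S).ncard := by
    rw [ENNReal.ofReal_mul (by norm_num), ENNReal.ofReal_natCast, ENNReal.ofReal_ofNat, two_mul]
  rwa [e1, e2] at h4

end Pool.Agent.FIIDU
end

section

/-!
# MP_767f1c_pr: the gap inequality for functions with finite support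
-/

set_option autoImplicit false

namespace Pool.Agent.FIIDU

open Set Filter
open scoped ENNReal


variable {V : Type}

open Classical in
/-- the energy is at most a multiple of the norm -/
theorem GapB_sum {G : SimpleGraph V} {d : ℕ} (h : Std G d) (u : V → ℝ≥0∞) :
    ∑' x, ∑' y, (if G.Adj x y then u x else 0) = (2 * d : ℕ) * ∑' x, u x := by
  rw [← ENNReal.tsum_mul_left]
  refine tsum_congr fun x => ?_
  rw [tsum_eq_sum (s := (h.fin x).toFinset)]
  · have : ∀ y ∈ (h.fin x).toFinset, (if G.Adj x y then u x else 0) = u x := by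
      intro y hy
      rw [Set.Finite.mem_toFinset] at hy
      exact if_pos hy
    rw [Finset.sum_congr rfl this, Finset.sum_const, nsmul_eq_mul,
      ← Set.ncard_eq_toFinset_card _ (h.fin x), h.deg x]
  · intro y hy
    rw [Set.Finite.mem_toFinset] at hy
    exact if_neg hy

/-- the gap inequality for functions with finite support -/
theorem gap_finite {G : SimpleGraph V} {d : ℕ} (h : Std G d) {δ : ℝ} (hδ : 0 < δ)
    (hiso : ∀ F : Set V, F.Finite → δ * F.ncard ≤ (eb G F).ncard) (f : V → ℝ)
    (hfin : (Function.support f).Finite) :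
    ENNReal.ofReal (δ ^ 2) * nrm f ≤ (2 * d : ℕ) * energy G f := by
  classical
  set F := hfin.toFinset with hF
  set N := F ∪ F.biUnion (fun x => (h.fin x).toFinset) with hN
  have hFN : ∀ x, x ∈ F → x ∈ N := fun x hx => Finset.mem_union_left _ hx
  have hnb : ∀ x y, x ∈ F → G.Adj x y → y ∈ N := by
    intro x y hx hxy
    refine Finset.mem_union_right _ (Finset.mem_biUnion.2 ⟨x, hx, ?_⟩)
    rw [Set.Finite.mem_toFinset]
    exact hxy
  have hsupp : ∀ x, x ∉ F → f x = 0 := by
    intro x hx
    by_contra h'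
    exact hx (by rw [hF, Set.Finite.mem_toFinset]; exact h')
  -- finite sums
  have hout : ∀ x y, G.Adj x y → (x ∉ N ∨ y ∉ N) → f x = 0 ∧ f y = 0 := by
    intro x y hxy hor
    have hx : x ∉ F := by
      intro hx
      rcases hor with h' | h'
      · exact h' (hFN x hx)
      · exact h' (hnb x y hx hxy)
    have hy : y ∉ F := by
      intro hy
      rcases hor with h' | h'
      · exact h' (hnb y x hy hxy.symm)
      · exact h' (hFN y hy)
    exact ⟨hsupp x hx, hsupp y hy⟩
  have hfinsum : ∀ φ : V → V → ℝ, (∀ x y, 0 ≤ φ x y) →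
      (∀ x y, G.Adj x y → f x = 0 → f y = 0 → φ x y = 0) →
      ∑' x, ∑' y, (if G.Adj x y then ENNReal.ofReal (φ x y) else 0) =
        ENNReal.ofReal (∑ p ∈ N ×ˢ N, if G.Adj p.1 p.2 then φ p.1 p.2 else 0) := by
    intro φ hφ hφ0
    have hz : ∀ x y, (x ∉ N ∨ y ∉ N) → (if G.Adj x y then ENNReal.ofReal (φ x y) else 0) = 0 := by
      intro x y hor
      by_cases hxy : G.Adj x y
      · obtain ⟨h1, h2⟩ := hout x y hxy hor
        rw [if_pos hxy, hφ0 x y hxy h1 h2, ENNReal.ofReal_zero]
      · exact if_neg hxy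
    rw [tsum_eq_sum (s := N) (fun x hx => ENNReal.tsum_eq_zero.2 fun y => hz x y (Or.inl hx)),
      ENNReal.ofReal_sum_of_nonneg, Finset.sum_product]
    · refine Finset.sum_congr rfl fun x _ => ?_
      rw [tsum_eq_sum (s := N) (fun y hy => hz x y (Or.inr hy))]
      refine Finset.sum_congr rfl fun y _ => ?_
      by_cases hxy : G.Adj x y
      · rw [if_pos hxy, if_pos hxy]
      · rw [if_neg hxy, if_neg hxy, ENNReal.ofReal_zero]
    · intro p _
      split_ifs
      · exact hφ _ _
      · exact le_rfl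
  set E1 : ℝ := ∑ p ∈ N ×ˢ N, if G.Adj p.1 p.2 then (f p.1 - f p.2) ^ 2 else 0 with hE1
  set E2 : ℝ := ∑ p ∈ N ×ˢ N, if G.Adj p.1 p.2 then (f p.1 + f p.2) ^ 2 else 0 with hE2
  set E3 : ℝ := ∑ p ∈ N ×ˢ N, if G.Adj p.1 p.2 then |f p.1 ^ 2 - f p.2 ^ 2| else 0 with hE3
  set M : ℝ := ∑ x ∈ F, f x ^ 2 with hM
  have hM0 : 0 ≤ M := Finset.sum_nonneg fun x _ => sq_nonneg _
  have hE10 : 0 ≤ E1 := Finset.sum_nonneg fun p _ => by split_ifs <;> positivity
  have hE20 : 0 ≤ E2 := Finset.sum_nonneg fun p _ => by split_ifs <;> positivity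
  have hE30 : 0 ≤ E3 := Finset.sum_nonneg fun p _ => by split_ifs <;> positivity
  have hnrm : nrm f = ENNReal.ofReal M := by
    unfold nrm
    rw [hM, ENNReal.ofReal_sum_of_nonneg fun x _ => sq_nonneg _]
    exact tsum_eq_sum fun x hx => by rw [hsupp x hx]; simp
  have hen : energy G f = ENNReal.ofReal E1 :=
    hfinsum (fun x y => (f x - f y) ^ 2) (fun x y => sq_nonneg _)
      (fun x y _ h1 h2 => by rw [h1, h2]; norm_num)
  -- coarea
  have h1 : 2 * δ * M ≤ E3 := by
    have hc := coarea h hδ hiso (fun x => f x ^ 2) (fun x => sq_nonneg _) (by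
      refine hfin.subset ?_
      intro x hx
      rw [Function.mem_support] at hx ⊢
      intro h'
      exact hx (by rw [h']; norm_num))
    have e : ∑' x, ∑' y, Set.indicator {y | G.Adj x y}
        (fun y => ENNReal.ofReal |f x ^ 2 - f y ^ 2|) y = ENNReal.ofReal E3 := by
      rw [hE3, ← hfinsum (fun x y => |f x ^ 2 - f y ^ 2|) (fun x y => abs_nonneg _)
        (fun x y _ h1 h2 => by rw [h1, h2]; norm_num)]
      refine tsum_congr fun x => tsum_congr fun y => ?_
      by_cases hxy : G.Adj x y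
      · have hm : y ∈ {y | G.Adj x y} := hxy
        rw [Set.indicator_of_mem hm, if_pos hxy]
      · have hm : y ∉ {y | G.Adj x y} := hxy
        rw [Set.indicator_of_notMem hm, if_neg hxy]
    have e2 : ∑' x, ENNReal.ofReal (f x ^ 2) = ENNReal.ofReal M := hnrm
    rw [e, e2, ← ENNReal.ofReal_mul (by positivity)] at hc
    exact (ENNReal.ofReal_le_ofReal_iff hE30).1 hc
  -- Cauchy-Schwarz
  have h2 : E3 ^ 2 ≤ E1 * E2 := by
    have := Finset.sum_mul_sq_le_sq_mul_sq (N ×ˢ N)
      (fun p => if G.Adj p.1 p.2 then |f p.1 - f p.2| else 0)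
      (fun p => if G.Adj p.1 p.2 then |f p.1 + f p.2| else 0)
    have g1 : ∀ p : V × V, (if G.Adj p.1 p.2 then |f p.1 - f p.2| else 0) *
        (if G.Adj p.1 p.2 then |f p.1 + f p.2| else 0) =
        if G.Adj p.1 p.2 then |f p.1 ^ 2 - f p.2 ^ 2| else 0 := by
      intro p
      split_ifs
      · rw [← abs_mul]
        congr 1
        ring
      · simp
    have g2 : ∀ p : V × V, (if G.Adj p.1 p.2 then |f p.1 - f p.2| else 0) ^ 2 =
        if G.Adj p.1 p.2 then (f p.1 - f p.2) ^ 2 else 0 := by
      intro p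
      split_ifs
      · exact sq_abs _
      · simp
    have g3 : ∀ p : V × V, (if G.Adj p.1 p.2 then |f p.1 + f p.2| else 0) ^ 2 =
        if G.Adj p.1 p.2 then (f p.1 + f p.2) ^ 2 else 0 := by
      intro p
      split_ifs
      · exact sq_abs _
      · simp
    simp only [g1, g2, g3] at this
    exact this
  -- the sum of the squares of the sums
  have h3 : E2 ≤ 8 * d * M := by
    have e1 : ENNReal.ofReal E2 = ∑' x, ∑' y, (if G.Adj x y then
        ENNReal.ofReal ((f x + f y) ^ 2) else 0) :=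
      (hfinsum (fun x y => (f x + f y) ^ 2) (fun x y => sq_nonneg _)
        (fun x y _ h1 h2 => by rw [h1, h2]; norm_num)).symm
    have e2 : ∑' x, ∑' y, (if G.Adj x y then ENNReal.ofReal ((f x + f y) ^ 2) else 0) ≤
        ∑' x, ∑' y, ((if G.Adj x y then 2 * ENNReal.ofReal (f x ^ 2) else 0) +
          (if G.Adj x y then 2 * ENNReal.ofReal (f y ^ 2) else 0)) := by
      refine ENNReal.tsum_le_tsum fun x => ENNReal.tsum_le_tsum fun y => ?_
      split_ifs
      · have e0 : (2 : ℝ≥0∞) = ENNReal.ofReal 2 := by simp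
        rw [e0, ← ENNReal.ofReal_mul (by norm_num), ← ENNReal.ofReal_mul (by norm_num),
          ← ENNReal.ofReal_add (by positivity) (by positivity)]
        refine ENNReal.ofReal_le_ofReal ?_
        nlinarith [sq_nonneg (f x - f y)]
      · simp
    have e3 : ∑' x, ∑' y, ((if G.Adj x y then 2 * ENNReal.ofReal (f x ^ 2) else 0) +
          (if G.Adj x y then 2 * ENNReal.ofReal (f y ^ 2) else 0)) =
        ENNReal.ofReal (8 * d * M) := by
      simp only [ENNReal.tsum_add]
      have k1 := GapB_sum h (fun x => 2 * ENNReal.ofReal (f x ^ 2))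
      have k2 : ∑' x, ∑' y, (if G.Adj x y then 2 * ENNReal.ofReal (f y ^ 2) else 0) =
          ∑' x, ∑' y, (if G.Adj x y then 2 * ENNReal.ofReal (f x ^ 2) else 0) := by
        rw [ENNReal.tsum_comm]
        refine tsum_congr fun x => tsum_congr fun y => ?_
        simp only [G.adj_comm]
      rw [k2, k1, ENNReal.tsum_mul_left]
      have k3 : ∑' x, ENNReal.ofReal (f x ^ 2) = ENNReal.ofReal M := hnrm
      rw [k3]
      have e0 : (2 : ℝ≥0∞) = ENNReal.ofReal 2 := by simp
      rw [e0, ← ENNReal.ofReal_natCast, ← ENNReal.ofReal_mul (by norm_num),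
        ← ENNReal.ofReal_mul (by positivity), ← ENNReal.ofReal_add (by positivity) (by positivity)]
      congr 1
      push_cast
      ring
    rw [← e1, e3] at e2
    exact (ENNReal.ofReal_le_ofReal_iff (by positivity)).1 e2
  -- conclusion
  rw [hnrm, hen, ← ENNReal.ofReal_natCast, ← ENNReal.ofReal_mul (by positivity),
    ← ENNReal.ofReal_mul (by positivity)]
  refine ENNReal.ofReal_le_ofReal ?_
  push_cast
  rcases hM0.eq_or_lt with hM' | hM'
  · rw [← hM', mul_zero]
    positivity
  · have h4 : (2 * δ * M) ^ 2 ≤ E1 * (8 * d * M) :=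
      (pow_le_pow_left₀ (by positivity) h1 2).trans (h2.trans (mul_le_mul_of_nonneg_left h3 hE10))
    have h5 : M * (4 * (δ ^ 2 * M)) ≤ M * (4 * (2 * d * E1)) := by nlinarith
    have h6 := le_of_mul_le_mul_left h5 hM'
    linarith

end Pool.Agent.FIIDU
end

section

/-!
# MP_767f1c_pr: nonamenable graphs have a spectral gap
-/

set_option autoImplicit false

namespace Pool.Agent.FIIDU

open Set Filter
open scoped ENNReal


variable {V : Type}

open Classical in
theorem Gap_energy_le {G : SimpleGraph V} {d : ℕ} (h : Std G d) (f : V → ℝ) :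
    energy G f ≤ (8 * d : ℕ) * nrm f := by
  have e2 : energy G f ≤
      ∑' x, ∑' y, ((if G.Adj x y then 2 * ENNReal.ofReal (f x ^ 2) else 0) +
        (if G.Adj x y then 2 * ENNReal.ofReal (f y ^ 2) else 0)) := by
    refine ENNReal.tsum_le_tsum fun x => ENNReal.tsum_le_tsum fun y => ?_
    split_ifs
    · have e0 : (2 : ℝ≥0∞) = ENNReal.ofReal 2 := by simp
      rw [e0, ← ENNReal.ofReal_mul (by norm_num), ← ENNReal.ofReal_mul (by norm_num),
        ← ENNReal.ofReal_add (by positivity) (by positivity)]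
      refine ENNReal.ofReal_le_ofReal ?_
      nlinarith [sq_nonneg (f x + f y)]
    · simp
  refine e2.trans (le_of_eq ?_)
  simp only [ENNReal.tsum_add]
  have k1 := GapB_sum h (fun x => 2 * ENNReal.ofReal (f x ^ 2))
  have k2 : ∑' x, ∑' y, (if G.Adj x y then 2 * ENNReal.ofReal (f y ^ 2) else 0) =
      ∑' x, ∑' y, (if G.Adj x y then 2 * ENNReal.ofReal (f x ^ 2) else 0) := by
    rw [ENNReal.tsum_comm]
    refine tsum_congr fun x => tsum_congr fun y => ?_
    simp only [G.adj_comm]
  rw [k2, k1, ENNReal.tsum_mul_left]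
  unfold nrm
  push_cast
  ring

open Classical in
theorem Gap_energy_add {G : SimpleGraph V} (f g : V → ℝ) :
    energy G (fun x => f x + g x) ≤ 2 * energy G f + 2 * energy G g := by
  unfold energy
  rw [← ENNReal.tsum_mul_left, ← ENNReal.tsum_mul_left, ← ENNReal.tsum_add]
  refine ENNReal.tsum_le_tsum fun x => ?_
  rw [← ENNReal.tsum_mul_left, ← ENNReal.tsum_mul_left, ← ENNReal.tsum_add]
  refine ENNReal.tsum_le_tsum fun y => ?_
  split_ifs
  · have e0 : (2 : ℝ≥0∞) = ENNReal.ofReal 2 := by simp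
    rw [e0, ← ENNReal.ofReal_mul (by norm_num), ← ENNReal.ofReal_mul (by norm_num),
      ← ENNReal.ofReal_add (by positivity) (by positivity)]
    refine ENNReal.ofReal_le_ofReal ?_
    nlinarith [sq_nonneg ((f x - f y) - (g x - g y))]
  · simp

/-- **Nonamenable graphs have a spectral gap.** -/
theorem exists_gap {G : SimpleGraph V} {d : ℕ} (h : Std G d) (hna : ¬ Amen G) :
    ∃ κ, Gap G κ := by
  classical
  obtain ⟨δ, hδ, hiso⟩ := exists_iso hna
  -- the degree is positive
  have hd : 0 < d := by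
    rcases Nat.eq_zero_or_pos d with rfl | hd
    · exfalso
      obtain ⟨x⟩ := h.conn.nonempty
      have h1 := hiso {x} (Set.finite_singleton x)
      have h2 : eb G {x} = ∅ := by
        rw [Set.eq_empty_iff_forall_notMem]
        rintro ⟨y, z⟩ ⟨h3, h4, h5⟩
        have h6 := h.deg y
        rw [mul_zero, Set.ncard_eq_zero (h.fin y)] at h6
        have : z ∈ {z | G.Adj y z} := h5
        rw [h6] at this
        exact this
      rw [h2] at h1
      simp at h1
      linarith
    · exact hd
  have hd' : (0 : ℝ) < d := by exact_mod_cast hd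
  refine ⟨δ ^ 2 / (2 * (2 * d)), by positivity, fun f hf => ?_⟩
  -- an inequality for every finite set
  have hF : ∀ F : Finset V, ENNReal.ofReal (δ ^ 2) * ∑ x ∈ F, ENNReal.ofReal (f x ^ 2) ≤
      (2 * d : ℕ) * (2 * energy G f + 2 * ((8 * d : ℕ) *
        ∑' b : {x // x ∉ F}, ENNReal.ofReal (f b ^ 2))) := by
    intro F
    set f1 : V → ℝ := fun x => if x ∈ F then f x else 0 with hf1
    set f2 : V → ℝ := fun x => if x ∈ F then 0 else - f x with hf2
    have e : f1 = fun x => f x + f2 x := by
      funext x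
      simp only [hf1, hf2]
      split_ifs <;> ring
    have hs : (Function.support f1).Finite := by
      refine F.finite_toSet.subset ?_
      intro x hx
      rw [Function.mem_support] at hx
      by_contra h'
      exact hx (if_neg h')
    have h1 := gap_finite h hδ hiso f1 hs
    have h2 : nrm f1 = ∑ x ∈ F, ENNReal.ofReal (f x ^ 2) := by
      unfold nrm
      rw [tsum_eq_sum (s := F)]
      · refine Finset.sum_congr rfl fun x hx => ?_
        simp only [hf1, if_pos hx]
      · intro x hx
        simp only [hf1, if_neg hx]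
        simp
    have h3 : nrm f2 = ∑' b : {x // x ∉ F}, ENNReal.ofReal (f b ^ 2) := by
      unfold nrm
      rw [← tsum_subtype_eq_of_support_subset (s := {x | x ∉ F})]
      · refine tsum_congr fun b => ?_
        have hb : (b : V) ∉ F := b.2
        simp only [hf2, if_neg hb, neg_sq]
      · intro x hx
        rw [Function.mem_support] at hx
        intro h'
        apply hx
        simp only [hf2, if_pos h']
        simp
    have h4 : energy G f1 ≤ 2 * energy G f + 2 * ((8 * d : ℕ) * nrm f2) := by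
      rw [e]
      exact (Gap_energy_add f f2).trans (by gcongr; exact Gap_energy_le h f2)
    rw [h2] at h1
    rw [h3] at h4
    exact h1.trans (by gcongr)
  -- pass to the limit
  have hlim1 : Tendsto (fun F : Finset V => ENNReal.ofReal (δ ^ 2) *
      ∑ x ∈ F, ENNReal.ofReal (f x ^ 2)) atTop (nhds (ENNReal.ofReal (δ ^ 2) * nrm f)) :=
    ENNReal.Tendsto.const_mul ENNReal.summable.hasSum (Or.inr ENNReal.ofReal_ne_top)
  have hlim2 : Tendsto (fun F : Finset V => ∑' b : {x // x ∉ F}, ENNReal.ofReal (f b ^ 2)) atTop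
      (nhds 0) := ENNReal.tendsto_tsum_compl_atTop_zero hf
  have hlim3 : Tendsto (fun F : Finset V => ((2 * d : ℕ) : ℝ≥0∞) * (2 * energy G f +
      2 * ((8 * d : ℕ) * ∑' b : {x // x ∉ F}, ENNReal.ofReal (f b ^ 2)))) atTop
      (nhds (((2 * d : ℕ) : ℝ≥0∞) * (2 * energy G f + 2 * ((8 * d : ℕ) * 0)))) := by
    refine ENNReal.Tendsto.const_mul (Tendsto.add tendsto_const_nhds ?_)
      (Or.inr (ENNReal.natCast_ne_top _))
    exact ENNReal.Tendsto.const_mul (ENNReal.Tendsto.const_mul hlim2
      (Or.inr (ENNReal.natCast_ne_top _))) (Or.inr (by norm_num))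
  have hmain := le_of_tendsto_of_tendsto' hlim1 hlim3 hF
  rw [mul_zero, mul_zero, add_zero, ← mul_assoc] at hmain
  have e1 : ((2 * d : ℕ) : ℝ≥0∞) * 2 = ENNReal.ofReal (2 * (2 * d)) := by
    rw [ENNReal.ofReal_mul (by norm_num), mul_comm]
    congr 1
    · simp
    · rw [show (2 * (d : ℝ)) = ((2 * d : ℕ) : ℝ) by push_cast; ring, ENNReal.ofReal_natCast]
  rw [e1] at hmain
  have hpos : (0 : ℝ) < 2 * (2 * d) := by positivity
  rw [ENNReal.ofReal_div_of_pos hpos, mul_comm, ← mul_div_assoc]
  refine ENNReal.div_le_of_le_mul ?_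
  rw [mul_comm (nrm f), mul_comm (energy G f)]
  exact hmain

end Pool.Agent.FIIDU
end
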