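import Pool.Agent.Lib.MP_767f1c_pr.Mg.G001
import Pool.Agent.Lib.MP_767f1c_pr.Mg.G003

section

/-!
# MP_767f1c_pr: balanced orientations of components form a factor
-/

set_option autoImplicit false

namespace Pool.Agent.FIIDU

open MeasureTheory Set Filter
open scoped ENNReal


variable {V : Type}

theorem EulB_iff (R : V → V → Prop) (x : V) (l : Obj V) : EulC R x l ↔
    l.Nodup ∧ (∀ p : V × V, p ∈ l → (R p.1 p.2 ∧ Relation.ReflTransGen R x p.1)) ∧
    (∀ y z, Relation.ReflTransGen R x y → (R y z → ((y, z) ∈ l ↔ (z, y) ∉ l))) ∧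
    ∀ y, {z | (y, z) ∈ l}.ncard = {z | (z, y) ∈ l}.ncard :=
  ⟨fun h => ⟨h.1, h.2, h.3, h.4⟩, fun h => ⟨h.1, h.2.1, h.2.2.1, h.2.2.2⟩⟩

theorem EulB_mem {G : SimpleGraph V} (φ : G ≃g G) (l : Obj V) (y z : V) :
    (φ y, φ z) ∈ mapO φ l ↔ (y, z) ∈ l := by
  unfold mapO
  rw [List.mem_map]
  constructor
  · rintro ⟨⟨u, v⟩, h1, h2⟩
    obtain ⟨h3, h4⟩ := Prod.mk.inj h2
    rw [φ.injective h3, φ.injective h4] at h1
    exact h1
  · intro h
    exact ⟨(y, z), h, rfl⟩

/-- the balanced orientations of the component form a factor -/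
theorem eulC_fac [Countable V] {G : SimpleGraph V} {R : Om V → V → V → Prop} (hR : Fac2 G R) :
    Fac1O G (fun ω x l => EulC (R ω) x l) := by
  constructor
  · intro x l
    have e : (fun ω => EulC (R ω) x l) = fun ω => l.Nodup ∧
        (∀ p : V × V, p ∈ l → (R ω p.1 p.2 ∧ Relation.ReflTransGen (R ω) x p.1)) ∧
        (∀ y z, Relation.ReflTransGen (R ω) x y → (R ω y z → ((y, z) ∈ l ↔ (z, y) ∉ l))) ∧
        ∀ y, {z | (y, z) ∈ l}.ncard = {z | (z, y) ∈ l}.ncard := by
      funext ω
      exact propext (EulB_iff _ _ _)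
    rw [e]
    refine measurable_const.and (Measurable.and ?_ (Measurable.and ?_ measurable_const))
    · refine Measurable.forall fun p => measurable_const.imp ?_
      exact (hR.meas _ _).and (hR.meas_reach.meas _ _)
    · refine Measurable.forall fun y => Measurable.forall fun z => ?_
      exact (hR.meas_reach.meas _ _).imp ((hR.meas _ _).imp measurable_const)
  · intro φ ω x l
    have h1 := fun y z => hR.equi φ ω y z
    have h2 := fun y z => hR.meas_reach.equi φ ω y z
    have hm := EulB_mem φ l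
    rw [EulB_iff, EulB_iff]
    refine and_congr ?_ (and_congr ?_ (and_congr ?_ ?_))
    · unfold mapO
      rw [List.nodup_map_iff]
      exact φ.injective.prodMap φ.injective
    · constructor
      · rintro h ⟨u, v⟩ hp
        obtain ⟨y, rfl⟩ := φ.surjective u
        obtain ⟨z, rfl⟩ := φ.surjective v
        have := h (y, z) ((hm y z).1 hp)
        exact ⟨(h1 y z).1 this.1, (h2 x y).1 this.2⟩
      · rintro h ⟨y, z⟩ hp
        have := h (φ y, φ z) ((hm y z).2 hp)
        exact ⟨(h1 y z).2 this.1, (h2 x y).2 this.2⟩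
    · constructor
      · intro h u v h3 h4
        obtain ⟨y, rfl⟩ := φ.surjective u
        obtain ⟨z, rfl⟩ := φ.surjective v
        rw [hm, hm]
        exact h y z ((h2 x y).2 h3) ((h1 y z).2 h4)
      · intro h y z h3 h4
        have := h (φ y) (φ z) ((h2 x y).1 h3) ((h1 y z).1 h4)
        rwa [hm, hm] at this
    · have e1 : ∀ y, {z | (φ y, z) ∈ mapO φ l} = φ '' {z | (y, z) ∈ l} := by
        intro y
        ext v
        obtain ⟨z, rfl⟩ := φ.surjective v
        constructor
        · intro h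
          exact ⟨z, (hm y z).1 h, rfl⟩
        · rintro ⟨z', h, h'⟩
          rw [← h']
          exact (hm y z').2 h
      have e2 : ∀ y, {z | (z, φ y) ∈ mapO φ l} = φ '' {z | (z, y) ∈ l} := by
        intro y
        ext v
        obtain ⟨z, rfl⟩ := φ.surjective v
        constructor
        · intro h
          exact ⟨z, (hm z y).1 h, rfl⟩
        · rintro ⟨z', h, h'⟩
          rw [← h']
          exact (hm z' y).2 h
      constructor
      · intro h u
        obtain ⟨y, rfl⟩ := φ.surjective u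
        rw [e1, e2, Set.ncard_image_of_injective _ φ.injective,
          Set.ncard_image_of_injective _ φ.injective]
        exact h y
      · intro h y
        have := h (φ y)
        rwa [e1, e2, Set.ncard_image_of_injective _ φ.injective,
          Set.ncard_image_of_injective _ φ.injective] at this

end Pool.Agent.FIIDU
end

section

/-!
# MP_767f1c_pr: factor balanced orientations of random even graphs with finite components
-/

set_option autoImplicit false

namespace Pool.Agent.FIIDU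

open MeasureTheory Set Filter
open scoped ENNReal


variable {V : Type}

private theorem select_comp {R : V → V → Prop} {x y : V} (h : comp R x = comp R y) {l : Obj V}
    (hl : EulC R x l) : EulC R y l := by
  refine ⟨hl.nodup, ?_, ?_, hl.bal⟩
  · rw [← h]; exact hl.sub
  · rw [← h]; exact hl.one

private theorem select_comp_eq {R : V → V → Prop} (hsym : ∀ x y, R x y → R y x) {x y : V}
    (h : R x y) : comp R x = comp R y := by
  ext z
  constructor
  · intro hz
    exact Relation.ReflTransGen.head (hsym _ _ h) hz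
  · intro hz
    exact Relation.ReflTransGen.head h hz

private theorem select_fin {T : Set (V × V)} (hT : T.Finite) :
    {l : Obj V | l.Nodup ∧ ∀ p ∈ l, p ∈ T}.Finite := by
  classical
  have := hT.fintype
  have h1 : {l : List T | l.length ≤ Fintype.card T}.Finite := List.finite_length_le _ _
  apply (h1.image (fun l : List T => l.map Subtype.val)).subset
  rintro l ⟨h2, h3⟩
  lift l to List T using h3
  refine ⟨l, ?_, rfl⟩
  have h4 : l.Nodup := List.Nodup.of_map _ h2
  exact h4.length_le_card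

private theorem select_mem {G : SimpleGraph V} (φ : G ≃g G) (l : Obj V) (y z : V) :
    (φ y, φ z) ∈ mapO φ l ↔ (y, z) ∈ l := by
  unfold mapO
  rw [List.mem_map]
  constructor
  · rintro ⟨⟨u, v⟩, h1, h2⟩
    obtain ⟨h3, h4⟩ := Prod.mk.inj h2
    rw [φ.injective h3, φ.injective h4] at h1
    exact h1
  · intro h
    exact ⟨(y, z), h, rfl⟩

private theorem select_symm {G : SimpleGraph V} (φ : G ≃g G) (l : Obj V) :
    mapO φ (mapO φ.symm l) = l := by
  unfold mapO
  rw [List.map_map]
  conv_rhs => rw [← List.map_id l]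
  apply List.map_congr_left
  intro p _
  simp only [Function.comp, Prod.map, id]
  apply Prod.ext
  · exact φ.apply_symm_apply p.1
  · exact φ.apply_symm_apply p.2

/-- **Factor balanced orientations of even graphs with finite components.** -/
theorem sel_euler [Countable V] {G : SimpleGraph V} {R : Om V → V → V → Prop} (hR : Fac2 G R)
    (hsub : ∀ ω, SubE G (R ω)) (heven : ∀ᵐ ω ∂PP V, ∀ x, Even (dg (R ω) x))
    (hfin : ∀ᵐ ω ∂PP V, ∀ x, (comp (R ω) x).Finite) :
    ∃ O : Om V → V → V → Prop, Fac2 G O ∧ ∀ᵐ ω ∂PP V, ∀ x, BalAt (R ω) (O ω) x := by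
  have hc : ∀ᵐ ω ∂PP V, ∀ x, {l | EulC (R ω) x l}.Finite ∧ {l | EulC (R ω) x l}.Nonempty := by
    filter_upwards [heven, hfin] with ω h1 h2
    intro x
    constructor
    · apply (select_fin ((h2 x).prod (h2 x))).subset
      intro l hl
      refine ⟨hl.nodup, ?_⟩
      intro p hp
      have h3 := hl.sub p hp
      exact ⟨h3.2, Relation.ReflTransGen.tail h3.2 h3.1⟩
    · exact exists_eulC (fun x y h => (hsub ω x y h).1)
        (fun x h => G.irrefl (hsub ω x x h).2) h1 (h2 x)
  obtain ⟨S, hS, hS2⟩ := select (eulC_fac hR) hc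
  refine ⟨fun ω x y => ∃ l, S ω x l ∧ (x, y) ∈ l, ⟨?_, ?_⟩, ?_⟩
  · intro x y
    apply Measurable.exists
    intro l
    exact (hS.meas x l).and measurable_const
  · intro φ ω x y
    constructor
    · rintro ⟨l, h1, h2⟩
      exact ⟨mapO φ l, (hS.equi φ ω x l).1 h1, (select_mem φ l x y).2 h2⟩
    · rintro ⟨l, h1, h2⟩
      refine ⟨mapO φ.symm l, (hS.equi φ ω x _).2 (by rw [select_symm]; exact h1), ?_⟩
      rw [← select_mem φ, select_symm]
      exact h2
  · filter_upwards [hS2] with ω hω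
    intro x
    obtain ⟨h1, h2⟩ := hω
    choose L hL hL2 using h1
    have hO : ∀ y z, (∃ l, S ω y l ∧ (y, z) ∈ l) ↔ (y, z) ∈ L y := by
      intro y z
      constructor
      · rintro ⟨l, h3, h4⟩
        rw [← (hL2 y l).1 h3]
        exact h4
      · intro h3
        exact ⟨L y, (hL2 y _).2 rfl, h3⟩
    have hsym : ∀ x y, R ω x y → R ω y x := fun x y h => (hsub ω x y h).1
    have hLeq : ∀ y z, R ω y z → L y = L z := by
      intro y z hyz
      have hc := select_comp_eq hsym hyz
      have h3 := h2 y z (fun l => ⟨select_comp hc, select_comp hc.symm⟩) (L y)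
      exact (hL2 z _).1 (h3.1 ((hL2 y _).2 rfl))
    have hsub' : ∀ y z w, (z, w) ∈ L y → R ω z w := fun y z w h => ((hL y).sub _ h).1
    constructor
    · intro y h
      rw [hO] at h
      exact hsub' _ _ _ h
    · intro y h
      rw [hO] at h
      exact hsub' _ _ _ h
    · intro y hxy
      rw [hO, hO, ← hLeq x y hxy]
      exact (hL x).one x y Relation.ReflTransGen.refl hxy
    · have e1 : {y | ∃ l, S ω x l ∧ (x, y) ∈ l} = {y | (x, y) ∈ L x} := by
        ext y
        exact hO x y
      have e2 : {y | ∃ l, S ω y l ∧ (y, x) ∈ l} = {y | (y, x) ∈ L x} := by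
        ext y
        refine (hO y x).trans ?_
        constructor
        · intro h
          have h3 := hLeq y x (hsub' _ _ _ h)
          rw [h3] at h
          exact h
        · intro h
          have h3 := hLeq y x (hsub' _ _ _ h)
          rw [← h3] at h
          exact h
      show {y | ∃ l, S ω x l ∧ (x, y) ∈ l}.ncard = {y | ∃ l, S ω y l ∧ (y, x) ∈ l}.ncard
      rw [e1, e2]
      exact (hL x).bal x

end Pool.Agent.FIIDU
end

section

/-!
# MP_767f1c_pr: sparse even subgraphs with finite complementary components, one step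
-/

set_option autoImplicit false

namespace Pool.Agent.FIIDU

open MeasureTheory Set Filter
open scoped ENNReal


variable {V : Type}

/-- `J` is a factor, a random even subgraph such that the components of `G ∖ J` are finite -/
structure EvenP [Countable V] (G : SimpleGraph V) (J : Om V → V → V → Prop) : Prop where
  fac : Fac2 G J
  sub : ∀ ω, SubE G (J ω)
  even : ∀ᵐ ω ∂PP V, ∀ x, Even (dg (J ω) x)
  fin : ∀ᵐ ω ∂PP V, ∀ x, (comp (rem G (J ω)) x).Finite

/-- there are arbitrarily sparse even subgraphs with finite complementary components -/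
def HypEv [Countable V] (G : SimpleGraph V) : Prop :=
  ∀ (o : V) (ε : ℝ≥0∞), 0 < ε → ∃ J : Om V → V → V → Prop, EvenP G J ∧
    PP V {ω | ∃ y, J ω o y} ≤ ε

/-- the vertices at which nothing changes -/
private def kept (G : SimpleGraph V) (J J' : V → V → Prop) (x : V) : Prop :=
  ∀ z ∈ comp (rem G J) x, ∀ w, ¬ J' z w

/-- the edges which are oriented anew -/
private def newR (G : SimpleGraph V) (J J' : V → V → Prop) (x y : V) : Prop :=
  G.Adj x y ∧ ¬ J' x y ∧ ¬ (kept G J J' x ∧ ¬ J x y)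

private theorem rem_symm {G : SimpleGraph V} {J : V → V → Prop} (hJ : SubE G J) {x y : V}
    (h : rem G J x y) : rem G J y x := ⟨h.1.symm, fun h' => h.2 (hJ _ _ h').1⟩

private theorem comp_symm {G : SimpleGraph V} {J : V → V → Prop} (hJ : SubE G J) {x y : V}
    (h : y ∈ comp (rem G J) x) : x ∈ comp (rem G J) y := by
  have h' : Relation.ReflTransGen (rem G J) x y := h
  change Relation.ReflTransGen (rem G J) y x
  induction h' with
  | refl => exact Relation.ReflTransGen.refl
  | tail h1 h2 ih => exact Relation.ReflTransGen.head (rem_symm hJ h2) (ih h1)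

private theorem kept_of_mem {G : SimpleGraph V} {J J' : V → V → Prop} {x y : V}
    (h : y ∈ comp (rem G J) x) (hk : kept G J J' x) : kept G J J' y :=
  fun z hz w => hk z (Relation.ReflTransGen.trans h hz) w

private theorem kept_of_rem {G : SimpleGraph V} {J J' : V → V → Prop} {x y : V}
    (h : rem G J x y) (hk : kept G J J' x) : kept G J J' y :=
  kept_of_mem (Relation.ReflTransGen.single h) hk

private theorem newR_sub {G : SimpleGraph V} {J J' : V → V → Prop} (hJ : SubE G J)
    (hJ' : SubE G J') : SubE G (newR G J J') := by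
  intro x y h
  refine ⟨⟨h.1.symm, fun h' => h.2.1 (hJ' _ _ h').1, fun h' => h.2.2 ⟨?_, ?_⟩⟩, h.1⟩
  · exact kept_of_rem ⟨h.1.symm, h'.2⟩ h'.1
  · exact fun h'' => h'.2 (hJ _ _ h'').1

private theorem newR_even {G : SimpleGraph V} {d : ℕ} (h : Std G d) {J J' : V → V → Prop}
    (hJ : SubE G J) (hJ' : SubE G J') {x : V} (he : Even (dg J x)) (he' : Even (dg J' x)) :
    Even (dg (newR G J J') x) := by
  by_cases hk : kept G J J' x
  · have : dg (newR G J J') x = dg J x := by
      unfold dg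
      congr 1
      ext y
      constructor
      · intro h1
        by_contra h2
        exact h1.2.2 ⟨hk, h2⟩
      · intro h1
        exact ⟨(hJ _ _ h1).2, hk x Relation.ReflTransGen.refl y, fun h2 => h2.2 h1⟩
    rwa [this]
  · have h1 : {y | newR G J J' x y} = {y | G.Adj x y} \ {y | J' x y} := by
      ext y
      constructor
      · intro h1
        exact ⟨h1.1, h1.2.1⟩
      · intro h1
        exact ⟨h1.1, h1.2, fun h2 => hk h2.1⟩
    have h2 : {y | J' x y} ⊆ {y | G.Adj x y} := fun y hy => (hJ' _ _ hy).2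
    have h3 : dg (newR G J J') x = 2 * d - dg J' x := by
      unfold dg
      rw [h1, Set.ncard_sdiff h2 ((h.fin x).subset h2), h.deg]
    have h4 : dg J' x ≤ 2 * d := by
      rw [← h.deg x]
      exact Set.ncard_le_ncard h2 (h.fin x)
    rw [h3]
    obtain ⟨k, hk⟩ := he'
    exact ⟨d - k, by omega⟩

private theorem newR_comp {G : SimpleGraph V} {J J' : V → V → Prop} (x : V) :
    comp (newR G J J') x ⊆ comp (rem G J') x := by
  intro y hy
  have h' : Relation.ReflTransGen (newR G J J') x y := hy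
  change Relation.ReflTransGen (rem G J') x y
  induction h' with
  | refl => exact Relation.ReflTransGen.refl
  | tail h1 h2 ih => exact Relation.ReflTransGen.tail (ih h1) ⟨h2.1, h2.2.1⟩

/-- the new orientation -/
private def newO (G : SimpleGraph V) (J J' O S : V → V → Prop) (x y : V) : Prop :=
  (kept G J J' x ∧ O x y) ∨ S x y

private theorem newO_bal {G : SimpleGraph V} {d : ℕ} (h : Std G d) {J J' O S : V → V → Prop}
    (hJ : SubE G J) (hJ' : SubE G J') (hO : ∀ x, BalAt (rem G J) O x)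
    (hS : ∀ x, BalAt (newR G J J') S x) (x : V) : BalAt (rem G J') (newO G J J' O S) x := by
  have hk1 : ∀ a b, O a b → (kept G J J' a ↔ kept G J J' b) := by
    intro a b hab
    have h1 := (hO a).out b hab
    exact ⟨kept_of_rem h1, kept_of_rem (rem_symm hJ h1)⟩
  have hex : ∀ a b, kept G J J' a → O a b → ¬ S a b ∧ ¬ S b a := by
    intro a b hk hab
    have h1 := (hO a).out b hab
    refine ⟨fun h2 => ?_, fun h2 => ?_⟩
    · exact ((hS a).out b h2).2.2 ⟨hk, h1.2⟩
    · exact ((hS b).out a h2).2.2 ⟨(hk1 a b hab).1 hk, (rem_symm hJ h1).2⟩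
  refine ⟨?_, ?_, ?_, ?_⟩
  · rintro y (⟨hk, hy⟩ | hy)
    · exact ⟨((hO x).out y hy).1, hk x Relation.ReflTransGen.refl y⟩
    · exact ⟨((hS x).out y hy).1, ((hS x).out y hy).2.1⟩
  · rintro y (⟨hk, hy⟩ | hy)
    · exact ⟨((hO x).inn y hy).1, hk y Relation.ReflTransGen.refl x⟩
    · exact ⟨((hS x).inn y hy).1, ((hS x).inn y hy).2.1⟩
  · intro y hy
    by_cases hR : newR G J J' x y
    · have h1 : ¬ (kept G J J' x ∧ O x y) := fun h2 => hR.2.2 ⟨h2.1, ((hO x).out y h2.2).2⟩
      have hR' := (newR_sub hJ hJ' _ _ hR).1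
      have h2 : ¬ (kept G J J' y ∧ O y x) := fun h2 => hR'.2.2 ⟨h2.1, ((hO y).out x h2.2).2⟩
      have h3 := (hS x).one y hR
      unfold newO
      tauto
    · have h1 : kept G J J' x ∧ ¬ J x y := by
        by_contra h2
        exact hR ⟨hy.1, hy.2, h2⟩
      have h2 : ¬ S x y := fun h3 => hR ((hS x).out y h3)
      have h3 : ¬ S y x := fun h3 => hR ((hS x).inn y h3 |> fun h4 => (newR_sub hJ hJ' _ _ h4).1)
      have h4 : rem G J x y := ⟨hy.1, h1.2⟩
      have h5 := (hO x).one y h4
      have h6 : kept G J J' y := kept_of_rem h4 h1.1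
      unfold newO
      tauto
  · have f1 : ∀ a, {y | O a y}.Finite := fun a =>
      (h.fin a).subset fun y hy => ((hO a).out y hy).1
    have f2 : ∀ a, {y | O y a}.Finite := fun a =>
      (h.fin a).subset fun y hy => ((hO a).inn y hy).1.symm
    have f3 : ∀ a, {y | S a y}.Finite := fun a =>
      (h.fin a).subset fun y hy => ((hS a).out y hy).1
    have f4 : ∀ a, {y | S y a}.Finite := fun a =>
      (h.fin a).subset fun y hy => ((hS a).inn y hy).1.symm
    have hbO := (hO x).bal
    have hbS := (hS x).bal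
    unfold dg dgi at *
    by_cases hk : kept G J J' x
    · have e1 : {y | newO G J J' O S x y} = {y | O x y} ∪ {y | S x y} := by
        ext y
        simp [newO, hk]
      have e2 : {y | newO G J J' O S y x} = {y | O y x} ∪ {y | S y x} := by
        ext y
        simp only [newO, mem_ofPred_eq, mem_union]
        constructor
        · rintro (h1 | h1)
          · exact Or.inl h1.2
          · exact Or.inr h1
        · rintro (h1 | h1)
          · exact Or.inl ⟨(hk1 y x h1).2 hk, h1⟩
          · exact Or.inr h1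
      have d1 : Disjoint {y | O x y} {y | S x y} := by
        rw [Set.disjoint_left]
        intro y h1 h2
        exact (hex x y hk h1).1 h2
      have d2 : Disjoint {y | O y x} {y | S y x} := by
        rw [Set.disjoint_left]
        intro y h1 h2
        exact (hex y x ((hk1 y x h1).2 hk) h1).1 h2
      rw [e1, e2, Set.ncard_union_eq d1 (f1 x) (f3 x), Set.ncard_union_eq d2 (f2 x) (f4 x), hbO,
        hbS]
    · have e1 : {y | newO G J J' O S x y} = {y | S x y} := by
        ext y
        simp [newO, hk]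
      have e2 : {y | newO G J J' O S y x} = {y | S y x} := by
        ext y
        simp only [newO, mem_ofPred_eq]
        constructor
        · rintro (h1 | h1)
          · exact absurd ((hk1 y x h1.2).1 h1.1) hk
          · exact h1
        · exact Or.inr
      rw [e1, e2, hbS]

private theorem newO_chg {G : SimpleGraph V} {J J' O S : V → V → Prop}
    (hJ : SubE G J) (hJ' : SubE G J') (hO : ∀ x, BalAt (rem G J) O x)
    (hS : ∀ x, BalAt (newR G J J') S x) (x : V) (hk : kept G J J' x) (hx : ∀ y, ¬ J x y) :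
    ¬ Chg O (newO G J J' O S) x := by
  rintro ⟨y, hy⟩
  have h1 : ¬ S x y := fun h => ((hS x).out y h).2.2 ⟨hk, hx y⟩
  have h2 : ¬ S y x := fun h => (newR_sub hJ hJ' _ _ ((hS x).inn y h)).1.2.2 ⟨hk, hx y⟩
  have h3 : O y x → kept G J J' y := fun h => kept_of_rem (rem_symm hJ ((hO x).inn y h)) hk
  unfold newO at hy
  tauto

private theorem rem_fac [Countable V] {G : SimpleGraph V} {J : Om V → V → V → Prop}
    (hJ : Fac2 G J) : Fac2 G (fun ω => rem G (J ω)) := by
  refine ⟨fun x y => ?_, fun φ ω x y => ?_⟩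
  · exact measurable_const.and (hJ.meas x y).not
  · unfold rem
    rw [hJ.equi, φ.map_adj_iff]

private theorem kept_fac [Countable V] {G : SimpleGraph V} {J J' : Om V → V → V → Prop}
    (hJ : Fac2 G J) (hJ' : Fac2 G J') : Fac1 G (fun ω => kept G (J ω) (J' ω)) := by
  have hr := (rem_fac hJ).meas_reach
  refine ⟨fun x => ?_, fun φ ω x => ?_⟩
  · exact Measurable.forall fun z => (hr.meas x z).imp (Measurable.forall fun w =>
      (hJ'.meas z w).not)
  · unfold kept comp
    constructor
    · intro h z hz w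
      have h1 := h (φ.symm z) (by
        have := (hr.equi φ ω x (φ.symm z)).2
        simp only [φ.apply_symm_apply] at this
        exact this hz) (φ.symm w)
      rw [hJ'.equi] at h1
      simpa using h1
    · intro h z hz w
      rw [hJ'.equi]
      exact h _ ((hr.equi φ ω x z).1 hz) _

private theorem newR_fac [Countable V] {G : SimpleGraph V} {J J' : Om V → V → V → Prop}
    (hJ : Fac2 G J) (hJ' : Fac2 G J') : Fac2 G (fun ω => newR G (J ω) (J' ω)) := by
  have hk := kept_fac hJ hJ'
  refine ⟨fun x y => ?_, fun φ ω x y => ?_⟩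
  · exact measurable_const.and ((hJ'.meas x y).not.and ((hk.meas x).and (hJ.meas x y).not).not)
  · unfold newR
    rw [hJ.equi, hJ'.equi, φ.map_adj_iff, hk.equi]

private theorem newO_fac [Countable V] {G : SimpleGraph V} {J J' O S : Om V → V → V → Prop}
    (hJ : Fac2 G J) (hJ' : Fac2 G J') (hO : Fac2 G O) (hS : Fac2 G S) :
    Fac2 G (fun ω => newO G (J ω) (J' ω) (O ω) (S ω)) := by
  have hk := kept_fac hJ hJ'
  refine ⟨fun x y => ?_, fun φ ω x y => ?_⟩
  · exact ((hk.meas x).and (hO.meas x y)).or (hS.meas x y)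
  · unfold newO
    rw [hO.equi, hS.equi, hk.equi]

/-- one step: a balanced orientation of `G ∖ J` is replaced by a balanced orientation of
`G ∖ J'`, where `J'` is much sparser, and only few edges change -/
theorem even_step [Countable V] {G : SimpleGraph V} {d : ℕ} (h : Std G d) (hev : HypEv G) (o : V)
    {J O : Om V → V → V → Prop} (hJ : EvenP G J) (hO : Fac2 G O)
    (hb : ∀ᵐ ω ∂PP V, ∀ x, BalAt (rem G (J ω)) (O ω) x) {ε : ℝ≥0∞} (hε : 0 < ε) :
    ∃ J' O' : Om V → V → V → Prop, EvenP G J' ∧ Fac2 G O' ∧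
      (∀ᵐ ω ∂PP V, ∀ x, BalAt (rem G (J' ω)) (O' ω) x) ∧
      PP V {ω | ∃ y, J' ω o y} ≤ ε ∧
      PP V {ω | Chg (O ω) (O' ω) o} ≤ PP V {ω | ∃ y, J ω o y} + ε := by
  classical
  have hreach := (rem_fac hJ.fac).meas_reach
  -- the size of the component
  set sz : Om V → V → ℕ := fun ω x => (comp (rem G (J ω)) x).ncard with hsz
  have hszfac : ∀ k, Fac1 G (fun ω x => sz ω x = k) := fun k => hreach.dg_eq k
  have hszle : ∀ M, Fac1 G (fun ω x => sz ω x ≤ M) := by
    intro M
    have e : (fun ω x => sz ω x ≤ M) = fun ω x => ∃ k : ℕ, k ≤ M ∧ sz ω x = k := by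
      funext ω x
      apply propext
      exact ⟨fun h => ⟨_, h, rfl⟩, fun ⟨k, h1, h2⟩ => h2 ▸ h1⟩
    rw [e]
    refine ⟨fun x => ?_, fun φ ω x => ?_⟩
    · exact Measurable.exists fun k => measurable_const.and ((hszfac k).meas x)
    · exact exists_congr fun k => and_congr_right fun _ => (hszfac k).equi φ ω x
  obtain ⟨M, hM⟩ : ∃ M : ℕ, PP V {ω | ¬ sz ω o ≤ M} ≤ ε / 2 := by
    have hanti : Antitone (fun M : ℕ => {ω | ¬ sz ω o ≤ M}) := by
      intro a b hab ω hω h'
      exact hω (h'.trans hab)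
    have hmeas : ∀ M : ℕ, NullMeasurableSet {ω | ¬ sz ω o ≤ M} (PP V) := fun M =>
      (measurableSet_setOfPred.2 ((hszle M).meas o).not).nullMeasurableSet
    have ht := tendsto_measure_iInter_atTop hmeas hanti ⟨0, measure_ne_top _ _⟩
    have hempty : ⋂ M : ℕ, {ω | ¬ sz ω o ≤ M} = ∅ := by
      ext ω
      simp only [mem_iInter, mem_ofPred_eq, mem_empty_iff_false, iff_false, not_forall,
        not_not]
      exact ⟨sz ω o, le_rfl⟩
    rw [hempty, measure_empty] at ht
    have hpos : 0 < ε / 2 := ENNReal.half_pos hε.ne'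
    obtain ⟨M, hM⟩ := (ht.eventually (ge_mem_nhds hpos)).exists
    exact ⟨M, hM⟩
  obtain ⟨J', hJ', hJ'ε⟩ := hev o (ε / 2 / (M + 1 : ℕ))
    (ENNReal.div_pos (ENNReal.half_pos hε.ne').ne' (ENNReal.natCast_ne_top _))
  -- the new orientation
  obtain ⟨S, hSf, hS⟩ := sel_euler (newR_fac hJ.fac hJ'.fac)
    (fun ω => newR_sub (hJ.sub ω) (hJ'.sub ω))
    (by
      filter_upwards [hJ.even, hJ'.even] with ω h1 h2 x
      exact newR_even h (hJ.sub ω) (hJ'.sub ω) (h1 x) (h2 x))
    (by
      filter_upwards [hJ'.fin] with ω h1 x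
      exact (h1 x).subset (newR_comp x))
  have hεM : ((M + 1 : ℕ) : ℝ≥0∞) * (ε / 2 / (M + 1 : ℕ)) = ε / 2 := by
    rw [mul_comm]
    exact ENNReal.div_mul_cancel (by exact_mod_cast (Nat.succ_ne_zero M))
      (ENNReal.natCast_ne_top _)
  refine ⟨J', fun ω => newO G (J ω) (J' ω) (O ω) (S ω), hJ',
    newO_fac hJ.fac hJ'.fac hO hSf, ?_, ?_, ?_⟩
  · filter_upwards [hb, hS] with ω h1 h2 x
    exact newO_bal h (hJ.sub ω) (hJ'.sub ω) h1 h2 x
  · refine hJ'ε.trans ?_
    calc ε / 2 / (M + 1 : ℕ) ≤ ((M + 1 : ℕ) : ℝ≥0∞) * (ε / 2 / (M + 1 : ℕ)) := by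
          refine le_mul_of_one_le_left bot_le ?_
          exact_mod_cast Nat.succ_le_succ (Nat.zero_le M)
      _ = ε / 2 := hεM
      _ ≤ ε := ENNReal.half_le_self
  · -- mass transport
    let T : Om V → V → V → Prop := fun ω x y =>
      (∃ w, J' ω x w) ∧ Relation.ReflTransGen (rem G (J ω)) x y ∧ sz ω x ≤ M
    have hT : Fac2 G T := by
      refine ⟨fun x y => ?_, fun φ ω x y => ?_⟩
      · exact (Measurable.exists fun w => hJ'.fac.meas x w).and
          ((hreach.meas x y).and ((hszle M).meas x))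
      · have h1 : (∃ w, J' (act φ ω) x w) ↔ ∃ w, J' ω (φ x) w := by
          constructor
          · rintro ⟨w, hw⟩
            exact ⟨φ w, (hJ'.fac.equi φ ω x w).1 hw⟩
          · rintro ⟨w, hw⟩
            refine ⟨φ.symm w, (hJ'.fac.equi φ ω x (φ.symm w)).2 ?_⟩
            simpa using hw
        exact and_congr h1 (and_congr (hreach.equi φ ω x y) ((hszle M).equi φ ω x))
    have hmt := mtp_prob h hT o
    have hle : ∫⁻ ω, ({y | T ω o y}.encard : ℝ≥0∞) ∂PP V ≤
        (M : ℝ≥0∞) * PP V {ω | ∃ w, J' ω o w} := by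
      have hms : MeasurableSet {ω | ∃ w, J' ω o w} :=
        measurableSet_setOfPred.2 (Measurable.exists fun w => hJ'.fac.meas o w)
      have h1 : ∫⁻ ω, ({y | T ω o y}.encard : ℝ≥0∞) ∂PP V ≤
          ∫⁻ ω, {ω | ∃ w, J' ω o w}.indicator (fun _ => (M : ℝ≥0∞)) ω ∂PP V := by
        refine lintegral_mono_ae ?_
        filter_upwards [hJ.fin] with ω hfin
        by_cases hw : ∃ w, J' ω o w
        · rw [indicator_of_mem (show ω ∈ {ω | ∃ w, J' ω o w} from hw)]
          by_cases hs : sz ω o ≤ M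
          · have e : {y | T ω o y} = comp (rem G (J ω)) o := by
              ext y
              exact ⟨fun h => h.2.1, fun h => ⟨hw, h, hs⟩⟩
            rw [e, ← (hfin o).cast_ncard_eq]
            simp only [hsz] at hs
            exact_mod_cast hs
          · have e : {y | T ω o y} = ∅ := by
              ext y
              simp only [mem_ofPred_eq, mem_empty_iff_false, iff_false]
              exact fun h => hs h.2.2
            rw [e]
            simp
        · have e : {y | T ω o y} = ∅ := by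
            ext y
            simp only [mem_ofPred_eq, mem_empty_iff_false, iff_false]
            exact fun h => hw h.1
          rw [e]
          simp
      refine h1.trans (le_of_eq ?_)
      rw [lintegral_indicator_const hms]
    have hle2 : (M : ℝ≥0∞) * PP V {ω | ∃ w, J' ω o w} ≤ ε / 2 := by
      calc (M : ℝ≥0∞) * PP V {ω | ∃ w, J' ω o w}
          ≤ ((M + 1 : ℕ) : ℝ≥0∞) * (ε / 2 / (M + 1 : ℕ)) := by
            refine mul_le_mul' ?_ hJ'ε
            exact_mod_cast Nat.le_succ M
        _ = ε / 2 := hεM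
    have hsub : ∀ᵐ ω ∂PP V, ω ∈ {ω | Chg (O ω) (newO G (J ω) (J' ω) (O ω) (S ω)) o} →
        ω ∈ ({ω | ∃ y, J ω o y} ∪ ({ω | ¬ sz ω o ≤ M} ∪ {ω | ∃ y, T ω y o})) := by
      filter_upwards [hb, hS] with ω h1 h2 h3
      by_contra hcon
      simp only [mem_union, mem_ofPred_eq, not_or, not_not, not_exists] at hcon
      obtain ⟨c1, c2, c3⟩ := hcon
      refine newO_chg (hJ.sub ω) (hJ'.sub ω) h1 h2 o ?_ c1 h3
      intro z hz w hw
      refine c3 z ⟨⟨w, hw⟩, comp_symm (hJ.sub ω) hz, ?_⟩
      have e : comp (rem G (J ω)) z = comp (rem G (J ω)) o := by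
        ext y
        exact ⟨fun hy => Relation.ReflTransGen.trans hz hy,
          fun hy => Relation.ReflTransGen.trans (comp_symm (hJ.sub ω) hz) hy⟩
      simp only [hsz] at c2 ⊢
      rw [e]
      exact c2
    calc PP V {ω | Chg (O ω) (newO G (J ω) (J' ω) (O ω) (S ω)) o}
        ≤ PP V ({ω | ∃ y, J ω o y} ∪ ({ω | ¬ sz ω o ≤ M} ∪ {ω | ∃ y, T ω y o})) :=
          measure_mono_ae hsub
      _ ≤ PP V {ω | ∃ y, J ω o y} + (PP V {ω | ¬ sz ω o ≤ M} + PP V {ω | ∃ y, T ω y o}) :=
          (measure_union_le _ _).trans (add_le_add le_rfl (measure_union_le _ _))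
      _ ≤ PP V {ω | ∃ y, J ω o y} + (ε / 2 + ε / 2) := by
          gcongr
          exact hmt.trans (hle.trans hle2)
      _ = PP V {ω | ∃ y, J ω o y} + ε := by rw [ENNReal.add_halves]

end Pool.Agent.FIIDU
end

section

/-!
# MP_767f1c_pr: sparse even subgraphs give balanced orientations
-/

set_option autoImplicit false

namespace Pool.Agent.FIIDU

open MeasureTheory Set Filter
open scoped ENNReal


variable {V : Type}

private theorem ep_rem_fac {G : SimpleGraph V} {J : Om V → V → V → Prop} (hJ : Fac2 G J) :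
    Fac2 G (fun ω => rem G (J ω)) where
  meas x y := by
    have h1 : Measurable (fun ω => ¬ J ω x y) := (hJ.meas x y).not
    exact measurable_const.and h1
  equi φ ω x y := by
    unfold rem
    rw [hJ.equi φ ω x y, φ.map_adj_iff]

private theorem ep_rem_sub {G : SimpleGraph V} {C : V → V → Prop} (hC : SubE G C) :
    SubE G (rem G C) := by
  intro x y hxy
  exact ⟨⟨hxy.1.symm, fun h => hxy.2 (hC _ _ h).1⟩, hxy.1⟩

private theorem ep_rem_even {G : SimpleGraph V} {d : ℕ} (h : Std G d) {C : V → V → Prop}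
    (hC : SubE G C) (x : V) (he : Even (dg C x)) : Even (dg (rem G C) x) := by
  have h1 : {y | rem G C x y} = {y | G.Adj x y} \ {y | C x y} := by
    ext y
    exact Iff.rfl
  have h2 : {y | C x y} ⊆ {y | G.Adj x y} := fun y hy => (hC _ _ hy).2
  have h3 : dg (rem G C) x = 2 * d - dg C x := by
    unfold dg
    rw [h1, Set.ncard_sdiff h2 ((h.fin x).subset h2), h.deg]
  rw [h3]
  rcases he with ⟨k, hk⟩
  refine ⟨d - k, ?_⟩
  omega

private theorem ep_balAt {G : SimpleGraph V} {C O : V → V → Prop} {x : V}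
    (hb : BalAt (rem G C) O x) (hC : ∀ y, ¬ C x y) : BalAt G.Adj O x where
  out y hy := (hb.out y hy).1
  inn y hy := (hb.inn y hy).1
  one y hy := hb.one y ⟨hy, hC y⟩
  bal := hb.bal

/-- the states of the iteration -/
private def EpState [Countable V] (G : SimpleGraph V) : Type :=
  {p : (Om V → V → V → Prop) × (Om V → V → V → Prop) // EvenP G p.1 ∧ Fac2 G p.2 ∧
    ∀ᵐ ω ∂PP V, ∀ x, BalAt (rem G (p.1 ω)) (p.2 ω) x}

/-- the main criterion -/
theorem bo_of_hypEv [Countable V] {G : SimpleGraph V} {d : ℕ} (h : Std G d) (hev : HypEv G) :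
    HasBO G := by
  obtain ⟨o⟩ := h.conn.nonempty
  -- the initial state
  obtain ⟨J0, hJ0, -⟩ := hev o 1 one_pos
  obtain ⟨O0, hO0, hb0⟩ := sel_euler (R := fun ω => rem G (J0 ω)) (ep_rem_fac hJ0.fac)
    (fun ω => ep_rem_sub (hJ0.sub ω))
    (hJ0.even.mono fun ω hω x => ep_rem_even h (hJ0.sub ω) x (hω x)) hJ0.fin
  let s0 : EpState G := ⟨(J0, O0), hJ0, hO0, hb0⟩
  -- one step
  have hstep : ∀ (n : ℕ) (s : EpState G), ∃ s' : EpState G,
      PP V {ω | ∃ y, s'.1.1 ω o y} ≤ (2⁻¹ : ℝ≥0∞) ^ n ∧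
      PP V {ω | Chg (s.1.2 ω) (s'.1.2 ω) o} ≤
        PP V {ω | ∃ y, s.1.1 ω o y} + (2⁻¹ : ℝ≥0∞) ^ n := by
    intro n s
    have hε : (0 : ℝ≥0∞) < (2⁻¹ : ℝ≥0∞) ^ n :=
      ENNReal.pow_pos (ENNReal.inv_pos.2 (by norm_num)) n
    obtain ⟨J', O', h1, h2, h3, h4, h5⟩ := even_step h hev o s.2.1 s.2.2.1 s.2.2.2 hε
    exact ⟨⟨(J', O'), h1, h2, h3⟩, h4, h5⟩
  choose f hf1 hf2 using hstep
  let s : ℕ → EpState G := fun n => Nat.rec s0 (fun n s => f n s) n
  have hs : ∀ n, s (n + 1) = f n (s n) := fun n => rfl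
  set a : ℕ → ℝ≥0∞ := fun n => PP V {ω | ∃ y, (s n).1.1 ω o y} with ha
  have ha1 : ∀ n, a (n + 1) ≤ (2⁻¹ : ℝ≥0∞) ^ n := fun n => hf1 n (s n)
  have ha0 : ∀ n, a n ≤ 1 := fun n => prob_le_one
  have hgeo : ∑' n : ℕ, (2⁻¹ : ℝ≥0∞) ^ n = 2 := by
    rw [ENNReal.tsum_geometric, ENNReal.one_sub_inv_two, inv_inv]
  have hasum : ∑' n, a n ≠ ∞ := by
    rw [tsum_eq_zero_add' ENNReal.summable]
    refine ENNReal.add_ne_top.2 ⟨((ha0 0).trans_lt ENNReal.one_lt_top).ne, ?_⟩
    refine ((ENNReal.tsum_le_tsum ha1).trans_lt ?_).ne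
    rw [hgeo]
    exact ENNReal.ofNat_lt_top
  refine limit_bal h (fun n => (s n).1.2) (fun n => (s n).2.2.1) o ?_ ?_
  · refine ne_top_of_le_ne_top ?_ (ENNReal.tsum_le_tsum fun n => hf2 n (s n))
    rw [ENNReal.tsum_add, hgeo]
    exact ENNReal.add_ne_top.2 ⟨hasum, ENNReal.ofNat_ne_top⟩
  · intro ε hε
    refine Filter.Eventually.frequently ?_
    have hlim : Tendsto a atTop (nhds 0) := ENNReal.tendsto_atTop_zero_of_tsum_ne_top hasum
    filter_upwards [hlim.eventually (ge_mem_nhds hε)] with n hn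
    refine le_trans (measure_mono_ae ?_) hn
    filter_upwards [(s n).2.2.2] with ω hω
    intro hnb
    by_contra hne
    have hne' : ∀ y, ¬ (s n).1.1 ω o y := fun y hy => hne ⟨y, hy⟩
    exact hnb (ep_balAt (hω o) hne')

end Pool.Agent.FIIDU
end

section

/-!
# MP_767f1c_pr: the flipping procedure is a factor
-/

set_option autoImplicit false

namespace Pool.Agent.FIIDU

open MeasureTheory Set Filter
open scoped ENNReal


variable {V : Type}

theorem StB_mapO_inj {G : SimpleGraph V} (φ : G ≃g G) :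
    Function.Injective (mapO φ : Obj V → Obj V) :=
  List.map_injective_iff.mpr (φ.injective.prodMap φ.injective)

theorem StB_mapO_surj {G : SimpleGraph V} (φ : G ≃g G) :
    Function.Surjective (mapO φ : Obj V → Obj V) :=
  List.map_surjective_iff.mpr (φ.surjective.prodMap φ.surjective)

theorem StB_mem_mapO {G : SimpleGraph V} (φ : G ≃g G) (l : Obj V) (x y : V) :
    (φ x, φ y) ∈ mapO φ l ↔ (x, y) ∈ l := by
  have : (φ x, φ y) = Prod.map φ φ (x, y) := rfl
  rw [this]
  exact List.mem_map_of_injective (φ.injective.prodMap φ.injective)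

theorem StB_vs {G : SimpleGraph V} (φ : G ≃g G) (l : Obj V) (x : V) :
    φ x ∈ vs (mapO φ l) ↔ x ∈ vs l := by
  constructor
  · rintro ⟨p, hp, h⟩
    unfold mapO at hp
    obtain ⟨q, hq, rfl⟩ := List.mem_map.mp hp
    refine ⟨q, hq, ?_⟩
    rcases h with h | h
    · exact Or.inl (φ.injective h)
    · exact Or.inr (φ.injective h)
  · rintro ⟨p, hp, h⟩
    refine ⟨Prod.map φ φ p, List.mem_map_of_mem hp, ?_⟩
    rcases h with h | h
    · left; rw [h]; rfl
    · right; rw [h]; rfl

theorem StB_mv {G : SimpleGraph V} (φ : G ≃g G) (m n : ℕ) (l : Obj V) :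
    mapO φ l ∈ Mv G m n ↔ l ∈ Mv G m n := by
  unfold Mv
  simp only [mem_setOf_eq]
  have e : (mapO φ l).length = l.length := by
    unfold mapO
    exact List.length_map _
  rw [e]
  apply and_congr_right
  intro _
  constructor
  · intro h x hx y hy
    rw [← dist_map φ]
    exact h _ ((StB_vs φ l x).mpr hx) _ ((StB_vs φ l y).mpr hy)
  · intro h x hx y hy
    obtain ⟨x, rfl⟩ := φ.surjective x
    obtain ⟨y, rfl⟩ := φ.surjective y
    rw [dist_map φ]
    exact h _ ((StB_vs φ l x).mp hx) _ ((StB_vs φ l y).mp hy)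

theorem StB_dpath_nil (O : V → V → Prop) (a b : V) : DPath O a b [] ↔ a = b := by
  constructor
  · intro h
    cases h
    rfl
  · rintro rfl
    exact DPath.nil a

theorem StB_dpath_cons (O : V → V → Prop) (a b : V) (p : V × V) (l : Obj V) :
    DPath O a b (p :: l) ↔ a = p.1 ∧ O a p.2 ∧ a ≠ p.2 ∧ a ∉ vs l ∧ DPath O p.2 b l := by
  constructor
  · intro h
    cases h with
    | cons h hac ha hl => exact ⟨rfl, h, hac, ha, hl⟩
  · rcases p with ⟨p1, p2⟩
    rintro ⟨h1, h2, h3, h4, h5⟩
    simp only at h1 h2 h3 h5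
    subst h1
    exact DPath.cons h2 h3 h4 h5

theorem StB_dpath_meas {G : SimpleGraph V} {O : Om V → V → V → Prop} (hO : Fac2 G O)
    (l : Obj V) : ∀ a b : V, Measurable (fun ω => DPath (O ω) a b l) := by
  induction l with
  | nil =>
    intro a b
    simp only [StB_dpath_nil]
    exact measurable_const
  | cons p l ih =>
    intro a b
    simp only [StB_dpath_cons]
    exact measurable_const.and ((hO.meas _ _).and (measurable_const.and
      (measurable_const.and (ih _ _))))

theorem StB_dpath_equi {G : SimpleGraph V} {O : Om V → V → V → Prop} (hO : Fac2 G O)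
    (φ : G ≃g G) (ω : Om V) (l : Obj V) : ∀ a b : V,
    (DPath (O (act φ ω)) a b l ↔ DPath (O ω) (φ a) (φ b) (mapO φ l)) := by
  induction l with
  | nil =>
    intro a b
    have : mapO φ ([] : Obj V) = [] := rfl
    rw [this, StB_dpath_nil, StB_dpath_nil]
    exact φ.injective.eq_iff.symm
  | cons p l ih =>
    intro a b
    have : mapO φ (p :: l) = Prod.map φ φ p :: mapO φ l := rfl
    rw [this, StB_dpath_cons, StB_dpath_cons]
    simp only [Prod.map_fst, Prod.map_snd]
    rw [ih, hO.equi, StB_vs, ne_eq, ne_eq, φ.injective.eq_iff, φ.injective.eq_iff]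

theorem StB_ex [Countable V] {G : SimpleGraph V} {O : Om V → V → V → Prop} (hO : Fac2 G O) :
    Fac1 G (fun ω x => 0 < exP (O ω) x) ∧ Fac1 G (fun ω x => 0 < exN (O ω) x) := by
  have h1 := fun k => hO.dg_eq k
  have h2 := fun k => hO.dgi_eq k
  have k1 : ∀ ω x, 0 < exP (O ω) x ↔
      ∃ i j : ℕ, dg (O ω) x = i ∧ dgi (O ω) x = j ∧ 0 < i - j := by
    intro ω x
    constructor
    · intro h
      exact ⟨_, _, rfl, rfl, h⟩
    · rintro ⟨i, j, hi, hj, h⟩
      unfold exP
      rw [hi, hj]
      exact h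
  have k2 : ∀ ω x, 0 < exN (O ω) x ↔
      ∃ i j : ℕ, dg (O ω) x = i ∧ dgi (O ω) x = j ∧ 0 < j - i := by
    intro ω x
    constructor
    · intro h
      exact ⟨_, _, rfl, rfl, h⟩
    · rintro ⟨i, j, hi, hj, h⟩
      unfold exN
      rw [hi, hj]
      exact h
  constructor
  · constructor
    · intro x
      simp only [k1]
      exact Measurable.exists fun i => Measurable.exists fun j =>
        ((h1 i).meas x).and (((h2 j).meas x).and measurable_const)
    · intro φ ω x
      rw [k1, k1]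
      simp only [(h1 _).equi φ ω x, (h2 _).equi φ ω x]
  · constructor
    · intro x
      simp only [k2]
      exact Measurable.exists fun i => Measurable.exists fun j =>
        ((h1 i).meas x).and (((h2 j).meas x).and measurable_const)
    · intro φ ω x
      rw [k2, k2]
      simp only [(h1 _).equi φ ω x, (h2 _).equi φ ω x]

theorem StB_app [Countable V] {G : SimpleGraph V} {O : Om V → V → V → Prop} (hO : Fac2 G O)
    (n : ℕ) : FacO G (fun ω l => AppF G n (O ω) l) := by
  obtain ⟨e1, e2⟩ := StB_ex hO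
  constructor
  · intro l
    unfold AppF
    exact measurable_const.and (Measurable.exists fun a => Measurable.exists fun b =>
      (StB_dpath_meas hO l a b).and ((e1.meas a).and (e2.meas b)))
  · intro φ ω l
    unfold AppF
    rw [StB_mv]
    apply and_congr_right
    intro _
    constructor
    · rintro ⟨a, b, h1, h2, h3⟩
      exact ⟨φ a, φ b, (StB_dpath_equi hO φ ω l a b).mp h1, (e1.equi φ ω a).mp h2,
        (e2.equi φ ω b).mp h3⟩
    · rintro ⟨a, b, h1, h2, h3⟩
      obtain ⟨a, rfl⟩ := φ.surjective a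
      obtain ⟨b, rfl⟩ := φ.surjective b
      exact ⟨a, b, (StB_dpath_equi hO φ ω l a b).mpr h1, (e1.equi φ ω a).mpr h2,
        (e2.equi φ ω b).mpr h3⟩

theorem StB_col_meas [Countable V] (G : SimpleGraph V) (n k : ℕ) (l : Obj V) :
    Measurable (fun ω : Om V => col G n n ω l = k) := by
  have h := col_meas G n n l
  exact measurableSet_setOf.mp (h (measurableSet_singleton k))

theorem StB_flip [Countable V] {G : SimpleGraph V} {O : Om V → V → V → Prop} (hO : Fac2 G O)
    (n k : ℕ) : Fac2 G (fun ω => flipS G n (col G n n ω) k (O ω)) := by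
  have ha := StB_app hO n
  have key : ∀ (φ : G ≃g G) (ω : Om V) (x y : V),
      (∃ l, col G n n (act φ ω) l = k ∧ AppF G n (O (act φ ω)) l ∧ (x, y) ∈ l) ↔
      ∃ l, col G n n ω l = k ∧ AppF G n (O ω) l ∧ (φ x, φ y) ∈ l := by
    intro φ ω x y
    constructor
    · rintro ⟨l, h1, h2, h3⟩
      refine ⟨mapO φ l, ?_, (ha.equi φ ω l).mp h2, (StB_mem_mapO φ l x y).mpr h3⟩
      rw [← col_act]
      exact h1
    · rintro ⟨l, h1, h2, h3⟩
      obtain ⟨l, rfl⟩ := StB_mapO_surj φ l
      refine ⟨l, ?_, (ha.equi φ ω l).mpr h2, (StB_mem_mapO φ l x y).mp h3⟩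
      rw [col_act]
      exact h1
  constructor
  · intro x y
    unfold flipS
    exact ((hO.meas x y).and (Measurable.exists fun l =>
      (StB_col_meas G n k l).and ((ha.meas l).and measurable_const)).not).or
      (Measurable.exists fun l =>
        (StB_col_meas G n k l).and ((ha.meas l).and measurable_const))
  · intro φ ω x y
    unfold flipS
    rw [key, key, hO.equi]

theorem StB_st [Countable V] {G : SimpleGraph V} {O : Om V → V → V → Prop} (hO : Fac2 G O)
    (n t : ℕ) : Fac2 G (fun ω => stO G n (col G n n ω) (O ω) t) := by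
  induction t with
  | zero => exact hO
  | succ t ih => exact StB_flip ih n _

/-- the flipping procedure is a factor -/
theorem flip_fac [Countable V] {G : SimpleGraph V} {O : Om V → V → V → Prop} (hO : Fac2 G O)
    (n t : ℕ) :
    Fac2 G (fun ω => stO G n (col G n n ω) (O ω) t) ∧
      FacO G (fun ω l => TakeF G n (col G n n ω) (O ω) t l) := by
  refine ⟨StB_st hO n t, ?_⟩
  have ha := StB_app (StB_st hO n t) n
  constructor
  · intro l
    unfold TakeF
    exact (StB_col_meas G n _ l).and (ha.meas l)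
  · intro φ ω l
    unfold TakeF
    rw [col_act]
    exact and_congr_right fun _ => ha.equi φ ω l

end Pool.Agent.FIIDU
end

section

/-!
# MP_767f1c_pr: the expected number of flipped paths
-/

set_option autoImplicit false

namespace Pool.Agent.FIIDU

open MeasureTheory Set Filter
open scoped ENNReal


variable {V : Type}

theorem StC_enc {α : Type*} (s : Set α) :
    (s.encard : ℝ≥0∞) = ∑' x, s.indicator (fun _ => (1 : ℝ≥0∞)) x := by
  rw [← ENNReal.tsum_set_one, tsum_subtype s (fun _ => (1 : ℝ≥0∞))]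

/-- the number of vertices of a directed path -/
theorem StC_vs {O : V → V → Prop} {a b : V} {l : Obj V} (h : DPath O a b l) :
    (vs l).encard ≤ l.length + 1 := by
  have key : (insert a (vs l)).encard ≤ l.length + 1 := by
    induction h with
    | nil a =>
      have : vs ([] : Obj V) = ∅ := by
        ext x
        simp [vs]
      rw [this]
      simp
    | @cons a b c l h hac ha hl ih =>
      have : insert a (vs ((a, c) :: l)) ⊆ insert a (insert c (vs l)) := by
        intro x hx
        rcases hx with rfl | ⟨p, hp, hx⟩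
        · exact Or.inl rfl
        · rcases List.mem_cons.mp hp with rfl | hp
          · rcases hx with rfl | rfl
            · exact Or.inl rfl
            · exact Or.inr (Or.inl rfl)
          · exact Or.inr (Or.inr ⟨p, hp, hx⟩)
      refine (Set.encard_le_encard this).trans ((Set.encard_insert_le _ _).trans ?_)
      rw [List.length_cons]
      push_cast
      gcongr
  exact (Set.encard_le_encard (Set.subset_insert _ _)).trans key

/-- the relation: the path `q.2` is flipped at the time `q.1`, starting at `x` -/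
def StC_st (G : SimpleGraph V) (n : ℕ) (c : Obj V → ℕ) (O : V → V → Prop) (x : V)
    (q : ℕ × Obj V) : Prop :=
  TakeF G n c O q.1 q.2 ∧ ∃ b, DPath (stO G n c O q.1) x b q.2 ∧
      0 < exP (stO G n c O q.1) x ∧ 0 < exN (stO G n c O q.1) b

theorem StC_st_meas [Countable V] {G : SimpleGraph V} {O : Om V → V → V → Prop}
    (hO : Fac2 G O) (n : ℕ) (x : V) (q : ℕ × Obj V) :
    Measurable (fun ω => StC_st G n (col G n n ω) (O ω) x q) := by
  have h1 := flip_fac hO n q.1
  have h2 := StB_ex h1.1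
  exact (h1.2.meas q.2).and (Measurable.exists fun b =>
    (StB_dpath_meas h1.1 q.2 x b).and ((h2.1.meas x).and (h2.2.meas b)))

theorem StC_st_equi [Countable V] {G : SimpleGraph V} {O : Om V → V → V → Prop}
    (hO : Fac2 G O) (n : ℕ) (φ : G ≃g G) (ω : Om V) (x : V) (q : ℕ × Obj V) :
    StC_st G n (col G n n (act φ ω)) (O (act φ ω)) x q ↔
      StC_st G n (col G n n ω) (O ω) (φ x) (q.1, mapO φ q.2) := by
  have h1 := flip_fac hO n q.1
  have h2 := StB_ex h1.1
  unfold StC_st
  apply and_congr (h1.2.equi φ ω q.2)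
  constructor
  · rintro ⟨b, g1, g2, g3⟩
    exact ⟨φ b, (StB_dpath_equi h1.1 φ ω q.2 x b).mp g1, (h2.1.equi φ ω x).mp g2,
      (h2.2.equi φ ω b).mp g3⟩
  · rintro ⟨b, g1, g2, g3⟩
    obtain ⟨b, rfl⟩ := φ.surjective b
    exact ⟨b, (StB_dpath_equi h1.1 φ ω q.2 x b).mpr g1, (h2.1.equi φ ω x).mpr g2,
      (h2.2.equi φ ω b).mpr g3⟩

/-- the expected number of flipped paths through a vertex -/
theorem flips_le [Countable V] {G : SimpleGraph V} {d : ℕ} (h : Std G d)
    {O : Om V → V → V → Prop} (hO : Fac2 G O) (hori : ∀ᵐ ω ∂PP V, Ori G (O ω)) (n : ℕ) (o : V) :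
    ∫⁻ ω, ({q : ℕ × Obj V | TakeF G n (col G n n ω) (O ω) q.1 q.2 ∧ o ∈ vs q.2}.encard : ℝ≥0∞)
      ∂PP V ≤ (n + 1 : ℕ) * ∫⁻ ω, (exP (O ω) o : ℝ≥0∞) ∂PP V := by
  set F : Om V → V → V → ℝ≥0∞ := fun ω x y => ∑' q : ℕ × Obj V,
    {q | StC_st G n (col G n n ω) (O ω) x q ∧ y ∈ vs q.2}.indicator (fun _ => 1) q with hF
  have hm : ∀ x y, Measurable (fun ω => F ω x y) := by
    intro x y
    apply Measurable.tsum
    intro q
    classical
    have : (fun ω => Set.indicator {q | StC_st G n (col G n n ω) (O ω) x q ∧ y ∈ vs q.2}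
        (fun _ => (1 : ℝ≥0∞)) q) =
        fun ω => if (StC_st G n (col G n n ω) (O ω) x q ∧ y ∈ vs q.2) then (1 : ℝ≥0∞)
          else 0 := by
      funext ω
      simp only [Set.indicator_apply, Set.mem_ofPred_eq]
    rw [this]
    exact Measurable.ite (measurableSet_setOfPred.mpr
      ((StC_st_meas hO n x q).and measurable_const)) measurable_const measurable_const
  have he : ∀ (φ : G ≃g G) (ω : Om V) (x y : V), F (act φ ω) x y = F ω (φ x) (φ y) := by
    intro φ ω x y
    let e : ℕ × Obj V ≃ ℕ × Obj V := Equiv.prodCongr (Equiv.refl ℕ)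
      (Equiv.ofBijective (mapO φ) ⟨StB_mapO_inj φ, StB_mapO_surj φ⟩)
    have heq : ∀ q : ℕ × Obj V, e q = (q.1, mapO φ q.2) := fun q => rfl
    rw [hF]
    simp only
    refine Eq.trans ?_ (Equiv.tsum_eq e _)
    apply tsum_congr
    intro q
    classical
    rw [heq, Set.indicator_apply, Set.indicator_apply]
    simp only [Set.mem_ofPred_eq]
    congr 1
    rw [StC_st_equi hO, ← StB_vs φ]
  have key := mtpP h F hm he o
  have hgood : ∀ᵐ ω ∂PP V, Proper G n n (col G n n ω) := by
    filter_upwards [ae_good] with ω hω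
    exact col_proper h n n hω
  -- lower bound
  have hlow : ∫⁻ ω, ({q : ℕ × Obj V | TakeF G n (col G n n ω) (O ω) q.1 q.2 ∧
      o ∈ vs q.2}.encard : ℝ≥0∞) ∂PP V ≤ ∫⁻ ω, ∑' y, F ω y o ∂PP V := by
    apply lintegral_mono
    intro ω
    simp only [hF]
    rw [ENNReal.tsum_comm, StC_enc]
    apply ENNReal.tsum_le_tsum
    intro q
    by_cases hq : q ∈ {q : ℕ × Obj V | TakeF G n (col G n n ω) (O ω) q.1 q.2 ∧ o ∈ vs q.2}
    · rw [Set.indicator_of_mem hq]
      obtain ⟨hq1, hq2⟩ := hq
      obtain ⟨a, b, g1, g2, g3⟩ := hq1.2.2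
      refine le_trans (le_of_eq ?_) (ENNReal.le_tsum a)
      rw [Set.indicator_of_mem]
      exact ⟨⟨hq1, b, g1, g2, g3⟩, hq2⟩
    · rw [Set.indicator_of_notMem hq]
      exact zero_le
  -- upper bound
  have hup : ∫⁻ ω, ∑' y, F ω o y ∂PP V ≤
      ∫⁻ ω, (n + 1 : ℕ) * (exP (O ω) o : ℝ≥0∞) ∂PP V := by
    apply lintegral_mono_ae
    filter_upwards [hori, hgood] with ω h1 h2
    simp only [hF]
    rw [ENNReal.tsum_comm]
    have h3 := starts_le h h2 h1 o
    have h4 := ENat.toENNReal_mono h3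
    rw [ENat.toENNReal_coe] at h4
    refine le_trans ?_ (mul_le_mul_right h4 _)
    rw [StC_enc, ← ENNReal.tsum_mul_left]
    apply ENNReal.tsum_le_tsum
    intro q
    by_cases hq : StC_st G n (col G n n ω) (O ω) o q
    · rw [Set.indicator_of_mem (show q ∈ {q : ℕ × Obj V | TakeF G n (col G n n ω) (O ω) q.1 q.2 ∧
        ∃ b, DPath (stO G n (col G n n ω) (O ω) q.1) o b q.2 ∧
        0 < exP (stO G n (col G n n ω) (O ω) q.1) o ∧
        0 < exN (stO G n (col G n n ω) (O ω) q.1) b} from hq), mul_one]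
      have e : (fun y => Set.indicator {q | StC_st G n (col G n n ω) (O ω) o q ∧ y ∈ vs q.2}
          (fun _ => (1 : ℝ≥0∞)) q) = fun y => (vs q.2).indicator (fun _ => (1 : ℝ≥0∞)) y := by
        classical
        funext y
        rw [Set.indicator_apply, Set.indicator_apply]
        simp only [Set.mem_ofPred_eq, hq, true_and]
      rw [e, ← StC_enc]
      obtain ⟨g0, b, g1, g2, g3⟩ := hq
      have h5 := StC_vs g1
      have h6 : (q.2.length : ℕ∞) + 1 ≤ ((n + 1 : ℕ) : ℕ∞) := by
        push_cast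
        gcongr
        exact_mod_cast g0.2.1.1
      have h7 := ENat.toENNReal_mono (h5.trans h6)
      rwa [ENat.toENNReal_coe] at h7
    · have e : (fun y => Set.indicator {q | StC_st G n (col G n n ω) (O ω) o q ∧ y ∈ vs q.2}
          (fun _ => (1 : ℝ≥0∞)) q) = fun _ => 0 := by
        classical
        funext y
        rw [Set.indicator_apply]
        simp only [Set.mem_ofPred_eq, hq, false_and, if_false]
      rw [e, tsum_zero]
      exact zero_le
  rw [lintegral_const_mul' _ _ (ENNReal.natCast_ne_top _)] at hup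
  exact hlow.trans (key ▸ hup)

end Pool.Agent.FIIDU
end

section

/-!
# MP_767f1c_pr: one stage
-/

set_option autoImplicit false

namespace Pool.Agent.FIIDU

open MeasureTheory Set Filter
open scoped ENNReal


variable {V : Type}

/-- the flipped paths through a vertex -/
private def StD_T (G : SimpleGraph V) (O : Om V → V → V → Prop) (n : ℕ) (x : V) (ω : Om V) :
    Set (ℕ × Obj V) := {q | TakeF G n (col G n n ω) (O ω) q.1 q.2 ∧ x ∈ vs q.2}

private theorem StD_T_meas [Countable V] {G : SimpleGraph V} {O : Om V → V → V → Prop}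
    (hO : Fac2 G O) (n : ℕ) (x : V) (q : ℕ × Obj V) : MeasurableSet {ω | q ∈ StD_T G O n x ω} := by
  by_cases hx : x ∈ vs q.2
  · have h1 : {ω | q ∈ StD_T G O n x ω} = {ω | TakeF G n (col G n n ω) (O ω) q.1 q.2} := by
      ext ω
      exact ⟨fun h => h.1, fun h => ⟨h, hx⟩⟩
    rw [h1]
    exact ((flip_fac hO n q.1).2.meas q.2).setOf
  · have h1 : {ω | q ∈ StD_T G O n x ω} = ∅ := by
      ext ω
      exact ⟨fun h => hx h.2, fun h => absurd h (Set.notMem_empty _)⟩
    rw [h1]
    exact MeasurableSet.empty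

private theorem StD_enc_eq {ι : Type} (S : Set ι) :
    (S.encard : ℝ≥0∞) = ∑' q, S.indicator (fun _ => 1) q := by
  rw [← ENNReal.tsum_set_one, tsum_subtype S (fun _ => (1 : ℝ≥0∞))]

private theorem StD_enc_meas [Countable V] {G : SimpleGraph V} {O : Om V → V → V → Prop}
    (hO : Fac2 G O) (n : ℕ) (x : V) :
    Measurable (fun ω => ((StD_T G O n x ω).encard : ℝ≥0∞)) := by
  classical
  have h1 : (fun ω => ((StD_T G O n x ω).encard : ℝ≥0∞)) =
      fun ω => ∑' q, (StD_T G O n x ω).indicator (fun _ => (1 : ℝ≥0∞)) q := by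
    funext ω
    exact StD_enc_eq _
  rw [h1]
  refine Measurable.ennreal_tsum fun q => ?_
  have h2 : (fun ω => (StD_T G O n x ω).indicator (fun _ => (1 : ℝ≥0∞)) q) =
      {ω | q ∈ StD_T G O n x ω}.indicator (fun _ => (1 : ℝ≥0∞)) := by
    funext ω
    by_cases hc : q ∈ StD_T G O n x ω
    · rw [Set.indicator_of_mem hc,
        Set.indicator_of_mem (show ω ∈ {ω | q ∈ StD_T G O n x ω} from hc)]
    · rw [Set.indicator_of_notMem hc,
        Set.indicator_of_notMem (show ω ∉ {ω | q ∈ StD_T G O n x ω} from hc)]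
  rw [h2]
  exact measurable_const.indicator (StD_T_meas hO n x q)

private theorem StD_exP_le {G : SimpleGraph V} {d : ℕ} (h : Std G d) {O : V → V → Prop}
    (hO : Ori G O) (x : V) : exP O x ≤ 2 * d := by
  have h1 : dg O x ≤ 2 * d := by
    rw [← h.deg x]
    exact Set.ncard_le_ncard (fun y hy => (hO x y).1 hy) (h.fin x)
  exact (Nat.sub_le _ _).trans h1

private theorem StD_lint_ne_top [Countable V] {G : SimpleGraph V} {d : ℕ} (h : Std G d)
    {O : Om V → V → V → Prop} (hori : ∀ᵐ ω ∂PP V, Ori G (O ω)) (n : ℕ) (x : V) :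
    (n + 1 : ℕ) * ∫⁻ ω, (exP (O ω) x : ℝ≥0∞) ∂PP V ≠ ∞ := by
  have h1 : ∫⁻ ω, (exP (O ω) x : ℝ≥0∞) ∂PP V ≤ ∫⁻ _ω, ((2 * d : ℕ) : ℝ≥0∞) ∂PP V := by
    refine lintegral_mono_ae ?_
    filter_upwards [hori] with ω hω
    exact_mod_cast StD_exP_le h hω x
  have h2 : ∫⁻ _ω, ((2 * d : ℕ) : ℝ≥0∞) ∂PP V = ((2 * d : ℕ) : ℝ≥0∞) := by
    rw [lintegral_const, measure_univ, mul_one]
  rw [h2] at h1
  exact ENNReal.mul_ne_top (ENNReal.natCast_ne_top _)
    (ne_top_of_le_ne_top (ENNReal.natCast_ne_top _) h1)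

/-- **One stage.** -/
theorem stage [Countable V] {G : SimpleGraph V} {d : ℕ} (h : Std G d)
    {O : Om V → V → V → Prop} (hO : Fac2 G O) (hori : ∀ᵐ ω ∂PP V, Ori G (O ω)) (n : ℕ) (o : V) :
    ∃ O' : Om V → V → V → Prop, Fac2 G O' ∧ (∀ᵐ ω ∂PP V, Ori G (O' ω)) ∧
      (∀ᵐ ω ∂PP V, ∀ l, ¬ AppF G n (O' ω) l) ∧
      PP V {ω | Chg (O ω) (O' ω) o} ≤ (n + 1 : ℕ) * ∫⁻ ω, (exP (O ω) o : ℝ≥0∞) ∂PP V := by
  have hint : ∀ x, ∫⁻ ω, ((StD_T G O n x ω).encard : ℝ≥0∞) ∂PP V ≤
      (n + 1 : ℕ) * ∫⁻ ω, (exP (O ω) x : ℝ≥0∞) ∂PP V := fun x => flips_le h hO hori n x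
  have hfin : ∀ᵐ ω ∂PP V, ∀ x, (StD_T G O n x ω).Finite := by
    refine ae_all_iff.2 fun x => ?_
    have h1 := ae_lt_top (StD_enc_meas hO n x)
      (ne_top_of_le_ne_top (StD_lint_ne_top h hori n x) (hint x))
    filter_upwards [h1] with ω hω
    by_contra hinf
    have h2 : (StD_T G O n x ω).encard = ⊤ := Set.encard_eq_top hinf
    rw [h2] at hω
    exact absurd hω (by simp)
  have hspec : ∀ᵐ ω ∂PP V, Ori G (limO G n (col G n n ω) (O ω)) ∧
      (∀ l, ¬ AppF G n (limO G n (col G n n ω) (O ω)) l) ∧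
      ∀ x, (StD_T G O n x ω = ∅ →
        ∀ y, (limO G n (col G n n ω) (O ω) x y ↔ O ω x y) ∧
          (limO G n (col G n n ω) (O ω) y x ↔ O ω y x)) := by
    filter_upwards [hfin, hori, ae_good (V := V)] with ω h1 h2 h3
    exact limO_spec h (col_proper h n n h3) h2 h1
  refine ⟨fun ω => limO G n (col G n n ω) (O ω), ⟨fun x y => ?_, fun φ ω x y => ?_⟩, ?_, ?_, ?_⟩
  · exact Measurable.exists fun T => Measurable.forall fun t =>
      Measurable.imp measurable_const ((flip_fac hO n t).1.meas x y)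
  · exact exists_congr fun T => forall_congr' fun t => imp_congr_right fun _ =>
      (flip_fac hO n t).1.equi φ ω x y
  · filter_upwards [hspec] with ω hω using hω.1
  · filter_upwards [hspec] with ω hω using hω.2.1
  · refine le_trans ?_ (hint o)
    have hms : MeasurableSet {ω | ∃ q, q ∈ StD_T G O n o ω} := by
      have : {ω | ∃ q, q ∈ StD_T G O n o ω} = ⋃ q, {ω | q ∈ StD_T G O n o ω} := by
        ext ω
        simp
      rw [this]
      exact MeasurableSet.iUnion fun q => StD_T_meas hO n o q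
    calc PP V {ω | Chg (O ω) (limO G n (col G n n ω) (O ω)) o}
        ≤ PP V {ω | ∃ q, q ∈ StD_T G O n o ω} := by
          refine measure_mono_ae ?_
          filter_upwards [hspec] with ω hω hchg
          change ∃ q, q ∈ StD_T G O n o ω
          by_contra hcon
          have hemp : StD_T G O n o ω = ∅ :=
            Set.eq_empty_of_forall_notMem fun q hq => hcon ⟨q, hq⟩
          obtain ⟨y, hy⟩ := hchg
          have h1 := hω.2.2 o hemp y
          rcases hy with hy | hy
          · exact hy h1.1.symm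
          · exact hy h1.2.symm
      _ = ∫⁻ ω, {ω | ∃ q, q ∈ StD_T G O n o ω}.indicator 1 ω ∂PP V :=
          (lintegral_indicator_one hms).symm
      _ ≤ ∫⁻ ω, ((StD_T G O n o ω).encard : ℝ≥0∞) ∂PP V := by
          refine lintegral_mono fun ω => ?_
          by_cases hc : ∃ q, q ∈ StD_T G O n o ω
          · rw [Set.indicator_of_mem (show ω ∈ {ω | ∃ q, q ∈ StD_T G O n o ω} from hc)]
            have h1 : (1 : ℕ∞) ≤ (StD_T G O n o ω).encard :=
              Set.one_le_encard_iff_nonempty.2 hc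
            calc (1 : Om V → ℝ≥0∞) ω = ((1 : ℕ∞) : ℝ≥0∞) := by simp
              _ ≤ ((StD_T G O n o ω).encard : ℝ≥0∞) := ENat.toENNReal_le.2 h1
          · rw [Set.indicator_of_notMem (show ω ∉ {ω | ∃ q, q ∈ StD_T G O n o ω} from hc)]
            exact zero_le

end Pool.Agent.FIIDU
end

section

/-!
# MP_767f1c_pr: factors of iid expand
-/

set_option autoImplicit false

namespace Pool.Agent.FIIDU

open MeasureTheory Set Filter
open scoped ENNReal


variable {V : Type}

/-- the expected number of elements of a random set -/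
private theorem Expand_encard [Countable V] {R : Om V → V → Prop}
    (hR : ∀ y, Measurable (fun ω => R ω y)) :
    ∫⁻ ω, ({y | R ω y}.encard : ℝ≥0∞) ∂PP V = ∑' y, PP V {ω | R ω y} := by
  have h1 : ∀ ω, ({y | R ω y}.encard : ℝ≥0∞) =
      ∑' y, ({ω | R ω y} : Set (Om V)).indicator (1 : Om V → ℝ≥0∞) ω := by
    intro ω
    rw [← ENNReal.tsum_set_one, tsum_subtype {y | R ω y} (fun _ => (1 : ℝ≥0∞))]
    apply tsum_congr
    intro y
    by_cases h : R ω y
    · rw [Set.indicator_of_mem (by exact h), Set.indicator_of_mem (by exact h)]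
      rfl
    · rw [Set.indicator_of_notMem (by exact h), Set.indicator_of_notMem (by exact h)]
  rw [lintegral_congr h1, lintegral_tsum]
  · apply tsum_congr
    intro y
    rw [lintegral_indicator_one (measurableSet_setOfPred.mpr (hR y))]
  · intro y
    exact (measurable_one.indicator (measurableSet_setOfPred.mpr (hR y))).aemeasurable

/-- **Expansion of factors.** -/
theorem expand [Countable V] {G : SimpleGraph V} {d : ℕ} (h : Std G d) {κ : ℝ} (hκ : Gap G κ)
    {A : Om V → V → Prop} (hA : Fac1 G A) (o : V) :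
    ENNReal.ofReal κ * (PP V {ω | A ω o} * PP V {ω | ¬ A ω o}) ≤
      ∫⁻ ω, ({y | G.Adj o y ∧ ¬ (A ω o ↔ A ω y)}.encard : ℝ≥0∞) ∂PP V := by
  classical
  set F : V → Finset (V × ℕ) → ℝ≥0∞ := fun x S =>
    ∑' y, if G.Adj x y then ENNReal.ofReal ((cf A x S - cf A y S) ^ 2) else 0 with hFdef
  set w : Finset (V × ℕ) → ℝ≥0∞ := fun S =>
    (({p ∈ (S : Finset (V × ℕ)) | p.1 = o} : Set (V × ℕ)).ncard : ℝ≥0∞) /
          ((S : Finset (V × ℕ)).card : ℝ≥0∞) with hw
  have hm : ∀ y, Measurable (fun ω => G.Adj o y ∧ ¬ (A ω o ↔ A ω y)) := by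
    intro y
    exact measurable_const.and ((hA.meas o).iff (hA.meas y)).not
  rw [Expand_encard hm]
  -- the boundary in terms of coefficients
  have h1 : ∑' S : {S : Finset (V × ℕ) // S.Nonempty}, F o S ≤
      ∑' y, PP V {ω | G.Adj o y ∧ ¬ (A ω o ↔ A ω y)} := by
    rw [hFdef]
    simp only
    rw [ENNReal.tsum_comm]
    apply ENNReal.tsum_le_tsum
    intro y
    by_cases hadj : G.Adj o y
    · simp only [hadj, true_and, if_true]
      rw [← cf_diff hA o y]
      exact ENNReal.tsum_comp_le_tsum_of_injective Subtype.val_injective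
        (fun S => ENNReal.ofReal ((cf A o S - cf A y S) ^ 2))
    · simp [hadj]
  refine le_trans ?_ h1
  have hFinv : ∀ (φ : G ≃g G) x S, F (φ x) (mapS φ S) = F x S := by
    intro φ x S
    rw [hFdef]
    simp only
    rw [← φ.toEquiv.tsum_eq]
    apply tsum_congr
    intro y
    have e : φ.toEquiv y = φ y := rfl
    rw [e, cf_act hA, cf_act hA]
    have e2 : G.Adj (φ x) (φ y) ↔ G.Adj x y := φ.map_adj_iff
    exact if_congr e2 rfl rfl
  have h2 := mtp_index h F hFinv o
  have h3 := mtp_index h (fun x S => ENNReal.ofReal (cf A x S ^ 2)) (by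
    intro φ x S
    rw [cf_act hA]) o
  rw [h2, ← cf_sum hA o, h3]
  have hfin : ∑' S : {S : Finset (V × ℕ) // S.Nonempty}, w S * ∑' x, ENNReal.ofReal (cf A x S ^ 2) ≠ ∞ := by
    have : ∑' S : {S : Finset (V × ℕ) // S.Nonempty}, w S * ∑' x, ENNReal.ofReal (cf A x S ^ 2) =
        PP V {ω | A ω o} * PP V {ω | ¬ A ω o} := by
      rw [← cf_sum hA o, h3]
    rw [this]
    exact ENNReal.mul_ne_top (measure_ne_top _ _) (measure_ne_top _ _)
  change ENNReal.ofReal κ * ∑' S : {S : Finset (V × ℕ) // S.Nonempty}, w S * ∑' x, ENNReal.ofReal (cf A x S ^ 2) ≤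
    ∑' S : {S : Finset (V × ℕ) // S.Nonempty}, w S * ∑' x, F x S
  rw [← ENNReal.tsum_mul_left]
  apply ENNReal.tsum_le_tsum
  intro S
  by_cases hw0 : w S = 0
  · rw [hw0]; simp
  · have hS : w S * ∑' x, ENNReal.ofReal (cf A x S ^ 2) ≠ ∞ := ENNReal.ne_top_of_tsum_ne_top hfin S
    have hn : nrm (fun x => cf A x S) ≠ ∞ := by
      intro hcon
      apply hS
      unfold nrm at hcon
      rw [hcon]
      exact ENNReal.mul_top hw0
    have hg := hκ.2 (fun x => cf A x S) hn
    calc ENNReal.ofReal κ * (w S * ∑' x, ENNReal.ofReal (cf A x S ^ 2)) =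
        w S * (ENNReal.ofReal κ * nrm (fun x => cf A x S)) := by
          unfold nrm
          ring
      _ ≤ w S * energy G (fun x => cf A x S) := by gcongr
      _ = w S * ∑' x, F x S := by
          unfold energy
          rw [hFdef]

/-- expansion, one sided version -/
theorem expand' [Countable V] {G : SimpleGraph V} {d : ℕ} (h : Std G d) {κ : ℝ} (hκ : Gap G κ)
    {A : Om V → V → Prop} (hA : Fac1 G A) (o : V) :
    ENNReal.ofReal κ * (PP V {ω | A ω o} * PP V {ω | ¬ A ω o}) ≤
      2 * ∫⁻ ω, ({y | G.Adj o y ∧ A ω o ∧ ¬ A ω y}.encard : ℝ≥0∞) ∂PP V := by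
  refine (expand h hκ hA o).trans ?_
  have hR : Fac2 G (fun ω x y => G.Adj x y ∧ A ω x ∧ ¬ A ω y) := by
    refine ⟨?_, ?_⟩
    · intro x y
      exact measurable_const.and ((hA.meas x).and (hA.meas y).not)
    · intro φ ω x y
      have e2 : G.Adj (φ x) (φ y) ↔ G.Adj x y := φ.map_adj_iff
      rw [hA.equi, hA.equi, e2]
  have hcount := mtp_count h hR o
  have hm1 : ∀ y, Measurable (fun ω => G.Adj o y ∧ ¬ (A ω o ↔ A ω y)) := by
    intro y
    exact measurable_const.and ((hA.meas o).iff (hA.meas y)).not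
  have hm2 : ∀ y, Measurable (fun ω => G.Adj o y ∧ A ω o ∧ ¬ A ω y) := fun y => hR.meas o y
  have hm3 : ∀ y, Measurable (fun ω => G.Adj y o ∧ A ω y ∧ ¬ A ω o) := fun y => hR.meas y o
  rw [two_mul]
  nth_rewrite 2 [hcount]
  rw [Expand_encard hm1, Expand_encard hm2, Expand_encard hm3, ← ENNReal.tsum_add]
  apply ENNReal.tsum_le_tsum
  intro y
  refine le_trans (measure_mono ?_) (measure_union_le _ _)
  rintro ω ⟨h1, h2⟩
  by_cases ha : A ω o <;> by_cases hb : A ω y
  · exact absurd (by simp [ha, hb]) h2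
  · exact Or.inl ⟨h1, ha, hb⟩
  · exact Or.inr ⟨h1.symm, hb, ha⟩
  · exact absurd (by simp [ha, hb]) h2

end Pool.Agent.FIIDU
end

section

/-!
# MP_767f1c_pr: reachable sets
-/

set_option autoImplicit false

namespace Pool.Agent.FIIDU

open MeasureTheory Set Filter
open scoped ENNReal


variable {V : Type}

/-- the set of vertices which can be reached in at most `k` steps from positive excess -/
def fwd (O : V → V → Prop) : ℕ → V → Prop
  | 0 => fun x => 0 < exP O x
  | k + 1 => fun x => fwd O k x ∨ ∃ y, fwd O k y ∧ O y x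

/-- the set of vertices from which negative excess can be reached in at most `k` steps -/
def bwd (O : V → V → Prop) : ℕ → V → Prop
  | 0 => fun x => 0 < exN O x
  | k + 1 => fun x => bwd O k x ∨ ∃ y, bwd O k y ∧ O x y

/-- the reversed relation -/
theorem StE_rev {G : SimpleGraph V} {O : Om V → V → V → Prop} (hO : Fac2 G O) :
    Fac2 G (fun ω x y => O ω y x) :=
  ⟨fun x y => hO.meas y x, fun φ ω x y => hO.equi φ ω y x⟩

theorem StE_bwd (O : V → V → Prop) (k : ℕ) : bwd O k = fwd (fun x y => O y x) k := by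
  induction k with
  | zero => rfl
  | succ k ih =>
    funext x
    simp only [bwd, fwd, ih]

theorem StE_exP [Countable V] {G : SimpleGraph V} {O : Om V → V → V → Prop} (hO : Fac2 G O)
    (m : ℕ) : Fac1 G (fun ω x => exP (O ω) x = m) := by
  have h1 := fun k => hO.dg_eq k
  have h2 := fun k => hO.dgi_eq k
  have key : ∀ ω x, exP (O ω) x = m ↔
      ∃ i j : ℕ, dg (O ω) x = i ∧ dgi (O ω) x = j ∧ i - j = m := by
    intro ω x
    constructor
    · intro h
      exact ⟨_, _, rfl, rfl, h⟩
    · rintro ⟨i, j, hi, hj, h⟩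
      unfold exP
      rw [hi, hj, h]
  constructor
  · intro x
    simp only [key]
    exact Measurable.exists fun i => Measurable.exists fun j =>
      ((h1 i).meas x).and (((h2 j).meas x).and measurable_const)
  · intro φ ω x
    rw [key, key]
    simp only [(h1 _).equi φ ω x, (h2 _).equi φ ω x]

theorem StE_fwd [Countable V] {G : SimpleGraph V} {O : Om V → V → V → Prop} (hO : Fac2 G O)
    (k : ℕ) : Fac1 G (fun ω => fwd (O ω) k) := by
  induction k with
  | zero =>
    have h0 := StE_exP hO 0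
    have key : ∀ ω x, fwd (O ω) 0 x ↔ ¬ exP (O ω) x = 0 := by
      intro ω x
      exact Nat.pos_iff_ne_zero
    constructor
    · intro x
      simp only [key]
      exact (h0.meas x).not
    · intro φ ω x
      rw [key, key, h0.equi]
  | succ k ih =>
    constructor
    · intro x
      exact (ih.meas x).or (Measurable.exists fun y => (ih.meas y).and (hO.meas y x))
    · intro φ ω x
      show (fwd (O (act φ ω)) k x ∨ ∃ y, fwd (O (act φ ω)) k y ∧ O (act φ ω) y x) ↔
        (fwd (O ω) k (φ x) ∨ ∃ y, fwd (O ω) k y ∧ O ω y (φ x))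
      rw [ih.equi φ ω x]
      apply or_congr_right
      constructor
      · rintro ⟨y, h1, h2⟩
        exact ⟨φ y, (ih.equi φ ω y).mp h1, (hO.equi φ ω y x).mp h2⟩
      · rintro ⟨y, h1, h2⟩
        obtain ⟨z, rfl⟩ := φ.surjective y
        exact ⟨z, (ih.equi φ ω z).mpr h1, (hO.equi φ ω z x).mpr h2⟩

theorem fwd_fac [Countable V] {G : SimpleGraph V} {O : Om V → V → V → Prop} (hO : Fac2 G O)
    (k : ℕ) : Fac1 G (fun ω => fwd (O ω) k) ∧ Fac1 G (fun ω => bwd (O ω) k) := by
  refine ⟨StE_fwd hO k, ?_⟩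
  have := StE_fwd (StE_rev hO) k
  simp only [StE_bwd]
  exact this

theorem StE_walk {O : V → V → Prop} (j : ℕ) {x : V} (h : fwd O j x) :
    ∃ (i : ℕ) (w : ℕ → V), i ≤ j ∧ 0 < exP O (w 0) ∧ w i = x ∧ ∀ m < i, O (w m) (w (m + 1)) := by
  induction j generalizing x with
  | zero => exact ⟨0, fun _ => x, le_refl _, h, rfl, fun m hm => absurd hm (Nat.not_lt_zero m)⟩
  | succ j ih =>
    rcases h with h | ⟨y, hy, hyx⟩
    · obtain ⟨i, w, h1, h2, h3, h4⟩ := ih h
      exact ⟨i, w, by omega, h2, h3, h4⟩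
    · obtain ⟨i, w, h1, h2, h3, h4⟩ := ih hy
      refine ⟨i + 1, fun m => if m ≤ i then w m else x, by omega, ?_, ?_, ?_⟩
      · simpa using h2
      · simp
      · intro m hm
        rcases Nat.lt_or_ge m i with hmi | hmi
        · have e1 : m ≤ i := hmi.le
          have e2 : m + 1 ≤ i := hmi
          simp only [e1, e2, if_true]
          exact h4 m hmi
        · have e : m = i := by omega
          subst e
          simp only [le_refl, if_true]
          rw [if_neg (by omega), h3]
          exact hyx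

/-- walks to negative excess -/
theorem StE_walk' {O : V → V → Prop} (j : ℕ) {x : V} (h : bwd O j x) :
    ∃ (i : ℕ) (w : ℕ → V), i ≤ j ∧ 0 < exN O (w i) ∧ w 0 = x ∧ ∀ m < i, O (w m) (w (m + 1)) := by
  induction j generalizing x with
  | zero => exact ⟨0, fun _ => x, le_refl _, h, rfl, fun m hm => absurd hm (Nat.not_lt_zero m)⟩
  | succ j ih =>
    rcases h with h | ⟨y, hy, hyx⟩
    · obtain ⟨i, w, h1, h2, h3, h4⟩ := ih h
      exact ⟨i, w, by omega, h2, h3, h4⟩
    · obtain ⟨i, w, h1, h2, h3, h4⟩ := ih hy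
      refine ⟨i + 1, fun m => if m = 0 then x else w (m - 1), by omega, ?_, ?_, ?_⟩
      · simpa using h2
      · simp
      · intro m hm
        rcases Nat.eq_zero_or_pos m with hm0 | hm0
        · subst hm0
          simp only [if_true, zero_add, one_ne_zero, if_false, Nat.sub_self]
          rw [h3]
          exact hyx
        · have e1 : m ≠ 0 := by omega
          have e2 : m + 1 ≠ 0 := by omega
          simp only [e1, e2, if_false]
          have := h4 (m - 1) (by omega)
          rw [Nat.sub_add_cancel hm0] at this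
          rwa [Nat.add_sub_cancel]

/-- if the two sets meet then there is an augmenting path -/
theorem app_of_meet {G : SimpleGraph V} {d : ℕ} (h : Std G d) {O : V → V → Prop}
    (hO : Ori G O) {j k n : ℕ} (hn : j + k ≤ n) {x : V} (h1 : fwd O j x) (h2 : bwd O k x) :
    ∃ l, AppF G n O l := by
  obtain ⟨i, w, a1, a2, a3, a4⟩ := StE_walk j h1
  obtain ⟨i', w', b1, b2, b3, b4⟩ := StE_walk' k h2
  have key : ∃ l, DPath O (w 0) (w' i') l ∧ l.length ≤ i + i' := by
    refine exists_dpath (fun m => if m < i then w m else w' (m - i)) (i + i') ?_ ?_ ?_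
    · by_cases hi : 0 < i
      · simp [hi]
      · have e : i = 0 := by omega
        subst e
        simp [a3, b3]
    · simp
    · intro m hm
      by_cases c1 : m + 1 < i
      · rw [if_pos (by omega), if_pos c1]
        exact a4 m (by omega)
      · by_cases c2 : m < i
        · rw [if_pos c2, if_neg c1]
          have e : m + 1 = i := by omega
          rw [show m + 1 - i = 0 by omega, b3, ← a3, ← e]
          exact a4 m c2
        · rw [if_neg c2, if_neg c1, show m + 1 - i = (m - i) + 1 by omega]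
          exact b4 _ (by omega)
  obtain ⟨l, hl, hlen⟩ := key
  exact ⟨l, hl.mv h.conn hO (by omega), w 0, w' i', hl, a2, b2⟩

end Pool.Agent.FIIDU
end

section

/-!
# MP_767f1c_pr: growth of the forward sets
-/

set_option autoImplicit false

namespace Pool.Agent.FIIDU

open MeasureTheory Set Filter
open scoped ENNReal


variable {V : Type}

theorem StF_enc {α : Type*} (s : Set α) :
    (s.encard : ℝ≥0∞) = ∑' x, s.indicator (fun _ => (1 : ℝ≥0∞)) x := by
  rw [← ENNReal.tsum_set_one, tsum_subtype s (fun _ => (1 : ℝ≥0∞))]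

theorem StF_meas [Countable V] {G : SimpleGraph V} {R : Om V → V → V → Prop} (hR : Fac2 G R)
    (o : V) : Measurable (fun ω => ({y | R ω o y}.encard : ℝ≥0∞)) := by
  simp only [StF_enc]
  apply Measurable.ennreal_tsum
  intro y
  classical
  have : (fun ω => Set.indicator {y | R ω o y} (fun _ => (1 : ℝ≥0∞)) y) =
      fun ω => if R ω o y then (1 : ℝ≥0∞) else 0 := by
    funext ω
    simp only [Set.indicator_apply, Set.mem_ofPred_eq]
  rw [this]
  exact Measurable.ite (measurableSet_setOfPred.mpr (hR.meas o y)) measurable_const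
    measurable_const

theorem StF_fin {G : SimpleGraph V} {d : ℕ} (h : Std G d) {O : V → V → Prop} (hO : Ori G O)
    (x : V) : {y | O x y}.Finite ∧ {y | O y x}.Finite := by
  constructor
  · exact (h.fin x).subset fun y hy => (hO x y).1 hy
  · exact (h.fin x).subset fun y hy => ((hO y x).1 hy).symm

theorem StF_adj_encard {G : SimpleGraph V} {d : ℕ} (h : Std G d) (x : V) :
    {y | G.Adj x y}.encard = ((2 * d : ℕ) : ℕ∞) := by
  rw [← (h.fin x).cast_ncard_eq, h.deg]

theorem StF_le {G : SimpleGraph V} {d : ℕ} (h : Std G d) (x : V) {s : Set V}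
    (hs : s ⊆ {y | G.Adj x y}) : (s.encard : ℝ≥0∞) ≤ ((2 * d : ℕ) : ℝ≥0∞) := by
  have h1 : s.encard ≤ ((2 * d : ℕ) : ℕ∞) := by
    rw [← StF_adj_encard h x]
    exact Set.encard_le_encard hs
  have h2 := ENat.toENNReal_mono h1
  rwa [ENat.toENNReal_coe] at h2

/-- growth of the forward sets -/
theorem fwd_grow [Countable V] {G : SimpleGraph V} {d : ℕ} (h : Std G d) {κ : ℝ}
    (hκ : Gap G κ) {O : Om V → V → V → Prop} (hO : Fac2 G O)
    (hori : ∀ᵐ ω ∂PP V, Ori G (O ω)) (o : V) (k : ℕ)
    (hno : ∀ᵐ ω ∂PP V, ∀ x, fwd (O ω) k x → exN (O ω) x = 0) :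
    8 * d * (PP V).real {ω | fwd (O ω) k o} +
      κ * ((PP V).real {ω | fwd (O ω) k o} * (1 - (PP V).real {ω | fwd (O ω) k o})) ≤
      8 * d * (PP V).real {ω | fwd (O ω) (k + 1) o} := by
  have hA : Fac1 G (fun ω => fwd (O ω) k) := StE_fwd hO k
  have hB : Fac1 G (fun ω => fwd (O ω) (k + 1)) := StE_fwd hO (k + 1)
  set A : Om V → V → Prop := fun ω => fwd (O ω) k with hAdef
  have mA : MeasurableSet {ω | A ω o} := measurableSet_setOfPred.mpr (hA.meas o)
  have mB : MeasurableSet {ω | fwd (O ω) (k + 1) o} := measurableSet_setOfPred.mpr (hB.meas o)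
  have f1 : Fac2 G (fun ω x y => A ω x ∧ A ω y ∧ O ω x y) :=
    ⟨fun x y => (hA.meas x).and ((hA.meas y).and (hO.meas x y)), fun φ ω x y => by
      simp only [hA.equi φ ω, hO.equi φ ω]⟩
  have f1' : Fac2 G (fun ω x y => A ω y ∧ A ω x ∧ O ω y x) :=
    ⟨fun x y => (hA.meas y).and ((hA.meas x).and (hO.meas y x)), fun φ ω x y => by
      simp only [hA.equi φ ω, hO.equi φ ω]⟩
  have f2 : Fac2 G (fun ω x y => A ω x ∧ ¬ A ω y ∧ O ω x y) :=
    ⟨fun x y => (hA.meas x).and ((hA.meas y).not.and (hO.meas x y)), fun φ ω x y => by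
      simp only [hA.equi φ ω, hO.equi φ ω]⟩
  have f3 : Fac2 G (fun ω x y => A ω x ∧ ¬ A ω y ∧ O ω y x) :=
    ⟨fun x y => (hA.meas x).and ((hA.meas y).not.and (hO.meas y x)), fun φ ω x y => by
      simp only [hA.equi φ ω, hO.equi φ ω]⟩
  -- the balance inequality
  have hpt : ∀ᵐ ω ∂PP V, ({y | A ω o ∧ ¬ A ω y ∧ O ω y o}.encard : ℝ≥0∞) +
      ({y | A ω y ∧ A ω o ∧ O ω y o}.encard : ℝ≥0∞) ≤
      ({y | A ω o ∧ ¬ A ω y ∧ O ω o y}.encard : ℝ≥0∞) +
      ({y | A ω o ∧ A ω y ∧ O ω o y}.encard : ℝ≥0∞) := by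
    filter_upwards [hori, hno] with ω h1 h2
    by_cases hAo : A ω o
    · have e1 : ({y | A ω o ∧ ¬ A ω y ∧ O ω y o}.encard +
          {y | A ω y ∧ A ω o ∧ O ω y o}.encard) = {y | O ω y o}.encard := by
        rw [← Set.encard_union_eq]
        · congr 1
          ext y
          simp only [Set.mem_union, Set.mem_ofPred_eq]
          tauto
        · rw [Set.disjoint_left]
          rintro y ⟨_, q1, _⟩ ⟨q2, _⟩
          exact q1 q2
      have e2 : ({y | A ω o ∧ ¬ A ω y ∧ O ω o y}.encard +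
          {y | A ω o ∧ A ω y ∧ O ω o y}.encard) = {y | O ω o y}.encard := by
        rw [← Set.encard_union_eq]
        · congr 1
          ext y
          simp only [Set.mem_union, Set.mem_ofPred_eq]
          tauto
        · rw [Set.disjoint_left]
          rintro y ⟨_, q1, _⟩ ⟨_, q2, _⟩
          exact q1 q2
      rw [← ENat.toENNReal_add, ← ENat.toENNReal_add, e1, e2]
      apply ENat.toENNReal_mono
      obtain ⟨g1, g2⟩ := StF_fin h h1 o
      rw [← g1.cast_ncard_eq, ← g2.cast_ncard_eq]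
      have h3 := h2 o hAo
      unfold exN dg dgi at h3
      exact_mod_cast Nat.sub_eq_zero_iff_le.mp h3
    · have e1 : {y | A ω o ∧ ¬ A ω y ∧ O ω y o} = ∅ := by
        ext y
        simp [hAo]
      have e2 : {y | A ω y ∧ A ω o ∧ O ω y o} = ∅ := by
        ext y
        simp [hAo]
      rw [e1, e2]
      simp
  have hint := lintegral_mono_ae hpt
  rw [lintegral_add_left (StF_meas f3 o), lintegral_add_left (StF_meas f2 o)] at hint
  have hc1 := mtp_count h f1 o
  have hfin1 : ∫⁻ ω, ({y | A ω o ∧ A ω y ∧ O ω o y}.encard : ℝ≥0∞) ∂PP V ≠ ∞ := by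
    have : ∫⁻ ω, ({y | A ω o ∧ A ω y ∧ O ω o y}.encard : ℝ≥0∞) ∂PP V ≤
        ∫⁻ _, ((2 * d : ℕ) : ℝ≥0∞) ∂PP V := by
      apply lintegral_mono_ae
      filter_upwards [hori] with ω h1
      exact StF_le h o fun y hy => (h1 o y).1 hy.2.2
    rw [lintegral_const, measure_univ, mul_one] at this
    exact ne_top_of_le_ne_top (ENNReal.natCast_ne_top _) this
  have hin : ∫⁻ ω, ({y | A ω o ∧ ¬ A ω y ∧ O ω y o}.encard : ℝ≥0∞) ∂PP V ≤
      ∫⁻ ω, ({y | A ω o ∧ ¬ A ω y ∧ O ω o y}.encard : ℝ≥0∞) ∂PP V := by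
    rw [← hc1] at hint
    exact (ENNReal.add_le_add_iff_right hfin1).mp hint
  -- expansion
  have hex := expand' h hκ hA o
  have hsplit : ∫⁻ ω, ({y | G.Adj o y ∧ A ω o ∧ ¬ A ω y}.encard : ℝ≥0∞) ∂PP V ≤
      ∫⁻ ω, ({y | A ω o ∧ ¬ A ω y ∧ O ω o y}.encard : ℝ≥0∞) ∂PP V +
      ∫⁻ ω, ({y | A ω o ∧ ¬ A ω y ∧ O ω y o}.encard : ℝ≥0∞) ∂PP V := by
    rw [← lintegral_add_left (StF_meas f2 o)]
    apply lintegral_mono_ae
    filter_upwards [hori] with ω h1
    rw [← ENat.toENNReal_add]
    apply ENat.toENNReal_mono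
    refine le_trans (Set.encard_le_encard ?_) (Set.encard_union_le _ _)
    rintro y ⟨q1, q2, q3⟩
    by_cases hy : O ω o y
    · exact Or.inl ⟨q2, q3, hy⟩
    · right
      refine ⟨q2, q3, ?_⟩
      by_contra hc
      exact hy (((h1 o y).2 q1).mpr hc)
  have hc2 := mtp_count h f2 o
  have hup : ∫⁻ ω, ({y | A ω y ∧ ¬ A ω o ∧ O ω y o}.encard : ℝ≥0∞) ∂PP V ≤
      ((2 * d : ℕ) : ℝ≥0∞) * PP V ({ω | fwd (O ω) (k + 1) o} \ {ω | A ω o}) := by
    rw [← lintegral_indicator_const (mB.diff mA)]
    apply lintegral_mono_ae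
    filter_upwards [hori] with ω h1
    by_cases hω : ω ∈ {ω | fwd (O ω) (k + 1) o} \ {ω | A ω o}
    · rw [Set.indicator_of_mem hω]
      exact StF_le h o fun y hy => ((h1 y o).1 hy.2.2).symm
    · rw [Set.indicator_of_notMem hω]
      have : {y | A ω y ∧ ¬ A ω o ∧ O ω y o} = ∅ := by
        rw [Set.eq_empty_iff_forall_notMem]
        rintro y ⟨q1, q2, q3⟩
        exact hω ⟨Or.inr ⟨y, q1, q3⟩, q2⟩
      rw [this]
      simp
  have hfinal : ENNReal.ofReal κ * (PP V {ω | A ω o} * PP V {ω | ¬ A ω o}) ≤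
      8 * d * PP V ({ω | fwd (O ω) (k + 1) o} \ {ω | A ω o}) := by
    refine hex.trans ?_
    have h1 := hsplit.trans (add_le_add_right hin _)
    rw [hc2] at h1
    have h2 := h1.trans (add_le_add hup hup)
    refine (mul_le_mul_right h2 2).trans (le_of_eq ?_)
    push_cast
    ring
  have hsub : {ω | A ω o} ⊆ {ω | fwd (O ω) (k + 1) o} := fun ω hω => Or.inl hω
  have hreal := ENNReal.toReal_mono (by
    apply ENNReal.mul_ne_top
    · exact ENNReal.mul_ne_top (by norm_num) (ENNReal.natCast_ne_top _)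
    · exact measure_ne_top _ _) hfinal
  rw [ENNReal.toReal_mul, ENNReal.toReal_mul, ENNReal.toReal_mul, ENNReal.toReal_mul,
    ENNReal.toReal_ofReal hκ.1.le] at hreal
  have e1 : (PP V {ω | ¬ A ω o}).toReal = 1 - (PP V).real {ω | A ω o} := by
    have : {ω | ¬ A ω o} = {ω | A ω o}ᶜ := rfl
    rw [this]
    exact probReal_compl_eq_one_sub mA
  have e2 : (PP V ({ω | fwd (O ω) (k + 1) o} \ {ω | A ω o})).toReal =
      (PP V).real {ω | fwd (O ω) (k + 1) o} - (PP V).real {ω | A ω o} :=
    measureReal_diff hsub mA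
  rw [e1, e2] at hreal
  have e3 : (PP V {ω | A ω o}).toReal = (PP V).real {ω | A ω o} := rfl
  rw [e3] at hreal
  have e4 : (8 : ℝ≥0∞).toReal = 8 := rfl
  rw [e4, ENNReal.toReal_natCast] at hreal
  linarith

end Pool.Agent.FIIDU
end

section

/-!
# MP_767f1c_pr: growth of the backward sets
-/

set_option autoImplicit false

namespace Pool.Agent.FIIDU

open MeasureTheory Set Filter
open scoped ENNReal


variable {V : Type}

/-- the reversed orientation -/
theorem StG_ori {G : SimpleGraph V} {O : V → V → Prop} (hO : Ori G O) :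
    Ori G (fun x y => O y x) := fun x y =>
  ⟨fun hxy => ((hO y x).1 hxy).symm, fun hxy => (hO y x).2 hxy.symm⟩

/-- growth of the backward sets -/
theorem bwd_grow [Countable V] {G : SimpleGraph V} {d : ℕ} (h : Std G d) {κ : ℝ}
    (hκ : Gap G κ) {O : Om V → V → V → Prop} (hO : Fac2 G O)
    (hori : ∀ᵐ ω ∂PP V, Ori G (O ω)) (o : V) (k : ℕ)
    (hno : ∀ᵐ ω ∂PP V, ∀ x, bwd (O ω) k x → exP (O ω) x = 0) :
    8 * d * (PP V).real {ω | bwd (O ω) k o} +
      κ * ((PP V).real {ω | bwd (O ω) k o} * (1 - (PP V).real {ω | bwd (O ω) k o})) ≤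
      8 * d * (PP V).real {ω | bwd (O ω) (k + 1) o} := by
  have h1 : ∀ᵐ ω ∂PP V, Ori G (fun x y => O ω y x) := by
    filter_upwards [hori] with ω hω
    exact StG_ori hω
  have h2 : ∀ᵐ ω ∂PP V, ∀ x, fwd (fun x y => O ω y x) k x →
      exN (fun x y => O ω y x) x = 0 := by
    filter_upwards [hno] with ω hω x hx
    rw [← StE_bwd] at hx
    exact hω x hx
  have key := fwd_grow h hκ (StE_rev hO) h1 o k h2
  simp only [← StE_bwd] at key
  exact key

end Pool.Agent.FIIDU
end

section

/-!
# MP_767f1c_pr: decay of the excess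
-/

set_option autoImplicit false

namespace Pool.Agent.FIIDU

open MeasureTheory Set Filter
open scoped ENNReal


variable {V : Type}

/-- the expected positive and negative excess agree -/
theorem exP_eq_exN [Countable V] {G : SimpleGraph V} {d : ℕ} (h : Std G d)
    {O : Om V → V → V → Prop} (hO : Fac2 G O) (hori : ∀ᵐ ω ∂PP V, Ori G (O ω)) (o : V) :
    ∫⁻ ω, (exP (O ω) o : ℝ≥0∞) ∂PP V = ∫⁻ ω, (exN (O ω) o : ℝ≥0∞) ∂PP V := by
  have hc := mtp_count h hO o
  have hfin1 : ∫⁻ ω, ({y | O ω o y}.encard : ℝ≥0∞) ∂PP V ≠ ∞ := by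
    have : ∫⁻ ω, ({y | O ω o y}.encard : ℝ≥0∞) ∂PP V ≤
        ∫⁻ _, ((2 * d : ℕ) : ℝ≥0∞) ∂PP V := by
      apply lintegral_mono_ae
      filter_upwards [hori] with ω h1
      exact StF_le h o fun y hy => (h1 o y).1 hy
    rw [lintegral_const, measure_univ, mul_one] at this
    exact ne_top_of_le_ne_top (ENNReal.natCast_ne_top _) this
  have hpt : ∀ᵐ ω ∂PP V, ({y | O ω y o}.encard : ℝ≥0∞) + (exP (O ω) o : ℝ≥0∞) =
      ({y | O ω o y}.encard : ℝ≥0∞) + (exN (O ω) o : ℝ≥0∞) := by
    filter_upwards [hori] with ω h1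
    obtain ⟨g1, g2⟩ := StF_fin h h1 o
    rw [← g1.cast_ncard_eq, ← g2.cast_ncard_eq, ENat.toENNReal_coe, ENat.toENNReal_coe]
    have : {y | O ω y o}.ncard + exP (O ω) o = {y | O ω o y}.ncard + exN (O ω) o := by
      unfold exP exN dg dgi
      omega
    exact_mod_cast this
  have hint := lintegral_congr_ae hpt
  rw [lintegral_add_left (StF_meas (StE_rev hO) o), lintegral_add_left (StF_meas hO o),
    ← hc] at hint
  exact (ENNReal.add_right_inj hfin1).mp hint

theorem StH_exP_le {G : SimpleGraph V} {d : ℕ} (h : Std G d) {O : V → V → Prop}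
    (hO : Ori G O) (x : V) : exP O x ≤ 2 * d ∧ exN O x ≤ 2 * d := by
  constructor
  · unfold exP dg
    refine (Nat.sub_le _ _).trans ?_
    rw [← h.deg x]
    exact Set.ncard_le_ncard (fun y hy => (hO x y).1 hy) (h.fin x)
  · unfold exN dgi
    refine (Nat.sub_le _ _).trans ?_
    rw [← h.deg x]
    exact Set.ncard_le_ncard (fun y hy => ((hO y x).1 hy).symm) (h.fin x)

/-- numerical iteration -/
theorem StH_iter {d : ℕ} (hd : 0 < d) {κ : ℝ} (hκ : 0 < κ) (p : ℕ → ℝ) (k : ℕ)
    (h0 : ∀ j, 0 ≤ p j) (hmono : ∀ j, p j ≤ p (j + 1)) (hk : p k ≤ 1 / 2)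
    (hgrow : ∀ j < k, 8 * d * p j + κ * (p j * (1 - p j)) ≤ 8 * d * p (j + 1)) :
    p 0 ≤ ((1 + κ / (16 * d)) ^ k)⁻¹ := by
  have hd' : (0 : ℝ) < d := by exact_mod_cast hd
  have hmono' : Monotone p := monotone_nat_of_le_succ hmono
  have hc : (0 : ℝ) < 1 + κ / (16 * d) := by positivity
  have key : ∀ j ≤ k, p 0 * (1 + κ / (16 * d)) ^ j ≤ p j := by
    intro j
    induction j with
    | zero => intro _; simp
    | succ j ih =>
      intro hj
      have h1 := ih (by omega)
      have h2 := hgrow j (by omega)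
      have h3 : p j ≤ 1 / 2 := (hmono' (by omega)).trans hk
      have h4 : p j * (1 + κ / (16 * d)) ≤ p (j + 1) := by
        have h5 : κ * (p j * (1 / 2)) ≤ κ * (p j * (1 - p j)) := by
          apply mul_le_mul_of_nonneg_left _ hκ.le
          apply mul_le_mul_of_nonneg_left _ (h0 j)
          linarith
        have h6 : 8 * d * (p j * (1 + κ / (16 * d))) ≤ 8 * d * p (j + 1) := by
          have e : 8 * d * (p j * (1 + κ / (16 * d))) = 8 * d * p j + κ * (p j * (1 / 2)) := by
            field_simp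
            ring
          rw [e]
          linarith
        exact le_of_mul_le_mul_left h6 (by positivity)
      calc p 0 * (1 + κ / (16 * d)) ^ (j + 1) = (p 0 * (1 + κ / (16 * d)) ^ j) *
            (1 + κ / (16 * d)) := by ring
        _ ≤ p j * (1 + κ / (16 * d)) := mul_le_mul_of_nonneg_right h1 hc.le
        _ ≤ p (j + 1) := h4
  have h1 := key k le_rfl
  have hpos : (0 : ℝ) < (1 + κ / (16 * d)) ^ k := by positivity
  rw [← one_div, le_div_iff₀ hpos]
  linarith

/-- bounding an expectation by a probability -/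
theorem StH_bd {c : ℝ} {d : ℕ} (e : Om V → ℕ) (hm : MeasurableSet {ω | 0 < e ω})
    (he : ∀ᵐ ω ∂PP V, e ω ≤ 2 * d) (hc : (PP V).real {ω | 0 < e ω} ≤ c) :
    ∫⁻ ω, (e ω : ℝ≥0∞) ∂PP V ≤ (2 * d : ℕ) * ENNReal.ofReal c := by
  have h1 : ∫⁻ ω, (e ω : ℝ≥0∞) ∂PP V ≤
      ∫⁻ ω, {ω | 0 < e ω}.indicator (fun _ => ((2 * d : ℕ) : ℝ≥0∞)) ω ∂PP V := by
    apply lintegral_mono_ae
    filter_upwards [he] with ω hω
    by_cases h0 : ω ∈ {ω | 0 < e ω}
    · rw [Set.indicator_of_mem h0]
      exact_mod_cast hω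
    · rw [Set.indicator_of_notMem h0]
      have : e ω = 0 := by
        simpa using h0
      simp [this]
  rw [lintegral_indicator_const hm] at h1
  refine h1.trans (mul_le_mul_right ?_ _)
  rw [← ofReal_measureReal]
  exact ENNReal.ofReal_le_ofReal hc

/-- without short augmenting paths the excess is exponentially small -/
theorem decay [Countable V] {G : SimpleGraph V} {d : ℕ} (h : Std G d) {κ : ℝ}
    (hκ : Gap G κ) {O : Om V → V → V → Prop} (hO : Fac2 G O)
    (hori : ∀ᵐ ω ∂PP V, Ori G (O ω)) (o : V) (k : ℕ)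
    (hno : ∀ᵐ ω ∂PP V, ∀ l, ¬ AppF G (2 * k) (O ω) l) :
    ∫⁻ ω, (exP (O ω) o : ℝ≥0∞) ∂PP V ≤
      (2 * d : ℕ) * ENNReal.ofReal ((1 + κ / (16 * d)) ^ k)⁻¹ := by
  have hle : ∀ᵐ ω ∂PP V, exP (O ω) o ≤ 2 * d ∧ exN (O ω) o ≤ 2 * d := by
    filter_upwards [hori] with ω hω
    exact StH_exP_le h hω o
  rcases Nat.eq_zero_or_pos d with hd | hd
  · subst hd
    have : ∫⁻ ω, (exP (O ω) o : ℝ≥0∞) ∂PP V = 0 := by
      rw [← lintegral_zero (μ := PP V)]
      apply lintegral_congr_ae
      filter_upwards [hle] with ω hω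
      have : exP (O ω) o = 0 := by omega
      simp [this]
    rw [this]
    exact zero_le
  have hno1 : ∀ j ≤ k, ∀ᵐ ω ∂PP V, ∀ x, fwd (O ω) j x → exN (O ω) x = 0 := by
    intro j hj
    filter_upwards [hno, hori] with ω h1 h2 x hx
    by_contra hc
    obtain ⟨l, hl⟩ := app_of_meet h h2 (j := j) (k := 0) (n := 2 * k) (by omega) hx
      (Nat.pos_of_ne_zero hc)
    exact h1 l hl
  have hno2 : ∀ j ≤ k, ∀ᵐ ω ∂PP V, ∀ x, bwd (O ω) j x → exP (O ω) x = 0 := by
    intro j hj
    filter_upwards [hno, hori] with ω h1 h2 x hx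
    by_contra hc
    obtain ⟨l, hl⟩ := app_of_meet h h2 (j := 0) (k := j) (n := 2 * k) (by omega)
      (Nat.pos_of_ne_zero hc) hx
    exact h1 l hl
  have m1 : ∀ j, MeasurableSet {ω | fwd (O ω) j o} := fun j =>
    measurableSet_setOfPred.mpr ((fwd_fac hO j).1.meas o)
  have m2 : ∀ j, MeasurableSet {ω | bwd (O ω) j o} := fun j =>
    measurableSet_setOfPred.mpr ((fwd_fac hO j).2.meas o)
  have hmeet : (PP V).real {ω | fwd (O ω) k o} ≤ 1 / 2 ∨
      (PP V).real {ω | bwd (O ω) k o} ≤ 1 / 2 := by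
    by_contra hcon
    push Not at hcon
    have h0 : (PP V).real ({ω | fwd (O ω) k o} ∩ {ω | bwd (O ω) k o}) = 0 := by
      rw [measureReal_eq_zero_iff, measure_eq_zero_iff_ae_notMem]
      filter_upwards [hno, hori] with ω h1 h2 h3
      obtain ⟨l, hl⟩ := app_of_meet h h2 (j := k) (k := k) (n := 2 * k) (by omega) h3.1 h3.2
      exact h1 l hl
    have h1 := measureReal_union_add_inter (μ := PP V) (s := {ω | fwd (O ω) k o}) (m2 k)
    have h2 : (PP V).real ({ω | fwd (O ω) k o} ∪ {ω | bwd (O ω) k o}) ≤ 1 :=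
      measureReal_le_one
    linarith [hcon.1, hcon.2]
  rcases hmeet with hk | hk
  · apply StH_bd (fun ω => exP (O ω) o) (m1 0) (hle.mono fun ω hω => hω.1)
    refine StH_iter hd hκ.1 (fun j => (PP V).real {ω | fwd (O ω) j o}) k
      (fun j => measureReal_nonneg) ?_ hk ?_
    · intro j
      exact measureReal_mono fun ω hω => Or.inl hω
    · intro j hj
      exact fwd_grow h hκ hO hori o j (hno1 j hj.le)
  · rw [exP_eq_exN h hO hori o]
    apply StH_bd (fun ω => exN (O ω) o) (m2 0) (hle.mono fun ω hω => hω.2)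
    refine StH_iter hd hκ.1 (fun j => (PP V).real {ω | bwd (O ω) j o}) k
      (fun j => measureReal_nonneg) ?_ hk ?_
    · intro j
      exact measureReal_mono fun ω hω => Or.inl hω
    · intro j hj
      exact bwd_grow h hκ hO hori o j (hno2 j hj.le)

end Pool.Agent.FIIDU
end

section

/-!
# MP_767f1c_pr: nonamenable graphs
-/

set_option autoImplicit false

namespace Pool.Agent.FIIDU

open MeasureTheory Set Filter
open scoped ENNReal


variable {V : Type}

private theorem stage_meas [Countable V] {G : SimpleGraph V} {O : Om V → V → V → Prop}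
    (hO : Fac2 G O) (x : V) : Measurable (fun ω => exP (O ω) x) ∧
      Measurable (fun ω => exN (O ω) x) := by
  have h1 : Measurable (fun ω => dg (O ω) x) := by
    apply measurable_to_countable'
    intro k
    exact measurableSet_setOfPred.2 ((hO.dg_eq k).meas x)
  have h2 : Measurable (fun ω => dgi (O ω) x) := by
    apply measurable_to_countable'
    intro k
    exact measurableSet_setOfPred.2 ((hO.dgi_eq k).meas x)
  constructor
  · exact (measurable_of_countable (fun p : ℕ × ℕ => p.1 - p.2)).comp (h1.prodMk h2)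
  · exact (measurable_of_countable (fun p : ℕ × ℕ => p.1 - p.2)).comp (h2.prodMk h1)

private theorem stage_markov {f : Om V → ℕ} (hf : Measurable f) :
    PP V {ω | f ω ≠ 0} ≤ ∫⁻ ω, (f ω : ℝ≥0∞) ∂PP V := by
  have hm : Measurable (fun ω => (f ω : ℝ≥0∞)) := (measurable_of_countable _).comp hf
  have h1 := mul_meas_ge_le_lintegral (μ := PP V) hm 1
  rw [one_mul] at h1
  refine le_trans (measure_mono ?_) h1
  intro ω hω
  show (1 : ℝ≥0∞) ≤ (f ω : ℝ≥0∞)
  exact_mod_cast Nat.one_le_iff_ne_zero.2 hω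

private theorem stage_bal [Countable V] {G : SimpleGraph V} {d : ℕ} (h : Std G d)
    {O : Om V → V → V → Prop} (hO : Fac2 G O) (hori : ∀ᵐ ω ∂PP V, Ori G (O ω)) (o : V) :
    PP V {ω | ¬ BalAt G.Adj (O ω) o} ≤ 2 * ∫⁻ ω, (exP (O ω) o : ℝ≥0∞) ∂PP V := by
  have hm := stage_meas hO o
  have h1 : {ω | ¬ BalAt G.Adj (O ω) o} ⊆
      {ω | ¬ Ori G (O ω)} ∪ ({ω | exP (O ω) o ≠ 0} ∪ {ω | exN (O ω) o ≠ 0}) := by
    intro ω hω
    by_contra hcon
    simp only [Set.mem_union, Set.mem_ofPred_eq, not_or, not_not] at hcon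
    obtain ⟨h2, h3, h4⟩ := hcon
    apply hω
    refine ⟨fun y hy => (h2 o y).1 hy, fun y hy => (h2 y o).1 hy, fun y hy => (h2 o y).2 hy, ?_⟩
    unfold exP at h3
    unfold exN at h4
    omega
  refine (measure_mono h1).trans ((measure_union_le _ _).trans ?_)
  have h5 : PP V {ω | ¬ Ori G (O ω)} = 0 := hori
  rw [h5, zero_add, two_mul]
  refine (measure_union_le _ _).trans ?_
  apply add_le_add
  · exact stage_markov hm.1
  · rw [exP_eq_exN h hO hori o]
    exact stage_markov hm.2

/-- **Nonamenable unimodular graphs.** -/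
theorem bo_of_gap [Countable V] {G : SimpleGraph V} {d : ℕ} (h : Std G d) {κ : ℝ}
    (hκ : Gap G κ) : HasBO G := by
  obtain ⟨o⟩ := h.conn.nonempty
  have hst : ∀ (m : ℕ) (O : {O : Om V → V → V → Prop // Fac2 G O ∧ ∀ᵐ ω ∂PP V, Ori G (O ω)}),
      ∃ O' : {O : Om V → V → V → Prop // Fac2 G O ∧ ∀ᵐ ω ∂PP V, Ori G (O ω)},
        (∀ᵐ ω ∂PP V, ∀ l, ¬ AppF G (2 * (m + 1)) (O'.1 ω) l) ∧
        PP V {ω | Chg (O.1 ω) (O'.1 ω) o} ≤
          (2 * (m + 1) + 1 : ℕ) * ∫⁻ ω, (exP (O.1 ω) o : ℝ≥0∞) ∂PP V := by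
    intro m O
    obtain ⟨O', h1, h2, h3, h4⟩ := stage h O.2.1 O.2.2 (2 * (m + 1)) o
    exact ⟨⟨O', h1, h2⟩, h3, h4⟩
  choose nxt hn1 hn2 using hst
  obtain ⟨O0, hO0, hO0'⟩ := exists_ori (V := V) (G := G)
  let S : ℕ → {O : Om V → V → V → Prop // Fac2 G O ∧ ∀ᵐ ω ∂PP V, Ori G (O ω)} :=
    fun n => Nat.rec ⟨O0, hO0, hO0'⟩ (fun m O => nxt m O) n
  have hS : ∀ m, S (m + 1) = nxt m (S m) := fun m => rfl
  set q : ℝ := (1 + κ / (16 * d))⁻¹ with hq
  have hdec : ∀ m, 1 ≤ m → ∫⁻ ω, (exP ((S m).1 ω) o : ℝ≥0∞) ∂PP V ≤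
      ENNReal.ofReal (2 * d * q ^ m) := by
    intro m hm
    obtain ⟨k, rfl⟩ : ∃ k, m = k + 1 := ⟨m - 1, by omega⟩
    have h1 := decay h hκ (S (k + 1)).2.1 (S (k + 1)).2.2 o (k + 1) (by
      rw [hS]
      exact hn1 k (S k))
    refine h1.trans (le_of_eq ?_)
    rw [ENNReal.ofReal_mul (by positivity), hq, inv_pow]
    congr 1
    rw [ENNReal.ofReal_mul (by norm_num), ENNReal.ofReal_ofNat, ENNReal.ofReal_natCast]
    push_cast
    rfl
  have hq0 : 0 ≤ q := by
    rw [hq]
    have := hκ.1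
    positivity
  have hq1 : 0 < d → q < 1 := by
    intro hd
    rw [hq]
    apply inv_lt_one_of_one_lt₀
    have h1 := hκ.1
    have h2 : (0 : ℝ) < d := by exact_mod_cast hd
    have h3 : 0 < κ / (16 * d) := by positivity
    linarith
  apply limit_bal h (fun n => (S n).1) (fun n => (S n).2.1) o
  · have hsum : Summable (fun n : ℕ => (if n = 0 then (1 : ℝ) else 0) +
        (2 * n + 3) * (2 * d * q ^ n)) := by
      apply Summable.add
      · apply summable_of_ne_finset_zero (s := {0})
        intro b hb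
        simp at hb
        simp [hb]
      · rcases Nat.eq_zero_or_pos d with hd | hd
        · subst hd
          simp only [Nat.cast_zero, mul_zero, zero_mul]
          exact summable_zero
        · have hn : ‖q‖ < 1 := by
            rw [Real.norm_of_nonneg hq0]
            exact hq1 hd
          have s1 := (summable_pow_mul_geometric_of_norm_lt_one 1 hn).mul_left (4 * d : ℝ)
          have s0 := (summable_pow_mul_geometric_of_norm_lt_one 0 hn).mul_left (6 * d : ℝ)
          refine (s1.add s0).congr ?_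
          intro n
          ring
    apply ne_top_of_le_ne_top hsum.tsum_ofReal_ne_top
    apply ENNReal.tsum_le_tsum
    intro n
    rcases Nat.eq_zero_or_pos n with hn | hn
    · subst hn
      refine prob_le_one.trans ?_
      rw [← ENNReal.ofReal_one]
      apply ENNReal.ofReal_le_ofReal
      have : (0 : ℝ) ≤ (2 * ((0 : ℕ) : ℝ) + 3) * (2 * d * q ^ 0) := by positivity
      simp only [if_true]
      linarith
    · have h1 := hn2 n (S n)
      have h2 := hdec n hn
      refine (le_trans h1 (mul_le_mul_right h2 _)).trans ?_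
      rw [if_neg (by omega), zero_add, ← ENNReal.ofReal_natCast,
        ← ENNReal.ofReal_mul (by positivity)]
      apply le_of_eq
      congr 1
      push_cast
      ring
  · intro ε hε
    apply Eventually.frequently
    have ht : Tendsto (fun n : ℕ => ENNReal.ofReal (2 * (2 * d * q ^ n))) atTop (nhds 0) := by
      rw [← ENNReal.ofReal_zero]
      apply ENNReal.tendsto_ofReal
      rcases Nat.eq_zero_or_pos d with hd | hd
      · subst hd
        simp only [Nat.cast_zero, mul_zero, zero_mul]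
        exact tendsto_const_nhds
      · have h1 := tendsto_pow_atTop_nhds_zero_of_lt_one hq0 (hq1 hd)
        have h2 := (h1.const_mul (2 * d : ℝ)).const_mul (2 : ℝ)
        simpa using h2
    filter_upwards [ht.eventually_le_const hε, eventually_ge_atTop 1] with n h1 h2
    refine (stage_bal h (S n).2.1 (S n).2.2 o).trans (le_trans ?_ h1)
    rw [ENNReal.ofReal_mul (by norm_num), ENNReal.ofReal_ofNat]
    exact mul_le_mul_right (hdec n h2) _

end Pool.Agent.FIIDU
end
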