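import Mathlib
import Pool.Agent.Lib.MP_767f1c_pr.U.Defs
import Pool.Agent.Lib.MP_767f1c_pr.Mg.G001

section

/-!
# MP_767f1c_pr: mod 2 chains
-/

set_option autoImplicit false

namespace Pool.Agent.FIIDU

open Set


variable {V : Type}

/-- the boundary of an edge -/
noncomputable def bde : Sym2 V → (V →₀ ZMod 2) :=
  Sym2.lift ⟨fun x y => Finsupp.single x 1 + Finsupp.single y 1, fun _ _ => add_comm _ _⟩

/-- the boundary of a mod 2 chain of edges -/
noncomputable def bdy : (Sym2 V →₀ ZMod 2) →ₗ[ZMod 2] (V →₀ ZMod 2) :=
  Finsupp.lift (V →₀ ZMod 2) (ZMod 2) (Sym2 V) bde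

theorem bdy_single (x y : V) :
    bdy (Finsupp.single s(x, y) 1) = Finsupp.single x 1 + Finsupp.single y 1 := by
  unfold bdy
  rw [Finsupp.lift_apply, Finsupp.sum_single_index]
  · simp [bde]
  · simp

/-- the chain of a walk -/
noncomputable def wch {H : SimpleGraph V} {x y : V} (p : H.Walk x y) : Sym2 V →₀ ZMod 2 :=
  (p.edges.map (fun e => Finsupp.single e 1)).sum

private theorem TChA_two {A : Type} [AddCommGroup A] [Module (ZMod 2) A] (a : A) : a + a = 0 := by
  have h : ((1 : ZMod 2) + 1) • a = 0 := by
    have : (1 : ZMod 2) + 1 = 0 := by decide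
    rw [this, zero_smul]
  rwa [add_smul, one_smul] at h

theorem bdy_wch {H : SimpleGraph V} {x y : V} (p : H.Walk x y) :
    bdy (wch p) = Finsupp.single x 1 + Finsupp.single y 1 := by
  induction p with
  | nil =>
    unfold wch
    simp only [SimpleGraph.Walk.edges_nil, List.map_nil, List.sum_nil, map_zero]
    exact (TChA_two _).symm
  | @cons u v w h p ih =>
    unfold wch at ih ⊢
    rw [SimpleGraph.Walk.edges_cons, List.map_cons, List.sum_cons, map_add, ih, bdy_single]
    have h2 := TChA_two (Finsupp.single v (1 : ZMod 2))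
    rw [add_assoc, ← add_assoc (Finsupp.single v (1 : ZMod 2)), h2, zero_add]

private theorem TChA_apply (L : List (Sym2 V)) (e : Sym2 V) [DecidableEq (Sym2 V)] :
    (L.map (fun e => Finsupp.single e (1 : ZMod 2))).sum e = (L.count e : ZMod 2) := by
  induction L with
  | nil => simp
  | cons a L ih =>
    rw [List.map_cons, List.sum_cons, Finsupp.add_apply, ih, List.count_cons, Finsupp.single_apply]
    by_cases h : a = e
    · simp [h, add_comm]
    · simp [h]

theorem wch_support_subset {H : SimpleGraph V} {x y : V} (p : H.Walk x y) :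
    ∀ e ∈ (wch p).support, e ∈ p.edges := by
  classical
  intro e he
  rw [Finsupp.mem_support_iff] at he
  unfold wch at he
  rw [TChA_apply] at he
  by_contra hcon
  rw [List.count_eq_zero_of_not_mem hcon] at he
  exact he (by simp)

theorem wch_card_le {H : SimpleGraph V} {x y : V} (p : H.Walk x y) :
    (wch p).support.card ≤ p.length := by
  classical
  have h1 : (wch p).support ⊆ p.edges.toFinset := by
    intro e he
    rw [List.mem_toFinset]
    exact wch_support_subset p e he
  calc (wch p).support.card ≤ p.edges.toFinset.card := Finset.card_le_card h1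
    _ ≤ p.edges.length := List.toFinset_card_le _
    _ = p.length := p.length_edges

/-- the chain of a trail -/
theorem wch_trail {H : SimpleGraph V} {x y : V} {p : H.Walk x y} (hp : p.IsTrail) :
    (∀ e, e ∈ (wch p).support ↔ e ∈ p.edges) ∧ (wch p).support.card = p.length := by
  classical
  have h1 : ∀ e, e ∈ (wch p).support ↔ e ∈ p.edges := by
    intro e
    refine ⟨wch_support_subset p e, ?_⟩
    intro he
    rw [Finsupp.mem_support_iff]
    unfold wch
    rw [TChA_apply, List.count_eq_one_of_mem hp.edges_nodup he]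
    simp
  refine ⟨h1, ?_⟩
  have h2 : (wch p).support = p.edges.toFinset := by
    ext e
    rw [h1, List.mem_toFinset]
  rw [h2, List.toFinset_card_of_nodup hp.edges_nodup, p.length_edges]

/-- the size of a sum -/
theorem card_add_le (z w : Sym2 V →₀ ZMod 2) :
    (z + w).support.card ≤ z.support.card + w.support.card := by
  classical
  exact (Finset.card_le_card Finsupp.support_add).trans (Finset.card_union_le _ _)

/-- adding a chain contained in `z` means removing it -/
theorem card_add_of_subset {z w : Sym2 V →₀ ZMod 2} (h : ∀ e ∈ w.support, e ∈ z.support) :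
    (z + w).support.card + w.support.card = z.support.card ∧
      ∀ e, e ∈ (z + w).support ↔ e ∈ z.support ∧ e ∉ w.support := by
  classical
  have hz2 : ∀ a b : ZMod 2, (a ≠ 0 → b ≠ 0) → (b + a ≠ 0 ↔ b ≠ 0 ∧ ¬ a ≠ 0) := by decide
  have h1 : ∀ e, e ∈ (z + w).support ↔ e ∈ z.support ∧ e ∉ w.support := by
    intro e
    rw [Finsupp.mem_support_iff, Finsupp.mem_support_iff, Finsupp.mem_support_iff,
      Finsupp.add_apply]
    refine hz2 _ _ ?_
    intro h2
    exact Finsupp.mem_support_iff.1 (h e (Finsupp.mem_support_iff.2 h2))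
  refine ⟨?_, h1⟩
  have h2 : (z + w).support = z.support \ w.support := by
    ext e
    rw [h1, Finset.mem_sdiff]
  rw [h2]
  exact Finset.card_sdiff_add_card_eq_card h

end Pool.Agent.FIIDU
end

section

/-!
# MP_767f1c_pr: paths in mod 2 chains
-/

set_option autoImplicit false

namespace Pool.Agent.FIIDU

open Set


variable {V : Type}

private theorem TChB_bde_zero {e : Sym2 V} {y : V} (h : y ∉ e) : bde e y = 0 := by
  classical
  induction e with
  | _ a b =>
    rw [Sym2.mem_iff] at h
    push Not at h
    simp only [bde, Sym2.lift_mk, Finsupp.add_apply, Finsupp.single_apply]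
    rw [if_neg (Ne.symm h.1), if_neg (Ne.symm h.2), add_zero]

/-- the boundary vanishes away from the edges -/
private theorem TChB_zero {w : Sym2 V →₀ ZMod 2} {y : V} (h : ∀ e ∈ w.support, y ∉ e) :
    (bdy w) y = 0 := by
  unfold bdy
  rw [Finsupp.lift_apply, Finsupp.sum, Finsupp.finsetSum_apply]
  refine Finset.sum_eq_zero fun e he => ?_
  rw [Finsupp.smul_apply, TChB_bde_zero (h e he), smul_zero]

/-- the sum of all values -/
private noncomputable def TChB_tot : (V →₀ ZMod 2) →ₗ[ZMod 2] ZMod 2 :=
  Finsupp.linearCombination (ZMod 2) (fun _ : V => (1 : ZMod 2))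

private theorem TChB_tot_bdy (w : Sym2 V →₀ ZMod 2) : TChB_tot (bdy w) = 0 := by
  have h : TChB_tot.comp (bdy (V := V)) = 0 := by
    refine Finsupp.lhom_ext fun e b => ?_
    induction e with
    | _ x y =>
      have h1 : (Finsupp.single s(x, y) b : Sym2 V →₀ ZMod 2) = b • Finsupp.single s(x, y) 1 := by
        rw [Finsupp.smul_single, smul_eq_mul, mul_one]
      rw [h1, LinearMap.map_smul, LinearMap.comp_apply, bdy_single, map_add]
      unfold TChB_tot
      rw [Finsupp.linearCombination_single, Finsupp.linearCombination_single]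
      have h2 : (1 : ZMod 2) • (1 : ZMod 2) + (1 : ZMod 2) • (1 : ZMod 2) = 0 := by decide
      rw [h2, smul_zero]
      rfl
  exact LinearMap.congr_fun h w

/-- if the boundary of a chain is not zero at `x` then some other vertex with this property is
connected to `x` by a path in the chain -/
theorem exists_path_of_bdy {H : SimpleGraph V} {z : Sym2 V →₀ ZMod 2}
    (hz : ∀ e ∈ z.support, e ∈ H.edgeSet) {x : V} (hx : x ∈ (bdy z).support) :
    ∃ y, y ≠ x ∧ y ∈ (bdy z).support ∧ ∃ p : H.Walk x y, p.IsPath ∧
      ∀ e ∈ p.edges, e ∈ z.support := by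
  classical
  let G' : SimpleGraph V := SimpleGraph.fromEdgeSet (z.support : Set (Sym2 V))
  have hle : G' ≤ H := by
    intro a b hab
    rw [SimpleGraph.fromEdgeSet_adj] at hab
    exact hz _ hab.1
  let A : Set V := {y | G'.Reachable x y}
  let zA := z.filter (fun e => ∃ v ∈ e, v ∈ A)
  let zB := z.filter (fun e => ¬ ∃ v ∈ e, v ∈ A)
  have hsplit : zA + zB = z := Finsupp.filter_add_filter_not z _
  -- edges of zA have both endpoints in A
  have hA : ∀ y, y ∉ A → (bdy zA) y = 0 := by
    intro y hy
    refine TChB_zero fun e he hye => ?_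
    rw [Finsupp.support_filter, Finset.mem_filter] at he
    obtain ⟨hez, v, hv, hvA⟩ := he
    by_cases hvy : v = y
    · subst hvy
      exact hy hvA
    · refine hy ?_
      have he2 : e = s(v, y) := by
        exact (Sym2.mem_and_mem_iff hvy).1 ⟨hv, hye⟩
      have hadj : G'.Adj v y := by
        rw [SimpleGraph.fromEdgeSet_adj]
        refine ⟨?_, hvy⟩
        rw [← he2]
        exact hez
      exact SimpleGraph.Reachable.trans hvA hadj.reachable
  have hB : ∀ y, y ∈ A → (bdy zB) y = 0 := by
    intro y hy
    refine TChB_zero fun e he hye => ?_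
    rw [Finsupp.support_filter, Finset.mem_filter] at he
    exact he.2 ⟨y, hye, hy⟩
  have hAz : ∀ y, y ∈ A → (bdy zA) y = (bdy z) y := by
    intro y hy
    rw [← hsplit, map_add, Finsupp.add_apply, hB y hy, add_zero]
  have hxA : x ∈ A := SimpleGraph.Reachable.refl x
  by_contra hcon
  push Not at hcon
  have hno : ∀ y ∈ A, y ≠ x → (bdy z) y = 0 := by
    intro y hy hyx
    by_contra hne
    have hr : G'.Reachable x y := hy
    obtain ⟨p, hp⟩ := hr.exists_isPath
    obtain ⟨e, he, hez⟩ := hcon y hyx (Finsupp.mem_support_iff.2 hne) (p.mapLe hle)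
      (by exact (SimpleGraph.Walk.isPath_mapLe hle).2 hp)
    rw [SimpleGraph.Walk.edges_mapLe_eq_edges] at he
    have h1 := p.edges_subset_edgeSet he
    rw [SimpleGraph.edgeSet_fromEdgeSet] at h1
    exact hez h1.1
  have hsing : bdy zA = Finsupp.single x ((bdy z) x) := by
    ext y
    rw [Finsupp.single_apply]
    split_ifs with hxy
    · subst hxy
      rw [hAz x hxA]
    · by_cases hy : y ∈ A
      · rw [hAz y hy, hno y hy (Ne.symm hxy)]
      · exact hA y hy
  have h1 := TChB_tot_bdy zA
  rw [hsing] at h1
  unfold TChB_tot at h1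
  rw [Finsupp.linearCombination_single, smul_eq_mul, mul_one] at h1
  exact (Finsupp.mem_support_iff.1 hx) h1

end Pool.Agent.FIIDU
end

section

/-!
# MP_767f1c_pr: minimal chains and their decompositions into geodesics
-/

set_option autoImplicit false

namespace Pool.Agent.FIIDU

open Set


variable {V : Type}

private theorem TChC_two {A : Type} [AddCommGroup A] [Module (ZMod 2) A] (a : A) : a + a = 0 := by
  have h : ((1 : ZMod 2) + 1) • a = 0 := by
    have : (1 : ZMod 2) + 1 = 0 := by decide
    rw [this, zero_smul]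
  rwa [add_smul, one_smul] at h

/-- `z` is a chain in `H` with the smallest number of edges among all chains with the same
boundary -/
structure MinJ (H : SimpleGraph V) (z : Sym2 V →₀ ZMod 2) : Prop where
  sub : ∀ e ∈ z.support, e ∈ H.edgeSet
  min : ∀ z' : Sym2 V →₀ ZMod 2, (∀ e ∈ z'.support, e ∈ H.edgeSet) → bdy z' = bdy z →
    z.support.card ≤ z'.support.card

theorem exists_minJ {H : SimpleGraph V} {z : Sym2 V →₀ ZMod 2}
    (hz : ∀ e ∈ z.support, e ∈ H.edgeSet) : ∃ z', MinJ H z' ∧ bdy z' = bdy z := by
  classical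
  have hex : ∃ n, ∃ z' : Sym2 V →₀ ZMod 2, (∀ e ∈ z'.support, e ∈ H.edgeSet) ∧
      bdy z' = bdy z ∧ z'.support.card = n := ⟨_, z, hz, rfl, rfl⟩
  obtain ⟨z', h1, h2, h3⟩ := Nat.find_spec hex
  refine ⟨z', ⟨h1, ?_⟩, h2⟩
  intro z'' h4 h5
  rw [h3]
  exact Nat.find_min' hex ⟨z'', h4, h5.trans h2, rfl⟩

/-- the data of a decomposition of a minimal chain into geodesics -/
structure Dec (H : SimpleGraph V) (z : Sym2 V →₀ ZMod 2) (N : ℕ) where
  st : Fin N → V
  en : Fin N → V
  p : (i : Fin N) → H.Walk (st i) (en i)
  geo : ∀ i, (p i).length = H.dist (st i) (en i)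
  path : ∀ i, (p i).IsPath
  ne : ∀ i, st i ≠ en i
  sum : z = ∑ i, wch (p i)
  card : z.support.card = ∑ i, (p i).length

/-- a minimal chain is a sum of disjoint geodesics -/
theorem exists_dec {H : SimpleGraph V} {z : Sym2 V →₀ ZMod 2} (hz : MinJ H z) :
    ∃ N, 2 * N = (bdy z).support.card ∧ Nonempty (Dec H z N) := by
  classical
  induction hn : z.support.card using Nat.strong_induction_on generalizing z with
  | _ n ih =>
    by_cases hb : bdy z = 0
    · have hz0 : z = 0 := by
        have h1 := hz.min 0 (by simp) (by rw [map_zero, hb])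
        rw [Finsupp.support_zero, Finset.card_empty, Nat.le_zero, Finset.card_eq_zero,
          Finsupp.support_eq_empty] at h1
        exact h1
      refine ⟨0, by rw [hb]; simp, ⟨⟨Fin.elim0, Fin.elim0, fun i => i.elim0, fun i => i.elim0,
        fun i => i.elim0, fun i => i.elim0, ?_, ?_⟩⟩⟩
      · simp [hz0]
      · simp [hz0]
    · obtain ⟨x, hx⟩ : ((bdy z).support).Nonempty := by
        rw [Finset.nonempty_iff_ne_empty, ne_eq, Finsupp.support_eq_empty]
        exact hb
      obtain ⟨y, hyx, hy, p, hp, hpz⟩ := exists_path_of_bdy hz.sub hx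
      obtain ⟨hsupp, hcardp⟩ := wch_trail hp.isTrail
      have hsub : ∀ e ∈ (wch p).support, e ∈ z.support := fun e he => hpz e ((hsupp e).1 he)
      obtain ⟨hcard, hmem⟩ := card_add_of_subset hsub
      have hplen : 0 < p.length := by
        rw [Nat.pos_iff_ne_zero]
        intro h0
        exact hyx (SimpleGraph.Walk.eq_of_length_eq_zero h0).symm
      have hin : ∀ e ∈ (wch p).support, e ∈ H.edgeSet := fun e he => hz.sub e (hsub e he)
      have htwo : ∀ w : Sym2 V →₀ ZMod 2, w + w = 0 := TChC_two
      have hzz : z = (z + wch p) + wch p := by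
        rw [add_assoc, htwo, add_zero]
      have hsubadd : ∀ (u w : Sym2 V →₀ ZMod 2), (∀ e ∈ u.support, e ∈ H.edgeSet) →
          (∀ e ∈ w.support, e ∈ H.edgeSet) → ∀ e ∈ (u + w).support, e ∈ H.edgeSet := by
        intro u w hu hw e he
        rcases Finset.mem_union.1 (Finsupp.support_add he) with h1 | h1
        · exact hu e h1
        · exact hw e h1
      have hmin : MinJ H (z + wch p) := by
        refine ⟨hsubadd _ _ hz.sub hin, ?_⟩
        intro z'' h1 h2
        have h3 := hz.min (z'' + wch p) (hsubadd _ _ h1 hin) (by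
          rw [map_add, h2, ← map_add, ← hzz])
        have h4 := card_add_le z'' (wch p)
        omega
      have hgeo : p.length = H.dist x y := by
        refine le_antisymm ?_ (SimpleGraph.dist_le p)
        obtain ⟨q, hq⟩ := p.reachable.exists_walk_length_eq_dist
        rw [← hq]
        have hqin : ∀ e ∈ (wch q).support, e ∈ H.edgeSet := fun e he =>
          q.edges_subset_edgeSet (wch_support_subset q e he)
        have h3 := hz.min ((z + wch p) + wch q) (hsubadd _ _ hmin.sub hqin) (by
          rw [map_add, map_add, bdy_wch p, bdy_wch q, add_assoc, TChC_two, add_zero])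
        have h4 := card_add_le (z + wch p) (wch q)
        have h5 := wch_card_le q
        omega
      obtain ⟨N, hN, ⟨D⟩⟩ := ih (z + wch p).support.card (by omega) hmin rfl
      have hbcard : (bdy (z + wch p)).support.card + 2 = (bdy z).support.card := by
        have h1 : (bdy (z + wch p)).support = (bdy z).support \ {x, y} := by
          ext v
          rw [map_add, bdy_wch, Finset.mem_sdiff, Finsupp.mem_support_iff, Finsupp.mem_support_iff,
            Finsupp.add_apply, Finsupp.add_apply, Finsupp.single_apply, Finsupp.single_apply,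
            Finset.mem_insert, Finset.mem_singleton]
          rw [Finsupp.mem_support_iff] at hx hy
          have hone : ∀ a : ZMod 2, a ≠ 0 → a + 1 = 0 := by decide
          by_cases h2 : v = x
          · subst h2
            rw [if_pos rfl, if_neg hyx, add_zero, hone _ hx]
            simp
          · by_cases h3 : v = y
            · subst h3
              rw [if_neg (Ne.symm hyx), if_pos rfl, zero_add, hone _ hy]
              simp
            · rw [if_neg (Ne.symm h2), if_neg (Ne.symm h3), add_zero, add_zero]
              simp [h2, h3]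
        have h2 : ({x, y} : Finset V) ⊆ (bdy z).support := by
          intro v hv
          rw [Finset.mem_insert, Finset.mem_singleton] at hv
          rcases hv with rfl | rfl
          · exact hx
          · exact hy
        rw [h1]
        have h3 := Finset.card_sdiff_add_card_eq_card h2
        rw [Finset.card_pair (Ne.symm hyx)] at h3
        exact h3
      refine ⟨N + 1, by omega, ⟨⟨Fin.cons x D.st, Fin.cons y D.en, Fin.cons p D.p, ?_, ?_, ?_, ?_,
        ?_⟩⟩⟩
      · intro i
        refine Fin.cases ?_ (fun j => ?_) i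
        · exact hgeo
        · exact D.geo j
      · intro i
        refine Fin.cases ?_ (fun j => ?_) i
        · exact hp
        · exact D.path j
      · intro i
        refine Fin.cases ?_ (fun j => ?_) i
        · exact Ne.symm hyx
        · exact D.ne j
      · rw [Fin.sum_univ_succ]
        change z = wch p + ∑ i, wch (D.p i)
        rw [← D.sum, add_comm]
        exact hzz
      · rw [Fin.sum_univ_succ]
        change z.support.card = p.length + ∑ i, (D.p i).length
        rw [← D.card]
        omega

end Pool.Agent.FIIDU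
end

section

/-!
# MP_767f1c_pr: the geodesics of a decomposition
-/

set_option autoImplicit false

namespace Pool.Agent.FIIDU

open Set


variable {V : Type}

/-- the geodesics of a decomposition have disjoint sets of edges, contained in the support -/
theorem Dec.disj {H : SimpleGraph V} {z : Sym2 V →₀ ZMod 2} {N : ℕ} (D : Dec H z N) :
    (∀ i, ∀ e ∈ (D.p i).edges, e ∈ z.support) ∧
      ∀ i j, i ≠ j → ∀ e ∈ (D.p i).edges, e ∉ (D.p j).edges := by
  classical
  let E : Fin N → Finset (Sym2 V) := fun i => (wch (D.p i)).support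
  have hE : ∀ i e, e ∈ E i ↔ e ∈ (D.p i).edges := fun i => (wch_trail (D.path i).isTrail).1
  have hEc : ∀ i, (E i).card = (D.p i).length := fun i => (wch_trail (D.path i).isTrail).2
  have hsub : z.support ⊆ Finset.univ.biUnion E := by
    intro e he
    by_contra hcon
    rw [Finset.mem_biUnion] at hcon
    push Not at hcon
    rw [Finsupp.mem_support_iff, D.sum, Finsupp.finsetSum_apply] at he
    refine he (Finset.sum_eq_zero fun i _ => ?_)
    have h1 := hcon i (Finset.mem_univ i)
    exact Finsupp.notMem_support_iff.1 h1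
  have hsum : ∑ i, (E i).card = z.support.card := by
    rw [D.card]
    exact Finset.sum_congr rfl fun i _ => hEc i
  have hU : (Finset.univ.biUnion E).card ≤ ∑ i, (E i).card := Finset.card_biUnion_le
  have heq : z.support = Finset.univ.biUnion E :=
    Finset.eq_of_subset_of_card_le hsub (by rw [← hsum]; exact hU)
  refine ⟨?_, ?_⟩
  · intro i e he
    rw [heq, Finset.mem_biUnion]
    exact ⟨i, Finset.mem_univ i, (hE i e).2 he⟩
  · intro i j hij e hei hej
    have h1 : Finset.univ.biUnion E ⊆
        Finset.univ.biUnion (Function.update E j ((E j).erase e)) := by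
      intro f hf
      rw [Finset.mem_biUnion] at hf ⊢
      obtain ⟨k, _, hk⟩ := hf
      by_cases hkj : k = j
      · subst hkj
        by_cases hfe : f = e
        · subst hfe
          refine ⟨i, Finset.mem_univ i, ?_⟩
          rw [Function.update_of_ne hij]
          exact (hE i f).2 hei
        · refine ⟨k, Finset.mem_univ k, ?_⟩
          rw [Function.update_self]
          exact Finset.mem_erase.2 ⟨hfe, hk⟩
      · refine ⟨k, Finset.mem_univ k, ?_⟩
        rw [Function.update_of_ne hkj]
        exact hk
    have h2 : (Finset.univ.biUnion (Function.update E j ((E j).erase e))).card ≤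
        ∑ k, (Function.update E j ((E j).erase e) k).card := Finset.card_biUnion_le
    have h3 : ∑ k, (Function.update E j ((E j).erase e) k).card < ∑ k, (E k).card := by
      refine Finset.sum_lt_sum (fun k _ => ?_) ⟨j, Finset.mem_univ j, ?_⟩
      · by_cases hkj : k = j
        · subst hkj
          rw [Function.update_self]
          exact Finset.card_le_card (Finset.erase_subset _ _)
        · rw [Function.update_of_ne hkj]
      · rw [Function.update_self]
        exact Finset.card_erase_lt_of_mem ((hE j e).2 hej)
    have h4 := Finset.card_le_card h1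
    rw [← heq] at h4
    omega

/-- distances along a geodesic -/
theorem Dec.dist_eq {H : SimpleGraph V} {z : Sym2 V →₀ ZMod 2} {N : ℕ} (D : Dec H z N)
    (i : Fin N) {a b : ℕ} (hab : a ≤ b) (hb : b ≤ (D.p i).length) :
    H.dist ((D.p i).getVert a) ((D.p i).getVert b) = b - a := by
  have hlen := D.geo i
  have hg : ((D.p i).drop a).getVert (b - a) = (D.p i).getVert b := by
    rw [SimpleGraph.Walk.drop_getVert]
    congr 1
    omega
  let w : H.Walk ((D.p i).getVert a) ((D.p i).getVert b) :=
    (((D.p i).drop a).take (b - a)).copy rfl hg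
  have hw : w.length ≤ b - a := by
    simp only [w, SimpleGraph.Walk.length_copy, SimpleGraph.Walk.take_length]
    omega
  refine le_antisymm ((SimpleGraph.dist_le w).trans hw) ?_
  obtain ⟨q, hq⟩ := w.reachable.exists_walk_length_eq_dist
  rw [← hq]
  let W : H.Walk (D.st i) (D.en i) := ((D.p i).take a).append (q.append ((D.p i).drop b))
  have hW : H.dist (D.st i) (D.en i) ≤ W.length := SimpleGraph.dist_le W
  simp only [W, SimpleGraph.Walk.length_append, SimpleGraph.Walk.take_length,
    SimpleGraph.Walk.drop_length] at hW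
  omega

end Pool.Agent.FIIDU
end

section

/-!
# MP_767f1c_pr: positions of geodesics
-/

set_option autoImplicit false

namespace Pool.Agent.FIIDU

open Set
open scoped Classical


variable {V : Type}

/-- the next vertex of the walk, or the previous one at the end -/
private def TCoB_nx (len a : ℕ) : ℕ := if a < len then a + 1 else a - 1

private theorem TCoB_edge {H : SimpleGraph V} {x y : V} (p : H.Walk x y) (hp : 1 ≤ p.length)
    {a : ℕ} (ha : a ≤ p.length) :
    H.Adj (p.getVert a) (p.getVert (TCoB_nx p.length a)) ∧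
      s(p.getVert a, p.getVert (TCoB_nx p.length a)) ∈ p.edges := by
  unfold TCoB_nx
  by_cases h : a < p.length
  · rw [if_pos h]
    exact ⟨p.adj_getVert_succ h, p.mk_mem_edges_iff_exists.2 ⟨a, h, rfl⟩⟩
  · rw [if_neg h]
    have h1 : a - 1 < p.length := by omega
    have h2 : a - 1 + 1 = a := by omega
    have h3 := p.adj_getVert_succ h1
    have h4 := p.mk_mem_edges_iff_exists.2 ⟨a - 1, h1, rfl⟩
    rw [h2] at h3 h4
    refine ⟨h3.symm, ?_⟩
    rw [Sym2.eq_swap]
    exact h4

/-- the number of positions of the geodesics of the decomposition at vertices of a set -/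
theorem positions_le {G H : SimpleGraph V} {d : ℕ} (h : Std G d) (hle : H ≤ G)
    {z : Sym2 V →₀ ZMod 2} {N : ℕ} (D : Dec H z N) (A : Finset V) :
    ∑ i, ((Finset.range ((D.p i).length + 1)).filter (fun a => (D.p i).getVert a ∈ A)).card ≤
      2 * d * A.card := by
  have hlen : ∀ i, 1 ≤ (D.p i).length := by
    intro i
    by_contra h0
    have h1 : (D.p i).length = 0 := by omega
    exact D.ne i (SimpleGraph.Walk.eq_of_length_eq_zero h1)
  rw [← Finset.card_sigma]
  have hc : (A.sigma fun v => (h.fin v).toFinset).card = 2 * d * A.card := by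
    rw [Finset.card_sigma, Finset.sum_congr rfl fun v _ => ?_, Finset.sum_const, smul_eq_mul,
      mul_comm]
    rw [← Set.ncard_eq_toFinset_card _ (h.fin v)]
    exact h.deg v
  rw [← hc]
  refine Finset.card_le_card_of_injOn (fun q : (_i : Fin N) × ℕ =>
    (⟨(D.p q.1).getVert q.2, (D.p q.1).getVert (TCoB_nx (D.p q.1).length q.2)⟩ :
      (_v : V) × V)) ?_ ?_
  · rintro ⟨i, a⟩ hq
    have hq' := Finset.mem_sigma.1 (Finset.mem_coe.1 hq)
    have h2 := Finset.mem_filter.1 hq'.2
    have ha : a ≤ (D.p i).length := Nat.lt_succ_iff.1 (Finset.mem_range.1 h2.1)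
    refine Finset.mem_coe.2 (Finset.mem_sigma.2 ⟨h2.2, ?_⟩)
    rw [Set.Finite.mem_toFinset]
    exact hle (TCoB_edge (D.p i) (hlen i) ha).1
  · rintro ⟨i, a⟩ hq ⟨j, b⟩ hq' heq
    have h1 := Finset.mem_sigma.1 (Finset.mem_coe.1 hq)
    have h1' := Finset.mem_sigma.1 (Finset.mem_coe.1 hq')
    have h2 := Finset.mem_filter.1 h1.2
    have h2' := Finset.mem_filter.1 h1'.2
    have ha : a ≤ (D.p i).length := Nat.lt_succ_iff.1 (Finset.mem_range.1 h2.1)
    have hb : b ≤ (D.p j).length := Nat.lt_succ_iff.1 (Finset.mem_range.1 h2'.1)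
    have e1 : (D.p i).getVert a = (D.p j).getVert b := congrArg Sigma.fst heq
    have e2 : (D.p i).getVert (TCoB_nx (D.p i).length a) =
        (D.p j).getVert (TCoB_nx (D.p j).length b) := congrArg (fun q : (_v : V) × V => q.2) heq
    have hij : i = j := by
      by_contra hne
      have h3 := (TCoB_edge (D.p i) (hlen i) ha).2
      have h4 := (TCoB_edge (D.p j) (hlen j) hb).2
      rw [← e1, ← e2] at h4
      exact D.disj.2 i j hne _ h3 h4
    subst hij
    have hab : a = b := (D.path i).getVert_injOn ha hb e1
    rw [hab]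

end Pool.Agent.FIIDU
end

section

/-!
# MP_767f1c_pr: finite subgraphs and separated sets
-/

set_option autoImplicit false

namespace Pool.Agent.FIIDU

open Set
open scoped Classical


variable {V : Type}

/-- `H` is a connected finite subgraph of `G` with set of vertices `K`; `B` contains the vertices
of `K` at which an edge of `G` is missing -/
structure FinSub (G H : SimpleGraph V) (K B : Finset V) : Prop where
  le : H ≤ G
  inK : ∀ y z, H.Adj y z → y ∈ K
  conn : ∀ y ∈ K, ∀ z ∈ K, H.Reachable y z
  bad : ∀ y ∈ K, y ∉ B → ∀ z, G.Adj y z → H.Adj y z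
  subB : B ⊆ K

private theorem TCoA_aux {G H : SimpleGraph V} {K B : Finset V} (F : FinSub G H K B)
    {y : V} (hy : y ∈ K) {r : ℕ} (hfar : ∀ b ∈ B, r < G.dist y b) :
    ∀ (n : ℕ) (u : V) (p : G.Walk u y), p.length = n → n ≤ r →
      u ∈ K ∧ H.Reachable y u ∧ H.dist y u ≤ n := by
  intro n
  induction n with
  | zero =>
    intro u p hp _
    have h := SimpleGraph.Walk.eq_of_length_eq_zero hp
    subst h
    exact ⟨hy, SimpleGraph.Reachable.refl _, by rw [SimpleGraph.dist_self]⟩
  | succ n ih =>
    intro u p hp hn
    cases p with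
    | nil => simp at hp
    | @cons _ v _ hadj p' =>
      rw [SimpleGraph.Walk.length_cons, Nat.add_right_cancel_iff] at hp
      obtain ⟨hvK, hvR, hvd⟩ := ih v p' hp (by omega)
      have hvB : v ∉ B := by
        intro hb
        have h1 := hfar v hb
        have h2 : G.dist y v ≤ n := by
          rw [SimpleGraph.dist_comm]
          exact (SimpleGraph.dist_le p').trans hp.le
        omega
      have hH : H.Adj v u := F.bad v hvK hvB u hadj.symm
      refine ⟨F.inK u v hH.symm, hvR.trans hH.reachable, ?_⟩
      have h3 : H.dist y u ≤ H.dist y v + H.dist v u := hvR.dist_triangle_left u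
      have h4 : H.dist v u = 1 := SimpleGraph.dist_eq_one_iff_adj.2 hH
      omega

/-- balls around vertices far from `B` -/
theorem FinSub.ball_sub {G H : SimpleGraph V} {K B : Finset V} (F : FinSub G H K B)
    (hG : G.Connected) {y : V} (hy : y ∈ K) {r : ℕ} (hfar : ∀ b ∈ B, r < G.dist y b) :
    (∀ u, G.dist y u ≤ r → u ∈ K ∧ H.Reachable y u ∧ H.dist y u ≤ G.dist y u) := by
  intro u hu
  obtain ⟨p, hp⟩ := hG.exists_walk_length_eq_dist u y
  have h1 : p.length = G.dist y u := by rw [hp, SimpleGraph.dist_comm]
  exact TCoA_aux F hy hfar _ u p h1 hu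

/-- a maximal separated subset -/
theorem exists_separated {G : SimpleGraph V} (hG : G.Connected) (A : Finset V) (r : ℕ) :
    ∃ Y ⊆ A, (∀ y ∈ Y, ∀ y' ∈ Y, y ≠ y' → 2 * r < G.dist y y') ∧
      ∀ a ∈ A, ∃ y ∈ Y, G.dist y a ≤ 2 * r := by
  induction A using Finset.induction_on with
  | empty => exact ⟨∅, Finset.Subset.refl _, by simp, by simp⟩
  | insert a A ha ih =>
    obtain ⟨Y, hYA, hsep, hcov⟩ := ih
    by_cases h : ∃ y ∈ Y, G.dist y a ≤ 2 * r
    · refine ⟨Y, hYA.trans (Finset.subset_insert a A), hsep, ?_⟩
      intro b hb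
      rcases Finset.mem_insert.1 hb with hb | hb
      · rw [hb]
        exact h
      · exact hcov b hb
    · push Not at h
      refine ⟨insert a Y, Finset.insert_subset_insert a hYA, ?_, ?_⟩
      · intro y hy y' hy' hne
        rcases Finset.mem_insert.1 hy with h1 | h1
        · rcases Finset.mem_insert.1 hy' with h2 | h2
          · exact absurd (h1.trans h2.symm) hne
          · rw [h1, SimpleGraph.dist_comm]
            exact h y' h2
        · rcases Finset.mem_insert.1 hy' with h2 | h2
          · rw [h2]
            exact h y h1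
          · exact hsep y h1 y' h2 hne
      · intro b hb
        rcases Finset.mem_insert.1 hb with hb | hb
        · refine ⟨a, Finset.mem_insert_self a Y, ?_⟩
          rw [hb, SimpleGraph.dist_self]
          exact Nat.zero_le _
        · obtain ⟨y, hy, hyb⟩ := hcov b hb
          exact ⟨y, Finset.mem_insert_of_mem hy, hyb⟩

/-- the number of separated points is small -/
theorem card_separated {G : SimpleGraph V} {d : ℕ} (h : Std G d) {K Y : Finset V} {r : ℕ}
    (hsep : ∀ y ∈ Y, ∀ y' ∈ Y, y ≠ y' → 2 * r < G.dist y y')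
    (hball : ∀ y ∈ Y, ball G y r ⊆ (K : Set V)) (o : V) :
    (ball G o r).ncard * Y.card ≤ K.card := by
  have hc : ∀ y, (ball_finite h y r).toFinset.card = (ball G o r).ncard := by
    intro y
    rw [← Set.ncard_eq_toFinset_card _ (ball_finite h y r)]
    exact ball_card h y o r
  have h1 : (Y.biUnion fun y => (ball_finite h y r).toFinset).card =
      ∑ y ∈ Y, (ball_finite h y r).toFinset.card := by
    apply Finset.card_biUnion
    intro y hy y' hy' hne
    refine Finset.disjoint_left.2 ?_
    intro z hz hz'
    rw [Set.Finite.mem_toFinset] at hz hz'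
    have e1 : G.dist y z ≤ r := hz
    have e2 : G.dist y' z ≤ r := hz'
    have e3 : G.dist y y' ≤ G.dist y z + G.dist z y' := h.conn.dist_triangle
    have e4 : G.dist z y' = G.dist y' z := SimpleGraph.dist_comm
    have e5 := hsep y hy y' hy' hne
    omega
  rw [Finset.sum_congr rfl fun y _ => hc y, Finset.sum_const, smul_eq_mul, mul_comm] at h1
  rw [← h1]
  refine Finset.card_le_card ?_
  intro z hz
  obtain ⟨y, hy, hzy⟩ := Finset.mem_biUnion.1 hz
  rw [Set.Finite.mem_toFinset] at hzy
  exact hball y hy hzy

end Pool.Agent.FIIDU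
end

section

/-!
# MP_767f1c_pr: heavy independent sets
-/

set_option autoImplicit false

namespace Pool.Agent.FIIDU

open Finset


/-- a heavy independent set -/
theorem indep_weight {α : Type} [DecidableEq α] (Y : Finset α) (rel : α → α → Prop)
    [DecidableRel rel] (hsym : ∀ a b, rel a b → rel b a) (hrefl : ∀ a, rel a a) (D : ℕ)
    (hdeg : ∀ y ∈ Y, (Y.filter (rel y)).card ≤ D) (w : α → ℕ) :
    ∃ Y' ⊆ Y, (∀ a ∈ Y', ∀ b ∈ Y', a ≠ b → ¬ rel a b) ∧ ∑ y ∈ Y, w y ≤ D * ∑ y ∈ Y', w y := by
  induction Y using Finset.strongInduction with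
  | H Y ih =>
    rcases Y.eq_empty_or_nonempty with hY | hY
    · subst hY
      exact ⟨∅, Finset.Subset.refl _, by simp, by simp⟩
    · obtain ⟨y, hy, hmax⟩ := Finset.exists_max_image Y w hY
      have hss : Y.filter (fun a => ¬ rel y a) ⊂ Y := by
        refine Finset.filter_ssubset.2 ⟨y, hy, ?_⟩
        exact fun h => h (hrefl y)
      obtain ⟨Y₁, hY₁, hind, hsum⟩ := ih _ hss (fun z hz => by
        refine le_trans (Finset.card_le_card ?_) (hdeg z (Finset.mem_filter.1 hz).1)
        intro a ha
        rw [Finset.mem_filter] at ha ⊢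
        exact ⟨(Finset.mem_filter.1 ha.1).1, ha.2⟩)
      have hyY₁ : y ∉ Y₁ := fun h => (Finset.mem_filter.1 (hY₁ h)).2 (hrefl y)
      refine ⟨insert y Y₁, ?_, ?_, ?_⟩
      · intro a ha
        rcases Finset.mem_insert.1 ha with h | h
        · rw [h]
          exact hy
        · exact (Finset.mem_filter.1 (hY₁ h)).1
      · intro a ha b hb hab
        rcases Finset.mem_insert.1 ha with h | h
        · rcases Finset.mem_insert.1 hb with h' | h'
          · exact absurd (h.trans h'.symm) hab
          · rw [h]
            exact (Finset.mem_filter.1 (hY₁ h')).2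
        · rcases Finset.mem_insert.1 hb with h' | h'
          · rw [h']
            intro hr
            exact (Finset.mem_filter.1 (hY₁ h)).2 (hsym _ _ hr)
          · exact hind a h b h' hab
      · rw [Finset.sum_insert hyY₁, ← Finset.sum_filter_add_sum_filter_not Y (rel y) w, mul_add]
        refine add_le_add ?_ hsum
        calc ∑ a ∈ Y.filter (rel y), w a ≤ (Y.filter (rel y)).card • w y :=
              Finset.sum_le_card_nsmul _ _ _ fun a ha => hmax a (Finset.mem_filter.1 ha).1
          _ ≤ D * w y := by
              rw [smul_eq_mul]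
              exact Nat.mul_le_mul_right _ (hdeg y hy)

end Pool.Agent.FIIDU
end

section

/-!
# MP_767f1c_pr: even subsets
-/

set_option autoImplicit false

namespace Pool.Agent.FIIDU

open Finset

private theorem TCmB_even {β : Type} [DecidableEq β] (I : Finset β) (c : I → ZMod 2)
    (P : β → Prop) [DecidablePred P] (h : ∑ q : I, (if P q.1 then c q else 0) = 0) :
    Even (((Finset.univ.filter (fun q : I => c q ≠ 0)).image (fun q : I => q.1)).filter P).card := by
  rw [← ZMod.natCast_eq_zero_iff_even]
  refine Eq.trans ?_ h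
  rw [Finset.filter_image,
    Finset.card_image_of_injective _ Subtype.val_injective, Finset.filter_filter]
  rw [Finset.card_filter, Nat.cast_sum]
  refine Finset.sum_congr rfl fun q _ => ?_
  have h2 : ∀ x : ZMod 2, x ≠ 0 → x = 1 := by decide
  by_cases h1 : P q.1
  · rw [if_pos h1]
    by_cases h3 : c q = 0
    · rw [if_neg (fun h => h.1 h3), h3, Nat.cast_zero]
    · rw [if_pos ⟨h3, h1⟩, h2 _ h3, Nat.cast_one]
  · rw [if_neg h1, if_neg (fun h => h1 h.2), Nat.cast_zero]

/-- a nonempty subset with even rows and columns -/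
theorem exists_even_subset {ι α : Type} [Fintype ι] [DecidableEq ι] [DecidableEq α]
    (Y : Finset α) (I : Finset (ι × α)) (hI : ∀ q ∈ I, q.2 ∈ Y)
    (hcard : Fintype.card ι + Y.card < I.card) :
    ∃ X ⊆ I, X.Nonempty ∧ (∀ i, Even (X.filter (fun q => q.1 = i)).card) ∧
      ∀ y, Even (X.filter (fun q => q.2 = y)).card := by
  let f : (I → ZMod 2) →ₗ[ZMod 2] (ι → ZMod 2) × (Y → ZMod 2) :=
    { toFun := fun c => (fun i => ∑ q : I, (if q.1.1 = i then c q else 0),
        fun y => ∑ q : I, (if q.1.2 = y.1 then c q else 0))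
      map_add' := by
        intro c c'
        refine Prod.ext ?_ ?_
        · funext i
          change ∑ q : I, (if q.1.1 = i then (c + c') q else 0) =
            ∑ q : I, (if q.1.1 = i then c q else 0) + ∑ q : I, (if q.1.1 = i then c' q else 0)
          rw [← Finset.sum_add_distrib]
          refine Finset.sum_congr rfl fun q _ => ?_
          split_ifs <;> simp
        · funext y
          change ∑ q : I, (if q.1.2 = y.1 then (c + c') q else 0) =
            ∑ q : I, (if q.1.2 = y.1 then c q else 0) + ∑ q : I, (if q.1.2 = y.1 then c' q else 0)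
          rw [← Finset.sum_add_distrib]
          refine Finset.sum_congr rfl fun q _ => ?_
          split_ifs <;> simp
      map_smul' := by
        intro a c
        refine Prod.ext ?_ ?_
        · funext i
          change ∑ q : I, (if q.1.1 = i then (a • c) q else 0) =
            a * ∑ q : I, (if q.1.1 = i then c q else 0)
          rw [Finset.mul_sum]
          refine Finset.sum_congr rfl fun q _ => ?_
          split_ifs <;> simp
        · funext y
          change ∑ q : I, (if q.1.2 = y.1 then (a • c) q else 0) =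
            a * ∑ q : I, (if q.1.2 = y.1 then c q else 0)
          rw [Finset.mul_sum]
          refine Finset.sum_congr rfl fun q _ => ?_
          split_ifs <;> simp }
  have hk : LinearMap.ker f ≠ ⊥ := by
    apply LinearMap.ker_ne_bot_of_finrank_lt
    rw [Module.finrank_prod, Module.finrank_fintype_fun_eq_card,
      Module.finrank_fintype_fun_eq_card, Module.finrank_fintype_fun_eq_card, Fintype.card_coe,
      Fintype.card_coe]
    exact hcard
  obtain ⟨c, hc, hc0⟩ := (Submodule.ne_bot_iff _).1 hk
  have hf : f c = 0 := hc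
  refine ⟨(Finset.univ.filter (fun q : I => c q ≠ 0)).image (fun q : I => q.1), ?_, ?_, ?_, ?_⟩
  · intro q hq
    obtain ⟨q', _, rfl⟩ := Finset.mem_image.1 hq
    exact q'.2
  · obtain ⟨q, hq⟩ := Function.ne_iff.1 hc0
    exact ⟨q.1, Finset.mem_image_of_mem _ (Finset.mem_filter.2 ⟨Finset.mem_univ q, hq⟩)⟩
  · intro i
    apply TCmB_even
    exact congrFun (congrArg Prod.fst hf) i
  · intro y
    by_cases hy : y ∈ Y
    · apply TCmB_even
      exact congrFun (congrArg Prod.snd hf) ⟨y, hy⟩
    · rw [Finset.filter_eq_empty_iff.2]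
      · simp
      · intro q hq h
        obtain ⟨q', _, rfl⟩ := Finset.mem_image.1 hq
        exact hy (h ▸ hI _ q'.2)

end Pool.Agent.FIIDU
end

section

end

section

/-!
# MP_767f1c_pr: segments of paths
-/

set_option autoImplicit false

namespace Pool.Agent.FIIDU

open Set


variable {V : Type}

private theorem TExA_getVert_edge {H : SimpleGraph V} {x y : V} (p : H.Walk x y) :
    ∀ k, k < p.length → s(p.getVert k, p.getVert (k + 1)) ∈ p.edges := by
  induction p with
  | nil => intro k hk; simp at hk
  | @cons u v w h q ih =>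
    intro k hk
    rw [SimpleGraph.Walk.edges_cons]
    cases k with
    | zero =>
      simp
    | succ k =>
      rw [SimpleGraph.Walk.getVert_cons_succ, SimpleGraph.Walk.getVert_cons_succ]
      refine List.mem_cons_of_mem _ (ih k ?_)
      rw [SimpleGraph.Walk.length_cons] at hk
      omega

private theorem TExA_two (f : V →₀ ZMod 2) : f + f = 0 := by
  ext a
  rw [Finsupp.add_apply, Finsupp.zero_apply]
  exact CharTwo.add_self_eq_zero _

/-- the part of a walk between two positions -/
theorem exists_segment {H : SimpleGraph V} {x y : V} {p : H.Walk x y} (hp : p.IsPath) {a b : ℕ}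
    (hab : a ≤ b) (hb : b ≤ p.length) :
    ∃ σ : Sym2 V →₀ ZMod 2,
      bdy σ = Finsupp.single (p.getVert a) 1 + Finsupp.single (p.getVert b) 1 ∧
      σ.support.card = b - a ∧
      ∀ e ∈ σ.support, ∃ k, a ≤ k ∧ k < b ∧ e = s(p.getVert k, p.getVert (k + 1)) := by
  classical
  induction b, hab using Nat.le_induction with
  | base =>
    refine ⟨0, ?_, ?_, ?_⟩
    · rw [map_zero, TExA_two]
    · simp
    · intro e he
      simp at he
  | succ b hab ih =>
    obtain ⟨σ, h1, h2, h3⟩ := ih (by omega)
    have hinj := hp.getVert_injOn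
    have hnot : s(p.getVert b, p.getVert (b + 1)) ∉ σ.support := by
      intro he
      obtain ⟨k, hk1, hk2, hk3⟩ := h3 _ he
      rw [Sym2.eq_iff] at hk3
      rcases hk3 with ⟨h4, h5⟩ | ⟨h4, h5⟩
      · have := hinj (show b ∈ {i | i ≤ p.length} from (by simp; omega))
          (show k ∈ {i | i ≤ p.length} from (by simp; omega)) h4
        omega
      · have := hinj (show b + 1 ∈ {i | i ≤ p.length} from (by simp; omega))
          (show k ∈ {i | i ≤ p.length} from (by simp; omega)) h5
        omega
    have hdisj : Disjoint σ.support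
        (Finsupp.single s(p.getVert b, p.getVert (b + 1)) (1 : ZMod 2)).support := by
      rw [Finsupp.support_single _ one_ne_zero, Finset.disjoint_singleton_right]
      exact hnot
    refine ⟨σ + Finsupp.single s(p.getVert b, p.getVert (b + 1)) 1, ?_, ?_, ?_⟩
    · rw [map_add, h1, bdy_single]
      have := TExA_two (Finsupp.single (p.getVert b) (1 : ZMod 2))
      calc Finsupp.single (p.getVert a) (1 : ZMod 2) + Finsupp.single (p.getVert b) 1 +
            (Finsupp.single (p.getVert b) 1 + Finsupp.single (p.getVert (b + 1)) 1)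
          = Finsupp.single (p.getVert a) (1 : ZMod 2) +
            (Finsupp.single (p.getVert b) 1 + Finsupp.single (p.getVert b) 1) +
              Finsupp.single (p.getVert (b + 1)) 1 := by abel
        _ = _ := by rw [this, add_zero]
    · rw [Finsupp.support_add_eq hdisj, Finset.card_union_of_disjoint hdisj, h2,
        Finsupp.support_single _ one_ne_zero, Finset.card_singleton]
      omega
    · intro e he
      rw [Finsupp.support_add_eq hdisj, Finset.mem_union] at he
      rcases he with he | he
      · obtain ⟨k, hk1, hk2, hk3⟩ := h3 _ he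
        exact ⟨k, hk1, by omega, hk3⟩
      · rw [Finsupp.support_single _ one_ne_zero, Finset.mem_singleton] at he
        exact ⟨b, hab, by omega, he⟩

private theorem TExA_segments {H : SimpleGraph V} {x y : V} {p : H.Walk x y} (hp : p.IsPath)
    (s : ℕ) (n : ℕ) : ∀ (A : Finset ℕ) (c : ℕ), A.card = 2 * n → (∀ a ∈ A, a ≤ p.length) →
    (∀ a ∈ A, c ≤ a) → (∀ a ∈ A, ∀ b ∈ A, a < b → a + s ≤ b) →
    ∃ σ : Sym2 V →₀ ZMod 2, bdy σ = ∑ a ∈ A, Finsupp.single (p.getVert a) 1 ∧
      (∀ e ∈ σ.support, ∃ k, c ≤ k ∧ k < p.length ∧ e = s(p.getVert k, p.getVert (k + 1))) ∧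
      s * A.card ≤ 2 * σ.support.card := by
  classical
  induction n with
  | zero =>
    intro A c hA _ _ _
    have hA0 : A = ∅ := by
      rw [← Finset.card_eq_zero, hA]
    subst hA0
    refine ⟨0, by simp, ?_, by simp⟩
    intro e he
    simp at he
  | succ n ih =>
    intro A c hA hle hc hsep
    have hne : A.Nonempty := by
      rw [← Finset.card_pos]
      omega
    set a := A.min' hne with ha
    have haA : a ∈ A := A.min'_mem hne
    set A' := A.erase a with hA'
    have hA'card : A'.card = 2 * n + 1 := by
      rw [hA', Finset.card_erase_of_mem haA, hA]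
      omega
    have hne' : A'.Nonempty := by
      rw [← Finset.card_pos]
      omega
    set b := A'.min' hne' with hb
    have hbA' : b ∈ A' := A'.min'_mem hne'
    have hbA : b ∈ A := (Finset.mem_erase.mp hbA').2
    have hab : a < b := by
      have h1 : a ≤ b := A.min'_le b hbA
      have h2 : b ≠ a := (Finset.mem_erase.mp hbA').1
      omega
    set A'' := A'.erase b with hA''
    have hA''card : A''.card = 2 * n := by
      rw [hA'', Finset.card_erase_of_mem hbA', hA'card]
      omega
    have hsub : ∀ z ∈ A'', z ∈ A := fun z hz =>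
      (Finset.mem_erase.mp (Finset.mem_erase.mp hz).2).2
    obtain ⟨σ2, h1, h2, h3⟩ := ih A'' b hA''card (fun z hz => hle z (hsub z hz))
      (fun z hz => A'.min'_le z (Finset.mem_erase.mp hz).2)
      (fun z hz w hw => hsep z (hsub z hz) w (hsub w hw))
    obtain ⟨σ1, g1, g2, g3⟩ := exists_segment hp hab.le (hle b hbA)
    have hinj := hp.getVert_injOn
    have hdisj : Disjoint σ1.support σ2.support := by
      rw [Finset.disjoint_left]
      intro e he1 he2
      obtain ⟨k, hk1, hk2, hk3⟩ := g3 e he1
      obtain ⟨l, hl1, hl2, hl3⟩ := h2 e he2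
      rw [hk3, Sym2.eq_iff] at hl3
      have hbl := hle b hbA
      rcases hl3 with ⟨h4, h5⟩ | ⟨h4, h5⟩
      · have := hinj (show k ∈ {i | i ≤ p.length} from (by simp; omega))
          (show l ∈ {i | i ≤ p.length} from (by simp; omega)) h4
        omega
      · have := hinj (show k ∈ {i | i ≤ p.length} from (by simp; omega))
          (show l + 1 ∈ {i | i ≤ p.length} from (by simp; omega)) h4
        omega
    refine ⟨σ1 + σ2, ?_, ?_, ?_⟩
    · rw [map_add, g1, h1]
      have e1 : ∑ z ∈ A, Finsupp.single (p.getVert z) (1 : ZMod 2) =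
          Finsupp.single (p.getVert a) 1 + ∑ z ∈ A', Finsupp.single (p.getVert z) 1 := by
        exact (Finset.add_sum_erase A (fun z => Finsupp.single (p.getVert z) (1 : ZMod 2)) haA).symm
      have e2 : ∑ z ∈ A', Finsupp.single (p.getVert z) (1 : ZMod 2) =
          Finsupp.single (p.getVert b) 1 + ∑ z ∈ A'', Finsupp.single (p.getVert z) 1 := by
        exact (Finset.add_sum_erase A' (fun z => Finsupp.single (p.getVert z) (1 : ZMod 2))
          hbA').symm
      rw [e1, e2, add_assoc]
    · intro e he
      rw [Finsupp.support_add_eq hdisj, Finset.mem_union] at he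
      rcases he with he | he
      · obtain ⟨k, hk1, hk2, hk3⟩ := g3 e he
        have := hle b hbA
        exact ⟨k, (hc a haA).trans hk1, by omega, hk3⟩
      · obtain ⟨k, hk1, hk2, hk3⟩ := h2 e he
        exact ⟨k, (hc b hbA).trans hk1, hk2, hk3⟩
    · rw [Finsupp.support_add_eq hdisj, Finset.card_union_of_disjoint hdisj, g2]
      have h5 := hsep a haA b hbA hab
      rw [hA''card] at h3
      rw [hA]
      have h6 : s * (2 * (n + 1)) = s * (2 * n) + 2 * s := by ring
      rw [h6]
      omega

/-- an even set of well separated positions of a path is the boundary of a long chain in the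
path -/
theorem exists_segments {H : SimpleGraph V} {x y : V} {p : H.Walk x y} (hp : p.IsPath) (s : ℕ)
    (A : Finset ℕ) (hA : Even A.card) (hle : ∀ a ∈ A, a ≤ p.length)
    (hsep : ∀ a ∈ A, ∀ b ∈ A, a < b → a + s ≤ b) :
    ∃ σ : Sym2 V →₀ ZMod 2, bdy σ = ∑ a ∈ A, Finsupp.single (p.getVert a) 1 ∧
      (∀ e ∈ σ.support, e ∈ p.edges) ∧ s * A.card ≤ 2 * σ.support.card := by
  obtain ⟨n, hn⟩ := hA
  obtain ⟨σ, h1, h2, h3⟩ := TExA_segments hp s n A 0 (by omega) hle (fun _ _ => Nat.zero_le _) hsep
  refine ⟨σ, h1, ?_, h3⟩
  intro e he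
  obtain ⟨k, -, hk2, hk3⟩ := h2 e he
  rw [hk3]
  exact TExA_getVert_edge p k hk2

end Pool.Agent.FIIDU
end

section

/-!
# MP_767f1c_pr: short chains with given boundary
-/

set_option autoImplicit false

namespace Pool.Agent.FIIDU

open Set


variable {V : Type}

private theorem TExB_hops {ι : Type} [DecidableEq ι] {H : SimpleGraph V} (v : ι → V) (t : ℕ)
    (n : ℕ) : ∀ A : Finset ι, A.card = 2 * n →
    (∀ i ∈ A, ∀ j ∈ A, H.Reachable (v i) (v j) ∧ H.dist (v i) (v j) ≤ t) →
    ∃ τ : Sym2 V →₀ ZMod 2, bdy τ = ∑ i ∈ A, Finsupp.single (v i) 1 ∧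
      (∀ e ∈ τ.support, e ∈ H.edgeSet) ∧ 2 * τ.support.card ≤ t * A.card := by
  classical
  induction n with
  | zero =>
    intro A hA _
    have hA0 : A = ∅ := by
      rw [← Finset.card_eq_zero, hA]
    subst hA0
    refine ⟨0, by simp, ?_, by simp⟩
    intro e he
    simp at he
  | succ n ih =>
    intro A hA hclose
    have hne : A.Nonempty := by
      rw [← Finset.card_pos]
      omega
    obtain ⟨a, haA⟩ := hne
    have hA'card : (A.erase a).card = 2 * n + 1 := by
      rw [Finset.card_erase_of_mem haA, hA]
      omega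
    have hne' : (A.erase a).Nonempty := by
      rw [← Finset.card_pos]
      omega
    obtain ⟨b, hbA'⟩ := hne'
    have hbA : b ∈ A := (Finset.mem_erase.mp hbA').2
    have hA''card : ((A.erase a).erase b).card = 2 * n := by
      rw [Finset.card_erase_of_mem hbA', hA'card]
      omega
    have hsub : ∀ z ∈ (A.erase a).erase b, z ∈ A := fun z hz =>
      (Finset.mem_erase.mp (Finset.mem_erase.mp hz).2).2
    obtain ⟨τ, h1, h2, h3⟩ := ih ((A.erase a).erase b) hA''card
      (fun i hi j hj => hclose i (hsub i hi) j (hsub j hj))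
    obtain ⟨hr, hd⟩ := hclose a haA b hbA
    obtain ⟨w, hw⟩ := hr.exists_walk_length_eq_dist
    refine ⟨wch w + τ, ?_, ?_, ?_⟩
    · rw [map_add, bdy_wch, h1]
      have e1 : ∑ z ∈ A, Finsupp.single (v z) (1 : ZMod 2) =
          Finsupp.single (v a) 1 + ∑ z ∈ A.erase a, Finsupp.single (v z) 1 := by
        exact (Finset.add_sum_erase A (fun z => Finsupp.single (v z) (1 : ZMod 2)) haA).symm
      have e2 : ∑ z ∈ A.erase a, Finsupp.single (v z) (1 : ZMod 2) =
          Finsupp.single (v b) 1 + ∑ z ∈ (A.erase a).erase b, Finsupp.single (v z) 1 := by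
        exact (Finset.add_sum_erase (A.erase a) (fun z => Finsupp.single (v z) (1 : ZMod 2))
          hbA').symm
      rw [e1, e2, add_assoc]
    · intro e he
      have he' := Finsupp.support_add he
      rw [Finset.mem_union] at he'
      rcases he' with he' | he'
      · exact w.edges_subset_edgeSet (wch_support_subset w e he')
      · exact h2 e he'
    · have h4 := card_add_le (wch w) τ
      have h5 := wch_card_le w
      rw [hA''card] at h3
      rw [hA]
      have h6 : t * (2 * (n + 1)) = t * (2 * n) + 2 * t := by ring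
      rw [h6]
      omega

/-- an even family of vertices which are close to each other is the boundary of a short chain -/
theorem exists_hops {ι : Type} [DecidableEq ι] {H : SimpleGraph V} (v : ι → V) (t : ℕ)
    (A : Finset ι) (hA : Even A.card)
    (hclose : ∀ i ∈ A, ∀ j ∈ A, H.Reachable (v i) (v j) ∧ H.dist (v i) (v j) ≤ t) :
    ∃ τ : Sym2 V →₀ ZMod 2, bdy τ = ∑ i ∈ A, Finsupp.single (v i) 1 ∧
      (∀ e ∈ τ.support, e ∈ H.edgeSet) ∧ 2 * τ.support.card ≤ t * A.card := by
  obtain ⟨n, hn⟩ := hA
  exact TExB_hops v t n A (by omega) hclose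

end Pool.Agent.FIIDU
end
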