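import Pool.Agent.Lib.MP_767f1c_pr.Mg.G001
import Pool.Agent.Lib.MP_767f1c_pr.Mg.G005

section

/-!
# MP_767f1c_pr: greedy removal of finite sets with small boundary (deterministic part)
-/

set_option autoImplicit false

namespace Pool.Agent.FIIDU

open Set Filter


variable {V : Type}

/-- the edges from `S` to the rest of `U` -/
def bd (G : SimpleGraph V) (U S : Set V) : Set (V × V) :=
  {p | p.1 ∈ S ∧ p.2 ∈ U ∧ p.2 ∉ S ∧ G.Adj p.1 p.2}

/-- the set of vertices of `l` can be removed from `U` -/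
def App (G : SimpleGraph V) (m R : ℕ) (η : ℝ) (U : Set V) (l : Obj V) : Prop :=
  l ∈ Mv G m R ∧ (vs l).Nonempty ∧ vs l ⊆ U ∧ ((bd G U (vs l)).ncard : ℝ) ≤ η * (vs l).ncard

/-- the set of remaining vertices after `t` steps, for the colouring `c` -/
def stU (G : SimpleGraph V) (m R : ℕ) (η : ℝ) (c : Obj V → ℕ) : ℕ → Set V
  | 0 => univ
  | t + 1 => {x | x ∈ stU G m R η c t ∧
      ¬ ∃ l, c l = (Nat.unpair t).1 ∧ App G m R η (stU G m R η c t) l ∧ x ∈ vs l}

/-- the set of vertices of `l` is removed in step `t` -/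
def Take (G : SimpleGraph V) (m R : ℕ) (η : ℝ) (c : Obj V → ℕ) (t : ℕ) (l : Obj V) : Prop :=
  c l = (Nat.unpair t).1 ∧ App G m R η (stU G m R η c t) l

theorem GreedyA_mono (G : SimpleGraph V) (m R : ℕ) (η : ℝ) (c : Obj V → ℕ) :
    Antitone (stU G m R η c) := by
  refine antitone_nat_of_succ_le fun t x hx => ?_
  exact hx.1

theorem GreedyA_removed {G : SimpleGraph V} {m R : ℕ} {η : ℝ} {c : Obj V → ℕ} {t t' : ℕ}
    {l : Obj V} (h1 : Take G m R η c t l) {x : V} (hx : x ∈ vs l) (ht : t < t') :
    x ∉ stU G m R η c t' := by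
  intro h
  have h2 : x ∈ stU G m R η c (t + 1) := GreedyA_mono G m R η c ht h
  exact h2.2 ⟨l, h1.1, h1.2, hx⟩

/-- the removed sets are disjoint -/
theorem take_unique {G : SimpleGraph V} {d : ℕ} (h : Std G d) {m R : ℕ} {η : ℝ}
    {c : Obj V → ℕ} (hc : Proper G m R c) {t t' : ℕ} {l l' : Obj V}
    (h1 : Take G m R η c t l) (h2 : Take G m R η c t' l') {x : V} (hx : x ∈ vs l)
    (hx' : x ∈ vs l') : t = t' ∧ l = l' := by
  rcases lt_trichotomy t t' with hlt | he | hlt
  · exact absurd (h2.2.2.2.1 hx') (GreedyA_removed h1 hx hlt)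
  · refine ⟨he, ?_⟩
    by_contra hne
    refine hc l h1.2.1 l' h2.2.1 hne ⟨x, hx, x, hx', ?_⟩ ?_
    · rw [SimpleGraph.dist_self]
      exact Nat.zero_le _
    · rw [h1.1, h2.1, he]
  · exact absurd (h1.2.2.2.1 hx) (GreedyA_removed h2 hx' hlt)

/-- the vertices which are never removed -/
def UI (G : SimpleGraph V) (m R : ℕ) (η : ℝ) (c : Obj V → ℕ) : Set V :=
  {x | ∀ t, x ∈ stU G m R η c t}

theorem not_UI {G : SimpleGraph V} {m R : ℕ} {η : ℝ} {c : Obj V → ℕ} {x : V}
    (hx : x ∉ UI G m R η c) : ∃ t l, Take G m R η c t l ∧ x ∈ vs l := by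
  by_contra hcon
  apply hx
  intro t
  induction t with
  | zero => exact Set.mem_univ x
  | succ t ih =>
    refine ⟨ih, ?_⟩
    rintro ⟨l, h1, h2, h3⟩
    exact hcon ⟨t, l, ⟨h1, h2⟩, h3⟩

theorem GreedyA_vs_finite (l : Obj V) : (vs l).Finite := by
  classical
  refine ((l.map Prod.fst ++ l.map Prod.snd).toFinset.finite_toSet).subset ?_
  rintro x ⟨p, hp, hx⟩
  rw [Finset.mem_coe, List.mem_toFinset, List.mem_append, List.mem_map, List.mem_map]
  rcases hx with rfl | rfl
  · exact Or.inl ⟨p, hp, rfl⟩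
  · exact Or.inr ⟨p, hp, rfl⟩

/-- on a finite set of vertices the final set is reached after finitely many steps -/
theorem GreedyA_eventually (G : SimpleGraph V) (m R : ℕ) (η : ℝ) (c : Obj V → ℕ) (N : Set V)
    (hN : N.Finite) : ∃ T, ∀ t, T ≤ t → ∀ y ∈ N, (y ∈ stU G m R η c t ↔ y ∈ UI G m R η c) := by
  classical
  have h1 : ∀ y : V, ∃ T, ∀ t, T ≤ t → (y ∈ stU G m R η c t ↔ y ∈ UI G m R η c) := by
    intro y
    by_cases hy : y ∈ UI G m R η c
    · exact ⟨0, fun t _ => ⟨fun _ => hy, fun h => h t⟩⟩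
    · have hy' : ¬ ∀ t, y ∈ stU G m R η c t := hy
      push Not at hy'
      obtain ⟨T, hT⟩ := hy'
      exact ⟨T, fun t ht => ⟨fun h => absurd (GreedyA_mono G m R η c ht h) hT, fun h => h t⟩⟩
  choose T hT using h1
  refine ⟨hN.toFinset.sup T, fun t ht y hy => hT y t ?_⟩
  exact (Finset.le_sup (f := T) (hN.mem_toFinset.2 hy)).trans ht

/-- no finite set of the final set can be removed -/
theorem UI_bd {G : SimpleGraph V} {d : ℕ} (h : Std G d) {m R : ℕ} {η : ℝ} {c : Obj V → ℕ}
    {l : Obj V} (hl : l ∈ Mv G m R) (hne : (vs l).Nonempty) (hsub : vs l ⊆ UI G m R η c) :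
    η * (vs l).ncard < (bd G (UI G m R η c) (vs l)).ncard := by
  by_contra hcon
  rw [not_lt] at hcon
  have hN : {y | ∃ x ∈ vs l, G.Adj x y}.Finite := by
    have e : {y | ∃ x ∈ vs l, G.Adj x y} = ⋃ x ∈ vs l, {y | G.Adj x y} := by
      ext y
      simp
    rw [e]
    exact (GreedyA_vs_finite l).biUnion fun x _ => h.fin x
  obtain ⟨T, hT⟩ := GreedyA_eventually G m R η c _ hN
  have ht : T ≤ Nat.pair (c l) T := Nat.right_le_pair _ _
  have hbd : bd G (stU G m R η c (Nat.pair (c l) T)) (vs l) = bd G (UI G m R η c) (vs l) := by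
    ext p
    constructor
    · rintro ⟨h1, h2, h3, h4⟩
      exact ⟨h1, (hT _ ht p.2 ⟨p.1, h1, h4⟩).1 h2, h3, h4⟩
    · rintro ⟨h1, h2, h3, h4⟩
      exact ⟨h1, (hT _ ht p.2 ⟨p.1, h1, h4⟩).2 h2, h3, h4⟩
  have happ : Take G m R η c (Nat.pair (c l) T) l := by
    refine ⟨by rw [Nat.unpair_pair], hl, hne, fun x hx => hsub hx _, ?_⟩
    rw [hbd]
    exact hcon
  obtain ⟨x, hx⟩ := hne
  exact GreedyA_removed happ hx (Nat.lt_succ_self _) (hsub hx _)

end Pool.Agent.FIIDU
end

section

/-!
# MP_767f1c_pr: the closed edges of the greedy removal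
-/

set_option autoImplicit false

namespace Pool.Agent.FIIDU

open Set Filter


variable {V : Type}

/-- the closed edges: all edges of `G` except those inside of a removed set -/
def clE (G : SimpleGraph V) (m R : ℕ) (η : ℝ) (c : Obj V → ℕ) (x y : V) : Prop :=
  G.Adj x y ∧ ¬ ∃ t l, Take G m R η c t l ∧ x ∈ vs l ∧ y ∈ vs l

theorem Greedy_vs_finite (l : Obj V) : (vs l).Finite := by
  classical
  refine ((l.map Prod.fst ++ l.map Prod.snd).toFinset.finite_toSet).subset ?_
  rintro x ⟨p, hp, hx⟩
  rw [Finset.mem_coe, List.mem_toFinset, List.mem_append, List.mem_map, List.mem_map]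
  rcases hx with rfl | rfl
  · exact Or.inl ⟨p, hp, rfl⟩
  · exact Or.inr ⟨p, hp, rfl⟩

theorem Greedy_rem {G : SimpleGraph V} {m R : ℕ} {η : ℝ} {c : Obj V → ℕ} {a b : V}
    (h : rem G (clE G m R η c) a b) : ∃ t l, Take G m R η c t l ∧ a ∈ vs l ∧ b ∈ vs l := by
  by_contra hcon
  exact h.2 ⟨h.1, hcon⟩

theorem Greedy_mono (G : SimpleGraph V) (m R : ℕ) (η : ℝ) (c : Obj V → ℕ) :
    Antitone (stU G m R η c) := by
  refine antitone_nat_of_succ_le fun t x hx => ?_
  exact hx.1

theorem clE_comp {G : SimpleGraph V} {d : ℕ} (h : Std G d) {m R : ℕ} {η : ℝ} {c : Obj V → ℕ}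
    (hc : Proper G m R c) (x : V) : (comp (rem G (clE G m R η c)) x).Finite := by
  by_cases hx : ∃ t l, Take G m R η c t l ∧ x ∈ vs l
  · obtain ⟨t, l, hT, hxl⟩ := hx
    refine (Greedy_vs_finite l).subset ?_
    intro y hy
    have hy' : Relation.ReflTransGen (rem G (clE G m R η c)) x y := hy
    induction hy' with
    | refl => exact hxl
    | tail h1 h2 ih =>
      obtain ⟨t', l', hT', ha, hb⟩ := Greedy_rem h2
      have h3 := take_unique h hc hT hT' (ih h1) ha
      rw [h3.2]
      exact hb
  · refine (Set.finite_singleton x).subset ?_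
    intro y hy
    have hy' : Relation.ReflTransGen (rem G (clE G m R η c)) x y := hy
    rcases Relation.ReflTransGen.cases_head hy' with h1 | ⟨z, h1, _⟩
    · exact h1.symm
    · exfalso
      obtain ⟨t', l', hT', ha, _⟩ := Greedy_rem h1
      exact hx ⟨t', l', hT', ha⟩

/-- `y` is a neighbour of `x` in the boundary of the removed set of `x` -/
def outB (G : SimpleGraph V) (m R : ℕ) (η : ℝ) (c : Obj V → ℕ) (x y : V) : Prop :=
  ∃ t l, Take G m R η c t l ∧ (x, y) ∈ bd G (stU G m R η c t) (vs l)

/-- the three types of closed edges -/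
theorem clE_cases {G : SimpleGraph V} {d : ℕ} (h : Std G d) {m R : ℕ} {η : ℝ} {c : Obj V → ℕ}
    (hc : Proper G m R c) {x y : V} (hxy : clE G m R η c x y) :
    x ∈ UI G m R η c ∨ outB G m R η c x y ∨ outB G m R η c y x := by
  by_cases hxU : x ∈ UI G m R η c
  · exact Or.inl hxU
  · right
    obtain ⟨t, l, hT, hxl⟩ := not_UI hxU
    by_cases hy : y ∈ stU G m R η c t
    · left
      exact ⟨t, l, hT, hxl, hy, fun hyl => hxy.2 ⟨t, l, hT, hxl, hyl⟩, hxy.1⟩
    · right
      have hyU : y ∉ UI G m R η c := fun h' => hy (h' t)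
      obtain ⟨t', l', hT', hyl'⟩ := not_UI hyU
      have hlt : t' < t := by
        by_contra hle
        exact hy (Greedy_mono G m R η c (not_lt.1 hle) (hT'.2.2.2.1 hyl'))
      refine ⟨t', l', hT', hyl', ?_, fun hxl' => hxy.2 ⟨t', l', hT', hxl', hyl'⟩, hxy.1.symm⟩
      exact Greedy_mono G m R η c hlt.le (hT.2.2.2.1 hxl)

end Pool.Agent.FIIDU
end

section

/-!
# MP_767f1c_pr: the greedy removal is a factor
-/

set_option autoImplicit false

namespace Pool.Agent.FIIDU

open MeasureTheory Set Filter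
open scoped ENNReal


variable {V : Type}

/-! ### auxiliary facts -/

/-- the number of elements of a random subset of a countable set is measurable -/
theorem HypA_ncard {Ω α : Type*} [MeasurableSpace Ω] [Countable α] {A : Ω → Set α}
    (hA : ∀ a, Measurable (fun ω => a ∈ A ω)) : Measurable (fun ω => (A ω).ncard) := by
  have hfin : ∀ F : Finset α, Measurable (fun ω => ∀ a, a ∈ A ω ↔ a ∈ F) := fun F =>
    Measurable.forall fun a => (hA a).iff measurable_const
  refine measurable_to_countable' fun k => ?_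
  have h1 : (fun ω => (A ω).ncard) ⁻¹' {k} =
      {ω | (∃ F : Finset α, (∀ a, a ∈ A ω ↔ a ∈ F) ∧ F.card = k) ∨
        ((¬ ∃ F : Finset α, ∀ a, a ∈ A ω ↔ a ∈ F) ∧ k = 0)} := by
    ext ω
    simp only [mem_preimage, mem_singleton_iff, mem_ofPred_eq]
    by_cases hf : (A ω).Finite
    · constructor
      · intro h
        left
        refine ⟨hf.toFinset, fun a => hf.mem_toFinset.symm, ?_⟩
        rw [← h, ncard_eq_toFinset_card _ hf]
      · rintro (⟨F, hF, hk⟩ | ⟨h, _⟩)
        · have : A ω = (F : Set α) := by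
            ext a
            rw [hF a, Finset.mem_coe]
          rw [this, ncard_coe_finset, hk]
        · exact absurd ⟨hf.toFinset, fun a => hf.mem_toFinset.symm⟩ h
    · have hi : (A ω).ncard = 0 := Set.Infinite.ncard hf
      have hno : ¬ ∃ F : Finset α, ∀ a, a ∈ A ω ↔ a ∈ F := by
        rintro ⟨F, hF⟩
        apply hf
        have : A ω = (F : Set α) := by
          ext a
          rw [hF a, Finset.mem_coe]
        rw [this]
        exact F.finite_toSet
      rw [hi]
      constructor
      · intro h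
        exact Or.inr ⟨hno, h.symm⟩
      · rintro (⟨F, hF, _⟩ | ⟨_, h⟩)
        · exact absurd ⟨F, hF⟩ hno
        · exact h.symm
  rw [h1]
  refine measurableSet_setOfPred.2 ?_
  refine Measurable.or (Measurable.exists fun F => (hfin F).and measurable_const) ?_
  exact (Measurable.not (Measurable.exists fun F => hfin F)).and measurable_const

theorem HypA_vs {G : SimpleGraph V} (φ : G ≃g G) (l : Obj V) : vs (mapO φ l) = φ '' vs l := by
  ext x
  constructor
  · rintro ⟨p, hp, hx⟩
    obtain ⟨q, hq, rfl⟩ := List.mem_map.1 hp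
    rcases hx with rfl | rfl
    · exact ⟨q.1, ⟨q, hq, Or.inl rfl⟩, rfl⟩
    · exact ⟨q.2, ⟨q, hq, Or.inr rfl⟩, rfl⟩
  · rintro ⟨y, ⟨q, hq, hy⟩, rfl⟩
    refine ⟨Prod.map φ φ q, List.mem_map.2 ⟨q, hq, rfl⟩, ?_⟩
    rcases hy with rfl | rfl
    · exact Or.inl rfl
    · exact Or.inr rfl

theorem HypA_surj {G : SimpleGraph V} (φ : G ≃g G) (l : Obj V) :
    mapO φ (mapO φ.symm l) = l := by
  unfold mapO
  rw [List.map_map]
  have : (Prod.map φ φ ∘ Prod.map φ.symm φ.symm : V × V → V × V) = id := by
    funext p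
    ext
    · exact φ.apply_symm_apply p.1
    · exact φ.apply_symm_apply p.2
  rw [this, List.map_id]

theorem HypA_mv {G : SimpleGraph V} (φ : G ≃g G) (m R : ℕ) (l : Obj V) :
    mapO φ l ∈ Mv G m R ↔ l ∈ Mv G m R := by
  unfold Mv
  rw [mem_ofPred_eq, mem_ofPred_eq, HypA_vs]
  have h1 : (mapO φ l).length = l.length := List.length_map _
  rw [h1]
  refine and_congr Iff.rfl ⟨fun h x hx y hy => ?_, fun h x hx y hy => ?_⟩
  · rw [← dist_map φ]
    exact h _ ⟨x, hx, rfl⟩ _ ⟨y, hy, rfl⟩
  · obtain ⟨x', hx', rfl⟩ := hx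
    obtain ⟨y', hy', rfl⟩ := hy
    rw [dist_map φ]
    exact h _ hx' _ hy'

theorem HypA_bd {G : SimpleGraph V} (φ : G ≃g G) {U U' : Set V} (hU : ∀ x, x ∈ U' ↔ φ x ∈ U)
    (S : Set V) (x y : V) : (φ x, φ y) ∈ bd G U (φ '' S) ↔ (x, y) ∈ bd G U' S := by
  show (φ x ∈ φ '' S ∧ φ y ∈ U ∧ φ y ∉ φ '' S ∧ G.Adj (φ x) (φ y)) ↔
    (x ∈ S ∧ y ∈ U' ∧ y ∉ S ∧ G.Adj x y)
  rw [φ.injective.mem_set_image, φ.injective.mem_set_image, ← hU, φ.map_rel_iff]

theorem HypA_bdcard {G : SimpleGraph V} (φ : G ≃g G) {U U' : Set V}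
    (hU : ∀ x, x ∈ U' ↔ φ x ∈ U) (S : Set V) :
    (bd G U (φ '' S)).ncard = (bd G U' S).ncard := by
  have h1 : bd G U (φ '' S) = (Prod.map φ φ) '' bd G U' S := by
    ext ⟨x, y⟩
    constructor
    · intro h
      refine ⟨(φ.symm x, φ.symm y), ?_, ?_⟩
      · rw [← HypA_bd φ hU]
        rw [φ.apply_symm_apply, φ.apply_symm_apply]
        exact h
      · ext
        · exact φ.apply_symm_apply x
        · exact φ.apply_symm_apply y
    · rintro ⟨⟨x', y'⟩, h, he⟩
      rw [← he]
      exact (HypA_bd φ hU S x' y').2 h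
  rw [h1, ncard_image_of_injective _ (φ.injective.prodMap φ.injective)]

theorem HypA_app {G : SimpleGraph V} (φ : G ≃g G) (m R : ℕ) (η : ℝ) {U U' : Set V}
    (hU : ∀ x, x ∈ U' ↔ φ x ∈ U) (l : Obj V) :
    App G m R η U (mapO φ l) ↔ App G m R η U' l := by
  unfold App
  rw [HypA_mv, HypA_vs, image_nonempty, HypA_bdcard φ hU, ncard_image_of_injective _ φ.injective]
  refine and_congr Iff.rfl (and_congr Iff.rfl (and_congr ?_ Iff.rfl))
  constructor
  · intro h x hx
    rw [hU]
    exact h ⟨x, hx, rfl⟩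
  · rintro h _ ⟨x, hx, rfl⟩
    rw [← hU]
    exact h hx

/-- one step: if the remaining set is a factor then `Take` is a factor -/
theorem HypA_take [Countable V] (G : SimpleGraph V) (m R : ℕ) (η : ℝ) (t : ℕ)
    (h : Fac1 G (fun ω x => x ∈ stU G m R η (col G m R ω) t)) :
    FacO G (fun ω l => Take G m R η (col G m R ω) t l) := by
  refine ⟨fun l => ?_, fun φ ω l => ?_⟩
  · unfold Take App
    refine Measurable.and ?_ (Measurable.and measurable_const (Measurable.and measurable_const
      (Measurable.and ?_ ?_)))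
    · exact measurableSet_setOfPred.1 (col_meas G m R l (measurableSet_singleton _))
    · exact Measurable.forall fun x => Measurable.imp measurable_const (h.meas x)
    · have h1 : Measurable (fun ω => (bd G (stU G m R η (col G m R ω) t) (vs l)).ncard) := by
        refine HypA_ncard fun p => ?_
        exact Measurable.and measurable_const (Measurable.and (h.meas p.2) measurable_const)
      have h2 : Measurable (fun n : ℕ => (n : ℝ) ≤ η * (vs l).ncard) := measurable_from_top
      exact h2.comp h1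
  · unfold Take
    rw [col_act]
    refine and_congr Iff.rfl ?_
    exact (HypA_app φ m R η (fun x => h.equi φ ω x) l).symm

/-- the removal of sets is a factor -/
theorem take_fac [Countable V] (G : SimpleGraph V) (m R : ℕ) (η : ℝ) (t : ℕ) :
    Fac1 G (fun ω x => x ∈ stU G m R η (col G m R ω) t) ∧
      FacO G (fun ω l => Take G m R η (col G m R ω) t l) := by
  induction t with
  | zero =>
    have h : Fac1 G (fun ω x => x ∈ stU G m R η (col G m R ω) 0) :=
      ⟨fun x => measurable_const (a := True), fun φ ω x => Iff.rfl⟩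
    exact ⟨h, HypA_take G m R η 0 h⟩
  | succ t ih =>
    have h : Fac1 G (fun ω x => x ∈ stU G m R η (col G m R ω) (t + 1)) := by
      have he : ∀ (ω : Om V) (x : V), (x ∈ stU G m R η (col G m R ω) (t + 1)) =
          (x ∈ stU G m R η (col G m R ω) t ∧ ¬ ∃ l, Take G m R η (col G m R ω) t l ∧ x ∈ vs l) := by
        intro ω x
        refine propext ?_
        show (x ∈ stU G m R η (col G m R ω) t ∧ ¬ ∃ l, col G m R ω l = (Nat.unpair t).1 ∧
          App G m R η (stU G m R η (col G m R ω) t) l ∧ x ∈ vs l) ↔ _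
        unfold Take
        simp only [and_assoc]
      refine ⟨fun x => ?_, fun φ ω x => ?_⟩
      · simp only [he]
        exact Measurable.and (ih.1.meas x) (Measurable.not (Measurable.exists fun l =>
          Measurable.and (ih.2.meas l) measurable_const))
      · rw [he, he]
        refine and_congr (ih.1.equi φ ω x) (not_congr ?_)
        constructor
        · rintro ⟨l, h1, h2⟩
          refine ⟨mapO φ l, (ih.2.equi φ ω l).1 h1, ?_⟩
          rw [HypA_vs]
          exact ⟨x, h2, rfl⟩
        · rintro ⟨l, h1, h2⟩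
          refine ⟨mapO φ.symm l, (ih.2.equi φ ω _).2 ?_, ?_⟩
          · rw [HypA_surj]
            exact h1
          · rw [← HypA_surj φ l, HypA_vs, φ.injective.mem_set_image] at h2
            exact h2
    exact ⟨h, HypA_take G m R η (t + 1) h⟩

/-- quantification over objects preserves equivariance -/
theorem HypA_ex {G : SimpleGraph V} (φ : G ≃g G) {P Q : Obj V → Prop}
    (h : ∀ l, P l ↔ Q (mapO φ l)) : (∃ l, P l) ↔ ∃ l, Q l := by
  constructor
  · rintro ⟨l, hl⟩
    exact ⟨_, (h l).1 hl⟩
  · rintro ⟨l, hl⟩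
    refine ⟨mapO φ.symm l, (h _).2 ?_⟩
    rw [HypA_surj]
    exact hl

theorem clE_fac [Countable V] (G : SimpleGraph V) (m R : ℕ) (η : ℝ) :
    Fac2 G (fun ω x y => clE G m R η (col G m R ω) x y) ∧
      Fac2 G (fun ω x y => outB G m R η (col G m R ω) x y) ∧
      Fac1 G (fun ω x => x ∈ UI G m R η (col G m R ω)) := by
  refine ⟨⟨fun x y => ?_, fun φ ω x y => ?_⟩, ⟨fun x y => ?_, fun φ ω x y => ?_⟩,
    ⟨fun x => ?_, fun φ ω x => ?_⟩⟩
  · unfold clE
    exact Measurable.and measurable_const (Measurable.not (Measurable.exists fun t =>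
      Measurable.exists fun l => Measurable.and ((take_fac G m R η t).2.meas l)
        (Measurable.and measurable_const measurable_const)))
  · unfold clE
    refine and_congr φ.map_rel_iff.symm (not_congr (exists_congr fun t => HypA_ex φ fun l => ?_))
    rw [HypA_vs, φ.injective.mem_set_image, φ.injective.mem_set_image]
    exact and_congr ((take_fac G m R η t).2.equi φ ω l) Iff.rfl
  · unfold outB
    exact Measurable.exists fun t => Measurable.exists fun l =>
      Measurable.and ((take_fac G m R η t).2.meas l)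
        (Measurable.and measurable_const
          (Measurable.and ((take_fac G m R η t).1.meas y) measurable_const))
  · unfold outB
    refine exists_congr fun t => HypA_ex φ fun l => ?_
    rw [HypA_vs, HypA_bd φ (fun z => (take_fac G m R η t).1.equi φ ω z)]
    exact and_congr ((take_fac G m R η t).2.equi φ ω l) Iff.rfl
  · unfold UI
    exact Measurable.forall fun t => (take_fac G m R η t).1.meas x
  · unfold UI
    exact forall_congr' fun t => (take_fac G m R η t).1.equi φ ω x

end Pool.Agent.FIIDU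
end

section

/-!
# MP_767f1c_pr: expected number of boundary edges of the greedy removal
-/

set_option autoImplicit false

namespace Pool.Agent.FIIDU

open MeasureTheory Set Filter
open scoped ENNReal


variable {V : Type}

private theorem dgB_meas [Countable V] {G : SimpleGraph V} {R : Om V → V → V → Prop}
    (hR : Fac2 G R) (x : V) : Measurable (fun ω => ((dg (R ω) x : ℕ) : ℝ≥0∞)) := by
  have h1 : Measurable (fun ω => dg (R ω) x) := by
    refine measurable_to_countable' fun k => ?_
    exact measurableSet_setOfPred.2 ((hR.dg_eq k).meas x)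
  exact (measurable_of_countable (fun n : ℕ => (n : ℝ≥0∞))).comp h1

private theorem dgB_equi [Countable V] {G : SimpleGraph V} {R : Om V → V → V → Prop}
    (hR : Fac2 G R) (φ : G ≃g G) (ω : Om V) (x : V) : dg (R (act φ ω)) x = dg (R ω) (φ x) :=
  ((hR.dg_eq (dg (R ω) (φ x))).equi φ ω x).2 rfl

/-- averaging over the finite classes of a partial equivalence relation -/
private theorem part_avg [Countable V] {G : SimpleGraph V} {d : ℕ} (h : Std G d) (o : V)
    {E : Om V → V → V → Prop} (hE : Fac2 G E)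
    (hEq : ∀ᵐ ω ∂PP V, (∀ x y, E ω x y → E ω y x) ∧ (∀ x y z, E ω x y → E ω y z → E ω x z) ∧
      ∀ x, {y | E ω x y}.Finite) (g : Om V → V → ℝ≥0∞)
    (hm : ∀ x, Measurable (fun ω => g ω x))
    (he : ∀ (φ : G ≃g G) (ω : Om V) (x : V), g (act φ ω) x = g ω (φ x))
    (hg : ∀ ω x, ¬ E ω x x → g ω x = 0) :
    ∫⁻ ω, g ω o ∂PP V =
      ∫⁻ ω, (∑' y, {y | E ω o y}.indicator (g ω) y) / ((dg (E ω) o : ℕ) : ℝ≥0∞) ∂PP V := by
  classical
  have hmt := mtpP h (fun ω x y => {y | E ω x y}.indicator (g ω) y /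
      ((dg (E ω) x : ℕ) : ℝ≥0∞))
    (by
      intro x y
      refine Measurable.div ?_ (dgB_meas hE x)
      simp only [Set.indicator_apply]
      exact Measurable.ite (measurableSet_setOfPred.2 (hE.meas x y)) (hm y) measurable_const)
    (by
      intro φ ω x y
      have h2 : {y | E (act φ ω) x y}.indicator (g (act φ ω)) y =
          {y | E ω (φ x) y}.indicator (g ω) (φ y) := by
        simp only [Set.indicator_apply]
        have h3 : y ∈ {y | E (act φ ω) x y} ↔ φ y ∈ {y | E ω (φ x) y} := hE.equi φ ω x y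
        by_cases h4 : y ∈ {y | E (act φ ω) x y}
        · rw [if_pos h4, if_pos (h3.1 h4), he]
        · rw [if_neg h4, if_neg (fun h5 => h4 (h3.2 h5))]
      rw [dgB_equi hE, h2]) o
  have hL : ∀ ω, (∑' y, {y | E ω o y}.indicator (g ω) y / ((dg (E ω) o : ℕ) : ℝ≥0∞)) =
      (∑' y, {y | E ω o y}.indicator (g ω) y) / ((dg (E ω) o : ℕ) : ℝ≥0∞) := by
    intro ω
    simp only [div_eq_mul_inv]
    exact ENNReal.tsum_mul_right
  simp only [hL] at hmt
  rw [hmt]
  refine lintegral_congr_ae ?_
  filter_upwards [hEq] with ω hω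
  obtain ⟨hs, ht, hf⟩ := hω
  have hK := hf o
  have hpt : ∀ y, {z | E ω y z}.indicator (g ω) o / ((dg (E ω) y : ℕ) : ℝ≥0∞) =
      if y ∈ {y | E ω o y} then g ω o / ((dg (E ω) o : ℕ) : ℝ≥0∞) else 0 := by
    intro y
    by_cases hy : y ∈ {y | E ω o y}
    · have e : dg (E ω) y = dg (E ω) o := by
        unfold dg
        congr 1
        ext z
        exact ⟨fun hz => ht _ _ _ hy hz, fun hz => ht _ _ _ (hs _ _ hy) hz⟩
      rw [if_pos hy, e, Set.indicator_of_mem]
      exact hs _ _ hy
    · rw [if_neg hy, Set.indicator_of_notMem, ENNReal.zero_div]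
      exact fun h' => hy (hs _ _ h')
  simp only [hpt]
  by_cases hoo : E ω o o
  · rw [tsum_eq_sum (s := hK.toFinset)]
    · rw [Finset.sum_congr rfl fun y hy => if_pos (hK.mem_toFinset.1 hy), Finset.sum_const,
        nsmul_eq_mul, ← Set.ncard_eq_toFinset_card _ hK]
      have h0 : ((dg (E ω) o : ℕ) : ℝ≥0∞) ≠ 0 := by
        have : dg (E ω) o ≠ 0 := Set.ncard_ne_zero_of_mem (a := o) hoo hK
        exact_mod_cast this
      exact (ENNReal.mul_div_cancel h0 (ENNReal.natCast_ne_top _)).symm
    · intro y hy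
      rw [if_neg]
      intro h'
      exact hy (hK.mem_toFinset.2 h')
  · rw [hg ω o hoo]
    simp

/-- `x` and `y` are in the same removed set -/
private def SameR (G : SimpleGraph V) (m R : ℕ) (η : ℝ) (c : Obj V → ℕ) (x y : V) : Prop :=
  ∃ t l, Take G m R η c t l ∧ x ∈ vs l ∧ y ∈ vs l

private theorem vs_map {G : SimpleGraph V} (φ : G ≃g G) (l : Obj V) (x : V) :
    φ x ∈ vs (mapO φ l) ↔ x ∈ vs l := by
  unfold vs mapO
  simp only [mem_ofPred_eq, List.mem_map]
  constructor
  · rintro ⟨p, ⟨q, hq, rfl⟩, hp⟩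
    refine ⟨q, hq, ?_⟩
    rcases hp with hp | hp
    · exact Or.inl (φ.injective hp)
    · exact Or.inr (φ.injective hp)
  · rintro ⟨q, hq, hp⟩
    refine ⟨_, ⟨q, hq, rfl⟩, ?_⟩
    rcases hp with hp | hp
    · exact Or.inl (congrArg φ hp)
    · exact Or.inr (congrArg φ hp)

private theorem mapO_symm {G : SimpleGraph V} (φ : G ≃g G) (l : Obj V) :
    mapO φ (mapO φ.symm l) = l := by
  unfold mapO
  rw [List.map_map]
  conv_rhs => rw [← List.map_id l]
  refine List.map_congr_left fun p _ => ?_
  exact Prod.ext (φ.apply_symm_apply _) (φ.apply_symm_apply _)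

private theorem SameR_fac [Countable V] (G : SimpleGraph V) (m R : ℕ) (η : ℝ) :
    Fac2 G (fun ω x y => SameR G m R η (col G m R ω) x y) := by
  refine ⟨fun x y => ?_, fun φ ω x y => ?_⟩
  · exact Measurable.exists fun t => Measurable.exists fun l =>
      ((take_fac G m R η t).2.meas l).and (measurable_const.and measurable_const)
  · constructor
    · rintro ⟨t, l, h1, h2, h3⟩
      exact ⟨t, mapO φ l, ((take_fac G m R η t).2.equi φ ω l).1 h1, (vs_map φ l x).2 h2,
        (vs_map φ l y).2 h3⟩
    · rintro ⟨t, l, h1, h2, h3⟩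
      refine ⟨t, mapO φ.symm l, ((take_fac G m R η t).2.equi φ ω _).2 ?_, ?_, ?_⟩
      · rw [mapO_symm]
        exact h1
      · rw [← vs_map φ, mapO_symm]
        exact h2
      · rw [← vs_map φ, mapO_symm]
        exact h3

private theorem vs_finite (l : Obj V) : (vs l).Finite := by
  classical
  refine ((l.toFinset.image Prod.fst ∪ l.toFinset.image Prod.snd).finite_toSet).subset ?_
  rintro x ⟨p, hp, hx⟩
  simp only [Finset.coe_union, Finset.coe_image, mem_union, mem_image, Finset.mem_coe,
    List.mem_toFinset]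
  rcases hx with rfl | rfl
  · exact Or.inl ⟨p, hp, rfl⟩
  · exact Or.inr ⟨p, hp, rfl⟩

/-- the expected number of boundary edges -/
theorem outB_le [Countable V] {G : SimpleGraph V} {d : ℕ} (h : Std G d) (m R : ℕ) {η : ℝ}
    (hη : 0 < η) (o : V) :
    ∫⁻ ω, ({y | outB G m R η (col G m R ω) o y}.encard : ℝ≥0∞) ∂PP V ≤ ENNReal.ofReal η := by
  classical
  have hout : Fac2 G (fun ω x y => outB G m R η (col G m R ω) x y) := (clE_fac G m R η).2.1
  have hfinO : ∀ ω x, {y | outB G m R η (col G m R ω) x y}.Finite := by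
    intro ω x
    refine (h.fin x).subset ?_
    rintro y ⟨t, l, _, h2⟩
    exact h2.2.2.2
  have e1 : ∀ ω, ({y | outB G m R η (col G m R ω) o y}.encard : ℝ≥0∞) =
      ((dg (fun x y => outB G m R η (col G m R ω) x y) o : ℕ) : ℝ≥0∞) := by
    intro ω
    unfold dg
    rw [← (hfinO ω o).cast_ncard_eq]
    norm_cast
  simp only [e1]
  have hgood : ∀ᵐ ω ∂PP V, Proper G m R (col G m R ω) := by
    filter_upwards [ae_good] with ω hω
    exact col_proper h m R hω
  rw [part_avg h o (SameR_fac G m R η) (by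
      filter_upwards [hgood] with ω hω
      refine ⟨?_, ?_, ?_⟩
      · rintro x y ⟨t, l, h1, h2, h3⟩
        exact ⟨t, l, h1, h3, h2⟩
      · rintro x y z ⟨t, l, h1, h2, h3⟩ ⟨t', l', h1', h2', h3'⟩
        obtain ⟨_, e⟩ := take_unique h hω h1 h1' h3 h2'
        subst e
        exact ⟨t, l, h1, h2, h3'⟩
      · intro x
        by_cases hx : ∃ t l, Take G m R η (col G m R ω) t l ∧ x ∈ vs l
        · obtain ⟨t, l, h1, h2⟩ := hx
          refine (vs_finite l).subset ?_
          rintro y ⟨t', l', h1', h2', h3'⟩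
          obtain ⟨_, e⟩ := take_unique h hω h1 h1' h2 h2'
          subst e
          exact h3'
        · refine Set.finite_empty.subset ?_
          rintro y ⟨t', l', h1', h2', _⟩
          exact hx ⟨t', l', h1', h2'⟩)
      (fun ω x => ((dg (fun x y => outB G m R η (col G m R ω) x y) x : ℕ) : ℝ≥0∞))
      (fun x => dgB_meas hout x) (fun φ ω x => by rw [dgB_equi hout])
      (by
        intro ω x hx
        have : {y | outB G m R η (col G m R ω) x y} = ∅ := by
          ext y
          simp only [mem_ofPred_eq, mem_empty_iff_false, iff_false]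
          rintro ⟨t, l, h1, h2⟩
          exact hx ⟨t, l, h1, h2.1, h2.1⟩
        unfold dg
        rw [this]
        simp)]
  have hpt : ∀ᵐ ω ∂PP V, (∑' y, {y | SameR G m R η (col G m R ω) o y}.indicator
      (fun x => ((dg (fun x y => outB G m R η (col G m R ω) x y) x : ℕ) : ℝ≥0∞)) y) /
      ((dg (fun x y => SameR G m R η (col G m R ω) x y) o : ℕ) : ℝ≥0∞) ≤ ENNReal.ofReal η := by
    filter_upwards [hgood] with ω hω
    by_cases hx : ∃ t l, Take G m R η (col G m R ω) t l ∧ o ∈ vs l
    · obtain ⟨t, l, h1, h2⟩ := hx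
      have hS : {y | SameR G m R η (col G m R ω) o y} = vs l := by
        ext y
        constructor
        · rintro ⟨t', l', h1', h2', h3'⟩
          obtain ⟨_, e⟩ := take_unique h hω h1 h1' h2 h2'
          subst e
          exact h3'
        · intro hy
          exact ⟨t, l, h1, h2, hy⟩
      have hK := vs_finite l
      have hdg : dg (fun x y => SameR G m R η (col G m R ω) x y) o = (vs l).ncard := by
        unfold dg
        rw [hS]
      have hbdfin : (bd G (stU G m R η (col G m R ω) t) (vs l)).Finite := by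
        refine (hK.biUnion (t := fun x => (fun y => (x, y)) '' {y | G.Adj x y})
          fun x _ => (h.fin x).image _).subset ?_
        rintro ⟨a, b⟩ hp
        simp only [mem_iUnion, mem_image, mem_ofPred_eq, exists_prop]
        exact ⟨a, hp.1, b, hp.2.2.2, rfl⟩
      have houtS : ∀ y ∈ vs l, ∀ z, outB G m R η (col G m R ω) y z ↔
          (y, z) ∈ bd G (stU G m R η (col G m R ω) t) (vs l) := by
        intro y hy z
        constructor
        · rintro ⟨t', l', h1', h2'⟩
          obtain ⟨e', e⟩ := take_unique h hω h1 h1' hy h2'.1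
          subst e
          subst e'
          exact h2'
        · intro hyz
          exact ⟨t, l, h1, hyz⟩
      have hsum : ∑' y, {y | SameR G m R η (col G m R ω) o y}.indicator
          (fun x => ((dg (fun x y => outB G m R η (col G m R ω) x y) x : ℕ) : ℝ≥0∞)) y =
          (((bd G (stU G m R η (col G m R ω) t) (vs l)).ncard : ℕ) : ℝ≥0∞) := by
        rw [hS, tsum_eq_sum (s := hK.toFinset)]
        · rw [Finset.sum_congr rfl fun y hy =>
            Set.indicator_of_mem (hK.mem_toFinset.1 hy) _, ← Nat.cast_sum]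
          congr 1
          have e2 : ∀ y ∈ hK.toFinset, dg (fun x y => outB G m R η (col G m R ω) x y) y =
              (hbdfin.toFinset.filter (fun p => p.1 = y)).card := by
            intro y hy
            have e3 : {z | outB G m R η (col G m R ω) y z} =
                {z | (y, z) ∈ bd G (stU G m R η (col G m R ω) t) (vs l)} := by
              ext z
              exact houtS y (hK.mem_toFinset.1 hy) z
            have e4 : ((hbdfin.toFinset.filter (fun p => p.1 = y) : Finset (V × V)) :
                Set (V × V)) = (fun z => (y, z)) ''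
                {z | (y, z) ∈ bd G (stU G m R η (col G m R ω) t) (vs l)} := by
              ext p
              simp only [Finset.coe_filter, Set.Finite.mem_toFinset, mem_ofPred_eq, mem_image]
              constructor
              · rintro ⟨h3, h4⟩
                refine ⟨p.2, ?_, ?_⟩
                · rw [← h4]
                  exact h3
                · rw [← h4]
              · rintro ⟨z, h3, h4⟩
                rw [← h4]
                exact ⟨h3, rfl⟩
            unfold dg
            rw [e3, ← Set.ncard_coe_finset, e4, Set.ncard_image_of_injective]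
            intro a b hab
            exact (Prod.mk.inj hab).2
          have e5 := Finset.card_eq_sum_card_fiberwise (f := fun p : V × V => p.1)
            (s := hbdfin.toFinset) (t := hK.toFinset)
            (fun p hp => hK.mem_toFinset.2 ((hbdfin.mem_toFinset.1 hp).1))
          rw [Finset.sum_congr rfl e2, Set.ncard_eq_toFinset_card _ hbdfin]
          exact e5.symm
        · intro y hy
          exact Set.indicator_of_notMem (fun h' => hy (hK.mem_toFinset.2 h')) _
      rw [hsum, hdg]
      have hb := h1.2.2.2.2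
      have hn0 : (((vs l).ncard : ℕ) : ℝ≥0∞) ≠ 0 := by
        have : (vs l).ncard ≠ 0 := Set.ncard_ne_zero_of_mem h2 hK
        exact_mod_cast this
      rw [ENNReal.div_le_iff hn0 (ENNReal.natCast_ne_top _)]
      have h3 := ENNReal.ofReal_le_ofReal hb
      rw [ENNReal.ofReal_mul hη.le, ENNReal.ofReal_natCast, ENNReal.ofReal_natCast] at h3
      exact h3
    · have hS : {y | SameR G m R η (col G m R ω) o y} = ∅ := by
        ext y
        simp only [mem_ofPred_eq, mem_empty_iff_false, iff_false]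
        rintro ⟨t', l', h1', h2', _⟩
        exact hx ⟨t', l', h1', h2'⟩
      rw [hS]
      simp
  refine (lintegral_mono_ae hpt).trans ?_
  rw [lintegral_const, measure_univ, mul_one]

end Pool.Agent.FIIDU
end

section

/-!
# MP_767f1c_pr: the probability to survive the greedy removal
-/

set_option autoImplicit false

namespace Pool.Agent.FIIDU

open MeasureTheory Set Filter
open scoped ENNReal


variable {V : Type}

/-- the probability to survive -/
theorem UI_le [Countable V] {G : SimpleGraph V} {d : ℕ} (h : Std G d) {m R : ℕ} {η : ℝ}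
    (hη : 0 < η) {F : Set V} (hF : F.Finite) (hne : F.Nonempty)
    (hb : ((eb G F).ncard : ℝ) ≤ η ^ 2 * F.ncard) (hm : F.ncard ≤ m)
    (hR : ∀ x ∈ F, ∀ y ∈ F, G.dist x y ≤ R) (o : V) :
    PP V {ω | o ∈ UI G m R η (col G m R ω)} ≤ ENNReal.ofReal η := by
  classical
  have hfac : Fac1 G (fun ω x => x ∈ UI G m R η (col G m R ω)) := (clE_fac G m R η).2.2
  have hebfin : (eb G F).Finite := by
    refine (hF.biUnion (t := fun x => (fun y => (x, y)) '' {y | G.Adj x y})
      fun x _ => (h.fin x).image _).subset ?_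
    rintro ⟨a, b⟩ hp
    simp only [mem_iUnion, mem_image, mem_ofPred_eq, exists_prop]
    exact ⟨a, hp.1, b, hp.2.2, rfl⟩
  -- pointwise bound
  have hpt : ∀ ω, (((F ∩ UI G m R η (col G m R ω)).ncard : ℕ) : ℝ) ≤ η * F.ncard := by
    intro ω
    set S := F ∩ UI G m R η (col G m R ω) with hS
    have hSfin : S.Finite := hF.subset Set.inter_subset_left
    rcases S.eq_empty_or_nonempty with he | hSne
    · rw [he]
      simp only [Set.ncard_empty, Nat.cast_zero]
      positivity
    · set l : Obj V := hSfin.toFinset.toList.map (fun x => (x, x)) with hl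
      have hvs : vs l = S := by
        ext x
        simp only [vs, hl, mem_ofPred_eq, List.mem_map, Finset.mem_toList,
          Set.Finite.mem_toFinset]
        constructor
        · rintro ⟨p, ⟨a, ha, rfl⟩, hx⟩
          rcases hx with rfl | rfl <;> exact ha
        · intro hx
          exact ⟨(x, x), ⟨x, hx, rfl⟩, Or.inl rfl⟩
      have hlen : l.length ≤ m := by
        rw [hl, List.length_map, Finset.length_toList, ← Set.ncard_eq_toFinset_card _ hSfin]
        exact (Set.ncard_le_ncard Set.inter_subset_left hF).trans hm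
      have hMv : l ∈ Mv G m R := by
        refine ⟨hlen, ?_⟩
        rw [hvs]
        exact fun x hx y hy => hR x hx.1 y hy.1
      have h1 := UI_bd h (c := col G m R ω) (η := η) hMv (by rw [hvs]; exact hSne)
        (by rw [hvs]; exact Set.inter_subset_right)
      rw [hvs] at h1
      have h2 : bd G (UI G m R η (col G m R ω)) S ⊆ eb G F := by
        rintro p ⟨p1, p2, p3, p4⟩
        exact ⟨p1.1, fun h' => p3 ⟨h', p2⟩, p4⟩
      have h3 : ((bd G (UI G m R η (col G m R ω)) S).ncard : ℝ) ≤ (eb G F).ncard := by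
        exact_mod_cast Set.ncard_le_ncard h2 hebfin
      have h4 : η * (S.ncard : ℝ) ≤ η * (η * F.ncard) := by
        calc η * (S.ncard : ℝ) ≤ (eb G F).ncard := h1.le.trans h3
          _ ≤ η ^ 2 * F.ncard := hb
          _ = η * (η * F.ncard) := by ring
      exact le_of_mul_le_mul_left h4 hη
  have hpt2 : ∀ ω, ∑ x ∈ hF.toFinset,
      {ω | x ∈ UI G m R η (col G m R ω)}.indicator (1 : Om V → ℝ≥0∞) ω ≤
      ENNReal.ofReal η * (F.ncard : ℝ≥0∞) := by
    intro ω
    have e : ∑ x ∈ hF.toFinset,
        {ω | x ∈ UI G m R η (col G m R ω)}.indicator (1 : Om V → ℝ≥0∞) ω =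
        (((F ∩ UI G m R η (col G m R ω)).ncard : ℕ) : ℝ≥0∞) := by
      have e1 : ∀ x, {ω | x ∈ UI G m R η (col G m R ω)}.indicator (1 : Om V → ℝ≥0∞) ω =
          if x ∈ UI G m R η (col G m R ω) then 1 else 0 := by
        intro x
        simp [Set.indicator_apply]
      rw [Finset.sum_congr rfl fun x _ => e1 x, Finset.sum_ite, Finset.sum_const_zero, add_zero,
        Finset.sum_const, nsmul_eq_mul, mul_one]
      congr 1
      rw [← Set.ncard_coe_finset]
      congr 1
      ext x
      simp
    rw [e, ← ENNReal.ofReal_natCast, ← ENNReal.ofReal_natCast, ← ENNReal.ofReal_mul hη.le]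
    exact ENNReal.ofReal_le_ofReal (hpt ω)
  have hms : ∀ x, MeasurableSet {ω | x ∈ UI G m R η (col G m R ω)} := fun x =>
    measurableSet_setOfPred.2 (hfac.meas x)
  have hint : ∫⁻ ω, ∑ x ∈ hF.toFinset,
      {ω | x ∈ UI G m R η (col G m R ω)}.indicator (1 : Om V → ℝ≥0∞) ω ∂PP V =
      (F.ncard : ℝ≥0∞) * PP V {ω | o ∈ UI G m R η (col G m R ω)} := by
    rw [lintegral_finsetSum _ fun x _ => measurable_one.indicator (hms x)]
    have e2 : ∀ x ∈ hF.toFinset,
        ∫⁻ ω, {ω | x ∈ UI G m R η (col G m R ω)}.indicator (1 : Om V → ℝ≥0∞) ω ∂PP V =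
        PP V {ω | o ∈ UI G m R η (col G m R ω)} := by
      intro x _
      rw [lintegral_indicator_one (hms x)]
      exact Fac1.prob_eq h hfac x o
    rw [Finset.sum_congr rfl e2, Finset.sum_const, nsmul_eq_mul,
      ← Set.ncard_eq_toFinset_card _ hF]
  have hfinal : (F.ncard : ℝ≥0∞) * PP V {ω | o ∈ UI G m R η (col G m R ω)} ≤
      (F.ncard : ℝ≥0∞) * ENNReal.ofReal η := by
    rw [← hint]
    refine (lintegral_mono hpt2).trans ?_
    rw [lintegral_const, measure_univ, mul_one, mul_comm]
  have h0 : (F.ncard : ℝ≥0∞) ≠ 0 := by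
    have : F.ncard ≠ 0 := by
      obtain ⟨x, hx⟩ := hne
      exact Set.ncard_ne_zero_of_mem hx hF
    exact_mod_cast this
  exact (ENNReal.mul_le_mul_iff_right h0 (ENNReal.natCast_ne_top _)).1 hfinal

end Pool.Agent.FIIDU
end

section

/-!
# MP_767f1c_pr: amenable unimodular graphs are hyperfinite, as factors of iid
-/

set_option autoImplicit false

namespace Pool.Agent.FIIDU

open MeasureTheory Set Filter
open scoped ENNReal


variable {V : Type}

/-- **Hyperfiniteness.** -/
theorem hyperfinite [Countable V] {G : SimpleGraph V} {d : ℕ} (h : Std G d) (ham : Amen G)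
    (o : V) {ε : ℝ≥0∞} (hε : 0 < ε) :
    ∃ C : Om V → V → V → Prop, Fac2 G C ∧ (∀ ω, SubE G (C ω)) ∧
      (∀ᵐ ω ∂PP V, ∀ x, (comp (rem G (C ω)) x).Finite) ∧ PP V {ω | ∃ y, C ω o y} ≤ ε := by
  classical
  have hε3 : 0 < ε / 3 := ENNReal.div_pos hε.ne' (by norm_num)
  obtain ⟨r, hr0, hr1⟩ := ENNReal.lt_iff_exists_nnreal_btwn.1 hε3
  set η : ℝ := (r : ℝ) with hηdef
  have hη : 0 < η := by
    have : (0 : NNReal) < r := by exact_mod_cast hr0
    exact_mod_cast this
  have hηr : ENNReal.ofReal η = (r : ℝ≥0∞) := ENNReal.ofReal_coe_nnreal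
  obtain ⟨F, hF, hne, hb⟩ := ham (η ^ 2) (by positivity)
  obtain ⟨R, hR⟩ := ((hF.prod hF).image (fun p => G.dist p.1 p.2)).bddAbove
  have hR' : ∀ x ∈ F, ∀ y ∈ F, G.dist x y ≤ R := fun x hx y hy =>
    hR ⟨(x, y), ⟨hx, hy⟩, rfl⟩
  set m := F.ncard with hm
  have hfac := clE_fac G m R η
  have hgood : ∀ᵐ ω ∂PP V, Proper G m R (col G m R ω) := by
    filter_upwards [ae_good] with ω hω
    exact col_proper h m R hω
  refine ⟨fun ω x y => clE G m R η (col G m R ω) x y, hfac.1, ?_, ?_, ?_⟩
  · rintro ω x y ⟨h1, h2⟩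
    refine ⟨⟨h1.symm, ?_⟩, h1⟩
    rintro ⟨t, l, h3, h4, h5⟩
    exact h2 ⟨t, l, h3, h5, h4⟩
  · filter_upwards [hgood] with ω hω x
    exact clE_comp h hω x
  · have hUI := UI_le h hη hF hne hb le_rfl hR' o
    have hO := outB_le h m R hη o
    have hO2 : PP V {ω | ∃ y, outB G m R η (col G m R ω) y o} ≤ ENNReal.ofReal η :=
      (mtp_prob h hfac.2.1 o).trans hO
    have hO1 : PP V {ω | ∃ y, outB G m R η (col G m R ω) o y} ≤ ENNReal.ofReal η := by
      refine le_trans ?_ hO
      have hms : MeasurableSet {ω | ∃ y, outB G m R η (col G m R ω) o y} :=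
        measurableSet_setOfPred.2 (Measurable.exists fun y => hfac.2.1.meas o y)
      rw [← lintegral_indicator_one hms]
      refine lintegral_mono fun ω => ?_
      by_cases h1 : ω ∈ {ω | ∃ y, outB G m R η (col G m R ω) o y}
      · rw [indicator_of_mem h1]
        obtain ⟨y, hy⟩ := h1
        have h2 : (1 : ℕ∞) ≤ {y | outB G m R η (col G m R ω) o y}.encard :=
          Set.one_le_encard_iff_nonempty.2 ⟨y, hy⟩
        change (1 : ℝ≥0∞) ≤ _
        exact_mod_cast h2
      · rw [indicator_of_notMem h1]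
        exact bot_le
    have hsub : ∀ᵐ ω ∂PP V, ω ∈ {ω | ∃ y, clE G m R η (col G m R ω) o y} →
        ω ∈ ({ω | o ∈ UI G m R η (col G m R ω)} ∪
          ({ω | ∃ y, outB G m R η (col G m R ω) o y} ∪
            {ω | ∃ y, outB G m R η (col G m R ω) y o})) := by
      filter_upwards [hgood] with ω hω hy
      obtain ⟨y, hy⟩ := hy
      rcases clE_cases h hω hy with h1 | h1 | h1
      · exact Or.inl h1
      · exact Or.inr (Or.inl ⟨y, h1⟩)
      · exact Or.inr (Or.inr ⟨y, h1⟩)
    calc PP V {ω | ∃ y, clE G m R η (col G m R ω) o y}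
        ≤ PP V ({ω | o ∈ UI G m R η (col G m R ω)} ∪
          ({ω | ∃ y, outB G m R η (col G m R ω) o y} ∪
            {ω | ∃ y, outB G m R η (col G m R ω) y o})) := measure_mono_ae hsub
      _ ≤ PP V {ω | o ∈ UI G m R η (col G m R ω)} +
          (PP V {ω | ∃ y, outB G m R η (col G m R ω) o y} +
            PP V {ω | ∃ y, outB G m R η (col G m R ω) y o}) :=
          (measure_union_le _ _).trans (add_le_add le_rfl (measure_union_le _ _))
      _ ≤ ε / 3 + (ε / 3 + ε / 3) := by
          have h3 : ENNReal.ofReal η ≤ ε / 3 := by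
            rw [hηr]
            exact hr1.le
          exact add_le_add (hUI.trans h3) (add_le_add (hO1.trans h3) (hO2.trans h3))
      _ = ε := by
          rw [← add_assoc]
          exact ENNReal.add_thirds ε

end Pool.Agent.FIIDU
end

section

/-!
# MP_767f1c_pr: the exchange argument for minimal chains
-/

set_option autoImplicit false

namespace Pool.Agent.FIIDU

open Set


variable {V : Type}

private theorem TExch_card_sum {ι : Type} (s : Finset ι) (g : ι → Sym2 V →₀ ZMod 2) :
    (∑ i ∈ s, g i).support.card ≤ ∑ i ∈ s, (g i).support.card := by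
  classical
  induction s using Finset.induction_on with
  | empty => simp
  | insert a s ha ih =>
    rw [Finset.sum_insert ha, Finset.sum_insert ha]
    exact (card_add_le _ _).trans (Nat.add_le_add_left ih _)

private theorem TExch_mem_sum {ι : Type} (s : Finset ι) (g : ι → Sym2 V →₀ ZMod 2) (e : Sym2 V)
    (he : e ∈ (∑ i ∈ s, g i).support) : ∃ i ∈ s, e ∈ (g i).support := by
  classical
  by_contra hcon
  push Not at hcon
  rw [Finsupp.mem_support_iff, Finsupp.finsetSum_apply] at he
  apply he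
  exact Finset.sum_eq_zero fun i hi => Finsupp.notMem_support_iff.mp (hcon i hi)

/-- **Exchange.** In a minimal chain there is no nonempty system of well separated positions
which is even on every geodesic and even at every hub. -/
theorem no_exchange {α : Type} [DecidableEq α] {H : SimpleGraph V} {z : Sym2 V →₀ ZMod 2}
    (hz : MinJ H z) {N : ℕ} (D : Dec H z N) (s t : ℕ) (hst : t < s) (X : Finset (Fin N × α))
    (hX : X.Nonempty) (hrow : ∀ i, Even (X.filter (fun q => q.1 = i)).card)
    (hcol : ∀ y, Even (X.filter (fun q => q.2 = y)).card) (pos : Fin N → α → ℕ)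
    (hpos : ∀ q ∈ X, pos q.1 q.2 ≤ (D.p q.1).length)
    (hhop : ∀ q ∈ X, ∀ q' ∈ X, q.2 = q'.2 →
      H.Reachable ((D.p q.1).getVert (pos q.1 q.2)) ((D.p q'.1).getVert (pos q'.1 q'.2)) ∧
      H.dist ((D.p q.1).getVert (pos q.1 q.2)) ((D.p q'.1).getVert (pos q'.1 q'.2)) ≤ t)
    (hgap : ∀ q ∈ X, ∀ q' ∈ X, q.1 = q'.1 → q ≠ q' → pos q.1 q.2 ≤ pos q'.1 q'.2 →
      pos q.1 q.2 + s ≤ pos q'.1 q'.2) : False := by
  classical
  set v : Fin N × α → V := fun q => (D.p q.1).getVert (pos q.1 q.2) with hv
  -- the positions on a geodesic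
  have hinj : ∀ i, Set.InjOn (fun q : Fin N × α => pos q.1 q.2)
      (X.filter (fun q => q.1 = i) : Finset (Fin N × α)) := by
    intro i q hq q' hq' h
    simp only [Finset.coe_filter, Set.mem_ofPred_eq] at hq hq'
    by_contra hne
    have h1 := hgap q hq.1 q' hq'.1 (hq.2.trans hq'.2.symm) hne (le_of_eq h)
    simp only at h
    omega
  have hσ : ∀ i, ∃ σ : Sym2 V →₀ ZMod 2,
      bdy σ = ∑ q ∈ X.filter (fun q => q.1 = i), Finsupp.single (v q) 1 ∧
      (∀ e ∈ σ.support, e ∈ (D.p i).edges) ∧
      s * (X.filter (fun q => q.1 = i)).card ≤ 2 * σ.support.card := by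
    intro i
    obtain ⟨σ, h1, h2, h3⟩ := exists_segments (D.path i) s
      ((X.filter (fun q => q.1 = i)).image (fun q => pos q.1 q.2))
      (by
        rw [Finset.card_image_of_injOn (hinj i)]
        exact hrow i)
      (by
        intro a ha
        obtain ⟨q, hq, rfl⟩ := Finset.mem_image.mp ha
        obtain ⟨hqX, rfl⟩ := Finset.mem_filter.mp hq
        exact hpos q hqX)
      (by
        intro a ha b hb hab
        obtain ⟨q, hq, rfl⟩ := Finset.mem_image.mp ha
        obtain ⟨q', hq', rfl⟩ := Finset.mem_image.mp hb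
        obtain ⟨hqX, hqi⟩ := Finset.mem_filter.mp hq
        obtain ⟨hqX', hqi'⟩ := Finset.mem_filter.mp hq'
        refine hgap q hqX q' hqX' (hqi.trans hqi'.symm) ?_ hab.le
        rintro rfl
        exact lt_irrefl _ hab)
    refine ⟨σ, ?_, h2, ?_⟩
    · rw [h1, Finset.sum_image (hinj i)]
      refine Finset.sum_congr rfl fun q hq => ?_
      obtain ⟨_, rfl⟩ := Finset.mem_filter.mp hq
      rfl
    · rwa [Finset.card_image_of_injOn (hinj i)] at h3
  have hτ : ∀ y : α, ∃ τ : Sym2 V →₀ ZMod 2,
      bdy τ = ∑ q ∈ X.filter (fun q => q.2 = y), Finsupp.single (v q) 1 ∧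
      (∀ e ∈ τ.support, e ∈ H.edgeSet) ∧
      2 * τ.support.card ≤ t * (X.filter (fun q => q.2 = y)).card := by
    intro y
    refine exists_hops v t _ (hcol y) ?_
    intro q hq q' hq'
    obtain ⟨hqX, hqi⟩ := Finset.mem_filter.mp hq
    obtain ⟨hqX', hqi'⟩ := Finset.mem_filter.mp hq'
    exact hhop q hqX q' hqX' (hqi.trans hqi'.symm)
  choose σ hσ1 hσ2 hσ3 using hσ
  choose τ hτ1 hτ2 hτ3 using hτ
  obtain ⟨hd1, hd2⟩ := D.disj
  -- the segments
  have hS : (∑ i, σ i).support.card = ∑ i, (σ i).support.card := by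
    rw [Finsupp.support_sum_eq_biUnion, Finset.card_biUnion]
    · intro i _ j _ hij
      refine Finset.disjoint_left.mpr ?_
      intro e he he'
      exact hd2 i j hij e (hσ2 i e he) (hσ2 j e he')
    · intro i j hij
      rw [Finset.disjoint_left]
      intro e he he'
      exact hd2 i j hij e (hσ2 i e he) (hσ2 j e he')
  have hSz : ∀ e ∈ (∑ i, σ i).support, e ∈ z.support := by
    intro e he
    obtain ⟨i, _, hi⟩ := TExch_mem_sum _ _ _ he
    exact hd1 i e (hσ2 i e hi)
  obtain ⟨hc1, hc2⟩ := card_add_of_subset hSz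
  -- the sums
  have hrow' : ∑ i, ∑ q ∈ X.filter (fun q => q.1 = i), (Finsupp.single (v q) 1 : V →₀ ZMod 2) =
      ∑ q ∈ X, Finsupp.single (v q) 1 :=
    Finset.sum_fiberwise X (fun q => q.1) _
  have hcol' : ∑ y ∈ X.image Prod.snd, ∑ q ∈ X.filter (fun q => q.2 = y),
      (Finsupp.single (v q) 1 : V →₀ ZMod 2) = ∑ q ∈ X, Finsupp.single (v q) 1 :=
    Finset.sum_fiberwise_of_maps_to (g := fun q : Fin N × α => q.2)
      (fun q hq => Finset.mem_image_of_mem _ hq) _
  have hrowc : ∑ i, (X.filter (fun q => q.1 = i)).card = X.card :=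
    (Finset.card_eq_sum_card_fiberwise (f := fun q : Fin N × α => q.1)
      (t := Finset.univ) (fun _ _ => Finset.mem_coe.mpr (Finset.mem_univ _))).symm
  have hcolc : ∑ y ∈ X.image Prod.snd, (X.filter (fun q => q.2 = y)).card = X.card :=
    (Finset.card_eq_sum_card_fiberwise (f := fun q : Fin N × α => q.2)
      (t := X.image Prod.snd)
      (fun q hq => Finset.mem_coe.mpr (Finset.mem_image_of_mem _ (Finset.mem_coe.mp hq)))).symm
  set T : Sym2 V →₀ ZMod 2 := ∑ y ∈ X.image Prod.snd, τ y with hT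
  have hTc : 2 * T.support.card ≤ t * X.card := by
    calc 2 * T.support.card ≤ 2 * ∑ y ∈ X.image Prod.snd, (τ y).support.card :=
          Nat.mul_le_mul_left _ (TExch_card_sum _ _)
      _ = ∑ y ∈ X.image Prod.snd, 2 * (τ y).support.card := Finset.mul_sum _ _ _
      _ ≤ ∑ y ∈ X.image Prod.snd, t * (X.filter (fun q => q.2 = y)).card :=
          Finset.sum_le_sum fun y _ => hτ3 y
      _ = t * X.card := by rw [← Finset.mul_sum, hcolc]
  have hSc : s * X.card ≤ 2 * (∑ i, σ i).support.card := by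
    rw [hS, Finset.mul_sum, ← hrowc, Finset.mul_sum]
    exact Finset.sum_le_sum fun i _ => hσ3 i
  have hmin := hz.min (z + (∑ i, σ i) + T)
    (by
      intro e he
      by_cases h1 : e ∈ (z + ∑ i, σ i).support
      · exact hz.sub e ((hc2 e).mp h1).1
      · have h2 : e ∈ T.support := by
          rw [Finsupp.mem_support_iff] at he ⊢
          rw [Finsupp.notMem_support_iff] at h1
          rwa [Finsupp.add_apply, h1, zero_add] at he
        obtain ⟨y, _, hy⟩ := TExch_mem_sum _ _ _ h2
        exact hτ2 y e hy)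
    (by
      have h2 : ∀ w : V →₀ ZMod 2, w + w = 0 := fun w => by
        ext x
        rw [Finsupp.add_apply, Finsupp.zero_apply]
        exact CharTwo.add_self_eq_zero _
      rw [map_add, map_add, map_sum, hT, map_sum]
      simp_rw [hσ1, hτ1]
      rw [hrow', hcol', add_assoc, h2, add_zero])
  have hle := card_add_le (z + ∑ i, σ i) T
  have hXc : 0 < X.card := hX.card_pos
  have hlt : t * X.card < s * X.card := Nat.mul_lt_mul_of_pos_right hst hXc
  omega

end Pool.Agent.FIIDU
end

section

/-!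
# MP_767f1c_pr: incidences of hubs and geodesics
-/

set_option autoImplicit false

namespace Pool.Agent.FIIDU

open Set
open scoped Classical


variable {V : Type}

/-- the number of incidences between hubs and geodesics is small -/
theorem incidence_le {G H : SimpleGraph V} {d : ℕ} (h : Std G d) {K B : Finset V}
    (F : FinSub G H K B) {z : Sym2 V →₀ ZMod 2} (hz : MinJ H z) {N : ℕ} (D : Dec H z N)
    {r : ℕ} (Y : Finset V) (hY : ∀ y ∈ Y, y ∈ K ∧ ∀ b ∈ B, 2 * r < G.dist y b)
    (I : Finset (Fin N × V)) (hI : ∀ q ∈ I, q.2 ∈ Y ∧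
      ∃ a ≤ (D.p q.1).length, G.dist q.2 ((D.p q.1).getVert a) ≤ 2 * r)
    (hI' : ∀ y ∈ Y, ∃ q ∈ I, q.2 = y) (o : V) :
    I.card ≤ Y.card + (ball G o (8 * r)).ncard * N := by
  -- weights
  let w : V → ℕ := fun y => (I.filter (fun q => q.2 = y)).card - 1
  have hw1 : ∀ y ∈ Y, (I.filter (fun q => q.2 = y)).card = w y + 1 := by
    intro y hy
    obtain ⟨q, hq, hqy⟩ := hI' y hy
    have h1 : 0 < (I.filter (fun q => q.2 = y)).card :=
      Finset.card_pos.2 ⟨q, Finset.mem_filter.2 ⟨hq, hqy⟩⟩
    change _ = (I.filter (fun q => q.2 = y)).card - 1 + 1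
    omega
  have hcount : ∀ Z ⊆ Y, (I.filter (fun q => q.2 ∈ Z)).card = ∑ y ∈ Z, w y + Z.card := by
    intro Z hZ
    have h1 : (I.filter (fun q => q.2 ∈ Z)).card =
        ∑ y ∈ Z, ((I.filter (fun q => q.2 ∈ Z)).filter (fun q => q.2 = y)).card :=
      Finset.card_eq_sum_card_fiberwise fun q hq => (Finset.mem_filter.1 (Finset.mem_coe.1 hq)).2
    have h2 : ∀ y ∈ Z, ((I.filter (fun q => q.2 ∈ Z)).filter (fun q => q.2 = y)).card =
        w y + 1 := by
      intro y hy
      rw [← hw1 y (hZ hy), Finset.filter_filter]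
      congr 1
      refine Finset.filter_congr fun q _ => ?_
      constructor
      · exact fun h => h.2
      · intro h
        exact ⟨h ▸ hy, h⟩
    rw [h1, Finset.sum_congr rfl h2, Finset.sum_add_distrib, Finset.sum_const, smul_eq_mul,
      mul_one]
  have hIall : (I.filter (fun q => q.2 ∈ Y)).card = I.card := by
    rw [Finset.filter_true_of_mem fun q hq => (hI q hq).1]
  have hItot : I.card = ∑ y ∈ Y, w y + Y.card := by
    rw [← hIall]
    exact hcount Y (Finset.Subset.refl _)
  -- an independent set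
  obtain ⟨Y', hY'Y, hind, hsum⟩ := indep_weight Y (fun y y' => G.dist y y' ≤ 8 * r)
    (fun a b hab => by rw [SimpleGraph.dist_comm]; exact hab)
    (fun a => by rw [SimpleGraph.dist_self]; exact Nat.zero_le _)
    (ball G o (8 * r)).ncard
    (by
      intro y _
      rw [ball_card h o y, Set.ncard_eq_toFinset_card _ (ball_finite h y (8 * r))]
      refine Finset.card_le_card ?_
      intro a ha
      rw [Set.Finite.mem_toFinset]
      exact (Finset.mem_filter.1 ha).2) w
  by_cases hN : ∑ y ∈ Y', w y ≤ N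
  · have h1 := Nat.mul_le_mul_left (ball G o (8 * r)).ncard hN
    omega
  exfalso
  push Not at hN
  -- the even subset
  obtain ⟨X, hXI, hXne, hrow, hcol⟩ := exists_even_subset Y' (I.filter (fun q => q.2 ∈ Y'))
    (fun q hq => (Finset.mem_filter.1 hq).2) (by
      rw [hcount Y' hY'Y, Fintype.card_fin]
      omega)
  -- positions
  let pos : Fin N → V → ℕ := fun i y =>
    if h : ∃ a ≤ (D.p i).length, G.dist y ((D.p i).getVert a) ≤ 2 * r then h.choose else 0
  have hpos : ∀ q ∈ X, pos q.1 q.2 ≤ (D.p q.1).length ∧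
      G.dist q.2 ((D.p q.1).getVert (pos q.1 q.2)) ≤ 2 * r := by
    intro q hq
    have h1 := (hI q (Finset.mem_filter.1 (hXI hq)).1).2
    have h2 : pos q.1 q.2 = h1.choose := dif_pos h1
    rw [h2]
    exact h1.choose_spec
  have hnear : ∀ q ∈ X, H.Reachable q.2 ((D.p q.1).getVert (pos q.1 q.2)) ∧
      H.dist q.2 ((D.p q.1).getVert (pos q.1 q.2)) ≤ 2 * r := by
    intro q hq
    have h1 := hY q.2 (hI q (Finset.mem_filter.1 (hXI hq)).1).1
    have h2 := F.ball_sub h.conn h1.1 h1.2 _ (hpos q hq).2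
    exact ⟨h2.2.1, h2.2.2.trans (hpos q hq).2⟩
  refine no_exchange hz D (4 * r + 1) (4 * r) (Nat.lt_succ_self _) X hXne hrow hcol pos
    (fun q hq => (hpos q hq).1) ?_ ?_
  · intro q hq q' hq' hqq
    have h1 := hnear q hq
    have h2 := hnear q' hq'
    rw [← hqq] at h2
    refine ⟨h1.1.symm.trans ?_, ?_⟩
    · rw [← hqq]
      exact h2.1
    · have h3 : H.dist ((D.p q.1).getVert (pos q.1 q.2)) ((D.p q'.1).getVert (pos q'.1 q.2)) ≤
          H.dist ((D.p q.1).getVert (pos q.1 q.2)) q.2 +
            H.dist q.2 ((D.p q'.1).getVert (pos q'.1 q.2)) := h1.1.symm.dist_triangle_left _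
      have h4 : H.dist ((D.p q.1).getVert (pos q.1 q.2)) q.2 =
          H.dist q.2 ((D.p q.1).getVert (pos q.1 q.2)) := SimpleGraph.dist_comm
      rw [← hqq]
      have h5 := h1.2
      have h6 := h2.2
      omega
  · intro q hq q' hq' hqq hne hle
    have h1 := hpos q hq
    have h2 := hpos q' hq'
    have hq2 : q.2 ≠ q'.2 := fun h0 => hne (Prod.ext hqq h0)
    have h3 := hind q.2 (Finset.mem_filter.1 (hXI hq)).2 q'.2 (Finset.mem_filter.1 (hXI hq')).2 hq2
    have h3' : 8 * r < G.dist q.2 q'.2 := not_le.1 h3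
    rw [← hqq] at h2 hle ⊢
    have h4 := D.dist_eq q.1 hle h2.1
    have hreach : H.Reachable ((D.p q.1).getVert (pos q.1 q.2))
        ((D.p q.1).getVert (pos q.1 q'.2)) :=
      ((D.p q.1).take (pos q.1 q.2)).reachable.symm.trans
        ((D.p q.1).take (pos q.1 q'.2)).reachable
    have h5 := hreach.dist_anti F.le
    have h6 : G.dist q.2 q'.2 ≤ G.dist q.2 ((D.p q.1).getVert (pos q.1 q.2)) +
        G.dist ((D.p q.1).getVert (pos q.1 q.2)) q'.2 := h.conn.dist_triangle
    have h7 : G.dist ((D.p q.1).getVert (pos q.1 q.2)) q'.2 ≤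
        G.dist ((D.p q.1).getVert (pos q.1 q.2)) ((D.p q.1).getVert (pos q.1 q'.2)) +
          G.dist ((D.p q.1).getVert (pos q.1 q'.2)) q'.2 := h.conn.dist_triangle
    have h8 : G.dist ((D.p q.1).getVert (pos q.1 q'.2)) q'.2 =
        G.dist q'.2 ((D.p q.1).getVert (pos q.1 q'.2)) := SimpleGraph.dist_comm
    have h9 := h1.2
    have h10 := h2.2
    omega

end Pool.Agent.FIIDU
end

section

/-!
# MP_767f1c_pr: minimal chains in finite subgraphs are short
-/

set_option autoImplicit false

namespace Pool.Agent.FIIDU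

open Set
open scoped Classical


variable {V : Type}

/-- vertices of a walk of positive length -/
private theorem TCore_inK {G H : SimpleGraph V} {K B : Finset V} (F : FinSub G H K B) {x y : V}
    (p : H.Walk x y) (hxy : x ≠ y) {a : ℕ} (ha : a ≤ p.length) : p.getVert a ∈ K := by
  have hlen : 0 < p.length := by
    rw [Nat.pos_iff_ne_zero]
    intro h0
    exact hxy (SimpleGraph.Walk.eq_of_length_eq_zero h0)
  by_cases h1 : a < p.length
  · exact F.inK _ _ (p.adj_getVert_succ h1)
  · obtain ⟨b, rfl⟩ : ∃ b, a = b + 1 := ⟨a - 1, by omega⟩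
    exact F.inK _ _ (p.adj_getVert_succ (i := b) (by omega)).symm

/-- the positions of a geodesic near a hub -/
private theorem TCore_near {G H : SimpleGraph V} {K B : Finset V} (F : FinSub G H K B)
    (hG : G.Connected) {z : Sym2 V →₀ ZMod 2} {N : ℕ} (D : Dec H z N) {r : ℕ} {y : V}
    (hy : y ∈ K) (hfar : ∀ b ∈ B, 2 * r < G.dist y b) (i : Fin N) :
    ((Finset.range ((D.p i).length + 1)).filter
      (fun a => G.dist y ((D.p i).getVert a) ≤ 2 * r)).card ≤ 4 * r + 1 := by
  set S := (Finset.range ((D.p i).length + 1)).filter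
      (fun a => G.dist y ((D.p i).getVert a) ≤ 2 * r) with hS
  rcases S.eq_empty_or_nonempty with hemp | hne
  · rw [hemp]
    simp
  · have hm := S.min'_mem hne
    set m := S.min' hne with hmdef
    have hsub : S ⊆ Finset.Icc m (m + 4 * r) := by
      intro b hb
      have hmb : m ≤ b := S.min'_le b hb
      rw [Finset.mem_Icc]
      refine ⟨hmb, ?_⟩
      rw [hS, Finset.mem_filter, Finset.mem_range] at hm hb
      have h1 := D.dist_eq i hmb (by omega)
      obtain ⟨_, hr1, hd1⟩ := F.ball_sub hG hy hfar _ hm.2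
      obtain ⟨_, hr2, hd2⟩ := F.ball_sub hG hy hfar _ hb.2
      obtain ⟨q1, hq1⟩ := hr1.exists_walk_length_eq_dist
      obtain ⟨q2, hq2⟩ := hr2.exists_walk_length_eq_dist
      have h2 := SimpleGraph.dist_le (q1.reverse.append q2)
      rw [SimpleGraph.Walk.length_append, SimpleGraph.Walk.length_reverse] at h2
      omega
    refine (Finset.card_le_card hsub).trans ?_
    rw [Nat.card_Icc]
    omega

/-- **Minimal chains are short.** -/
theorem minJ_short {G : SimpleGraph V} {d : ℕ} (h : Std G d) (o : V) (r : ℕ) :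
    ∃ c : ℕ, ∀ (H : SimpleGraph V) (K B : Finset V), FinSub G H K B →
      ∀ z : Sym2 V →₀ ZMod 2, MinJ H z → (∀ v ∈ (bdy z).support, v ∈ B) →
        (ball G o r).ncard * z.support.card ≤ (4 * r + 1) * K.card + c * B.card := by
  refine ⟨2 * d * ((ball G o r).ncard * (ball G o (2 * r)).ncard) +
    (4 * r + 1) * ((ball G o r).ncard * (ball G o (8 * r)).ncard), ?_⟩
  intro H K B F z hz hB
  obtain ⟨N, hN, ⟨D⟩⟩ := exists_dec hz
  have hNB : N ≤ B.card := by
    have h1 : (bdy z).support.card ≤ B.card := Finset.card_le_card hB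
    omega
  -- vertices near B
  let A1 : Finset V := B.biUnion (fun b => (ball_finite h b (2 * r)).toFinset)
  have hA1 : A1.card ≤ B.card * (ball G o (2 * r)).ncard := by
    refine Finset.card_biUnion_le_card_mul _ _ _ ?_
    intro b _
    rw [← Set.ncard_eq_toFinset_card _ (ball_finite h b (2 * r)), ball_card h b o (2 * r)]
  -- visited vertices far from B
  let A : Finset V := K.filter (fun v => (∀ b ∈ B, 2 * r < G.dist v b) ∧
    ∃ i, ∃ a ≤ (D.p i).length, (D.p i).getVert a = v)
  obtain ⟨Y, hYA, hsep, hcov⟩ := exists_separated h.conn A r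
  have hYK : ∀ y ∈ Y, y ∈ K ∧ ∀ b ∈ B, 2 * r < G.dist y b := by
    intro y hy
    have h1 := Finset.mem_filter.1 (hYA hy)
    exact ⟨h1.1, h1.2.1⟩
  let I : Finset (Fin N × V) := (Finset.univ ×ˢ Y).filter (fun q =>
    ∃ a ≤ (D.p q.1).length, G.dist q.2 ((D.p q.1).getVert a) ≤ 2 * r)
  have hI : ∀ q ∈ I, q.2 ∈ Y ∧
      ∃ a ≤ (D.p q.1).length, G.dist q.2 ((D.p q.1).getVert a) ≤ 2 * r := by
    intro q hq
    have h1 := Finset.mem_filter.1 hq
    exact ⟨(Finset.mem_product.1 h1.1).2, h1.2⟩
  have hI' : ∀ y ∈ Y, ∃ q ∈ I, q.2 = y := by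
    intro y hy
    have h1 := Finset.mem_filter.1 (hYA hy)
    obtain ⟨i, a, ha, hv⟩ := h1.2.2
    refine ⟨(i, y), Finset.mem_filter.2 ⟨Finset.mem_product.2 ⟨Finset.mem_univ _, hy⟩, a, ha, ?_⟩,
      rfl⟩
    change G.dist y ((D.p i).getVert a) ≤ 2 * r
    rw [hv, SimpleGraph.dist_self]
    exact Nat.zero_le _
  have hinc := incidence_le h F hz D Y hYK I hI hI' o
  have hYcard := card_separated h hsep (K := K) (fun y hy => by
    intro u hu
    have h1 := F.ball_sub h.conn (hYK y hy).1 (r := 2 * r) (hYK y hy).2 u (by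
      have : G.dist y u ≤ r := hu
      omega)
    exact h1.1) o
  -- the number of positions
  have hlen : z.support.card ≤
      ∑ i, ((Finset.range ((D.p i).length + 1)).filter (fun a => (D.p i).getVert a ∈ A1)).card +
      ∑ i, ((Finset.range ((D.p i).length + 1)).filter (fun a => (D.p i).getVert a ∈ A)).card := by
    rw [D.card, ← Finset.sum_add_distrib]
    refine Finset.sum_le_sum fun i _ => ?_
    have h1 : Finset.range ((D.p i).length + 1) ⊆
        (Finset.range ((D.p i).length + 1)).filter (fun a => (D.p i).getVert a ∈ A1) ∪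
        (Finset.range ((D.p i).length + 1)).filter (fun a => (D.p i).getVert a ∈ A) := by
      intro a ha
      have ha' : a ≤ (D.p i).length := by
        rw [Finset.mem_range] at ha
        omega
      rw [Finset.mem_union, Finset.mem_filter, Finset.mem_filter]
      by_cases hb : ∃ b ∈ B, G.dist b ((D.p i).getVert a) ≤ 2 * r
      · obtain ⟨b, hb, hd⟩ := hb
        refine Or.inl ⟨ha, Finset.mem_biUnion.2 ⟨b, hb, ?_⟩⟩
        rw [Set.Finite.mem_toFinset]
        exact hd
      · push Not at hb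
        refine Or.inr ⟨ha, Finset.mem_filter.2 ⟨TCore_inK F (D.p i) (D.ne i) ha', ?_, i, a, ha',
          rfl⟩⟩
        intro b hb'
        rw [SimpleGraph.dist_comm]
        exact hb b hb'
    have h2 := (Finset.card_le_card h1).trans (Finset.card_union_le _ _)
    rw [Finset.card_range] at h2
    omega
  have hpos1 := positions_le h F.le D A1
  have hpos2 : ∑ i, ((Finset.range ((D.p i).length + 1)).filter
      (fun a => (D.p i).getVert a ∈ A)).card ≤ I.card * (4 * r + 1) := by
    rw [← Finset.card_sigma]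
    have h1 : (Finset.univ : Finset (Fin N)).sigma (fun i =>
        (Finset.range ((D.p i).length + 1)).filter (fun a => (D.p i).getVert a ∈ A)) ⊆
        I.biUnion (fun q => ((Finset.range ((D.p q.1).length + 1)).filter
          (fun a => G.dist q.2 ((D.p q.1).getVert a) ≤ 2 * r)).image
          (fun a => (⟨q.1, a⟩ : (_ : Fin N) × ℕ))) := by
      rintro ⟨i, a⟩ hia
      rw [Finset.mem_sigma, Finset.mem_filter] at hia
      obtain ⟨_, ha, hv⟩ := hia
      simp only at ha hv
      obtain ⟨y, hy, hd⟩ := hcov _ hv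
      have ha' : a ≤ (D.p i).length := by
        rw [Finset.mem_range] at ha
        omega
      rw [Finset.mem_biUnion]
      refine ⟨(i, y), Finset.mem_filter.2 ⟨Finset.mem_product.2 ⟨Finset.mem_univ _, hy⟩, a, ha',
        hd⟩, ?_⟩
      rw [Finset.mem_image]
      exact ⟨a, Finset.mem_filter.2 ⟨ha, hd⟩, rfl⟩
    refine (Finset.card_le_card h1).trans (Finset.card_biUnion_le_card_mul _ _ _ ?_)
    intro q hq
    refine Finset.card_image_le.trans ?_
    have h2 := hI q hq
    exact TCore_near F h.conn D (hYK q.2 h2.1).1 (hYK q.2 h2.1).2 q.1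
  set β := (ball G o r).ncard
  set β2 := (ball G o (2 * r)).ncard
  set β8 := (ball G o (8 * r)).ncard
  calc β * z.support.card ≤ β * (2 * d * A1.card + I.card * (4 * r + 1)) :=
        Nat.mul_le_mul_left _ (hlen.trans (add_le_add hpos1 hpos2))
    _ ≤ β * (2 * d * (B.card * β2) + (Y.card + β8 * N) * (4 * r + 1)) := by
        refine Nat.mul_le_mul_left _ (add_le_add (Nat.mul_le_mul_left _ hA1)
          (Nat.mul_le_mul_right _ hinc))
    _ = 2 * d * (β * β2) * B.card + (4 * r + 1) * (β * Y.card) +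
          (4 * r + 1) * (β * β8) * N := by ring
    _ ≤ 2 * d * (β * β2) * B.card + (4 * r + 1) * K.card +
          (4 * r + 1) * (β * β8) * B.card := by
        refine add_le_add (add_le_add le_rfl (Nat.mul_le_mul_left _ hYcard))
          (Nat.mul_le_mul_left _ hNB)
    _ = (4 * r + 1) * K.card + (2 * d * (β * β2) + (4 * r + 1) * (β * β8)) * B.card := by ring

end Pool.Agent.FIIDU
end
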