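import Pool.Agent.Lib.MP_767f1c_pr.Mg.G004
import Pool.Agent.Lib.MP_767f1c_pr.Mg.G002
import Pool.Agent.Lib.MP_767f1c_pr.Mg.G001

section

/-!
# MP_767f1c_pr: existence of short mod 2 joins
-/

set_option autoImplicit false

namespace Pool.Agent.FIIDU

open MeasureTheory Set Filter
open scoped ENNReal


variable {V : Type}

/-- `l` is the list of the arcs of a short set of open edges in the component of `x` such that
together with the closed edges `C` all degrees in the component are even -/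
structure TjC (G : SimpleGraph V) (C : V → V → Prop) (k r c : ℕ) (x : V) (l : Obj V) : Prop where
  nodup : l.Nodup
  sub : ∀ p ∈ l, rem G C p.1 p.2 ∧ p.1 ∈ comp (rem G C) x
  symm : ∀ y z, (y, z) ∈ l → (z, y) ∈ l
  par : ∀ y ∈ comp (rem G C) x, Even ({z | (y, z) ∈ l}.ncard + dg C y)
  short : k * l.length ≤ 2 * (4 * r + 1) * (comp (rem G C) x).ncard +
    c * {y | y ∈ comp (rem G C) x ∧ ∃ z, C y z}.ncard

private theorem TPA_bde {y : V} (e : Sym2 V) :
    ¬ e.IsDiag → ∀ [Decidable (y ∈ e)], (bde e : V →₀ ZMod 2) y = if y ∈ e then 1 else 0 := by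
  classical
  induction e using Sym2.ind with
  | _ a b =>
    intro he _
    have hab : a ≠ b := by simpa using he
    change (Finsupp.single a 1 + Finsupp.single b 1 : V →₀ ZMod 2) y = _
    rw [Finsupp.add_apply, Finsupp.single_apply, Finsupp.single_apply]
    by_cases h1 : a = y
    · subst h1
      simp [hab.symm]
    · by_cases h2 : b = y
      · subst h2
        simp [h1]
      · have h3 : ¬ y ∈ s(a, b) := by
          rw [Sym2.mem_iff]
          rintro (h | h)
          · exact h1 h.symm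
          · exact h2 h.symm
        simp [h1, h2, h3]

private theorem TPA_bdy {z : Sym2 V →₀ ZMod 2} (hz : ∀ e ∈ z.support, ¬ e.IsDiag) (y : V) :
    bdy z y = ({w | s(y, w) ∈ z.support}.ncard : ZMod 2) := by
  classical
  have h1 : bdy z = ∑ e ∈ z.support, bde e := by
    unfold bdy
    rw [Finsupp.lift_apply, Finsupp.sum]
    refine Finset.sum_congr rfl fun e he => ?_
    have h2 : z e = 1 := by
      have h3 : z e ≠ 0 := Finsupp.mem_support_iff.mp he
      revert h3
      generalize z e = a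
      revert a
      decide
    rw [h2, one_smul]
  rw [h1, Finsupp.finsetSum_apply]
  have h4 : ∑ e ∈ z.support, (bde e : V →₀ ZMod 2) y =
      ∑ e ∈ z.support, if y ∈ e then (1 : ZMod 2) else 0 :=
    Finset.sum_congr rfl fun e he => TPA_bde e (hz e he)
  rw [h4, Finset.sum_boole]
  congr 1
  have h5 : ((z.support.filter (fun e => y ∈ e) : Finset (Sym2 V)) : Set (Sym2 V)) =
      (fun w => s(y, w)) '' {w | s(y, w) ∈ z.support} := by
    ext e
    simp only [Finset.coe_filter, Set.mem_ofPred_eq, Set.mem_image]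
    constructor
    · rintro ⟨h6, h7⟩
      obtain ⟨w, rfl⟩ := Sym2.mem_iff_exists.mp h7
      exact ⟨w, h6, rfl⟩
    · rintro ⟨w, h6, rfl⟩
      exact ⟨h6, Sym2.mem_mk_left _ _⟩
  rw [← Set.ncard_coe_finset, h5, Set.ncard_image_of_injective]
  intro a b hab
  exact Sym2.congr_right.mp hab

private theorem TPA_list {z : Sym2 V →₀ ZMod 2} (K : Finset V)
    (hK : ∀ a b, s(a, b) ∈ z.support → a ∈ K) :
    ∃ l : Obj V, l.Nodup ∧ (∀ a b, (a, b) ∈ l ↔ s(a, b) ∈ z.support) ∧
      l.length ≤ 2 * z.support.card := by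
  classical
  refine ⟨((K ×ˢ K).filter (fun p => s(p.1, p.2) ∈ z.support)).toList, Finset.nodup_toList _,
    ?_, ?_⟩
  · intro a b
    rw [Finset.mem_toList, Finset.mem_filter, Finset.mem_product]
    constructor
    · exact fun h => h.2
    · intro h
      refine ⟨⟨hK a b h, hK b a ?_⟩, h⟩
      rwa [Sym2.eq_swap]
  · rw [Finset.length_toList]
    refine Finset.card_le_mul_card_image_of_maps_to (f := fun p : V × V => s(p.1, p.2))
      (fun p hp => (Finset.mem_filter.mp hp).2) 2 ?_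
    intro e _
    induction e using Sym2.ind with
    | _ a b =>
      refine (Finset.card_le_card (t := {(a, b), (b, a)}) ?_).trans Finset.card_le_two
      intro p hp
      obtain ⟨_, h⟩ := Finset.mem_filter.mp hp
      obtain ⟨p1, p2⟩ := p
      simp only [Sym2.eq_iff] at h
      simp only [Finset.mem_insert, Finset.mem_singleton, Prod.mk.injEq]
      exact h

theorem exists_tjC {G : SimpleGraph V} {d : ℕ} (h : Std G d) (o : V) (r : ℕ) :
    ∃ c : ℕ, ∀ C : V → V → Prop, SubE G C → ∀ x, (comp (rem G C) x).Finite →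
      ∃ l, TjC G C (ball G o r).ncard r c x l := by
  classical
  obtain ⟨c, hc⟩ := minJ_short h o r
  refine ⟨2 * c, fun C hC x hfin => ?_⟩
  have hstep : ∀ y w, y ∈ comp (rem G C) x → rem G C y w → w ∈ comp (rem G C) x :=
    fun y w hy hw => Relation.ReflTransGen.tail hy hw
  have hsymm : ∀ y w, rem G C y w → rem G C w y := fun y w hw =>
    ⟨hw.1.symm, fun h' => hw.2 (hC w y h').1⟩
  let H : SimpleGraph V :=
    { Adj := fun y w => rem G C y w ∧ y ∈ comp (rem G C) x
      symm := ⟨fun y w hw => ⟨hsymm y w hw.1, hstep y w hw.2 hw.1⟩⟩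
      loopless := ⟨fun y hy => G.loopless.irrefl y hy.1.1⟩ }
  have hHadj : ∀ y w, H.Adj y w ↔ rem G C y w ∧ y ∈ comp (rem G C) x := fun _ _ => Iff.rfl
  set K : Finset V := hfin.toFinset with hKdef
  have hK : ∀ y, y ∈ K ↔ y ∈ comp (rem G C) x := fun y => Set.Finite.mem_toFinset _
  have hreach : ∀ y, y ∈ comp (rem G C) x → H.Reachable x y := by
    intro y hy
    induction hy with
    | refl => exact SimpleGraph.Reachable.refl x
    | @tail b c hb hbc ih =>
      exact ih.trans (SimpleGraph.Adj.reachable ((hHadj b c).mpr ⟨hbc, hb⟩))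
  have F : FinSub G H K (K.filter (fun y => ∃ w, C y w)) :=
    { le := fun y w hw => hw.1.1
      inK := fun y w hw => (hK y).mpr hw.2
      conn := fun y hy w hw => (hreach y ((hK y).mp hy)).symm.trans (hreach w ((hK w).mp hw))
      bad := fun y hy hyB w hw => (hHadj y w).mpr
        ⟨⟨hw, fun h' => hyB (Finset.mem_filter.mpr ⟨hy, w, h'⟩)⟩, (hK y).mp hy⟩
      subB := Finset.filter_subset _ _ }
  -- the chain of all edges
  let E : Finset (Sym2 V) := ((K ×ˢ K).filter (fun p => H.Adj p.1 p.2)).image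
    (fun p => s(p.1, p.2))
  have hE : ∀ a b, s(a, b) ∈ E ↔ H.Adj a b := by
    intro a b
    simp only [E, Finset.mem_image, Finset.mem_filter, Finset.mem_product, Prod.exists]
    constructor
    · rintro ⟨a', b', ⟨_, h2⟩, h3⟩
      rcases Sym2.eq_iff.mp h3 with ⟨rfl, rfl⟩ | ⟨rfl, rfl⟩
      · exact h2
      · exact h2.symm
    · intro h2
      exact ⟨a, b, ⟨⟨F.inK a b h2, F.inK b a h2.symm⟩, h2⟩, rfl⟩
  let z0 : Sym2 V →₀ ZMod 2 := Finsupp.indicator E (fun _ _ => 1)
  have hz0 : ∀ e, e ∈ z0.support ↔ e ∈ E := by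
    intro e
    rw [Finsupp.mem_support_iff]
    simp only [z0, Finsupp.indicator_apply]
    split_ifs with h1
    · simp [h1]
    · simp [h1]
  have hz0H : ∀ e ∈ z0.support, e ∈ H.edgeSet := by
    intro e he
    induction e using Sym2.ind with
    | _ a b => exact (SimpleGraph.mem_edgeSet H).mpr ((hE a b).mp ((hz0 _).mp he))
  have hdiag : ∀ z : Sym2 V →₀ ZMod 2, (∀ e ∈ z.support, e ∈ H.edgeSet) →
      ∀ e ∈ z.support, ¬ e.IsDiag := fun z hz e he =>
    SimpleGraph.not_isDiag_of_mem_edgeSet H (hz e he)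
  obtain ⟨z, hz, hbz⟩ := exists_minJ hz0H
  -- the boundary
  have hdeg : ∀ y, dg (rem G C) y + dg C y = 2 * d := by
    intro y
    rw [← h.deg y]
    unfold dg
    have hf1 : {w | rem G C y w}.Finite := (h.fin y).subset fun w hw => hw.1
    have hf2 : {w | C y w}.Finite := (h.fin y).subset fun w hw => (hC y w hw).2
    rw [← Set.ncard_union_eq _ hf1 hf2]
    · congr 1
      ext w
      simp only [Set.mem_union, Set.mem_ofPred_eq, rem]
      constructor
      · rintro (h1 | h1)
        · exact h1.1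
        · exact (hC y w h1).2
      · intro h1
        by_cases h2 : C y w
        · exact Or.inr h2
        · exact Or.inl ⟨h1, h2⟩
    · rw [Set.disjoint_left]
      intro w h1 h2
      exact h1.2 h2
  have hb1 : ∀ y ∈ comp (rem G C) x, bdy z0 y = (dg C y : ZMod 2) := by
    intro y hy
    rw [TPA_bdy (hdiag z0 hz0H) y]
    have h1 : {w | s(y, w) ∈ z0.support} = {w | rem G C y w} := by
      ext w
      simp only [Set.mem_ofPred_eq, hz0, hE, hHadj]
      exact ⟨fun h' => h'.1, fun h' => ⟨h', hy⟩⟩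
    rw [h1]
    have h2 := hdeg y
    have h3 : ((dg (rem G C) y : ℕ) : ZMod 2) + (dg C y : ZMod 2) = 0 := by
      rw [← Nat.cast_add, h2, Nat.cast_mul]
      have : ((2 : ℕ) : ZMod 2) = 0 := by decide
      rw [this, zero_mul]
    change ((dg (rem G C) y : ℕ) : ZMod 2) = _
    rw [← CharTwo.add_eq_zero]
    exact h3
  have hb2 : ∀ y, y ∉ comp (rem G C) x → bdy z0 y = 0 := by
    intro y hy
    rw [TPA_bdy (hdiag z0 hz0H) y]
    have h1 : {w | s(y, w) ∈ z0.support} = ∅ := by
      ext w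
      simp only [Set.mem_ofPred_eq, hz0, hE, hHadj, Set.mem_empty_iff_false, iff_false]
      exact fun h' => hy h'.2
    rw [h1, Set.ncard_empty, Nat.cast_zero]
  have hshort := hc H K _ F z hz (by
    intro v hv
    rw [hbz, Finsupp.mem_support_iff] at hv
    by_cases hvc : v ∈ comp (rem G C) x
    · rw [hb1 v hvc] at hv
      refine Finset.mem_filter.mpr ⟨(hK v).mpr hvc, ?_⟩
      by_contra hcon
      apply hv
      have : {w | C v w} = ∅ := by
        ext w
        simp only [Set.mem_ofPred_eq, Set.mem_empty_iff_false, iff_false]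
        exact fun h' => hcon ⟨w, h'⟩
      unfold dg
      rw [this, Set.ncard_empty, Nat.cast_zero]
    · exact absurd (hb2 v hvc) hv)
  have hzadj : ∀ a b, s(a, b) ∈ z.support → H.Adj a b := fun a b hab =>
    (SimpleGraph.mem_edgeSet H).mp (hz.sub _ hab)
  obtain ⟨l, hl1, hl2, hl3⟩ := TPA_list (z := z) K fun a b hab => F.inK a b (hzadj a b hab)
  refine ⟨l, hl1, ?_, ?_, ?_, ?_⟩
  · rintro ⟨a, b⟩ hp
    exact hzadj a b ((hl2 a b).mp hp)
  · intro a b hab
    rw [hl2] at hab ⊢
    rwa [Sym2.eq_swap]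
  · intro y hy
    have h1 : {w | (y, w) ∈ l} = {w | s(y, w) ∈ z.support} := by
      ext w
      exact hl2 y w
    rw [h1]
    have h2 := TPA_bdy (hdiag z hz.sub) y
    rw [hbz, hb1 y hy] at h2
    rw [← ZMod.natCast_eq_zero_iff_even, Nat.cast_add, ← h2]
    exact CharTwo.add_self_eq_zero _
  · have h1 : (comp (rem G C) x).ncard = K.card := by
      rw [hKdef, Set.ncard_eq_toFinset_card _ hfin]
    have h2 : {y | y ∈ comp (rem G C) x ∧ ∃ w, C y w}.ncard =
        (K.filter (fun y => ∃ w, C y w)).card := by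
      rw [← Set.ncard_coe_finset]
      congr 1
      ext y
      simp only [Finset.coe_filter, Set.mem_ofPred_eq, hK]
    rw [h1, h2]
    calc (ball G o r).ncard * l.length ≤ (ball G o r).ncard * (2 * z.support.card) :=
          Nat.mul_le_mul_left _ hl3
      _ = 2 * ((ball G o r).ncard * z.support.card) := by ring
      _ ≤ 2 * ((4 * r + 1) * K.card + c * (K.filter (fun y => ∃ w, C y w)).card) :=
          Nat.mul_le_mul_left _ hshort
      _ = _ := by ring

end Pool.Agent.FIIDU
end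

section

/-!
# MP_767f1c_pr: short mod 2 joins form a factor
-/

set_option autoImplicit false

namespace Pool.Agent.FIIDU

open MeasureTheory Set Filter
open scoped ENNReal


variable {V : Type}

private theorem TPB_dg_equi [Countable V] {G : SimpleGraph V} {R : Om V → V → V → Prop}
    (hR : Fac2 G R) (φ : G ≃g G) (ω : Om V) (x : V) : dg (R (act φ ω)) x = dg (R ω) (φ x) :=
  (((hR.dg_eq _).equi φ ω x).1 rfl).symm

private theorem TPB_rem [Countable V] {G : SimpleGraph V} {C : Om V → V → V → Prop}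
    (hC : Fac2 G C) : Fac2 G (fun ω x y => rem G (C ω) x y) := by
  refine ⟨fun x y => measurable_const.and (hC.meas x y).not, fun φ ω x y => ?_⟩
  change (G.Adj x y ∧ ¬ C (act φ ω) x y) ↔ (G.Adj (φ x) (φ y) ∧ ¬ C ω (φ x) (φ y))
  rw [hC.equi φ ω x y, SimpleGraph.Iso.map_adj_iff]

/-- the vertices of the component with a closed edge -/
private def TPB_R2 (G : SimpleGraph V) (C : Om V → V → V → Prop) (ω : Om V) (x y : V) : Prop :=
  Relation.ReflTransGen (rem G (C ω)) x y ∧ ∃ z, C ω y z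

private theorem TPB_reach [Countable V] {G : SimpleGraph V} {C : Om V → V → V → Prop}
    (hC : Fac2 G C) : Fac2 G (fun ω x y => Relation.ReflTransGen (rem G (C ω)) x y) :=
  (TPB_rem hC).meas_reach

private theorem TPB_R2_fac [Countable V] {G : SimpleGraph V} {C : Om V → V → V → Prop}
    (hC : Fac2 G C) : Fac2 G (TPB_R2 G C) := by
  refine ⟨fun x y => ((TPB_reach hC).meas x y).and (Measurable.exists fun z => hC.meas y z),
    fun φ ω x y => ?_⟩
  refine and_congr ((TPB_reach hC).equi φ ω x y) ?_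
  constructor
  · rintro ⟨z, hz⟩
    exact ⟨φ z, (hC.equi φ ω y z).1 hz⟩
  · rintro ⟨z, hz⟩
    refine ⟨φ.symm z, (hC.equi φ ω y _).2 ?_⟩
    rw [RelIso.apply_symm_apply]
    exact hz

private theorem TPB_iff (G : SimpleGraph V) (C : Om V → V → V → Prop) (ω : Om V) (k r c : ℕ)
    (x : V) (l : Obj V) : TjC G (C ω) k r c x l ↔
      (l.Nodup ∧ (∀ p : V × V, p ∈ l →
        (rem G (C ω) p.1 p.2 ∧ Relation.ReflTransGen (rem G (C ω)) x p.1))) ∧
      ((∀ y z, (y, z) ∈ l → (z, y) ∈ l) ∧
      ((∀ y, Relation.ReflTransGen (rem G (C ω)) x y →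
        ∃ b : ℕ, dg (C ω) y = b ∧ Even ({z | (y, z) ∈ l}.ncard + b)) ∧
      ∃ a b : ℕ, dg (fun x y => Relation.ReflTransGen (rem G (C ω)) x y) x = a ∧
        (dg (TPB_R2 G C ω) x = b ∧ k * l.length ≤ 2 * (4 * r + 1) * a + c * b))) := by
  constructor
  · rintro ⟨h1, h2, h3, h4, h5⟩
    exact ⟨⟨h1, h2⟩, h3, fun y hy => ⟨_, rfl, h4 y hy⟩, _, _, rfl, rfl, h5⟩
  · rintro ⟨⟨h1, h2⟩, h3, h4, a, b, rfl, rfl, h5⟩
    refine ⟨h1, h2, h3, fun y hy => ?_, h5⟩
    obtain ⟨b, rfl, hb⟩ := h4 y hy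
    exact hb

private theorem TPB_mem_map {G : SimpleGraph V} (φ : G ≃g G) (l : Obj V) (y z : V) :
    (φ y, φ z) ∈ mapO φ l ↔ (y, z) ∈ l := by
  unfold mapO
  rw [List.mem_map]
  constructor
  · rintro ⟨⟨a, b⟩, hab, he⟩
    rw [Prod.map_apply, Prod.mk.injEq] at he
    rw [← φ.injective he.1, ← φ.injective he.2]
    exact hab
  · intro h
    exact ⟨(y, z), h, rfl⟩

private theorem TPB_ncard_map {G : SimpleGraph V} (φ : G ≃g G) (l : Obj V) (y : V) :
    {z | (φ y, z) ∈ mapO φ l}.ncard = {z | (y, z) ∈ l}.ncard := by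
  have e : {z | (φ y, z) ∈ mapO φ l} = φ '' {z | (y, z) ∈ l} := by
    ext z
    constructor
    · intro hz
      refine ⟨φ.symm z, ?_, RelIso.apply_symm_apply φ z⟩
      refine (TPB_mem_map φ l y (φ.symm z)).1 ?_
      rw [RelIso.apply_symm_apply]
      exact hz
    · rintro ⟨w, hw, rfl⟩
      exact (TPB_mem_map φ l y w).2 hw
  rw [e, Set.ncard_image_of_injective _ φ.injective]

theorem tjC_fac [Countable V] {G : SimpleGraph V} {C : Om V → V → V → Prop} (hC : Fac2 G C)
    (k r c : ℕ) : Fac1O G (fun ω x l => TjC G (C ω) k r c x l) := by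
  constructor
  · intro x l
    simp only [TPB_iff]
    refine (measurable_const.and (Measurable.forall fun p : V × V => measurable_const.imp
      (((TPB_rem hC).meas p.1 p.2).and ((TPB_reach hC).meas x p.1)))).and
      (measurable_const.and ((Measurable.forall fun y => ((TPB_reach hC).meas x y).imp
        (Measurable.exists fun b => ((hC.dg_eq b).meas y).and measurable_const)).and
      (Measurable.exists fun a => Measurable.exists fun b =>
        (((TPB_reach hC).dg_eq a).meas x).and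
          ((((TPB_R2_fac hC).dg_eq b).meas x).and measurable_const))))
  · intro φ ω x l
    have hr := (TPB_reach hC).equi φ ω
    have hre := (TPB_rem hC).equi φ ω
    have h1 : (comp (rem G (C (act φ ω))) x).ncard = (comp (rem G (C ω)) (φ x)).ncard :=
      TPB_dg_equi (TPB_reach hC) φ ω x
    have h2 : {y | y ∈ comp (rem G (C (act φ ω))) x ∧ ∃ z, C (act φ ω) y z}.ncard =
        {y | y ∈ comp (rem G (C ω)) (φ x) ∧ ∃ z, C ω y z}.ncard :=
      TPB_dg_equi (TPB_R2_fac hC) φ ω x
    have hlen : (mapO φ l).length = l.length := List.length_map _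
    constructor
    · rintro ⟨a1, a2, a3, a4, a5⟩
      refine ⟨?_, ?_, ?_, ?_, ?_⟩
      · exact a1.map (Function.Injective.prodMap φ.injective φ.injective)
      · intro p hp
        obtain ⟨q, hq, rfl⟩ := List.mem_map.1 hp
        exact ⟨(hre _ _).1 (a2 q hq).1, (hr _ _).1 (a2 q hq).2⟩
      · intro y z hyz
        obtain ⟨y, rfl⟩ := φ.surjective y
        obtain ⟨z, rfl⟩ := φ.surjective z
        exact (TPB_mem_map φ l z y).2 (a3 y z ((TPB_mem_map φ l y z).1 hyz))
      · intro y hy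
        obtain ⟨y, rfl⟩ := φ.surjective y
        have hy' := a4 y ((hr x y).2 hy)
        rw [TPB_ncard_map, ← TPB_dg_equi hC φ ω y]
        exact hy'
      · rw [hlen, ← h1, ← h2]
        exact a5
    · rintro ⟨a1, a2, a3, a4, a5⟩
      refine ⟨?_, ?_, ?_, ?_, ?_⟩
      · exact List.Nodup.of_map _ a1
      · intro p hp
        have := a2 (φ p.1, φ p.2) ((TPB_mem_map φ l p.1 p.2).2 hp)
        exact ⟨(hre _ _).2 this.1, (hr _ _).2 this.2⟩
      · intro y z hyz
        exact (TPB_mem_map φ l z y).1 (a3 _ _ ((TPB_mem_map φ l y z).2 hyz))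
      · intro y hy
        have hy' := a4 (φ y) ((hr x y).1 hy)
        rw [TPB_ncard_map, ← TPB_dg_equi hC φ ω y] at hy'
        exact hy'
      · rw [hlen, ← h1, ← h2] at a5
        exact a5

end Pool.Agent.FIIDU
end

section

/-!
# MP_767f1c_pr: adding short mod 2 joins to a percolation
-/

set_option autoImplicit false

namespace Pool.Agent.FIIDU

open MeasureTheory Set Filter
open scoped ENNReal


variable {V : Type}

private theorem cmp_symm {R : V → V → Prop} (hR : ∀ x y, R x y → R y x) {x y : V}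
    (h : y ∈ comp R x) : x ∈ comp R y := by
  have h' : Relation.ReflTransGen R x y := h
  change Relation.ReflTransGen R y x
  induction h' with
  | refl => exact Relation.ReflTransGen.refl
  | tail h1 h2 ih => exact Relation.ReflTransGen.head (hR _ _ h2) (ih h1)

private theorem cmp_eq {R : V → V → Prop} (hR : ∀ x y, R x y → R y x) {x y : V}
    (h : y ∈ comp R x) : comp R y = comp R x := by
  ext z
  exact ⟨fun hz => Relation.ReflTransGen.trans h hz,
    fun hz => Relation.ReflTransGen.trans (cmp_symm hR h) hz⟩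

private theorem dg_meas [Countable V] {G : SimpleGraph V} {R : Om V → V → V → Prop}
    (hR : Fac2 G R) (x : V) : Measurable (fun ω => ((dg (R ω) x : ℕ) : ℝ≥0∞)) := by
  have h1 : Measurable (fun ω => dg (R ω) x) := by
    refine measurable_to_countable' fun k => ?_
    exact measurableSet_setOfPred.2 ((hR.dg_eq k).meas x)
  exact (measurable_of_countable (fun n : ℕ => (n : ℝ≥0∞))).comp h1

private theorem dg_equi [Countable V] {G : SimpleGraph V} {R : Om V → V → V → Prop}
    (hR : Fac2 G R) (φ : G ≃g G) (ω : Om V) (x : V) : dg (R (act φ ω)) x = dg (R ω) (φ x) :=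
  ((hR.dg_eq (dg (R ω) (φ x))).equi φ ω x).2 rfl

/-- averaging over finite components -/
private theorem comp_avg [Countable V] {G : SimpleGraph V} {d : ℕ} (h : Std G d) (o : V)
    {R : Om V → V → V → Prop} (hR : Fac2 G R) (hsym : ∀ ω x y, R ω x y → R ω y x)
    (hfin : ∀ᵐ ω ∂PP V, ∀ x, (comp (R ω) x).Finite) (g : Om V → V → ℝ≥0∞)
    (hm : ∀ x, Measurable (fun ω => g ω x))
    (he : ∀ (φ : G ≃g G) (ω : Om V) (x : V), g (act φ ω) x = g ω (φ x)) :
    ∫⁻ ω, g ω o ∂PP V =
      ∫⁻ ω, (∑' y, (comp (R ω) o).indicator (g ω) y) / ((comp (R ω) o).ncard : ℝ≥0∞) ∂PP V := by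
  classical
  have hreach := hR.meas_reach
  have hmt := mtpP h (fun ω x y => (comp (R ω) x).indicator (g ω) y /
      ((comp (R ω) x).ncard : ℝ≥0∞))
    (by
      intro x y
      refine Measurable.div ?_ (dg_meas hreach x)
      simp only [Set.indicator_apply]
      exact Measurable.ite (measurableSet_setOfPred.2 (hreach.meas x y)) (hm y) measurable_const)
    (by
      intro φ ω x y
      have h1 : (comp (R (act φ ω)) x).ncard = (comp (R ω) (φ x)).ncard := dg_equi hreach φ ω x
      have h2 : (comp (R (act φ ω)) x).indicator (g (act φ ω)) y =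
          (comp (R ω) (φ x)).indicator (g ω) (φ y) := by
        simp only [Set.indicator_apply]
        have h3 : y ∈ comp (R (act φ ω)) x ↔ φ y ∈ comp (R ω) (φ x) := hreach.equi φ ω x y
        by_cases h4 : y ∈ comp (R (act φ ω)) x
        · rw [if_pos h4, if_pos (h3.1 h4), he]
        · rw [if_neg h4, if_neg (fun h5 => h4 (h3.2 h5))]
      rw [h1, h2]) o
  have hL : ∀ ω, (∑' y, (comp (R ω) o).indicator (g ω) y / ((comp (R ω) o).ncard : ℝ≥0∞)) =
      (∑' y, (comp (R ω) o).indicator (g ω) y) / ((comp (R ω) o).ncard : ℝ≥0∞) := by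
    intro ω
    simp only [div_eq_mul_inv]
    exact ENNReal.tsum_mul_right
  simp only [hL] at hmt
  rw [hmt]
  refine lintegral_congr_ae ?_
  filter_upwards [hfin] with ω hω
  have hK := hω o
  have hself : o ∈ comp (R ω) o := Relation.ReflTransGen.refl
  have hpt : ∀ y, (comp (R ω) y).indicator (g ω) o / ((comp (R ω) y).ncard : ℝ≥0∞) =
      if y ∈ comp (R ω) o then g ω o / ((comp (R ω) o).ncard : ℝ≥0∞) else 0 := by
    intro y
    by_cases hy : y ∈ comp (R ω) o
    · rw [if_pos hy, cmp_eq (hsym ω) hy, Set.indicator_of_mem hself]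
    · rw [if_neg hy, Set.indicator_of_notMem, ENNReal.zero_div]
      exact fun h' => hy (cmp_symm (hsym ω) h')
  simp only [hpt]
  rw [tsum_eq_sum (s := hK.toFinset)]
  · rw [Finset.sum_congr rfl fun y hy => if_pos (hK.mem_toFinset.1 hy), Finset.sum_const,
      nsmul_eq_mul, ← Set.ncard_eq_toFinset_card _ hK]
    have h0 : ((comp (R ω) o).ncard : ℝ≥0∞) ≠ 0 := by
      have : (comp (R ω) o).ncard ≠ 0 := Set.ncard_ne_zero_of_mem hself hK
      exact_mod_cast this
    rw [ENNReal.mul_div_cancel h0 (ENNReal.natCast_ne_top _)]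
  · intro y hy
    rw [if_neg]
    intro h'
    exact hy (hK.mem_toFinset.2 h')

private theorem finite_lists {α : Type} {s : Set α} (hs : s.Finite) :
    {l : List α | l.Nodup ∧ ∀ x ∈ l, x ∈ s}.Finite := by
  classical
  have : Finite s := hs
  have h1 : {l : List s | l.length ≤ s.ncard}.Finite := List.finite_length_le _ _
  refine (h1.image (List.map Subtype.val)).subset ?_
  rintro l ⟨hl, hls⟩
  refine ⟨l.attach.map (fun x => ⟨x.1, hls x.1 x.2⟩), ?_, ?_⟩
  · simp only [mem_ofPred_eq, List.length_map, List.length_attach]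
    have e : l.length = l.toFinset.card := (List.toFinset_card_of_nodup hl).symm
    rw [e, ← Set.ncard_coe_finset]
    refine Set.ncard_le_ncard ?_ hs
    intro x hx
    exact hls x (by simpa using hx)
  · rw [List.map_map]
    simp [Function.comp_def]

private theorem TjC_congr {G : SimpleGraph V} {C : V → V → Prop} {k r c : ℕ} {x y : V}
    (h : comp (rem G C) y = comp (rem G C) x) (l : Obj V) :
    TjC G C k r c x l ↔ TjC G C k r c y l := by
  constructor
  · rintro ⟨h1, h2, h3, h4, h5⟩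
    refine ⟨h1, ?_, h3, ?_, ?_⟩ <;> rw [h] <;> assumption
  · rintro ⟨h1, h2, h3, h4, h5⟩
    refine ⟨h1, ?_, h3, ?_, ?_⟩ <;> rw [← h] <;> assumption

/-- the selected edges -/
private def ZZ (G : SimpleGraph V) (S : V → Obj V → Prop) (x y : V) : Prop :=
  (∃ l, S x l ∧ (x, y) ∈ l) ∧ (∃ l, S y l ∧ (y, x) ∈ l) ∧ G.Adj x y

private theorem ZZ_fac [Countable V] {G : SimpleGraph V} {S : Om V → V → Obj V → Prop}
    (hS : Fac1O G S) : Fac2 G (fun ω => ZZ G (S ω)) := by
  have hm : ∀ x y, Measurable (fun ω => ∃ l, S ω x l ∧ (x, y) ∈ l) := fun x y =>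
    Measurable.exists fun l => (hS.meas x l).and measurable_const
  have he : ∀ (φ : G ≃g G) (ω : Om V) (x y : V),
      (∃ l, S (act φ ω) x l ∧ (x, y) ∈ l) ↔ ∃ l, S ω (φ x) l ∧ (φ x, φ y) ∈ l := by
    intro φ ω x y
    constructor
    · rintro ⟨l, h1, h2⟩
      refine ⟨mapO φ l, (hS.equi φ ω x l).1 h1, ?_⟩
      exact List.mem_map.2 ⟨(x, y), h2, rfl⟩
    · rintro ⟨l, h1, h2⟩
      have e : mapO φ (mapO φ.symm l) = l := by
        unfold mapO
        rw [List.map_map]
        conv_rhs => rw [← List.map_id l]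
        refine List.map_congr_left fun p _ => ?_
        exact Prod.ext (φ.apply_symm_apply _) (φ.apply_symm_apply _)
      refine ⟨mapO φ.symm l, (hS.equi φ ω x _).2 (by rw [e]; exact h1), ?_⟩
      refine List.mem_map.2 ⟨(φ x, φ y), h2, ?_⟩
      simp
  refine ⟨fun x y => ?_, fun φ ω x y => ?_⟩
  · exact (hm x y).and ((hm y x).and measurable_const)
  · unfold ZZ
    rw [he, he, φ.map_adj_iff]

/-- adding short mod 2 joins to a sparse percolation with finite components -/
theorem evenP_of_perc [Countable V] {G : SimpleGraph V} {d : ℕ} (h : Std G d) (o : V) (r : ℕ)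
    (hr : 0 < (ball G o r).ncard) :
    ∃ c : ℕ, ∀ C : Om V → V → V → Prop, Fac2 G C → (∀ ω, SubE G (C ω)) →
      (∀ᵐ ω ∂PP V, ∀ x, (comp (rem G (C ω)) x).Finite) →
      ∃ J : Om V → V → V → Prop, EvenP G J ∧
        PP V {ω | ∃ y, J ω o y} ≤ (2 * (4 * r + 1) : ℕ) / ((ball G o r).ncard : ℝ≥0∞) +
          (c + 1 : ℕ) * PP V {ω | ∃ y, C ω o y} := by
  classical
  obtain ⟨c, hc⟩ := exists_tjC h o r
  refine ⟨c, fun C hC hsub hfin => ?_⟩
  set k := (ball G o r).ncard with hk
  have hrem : Fac2 G (fun ω => rem G (C ω)) := by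
    refine ⟨fun x y => measurable_const.and (hC.meas x y).not, fun φ ω x y => ?_⟩
    unfold rem
    rw [hC.equi, φ.map_adj_iff]
  have hrsym : ∀ ω x y, rem G (C ω) x y → rem G (C ω) y x := fun ω x y h' =>
    ⟨h'.1.symm, fun h'' => h'.2 (hsub ω _ _ h'').1⟩
  obtain ⟨S, hSf, hS⟩ := select (tjC_fac hC k r c) (by
    filter_upwards [hfin] with ω hω x
    refine ⟨?_, ?_⟩
    · refine (finite_lists ((hω x).prod (hω x))).subset ?_
      intro l hl
      refine ⟨hl.nodup, fun p hp => ?_⟩
      have h1 := hl.sub p hp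
      exact ⟨h1.2, Relation.ReflTransGen.tail h1.2 h1.1⟩
    · exact hc (C ω) (hsub ω) x (hω x))
  have hZ := ZZ_fac hSf
  -- properties of the selected edges
  have hprop : ∀ᵐ ω ∂PP V, ∀ x, ∃ l, TjC G (C ω) k r c x l ∧
      ∀ y ∈ comp (rem G (C ω)) x, ∀ z, ZZ G (S ω) y z ↔ (y, z) ∈ l := by
    filter_upwards [hS] with ω hω x
    obtain ⟨l, hl, hSl⟩ := hω.1 x
    have hSy : ∀ y ∈ comp (rem G (C ω)) x, ∀ l', S ω y l' ↔ l' = l := by
      intro y hy l'
      rw [← hSl l']
      exact hω.2 y x (fun l'' => TjC_congr (cmp_eq (hrsym ω) hy).symm l'') l'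
    refine ⟨l, hl, fun y hy z => ?_⟩
    constructor
    · rintro ⟨⟨l', h1, h2⟩, _, _⟩
      rw [(hSy y hy l').1 h1] at h2
      exact h2
    · intro h1
      have h2 := hl.sub _ h1
      have h3 : z ∈ comp (rem G (C ω)) x := Relation.ReflTransGen.tail h2.2 h2.1
      exact ⟨⟨l, (hSy y hy l).2 rfl, h1⟩, ⟨l, (hSy z h3 l).2 rfl, hl.symm _ _ h1⟩, h2.1.1⟩
  let J : Om V → V → V → Prop := fun ω x y => C ω x y ∨ ZZ G (S ω) x y
  have hJ : Fac2 G J := by
    refine ⟨fun x y => (hC.meas x y).or (hZ.meas x y), fun φ ω x y => ?_⟩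
    exact or_congr (hC.equi φ ω x y) (hZ.equi φ ω x y)
  have hJE : EvenP G J := by
    refine ⟨hJ, ?_, ?_, ?_⟩
    · rintro ω x y (h1 | h1)
      · exact ⟨Or.inl (hsub ω _ _ h1).1, (hsub ω _ _ h1).2⟩
      · exact ⟨Or.inr ⟨h1.2.1, h1.1, h1.2.2.symm⟩, h1.2.2⟩
    · filter_upwards [hprop] with ω hω x
      obtain ⟨l, hl, hZl⟩ := hω x
      have hx : x ∈ comp (rem G (C ω)) x := Relation.ReflTransGen.refl
      have h1 := hl.par x hx
      have e : {y | J ω x y} = {z | (x, z) ∈ l} ∪ {y | C ω x y} := by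
        ext y
        simp only [J, mem_ofPred_eq, mem_union, hZl x hx y]
        tauto
      have hd : Disjoint {z | (x, z) ∈ l} {y | C ω x y} := by
        rw [Set.disjoint_left]
        intro y h2 h3
        exact (hl.sub _ h2).1.2 h3
      have f1 : {z | (x, z) ∈ l}.Finite := (h.fin x).subset fun y hy => (hl.sub _ hy).1.1
      have f2 : {y | C ω x y}.Finite := (h.fin x).subset fun y hy => (hsub ω _ _ hy).2
      change Even ({y | J ω x y}.ncard)
      rw [e, Set.ncard_union_eq hd f1 f2]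
      exact h1
    · filter_upwards [hfin] with ω hω x
      refine (hω x).subset ?_
      intro y hy
      have h' : Relation.ReflTransGen (rem G (J ω)) x y := hy
      change Relation.ReflTransGen (rem G (C ω)) x y
      induction h' with
      | refl => exact Relation.ReflTransGen.refl
      | tail h1 h2 ih => exact Relation.ReflTransGen.tail (ih h1) ⟨h2.1, fun h3 => h2.2 (Or.inl h3)⟩
  refine ⟨J, hJE, ?_⟩
  -- first average: the degrees of the selected edges
  have hav1 := comp_avg h o hrem hrsym hfin (fun ω x => ((dg (ZZ G (S ω)) x : ℕ) : ℝ≥0∞))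
    (fun x => dg_meas hZ x) (fun φ ω x => by rw [dg_equi hZ])
  -- second average: the endpoints of closed edges
  have hBmeas : ∀ x, MeasurableSet {ω | ∃ z, C ω x z} := fun x =>
    measurableSet_setOfPred.2 (Measurable.exists fun z => hC.meas x z)
  have hav2 := comp_avg h o hrem hrsym hfin
    (fun ω x => if ∃ z, C ω x z then (1 : ℝ≥0∞) else 0)
    (fun x => Measurable.ite (hBmeas x) measurable_const measurable_const)
    (by
      intro φ ω x
      have : (∃ z, C (act φ ω) x z) ↔ ∃ z, C ω (φ x) z := by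
        constructor
        · rintro ⟨z, hz⟩
          exact ⟨φ z, (hC.equi φ ω x z).1 hz⟩
        · rintro ⟨z, hz⟩
          refine ⟨φ.symm z, (hC.equi φ ω x (φ.symm z)).2 ?_⟩
          simpa using hz
      simp only [this])
  have hB : ∫⁻ ω, (if ∃ z, C ω o z then (1 : ℝ≥0∞) else 0) ∂PP V = PP V {ω | ∃ z, C ω o z} := by
    have e : (fun ω => if ∃ z, C ω o z then (1 : ℝ≥0∞) else 0) =
        {ω | ∃ z, C ω o z}.indicator 1 := by
      funext ω
      simp [Set.indicator_apply]
    rw [e, lintegral_indicator_one (hBmeas o)]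
  have hk0 : (k : ℝ≥0∞) ≠ 0 := by exact_mod_cast hr.ne'
  have hkt : (k : ℝ≥0∞) ≠ ∞ := ENNReal.natCast_ne_top _
  have hk1 : (1 : ℝ≥0∞) ≤ k := by exact_mod_cast hr
  have hpt : ∀ᵐ ω ∂PP V,
      (∑' y, (comp (rem G (C ω)) o).indicator
        (fun x => ((dg (ZZ G (S ω)) x : ℕ) : ℝ≥0∞)) y) /
        ((comp (rem G (C ω)) o).ncard : ℝ≥0∞) ≤
      (2 * (4 * r + 1) : ℕ) / (k : ℝ≥0∞) +
      c * ((∑' y, (comp (rem G (C ω)) o).indicator
        (fun x => if ∃ z, C ω x z then (1 : ℝ≥0∞) else 0) y) /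
        ((comp (rem G (C ω)) o).ncard : ℝ≥0∞)) := by
    filter_upwards [hprop, hfin] with ω hω hfω
    obtain ⟨l, hl, hZl⟩ := hω o
    have hK := hfω o
    set K := comp (rem G (C ω)) o with hKdef
    have hself : o ∈ K := Relation.ReflTransGen.refl
    have hn0 : ((K.ncard : ℕ) : ℝ≥0∞) ≠ 0 := by
      have : K.ncard ≠ 0 := Set.ncard_ne_zero_of_mem hself hK
      exact_mod_cast this
    have hnt : ((K.ncard : ℕ) : ℝ≥0∞) ≠ ∞ := ENNReal.natCast_ne_top _
    -- the sums are finite sums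
    have hsum : ∀ g : V → ℝ≥0∞, ∑' y, K.indicator g y = ∑ y ∈ hK.toFinset, g y := by
      intro g
      rw [tsum_eq_sum (s := hK.toFinset)]
      · refine Finset.sum_congr rfl fun y hy => ?_
        exact Set.indicator_of_mem (hK.mem_toFinset.1 hy) _
      · intro y hy
        exact Set.indicator_of_notMem (fun h' => hy (hK.mem_toFinset.2 h')) _
    have hA : ∑' y, K.indicator (fun x => ((dg (ZZ G (S ω)) x : ℕ) : ℝ≥0∞)) y =
        (l.length : ℝ≥0∞) := by
      rw [hsum, ← Nat.cast_sum]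
      congr 1
      have e1 : ∀ y ∈ hK.toFinset, dg (ZZ G (S ω)) y =
          (l.toFinset.filter (fun p => p.1 = y)).card := by
        intro y hy
        have e2 : {z | ZZ G (S ω) y z} = {z | (y, z) ∈ l} := by
          ext z
          exact hZl y (hK.mem_toFinset.1 hy) z
        have e3 : ((l.toFinset.filter (fun p => p.1 = y) : Finset (V × V)) : Set (V × V)) =
            (fun z => (y, z)) '' {z | (y, z) ∈ l} := by
          ext p
          simp only [Finset.coe_filter, List.mem_toFinset, mem_ofPred_eq, mem_image]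
          constructor
          · rintro ⟨h1, h2⟩
            refine ⟨p.2, ?_, ?_⟩
            · rw [← h2]
              exact h1
            · rw [← h2]
          · rintro ⟨z, h1, h2⟩
            rw [← h2]
            exact ⟨h1, rfl⟩
        unfold dg
        rw [e2, ← Set.ncard_coe_finset, e3, Set.ncard_image_of_injective]
        intro a b hab
        exact (Prod.mk.inj hab).2
      have e5 := Finset.card_eq_sum_card_fiberwise (f := fun p : V × V => p.1)
        (s := l.toFinset) (t := hK.toFinset)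
        (fun p hp => hK.mem_toFinset.2 (hl.sub p (by simpa using hp)).2)
      rw [List.toFinset_card_of_nodup hl.nodup] at e5
      rw [Finset.sum_congr rfl e1]
      exact e5.symm
    have hBs : ∑' y, K.indicator (fun x => if ∃ z, C ω x z then (1 : ℝ≥0∞) else 0) y =
        (({y | y ∈ K ∧ ∃ z, C ω y z}.ncard : ℕ) : ℝ≥0∞) := by
      rw [hsum, Finset.sum_ite, Finset.sum_const_zero, add_zero, Finset.sum_const, nsmul_eq_mul,
        mul_one]
      congr 1
      rw [← Set.ncard_coe_finset]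
      congr 1
      ext y
      simp
    rw [hA, hBs]
    have hshort : (k : ℝ≥0∞) * (l.length : ℝ≥0∞) ≤
        ((2 * (4 * r + 1) : ℕ) : ℝ≥0∞) * (K.ncard : ℝ≥0∞) +
          c * (({y | y ∈ K ∧ ∃ z, C ω y z}.ncard : ℕ) : ℝ≥0∞) := by
      have := hl.short
      exact_mod_cast this
    rw [ENNReal.div_le_iff hn0 hnt]
    have h1 : (l.length : ℝ≥0∞) ≤
        (((2 * (4 * r + 1) : ℕ) : ℝ≥0∞) * (K.ncard : ℝ≥0∞) +
          c * (({y | y ∈ K ∧ ∃ z, C ω y z}.ncard : ℕ) : ℝ≥0∞)) / k := by
      rw [ENNReal.le_div_iff_mul_le (Or.inl hk0) (Or.inl hkt), mul_comm]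
      exact hshort
    refine h1.trans ?_
    rw [ENNReal.add_div, add_mul]
    refine add_le_add (le_of_eq ?_) ?_
    · rw [div_eq_mul_inv, div_eq_mul_inv, mul_right_comm]
    · rw [mul_assoc, ENNReal.div_mul_cancel hn0 hnt]
      calc (c : ℝ≥0∞) * (({y | y ∈ K ∧ ∃ z, C ω y z}.ncard : ℕ) : ℝ≥0∞) / k
          ≤ (c : ℝ≥0∞) * (({y | y ∈ K ∧ ∃ z, C ω y z}.ncard : ℕ) : ℝ≥0∞) / 1 :=
            ENNReal.div_le_div le_rfl hk1
        _ = _ := by rw [div_one]
  have hmain : ∫⁻ ω, ((dg (ZZ G (S ω)) o : ℕ) : ℝ≥0∞) ∂PP V ≤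
      (2 * (4 * r + 1) : ℕ) / (k : ℝ≥0∞) + c * PP V {ω | ∃ z, C ω o z} := by
    rw [hav1]
    refine (lintegral_mono_ae hpt).trans ?_
    rw [lintegral_add_left measurable_const, lintegral_const, measure_univ, mul_one,
      lintegral_const_mul' _ _ (ENNReal.natCast_ne_top _), ← hav2, hB]
  have hZle : PP V {ω | ∃ y, ZZ G (S ω) o y} ≤
      ∫⁻ ω, ((dg (ZZ G (S ω)) o : ℕ) : ℝ≥0∞) ∂PP V := by
    have hms : MeasurableSet {ω | ∃ y, ZZ G (S ω) o y} :=
      measurableSet_setOfPred.2 (Measurable.exists fun y => hZ.meas o y)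
    rw [← lintegral_indicator_one hms]
    refine lintegral_mono fun ω => ?_
    by_cases h1 : ω ∈ {ω | ∃ y, ZZ G (S ω) o y}
    · rw [indicator_of_mem h1]
      have h2 : dg (ZZ G (S ω)) o ≠ 0 := by
        unfold dg
        obtain ⟨y, hy⟩ := h1
        exact Set.ncard_ne_zero_of_mem (a := y) hy ((h.fin o).subset fun y hy => hy.2.2)
      have h3 : 1 ≤ dg (ZZ G (S ω)) o := Nat.one_le_iff_ne_zero.2 h2
      change (1 : ℝ≥0∞) ≤ _
      exact_mod_cast h3
    · rw [indicator_of_notMem h1]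
      exact bot_le
  calc PP V {ω | ∃ y, J ω o y}
      ≤ PP V ({ω | ∃ y, ZZ G (S ω) o y} ∪ {ω | ∃ y, C ω o y}) := by
        refine measure_mono ?_
        rintro ω ⟨y, h1 | h1⟩
        · exact Or.inr ⟨y, h1⟩
        · exact Or.inl ⟨y, h1⟩
    _ ≤ PP V {ω | ∃ y, ZZ G (S ω) o y} + PP V {ω | ∃ y, C ω o y} := measure_union_le _ _
    _ ≤ ((2 * (4 * r + 1) : ℕ) / (k : ℝ≥0∞) + c * PP V {ω | ∃ z, C ω o z}) +
        PP V {ω | ∃ y, C ω o y} := add_le_add (hZle.trans hmain) le_rfl
    _ = _ := by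
        push_cast
        ring

end Pool.Agent.FIIDU
end

section

/-!
# MP_767f1c_pr: from hyperfiniteness to sparse even subgraphs
-/

set_option autoImplicit false

namespace Pool.Agent.FIIDU

open MeasureTheory Set Filter
open scoped ENNReal


variable {V : Type}

theorem hypEv_of [Countable V] {G : SimpleGraph V} {d : ℕ} (h : Std G d) (ham : Amen G)
    (hs : SupLin G) : HypEv G := by
  intro o ε₀ hε₀
  obtain ⟨ε, hε, hεt, hεle⟩ : ∃ ε : ℝ≥0∞, 0 < ε ∧ ε ≠ ∞ ∧ ε ≤ ε₀ :=
    ⟨min ε₀ 1, lt_min hε₀ zero_lt_one, ne_top_of_le_ne_top ENNReal.one_ne_top (min_le_right _ _),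
      min_le_left _ _⟩
  obtain ⟨N, hN⟩ := ENNReal.exists_nat_gt (ENNReal.div_ne_top (x := 20) (y := ε) (by simp) hε.ne')
  have hN' : (20 : ℝ≥0∞) ≤ N * ε := (ENNReal.div_le_iff hε.ne' hεt).1 hN.le
  obtain ⟨r, hr1, hr⟩ := hs o N
  have hN0 : 0 < N := by
    rcases Nat.eq_zero_or_pos N with h0 | h0
    · subst h0
      simp at hN'
    · exact h0
  have hpos : 0 < (ball G o r).ncard := lt_of_lt_of_le (Nat.mul_pos hN0 hr1) hr
  obtain ⟨c, hc⟩ := evenP_of_perc h o r hpos
  have hc1 : ((c + 1 : ℕ) : ℝ≥0∞) ≠ 0 := by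
    simp
  have hc2 : ((c + 1 : ℕ) : ℝ≥0∞) ≠ ∞ := ENNReal.natCast_ne_top _
  have hε2 : 0 < ε / 2 / (c + 1 : ℕ) := by
    apply ENNReal.div_pos _ hc2
    exact (ENNReal.half_pos hε.ne').ne'
  obtain ⟨C, hC1, hC2, hC3, hC4⟩ := hyperfinite h ham o hε2
  obtain ⟨J, hJ1, hJ2⟩ := hc C hC1 hC2 hC3
  refine ⟨J, hJ1, hJ2.trans (le_trans ?_ hεle)⟩
  rw [← ENNReal.add_halves ε]
  apply add_le_add
  · rw [ENNReal.div_le_iff (by exact_mod_cast hpos.ne') (ENNReal.natCast_ne_top _)]
    have e1 : ((2 * (4 * r + 1) : ℕ) : ℝ≥0∞) ≤ ((10 * r : ℕ) : ℝ≥0∞) := by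
      exact_mod_cast (by omega : 2 * (4 * r + 1) ≤ 10 * r)
    refine e1.trans ?_
    have e2 : ((N * r : ℕ) : ℝ≥0∞) ≤ ((ball G o r).ncard : ℝ≥0∞) := by exact_mod_cast hr
    refine le_trans ?_ (mul_le_mul_right e2 (ε / 2))
    have e3 : ((10 * r : ℕ) : ℝ≥0∞) = (20 / 2) * (r : ℝ≥0∞) := by
      push_cast
      congr 1
      rw [ENNReal.eq_div_iff (by norm_num) (by norm_num)]
      norm_num
    have e4 : ε / 2 * ((N * r : ℕ) : ℝ≥0∞) = (N * ε / 2) * r := by
      push_cast
      rw [ENNReal.div_eq_inv_mul, ENNReal.div_eq_inv_mul]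
      ring
    rw [e3, e4]
    gcongr
  · refine (mul_le_mul_right hC4 _).trans ?_
    rw [ENNReal.mul_div_cancel hc1 hc2]

end Pool.Agent.FIIDU
end
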